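import Mathlib
import Pool.Agent.Work.MP_9d1ffa_al.VGood
import Pool.Agent.Work.MP_9d1ffa_al.VFin
import Pool.Agent.Work.MP_9d1ffa_al.OK1
import Pool.Agent.Work.MP_9d1ffa_al.WDefs
import Pool.Agent.Work.MP_9d1ffa_al.Triv
import Pool.Agent.Work.MP_9d1ffa_al.TreeNil

-- merged part: Pool.Agent.Work.MP_9d1ffa_al.VDefsE
section
/-! Products of a free group and a free abelian group of finite rank. -/

namespace Pool.Agent.Work.MP_9d1ffa_al

/-- the group is a product of a free group and a free abelian group of finite rank -/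
def FZ (D : Type) [Group D] : Prop :=
  ∃ (X : Type) (n : ℕ), Nonempty (D ≃* FreeGroup X × Multiplicative (Fin n → ℤ))

end Pool.Agent.Work.MP_9d1ffa_al
end

-- merged part: Pool.Agent.Work.MP_9d1ffa_al.WCop
section
-- merged part: Pool.Agent.Work.MP_9d1ffa_al.WO
section
/-! Odd Wall groups of free groups, and injectivity along an HNN extension. -/

namespace Pool.Agent.Work.MP_9d1ffa_al

open Matrix MonoidAlgebra TensorProduct

set_option linter.unusedSectionVars false
set_option linter.unusedVariables false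

variable {G H K X : Type} [Group G] [Group H] [Group K] {η : ℤˣ} {hK : FA K}

/-- the class is assembled from homology in degrees zero and one -/
def Asm (hK : FA K) (G : Type) [Group G] (c : L1 (ZG (G × K)) η) : Prop :=
  ∃ ξ c₀, c = asm hK G ξ + m1 η (px K (1 : Cy →* G)) c₀

theorem Asm.map {c : L1 (ZG (G × K)) η} (h : Asm hK G c) (f : G →* H) :
    Asm hK H (m1 η (px K f) c) := by
  obtain ⟨ξ, c₀, rfl⟩ := h
  exact ⟨tm f ξ, c₀, by rw [map_add, m1_asm, m1_px, MonoidHom.comp_one]⟩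

theorem Asm.add {c c' : L1 (ZG (G × K)) η} (h : Asm hK G c) (h' : Asm hK G c') :
    Asm hK G (c + c') := by
  obtain ⟨ξ, c₀, rfl⟩ := h
  obtain ⟨ξ', c₀', rfl⟩ := h'
  exact ⟨ξ + ξ', c₀ + c₀', by rw [map_add, map_add, add_add_add_comm]⟩

theorem asm_cy (c : L1 (ZG (Cy × K)) η) : Asm hK Cy c :=
  ⟨⟨_, red_sub c⟩ ⊗ₜ ab (FreeGroup.of ()), c, by rw [asm_tmul, ev_of, sub_add_cancel]⟩

theorem asm_fin (n : ℕ) : ∀ (X : Type) [Finite X], Nat.card X = n →
    ∀ c : L1 (ZG (FreeGroup X × K)) η, Asm hK _ c := by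
  induction n with
  | zero =>
    intro X _ h c
    have : IsEmpty X := (Finite.card_eq_zero_iff).1 h
    have e : (1 : Cy →* FreeGroup X).comp (1 : FreeGroup X →* Cy) = MonoidHom.id _ :=
      MonoidHom.ext fun _ => Subsingleton.elim _ _
    have := (asm_cy (hK := hK) (m1 η (px K (1 : FreeGroup X →* Cy)) c)).map (1 : Cy →* FreeGroup X)
    rwa [m1_px, e, px_id, m1_id] at this
  | succ n ih =>
    intro X _ h c
    obtain ⟨x₀⟩ : Nonempty X := Finite.card_pos_iff.1 (by omega)
    obtain ⟨c₁, c₂, rfl⟩ := odd_split hK x₀ c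
    refine ((ih _ ?_ c₁).map _).add ((asm_cy c₂).map _)
    have := Fintype.ofFinite X
    classical
    rw [Nat.card_eq_fintype_card] at h ⊢
    rw [Fintype.card_subtype_compl, Fintype.card_subtype_eq, h]
    rfl

theorem lcl_free {P : ∀ (H : Type) [Group H], Prop} (h : ∀ S : Finset X, P (FreeGroup S)) :
    Lcl P (FreeGroup X) := fun T => by
  obtain ⟨S, hS⟩ := fin_gen T
  refine ⟨FreeGroup S, inferInstance, FreeGroup.map Subtype.val,
    FreeGroup.map_injective Subtype.val_injective, fun g hg => ?_, h S⟩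
  rw [OHNN_range, Subtype.range_coe_subtype]
  exact hS g hg

theorem asm_free (A : Type) [Group A] [IsFreeGroup A] (c : L1 (ZG (A × K)) η) : Asm hK A c := by
  have h : ∀ c : L1 (ZG (FreeGroup (IsFreeGroup.Generators A) × K)) η, Asm hK _ c := fun c => by
    obtain ⟨H, _, f, -, h1, c, rfl⟩ := (lcl_free (P := fun H _ => ∀ c : L1 (ZG (H × K)) η,
      Asm hK H c) fun S => asm_fin _ _ rfl).big (big_l1 c).prod
    exact (h1 c).map f
  have := (h (m1 η (px K (IsFreeGroup.toFreeGroup A).toMonoidHom) c)).map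
    (IsFreeGroup.toFreeGroup A).symm.toMonoidHom
  rwa [m1_px, show (IsFreeGroup.toFreeGroup A).symm.toMonoidHom.comp
    (IsFreeGroup.toFreeGroup A).toMonoidHom = MonoidHom.id A from
      MonoidHom.ext (IsFreeGroup.toFreeGroup A).symm_apply_apply, px_id, m1_id] at this

theorem sfi_isFree (hK : FA K) (A : Type) [Group A] [IsFreeGroup A] : SFI (ZG (A × K)) := by
  intro I _ _ E hE
  let e := IsFreeGroup.toFreeGroup A
  have h : mp (px K e.symm.toMonoidHom) (mp (px K e.toMonoidHom) E) = E := by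
    rw [mp_px, show e.symm.toMonoidHom.comp e.toMonoidHom = MonoidHom.id A from
      MonoidHom.ext e.symm_apply_apply, px_id, mp_id]
  rw [← h]
  exact SFI.of_ret _ I (sfi_free hK I _ (by rw [← mp_mul, hE]))

/-- every finite subset lies in a free subgroup -/
abbrev LF (A : Type) [Group A] : Prop := Lcl (fun H _ => IsFreeGroup H) A

theorem lf_free (A : Type) [Group A] [h : IsFreeGroup A] : LF A := fun T =>
  ⟨A, inferInstance, MonoidHom.id A, Function.injective_id, fun g _ => ⟨g, rfl⟩, h⟩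

theorem LF.equiv (h : LF G) (e : G ≃* H) : LF H := fun T => by
  classical
  obtain ⟨L, _, f, h1, h2, h3⟩ := h (T.image e.symm)
  refine ⟨L, inferInstance, e.toMonoidHom.comp f, e.injective.comp h1, fun g hg => ?_, h3⟩
  obtain ⟨x, hx⟩ := h2 _ (Finset.mem_image_of_mem _ hg)
  exact ⟨x, (congrArg e hx).trans (e.apply_symm_apply g)⟩

theorem LF.asm (h : LF G) (c : L1 (ZG (G × K)) η) : Asm hK G c := by
  obtain ⟨H, _, f, -, h1, c, rfl⟩ := h.big (big_l1 c).prod
  exact (asm_free H c).map f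

theorem LF.sfi (h : LF G) (hK : FA K) : SFI (ZG (G × K)) := by
  intro I _ _ E hE
  obtain ⟨H, _, f, h1, h2, E, rfl⟩ := h.big (big_mat E).prod
  exact SFI.of_ret _ I (sfi_isFree hK H I E
    (mp_inj (f := px K f) (h1.prodMap Function.injective_id) (by rw [mp_mul, hE])))

variable {Γ V A : Type} [Group Γ] [Group V] [Group A]

theorem Asm.diff {d : L1 (ZG (A × K)) η} {ξ : Tn K η A} {c₀ : L1 (ZG (Cy × K)) η}
    (h : d = asm hK A ξ + m1 η (px K (1 : Cy →* A)) c₀) (i j : A →* V) :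
    m1 η (px K i) d - m1 η (px K j) d = asm hK V (tm i ξ - tm j ξ) := by
  rw [h, map_add, map_add, m1_asm, m1_asm, m1_px, m1_px, MonoidHom.comp_one, MonoidHom.comp_one,
    map_sub, add_sub_add_right_eq_sub]

theorem PH.tm_rel (D : PH Γ V A) (ξ : Tn K η A) : tm D.v (tm D.i ξ) = tm D.v (tm D.j ξ) :=
  tn_ext (a := tm D.v ∘ₗ tm D.i) (b := tm D.v ∘ₗ tm D.j) (fun u a => by
    have := congrArg ab (D.rel a)
    rw [ab_mul, ab_mul, add_comm, add_right_inj] at this
    exact congrArg (u ⊗ₜ[ℤ] ·) this) ξ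

theorem Cut.tn_split (C : Cut Γ V A) (ζ : Tn K η Γ) :
    ∃ (ξ : Tn K η V) (u : Lam K η), ζ = tm C.v ξ + u ⊗ₜ ab C.t := by
  let R : AddSubgroup (Tn K η Γ) := (tm C.v).toAddMonoidHom.range ⊔
    ((TensorProduct.mk ℤ (Lam K η) (Ab Γ)).flip (ab C.t)).toAddMonoidHom.range
  have h : ζ ∈ R := tn_ind R (fun u g => by
    have hg : g ∈ Subgroup.closure (insert C.t (Set.range C.v)) := C.gen ▸ Subgroup.mem_top g
    induction hg using Subgroup.closure_induction with
    | mem x hx =>
      rcases hx with rfl | ⟨h, rfl⟩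
      · exact AddSubgroup.mem_sup_right ⟨u, rfl⟩
      · exact AddSubgroup.mem_sup_left ⟨u ⊗ₜ ab h, rfl⟩
    | one => rw [ab_one, tmul_zero]; exact zero_mem _
    | mul x y _ _ hx hy => rw [ab_mul, tmul_add]; exact add_mem hx hy
    | inv x _ hx => rw [ab_inv, tmul_neg]; exact neg_mem hx) ζ
  obtain ⟨_, ⟨ξ, rfl⟩, _, ⟨u, rfl⟩, e⟩ := AddSubgroup.mem_sup.1 h
  exact ⟨ξ, u, e.symm⟩

theorem Cut.inj (C : Cut Γ V A) (hA : LF A) (χ : Γ →* Cy) (h1 : χ.comp C.v = 1)
    (h2 : χ C.t = FreeGroup.of ()) (h : Inj hK η V) : Inj hK η Γ := fun ζ e => by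
  obtain ⟨ξ, u, rfl⟩ := C.tn_split ζ
  have e1 := congrArg (m1 η (px K χ)) e
  rw [m1_asm, map_add, tm_comp, h1, tm_one, zero_add, tm_tmul, h2, asm_tmul, ev_of, map_zero] at e1
  obtain rfl : u = 0 := Subtype.ext e1
  rw [zero_tmul, add_zero] at e ⊢
  rw [← m1_asm] at e
  obtain ⟨d, hd⟩ := (C.prod K).ker_v (hA.sfi hK) e
  obtain ⟨ξ', c₀, hc⟩ := hA.asm (hK := hK) d
  have e2 := h (ξ - (tm C.i ξ' - tm C.j ξ')) (by
    rw [map_sub, ← Asm.diff hc, hd]
    exact sub_self _)
  rw [sub_eq_zero.1 e2, map_sub, C.toPH.tm_rel, sub_self]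

end Pool.Agent.Work.MP_9d1ffa_al
end

-- merged part: Pool.Agent.Work.MP_9d1ffa_al.WS
section
/-! Generation of the even Wall groups along an HNN extension. -/

namespace Pool.Agent.Work.MP_9d1ffa_al

open Matrix MonoidAlgebra TensorProduct

set_option linter.unusedSectionVars false
set_option linter.unusedVariables false

variable {G H K : Type} [Group G] [Group H] [Group K] {ε η : ℤˣ}
  {F : ∀ (S : Type) [Group S], Prop}

/-- the classes induced from the groups of the family -/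
noncomputable def Gen0 (F : ∀ (S : Type) [Group S], Prop) (K : Type) [Group K] (ε : ℤˣ) (G : Type)
    [Group G] : AddSubgroup (L0 (ZG (G × K)) ε) :=
  AddSubgroup.closure {x | ∃ (S : Type) (_ : Group S) (f : S →* G), F S ∧
    x ∈ (m0 ε (px K f)).range}

theorem gen0_mem {S : Type} [Group S] (h : F S) (f : S →* G) (y : L0 (ZG (S × K)) ε) :
    m0 ε (px K f) y ∈ Gen0 F K ε G :=
  AddSubgroup.subset_closure ⟨S, inferInstance, f, h, y, rfl⟩

theorem gen0_map (f : G →* H) {x : L0 (ZG (G × K)) ε} (h : x ∈ Gen0 F K ε G) :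
    m0 ε (px K f) x ∈ Gen0 F K ε H := by
  refine (AddSubgroup.closure_le ((Gen0 F K ε H).comap (m0 ε (px K f)))).2 ?_ h
  rintro _ ⟨S, _, f', h, y, rfl⟩
  change m0 ε (px K f) (m0 ε (px K f') y) ∈ Gen0 F K ε H
  rw [m0_px]
  exact gen0_mem h _ y

/-- all classes are induced from the groups of the family -/
def Sur (F : ∀ (S : Type) [Group S], Prop) (K : Type) [Group K] (ε : ℤˣ) (G : Type) [Group G] :
    Prop := ∀ x, x ∈ Gen0 F K ε G

theorem sur_of_mem (h : F G) : Sur F K ε G := fun x => by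
  have := gen0_mem (K := K) h (MonoidHom.id G) x
  rwa [px_id, m0_id] at this

theorem Sur.ret (h : Sur F K ε H) (s : G →* H) (r : H →* G) (e : r.comp s = MonoidHom.id G) :
    Sur F K ε G := fun x => by
  have := gen0_map r (h (m0 ε (px K s) x))
  rwa [m0_px, e, px_id, m0_id] at this

theorem Sur.lcl (h : Lcl (Sur F K ε) G) : Sur F K ε G := fun x => by
  obtain ⟨H, _, f, -, h1, y, rfl⟩ := h.big (big_l0 x).prod
  exact gen0_map f (h1 y)

/-- the inclusion of the first handles -/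
def fstH (g : ℕ) : Option (Fin g × Bool) → Option (Fin (g + 1) × Bool) :=
  Option.map fun p => (p.1.castSucc, p.2)

theorem surfRel_succ (e g : ℕ) : surfRel e (g + 1) = FreeGroup.map (fstH g) (surfRel e g) *
    (.of (some (Fin.last g, false)) * .of (some (Fin.last g, true)) *
      (FreeGroup.of (some (Fin.last g, false)))⁻¹ * (FreeGroup.of (some (Fin.last g, true)))⁻¹) := by
  rw [surfRel, surfRel, List.ofFn_succ', List.prod_concat, map_mul, map_pow, map_list_prod,
    List.map_ofFn, ← mul_assoc]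
  rfl

/-- a surface type group as an HNN relation along the last handle -/
def phS (e g : ℕ) : PH (Surf e (g + 1)) (FreeGroup (Option (Option (Fin g × Bool)))) Cy where
  v := (pr _).comp (FreeGroup.lift fun o =>
    o.elim (.of (some (Fin.last g, false))) fun o => .of (fstH g o))
  i := cy (FreeGroup.map some (surfRel e g) * .of none)
  j := cy (.of none)
  t := pr _ (.of (some (Fin.last g, true)))
  rel a := by
    have e0 : (FreeGroup.lift fun o : Option (Option (Fin g × Bool)) =>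
        o.elim (FreeGroup.of (some (Fin.last g, false))) fun o => .of (fstH g o)).comp
        (FreeGroup.map some) = FreeGroup.map (fstH g) := by
      ext x
      simp
    have e1 := pr_self (surfRel e (g + 1))
    conv_lhs at e1 => arg 2; rw [surfRel_succ, ← e0]
    simp only [map_mul, map_inv, ← mul_assoc, mul_inv_eq_iff_eq_mul] at e1
    rw [← eq_mul_inv_iff_mul_eq, ← MonoidHom.comp_apply, ← MonoidHom.comp_apply _ (cy _) a,
      ← MulAut.conj_apply, ← MulEquiv.coe_toMonoidHom, ← MonoidHom.comp_apply]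
    refine DFunLike.congr_fun ?_ a
    ext
    simpa [cy, eq_mul_inv_iff_mul_eq] using e1

variable {Γ V A : Type} [Group Γ] [Group V] [Group A]

theorem Cut.surf (C : Cut Γ V A) (hF : ∀ e g, F (Surf e (g + 1))) (a : A) (e g : ℕ)
    (f₀ : FreeGroup (Option (Fin g × Bool)) →* V) (h : C.i a = f₀ (surfRel e g) * C.j a)
    (u : L1 (ZG (Cy × K)) (-ε))
    (hu : ev u (FreeGroup.map some (surfRel e g) * .of none) = ev u (FreeGroup.of none)) :
    ∃ x ∈ Gen0 F K ε Γ, (C.prod K).Ed ε x (ev u a) := by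
  let f₁ : FreeGroup (Option (Fin (g + 1) × Bool)) →* Γ := FreeGroup.lift fun o =>
    o.elim (C.v (f₀ (.of none))) fun p => Fin.lastCases (bif p.2 then C.t else C.v (C.j a))
      (fun i => C.v (f₀ (.of (some (i, p.2))))) p.1
  have e1 : f₁.comp (FreeGroup.map (fstH g)) = C.v.comp f₀ := by
    ext (_ | ⟨i, b⟩) <;> simp [f₁, fstH]
  have e2 : f₁ (.of (some (Fin.last g, true))) = C.t := by simp [f₁]
  have e3 : f₁ (.of (some (Fin.last g, false))) = C.v (C.j a) := by simp [f₁]
  obtain ⟨f, hf⟩ := exists_lift (r := surfRel e (g + 1)) f₁ (by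
    rw [surfRel_succ, map_mul, ← MonoidHom.comp_apply, e1, map_mul, map_mul, map_mul, map_inv,
      map_inv, e2, e3, ← mul_assoc, ← mul_assoc, ← mul_assoc, MonoidHom.comp_apply, ← map_mul, ← h,
      C.rel]
    group)
  let fv : FreeGroup (Option (Option (Fin g × Bool))) →* V :=
    FreeGroup.lift fun o => o.elim (C.j a) fun o => f₀ (.of o)
  have e4 : fv.comp (FreeGroup.map some) = f₀ := by
    ext x
    simp [fv]
  have e5 : fv (.of none) = C.j a := by simp [fv]
  let φ : PHom (phS e g) C.toPH :=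
    { f := f
      fv := fv
      fa := cy a
      hv := fun z => by
        refine DFunLike.congr_fun (show f.comp (phS e g).v = C.v.comp fv from ?_) z
        ext (_ | o)
        · simp [phS, hf, e3, e5]
        · simpa [phS, hf, fv] using DFunLike.congr_fun e1 (.of o)
      hi := fun z => by
        refine DFunLike.congr_fun (show fv.comp (cy _) = C.i.comp (cy a) from ?_) z
        rw [comp_cy, comp_cy, map_mul, ← MonoidHom.comp_apply, e4, e5, h]
      hj := fun z => by
        refine DFunLike.congr_fun (show fv.comp (cy _) = C.j.comp (cy a) from ?_) z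
        rw [comp_cy, comp_cy, e5]
      ht := (hf _).trans e2 }
  obtain ⟨x, hx⟩ := (C.prod K).realise₀ (ε := ε) (φ.prod K) u hu
  exact ⟨_, gen0_mem (hF e g) f x, hx⟩

theorem Cut.sur (C : Cut Γ V A) (hA : LF A) (hK : FA K) (hF : ∀ e g, F (Surf e (g + 1)))
    (hU : UNilTree (Γ × K) (C.prod K).T ε) (h2 : ∀ g : Γ × K, g * g = 1 → g = 1)
    (hi : ∀ ξ : Tn K (-ε) A, asm hK V (tm C.i ξ - tm C.j ξ) = 0 → tm C.i ξ - tm C.j ξ = 0)
    (hs : ∀ y, m0 ε (px K C.v) y ∈ Gen0 F K ε Γ) : Sur F K ε Γ := fun x => by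
  obtain ⟨d, hd⟩ := (C.prod K).exists_ed (hA.sfi hK) x
  let R : AddSubgroup (L1 (ZG (A × K)) (-ε)) :=
    { carrier := {d | ∃ x ∈ Gen0 F K ε Γ, (C.prod K).Ed ε x d}
      add_mem' := fun ⟨x, h, k⟩ ⟨y, h', k'⟩ => ⟨x + y, add_mem h h', k.add k'⟩
      zero_mem' := ⟨x - x, by rw [sub_self]; exact zero_mem _, sub_self d ▸ hd.sub hd⟩
      neg_mem' := fun ⟨x, h, k⟩ => ⟨-x, neg_mem h, k.neg⟩ }
  obtain ⟨ξ, c₀, hc⟩ := hA.asm (hK := hK) d
  have e1 := hi ξ (by
    rw [← Asm.diff hc]
    exact sub_eq_zero.2 hd.vr)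
  have e2 : ξ ∈ R.comap (asm hK A).toAddMonoidHom := by
    refine tensor_ker (abm C.i - abm C.j) _ (fun u z e m h1 h2 => ?_) ξ
      (by rw [LinearMap.lTensor_sub]; exact e1)
    obtain ⟨a, rfl⟩ := ab_surj z
    obtain ⟨c, rfl⟩ := ab_surj m
    obtain ⟨l, hl⟩ := ODec_comm (ab_eq_zero (g := (c ^ e)⁻¹ * (C.i a * (C.j a)⁻¹)) (by
      rw [ab_mul, ab_mul, ab_inv, ab_inv, ab_pow, ← h1, ← sub_eq_add_neg]
      exact neg_add_cancel _))
    obtain ⟨f₀, h3, -⟩ := ODec_map c e l
    refine C.surf hF a e _ f₀ (by rw [h3, ← hl]; group) u.1 ?_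
    rw [Red.ev_mul hK u.2, ← m1_ev, Red.ev_surf hK u.2, ev, ← map_nsmul,
      show e • u.1 = 0 from congrArg Subtype.val h2, map_zero, map_zero, zero_add]
  have e3 : m1 (-ε) (px K (1 : Cy →* A)) c₀ ∈ R := by
    have := C.surf (ε := ε) hF 1 0 0 1 (by simp) (m1 (-ε) (px K (1 : Cy →* Cy)) c₀)
      (by rw [ev, ev, m1_px, m1_px, MonoidHom.comp_one, MonoidHom.comp_one])
    rwa [ev, m1_px, MonoidHom.comp_one] at this
  obtain ⟨x', h1, h3⟩ : d ∈ R := hc ▸ add_mem e2 e3
  have q := hd.sub h3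
  rw [sub_self] at q
  obtain ⟨y, hy⟩ := q.split hU h2
  rw [← sub_add_cancel x x', ← hy]
  exact add_mem (hs y) h1

end Pool.Agent.Work.MP_9d1ffa_al
end

-- merged part: Pool.Agent.Work.MP_9d1ffa_al.WMor
section
/-! Forms over a matrix ring are forms over the ring of coefficients. -/

namespace Pool.Agent.Work.MP_9d1ffa_al

open Matrix MonoidAlgebra

set_option linter.unusedSectionVars false
set_option linter.unusedVariables false

section Ring

variable {S : Type} [Ring S] [StarRing S] {ε : ℤˣ} {B I J L : Type} [Fintype B] [DecidableEq B]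
  [Fintype I] [DecidableEq I] [Fintype J] [DecidableEq J] [Fintype L] [DecidableEq L]

/-- a matrix of matrices as a matrix -/
def fl (A : Matrix I J (Matrix B B S)) : Matrix (I × B) (J × B) S := fun p q => A p.1 q.1 p.2 q.2

theorem fl_mul (A : Matrix I J (Matrix B B S)) (C : Matrix J L (Matrix B B S)) :
    fl (A * C) = fl A * fl C := by
  ext p q
  simp [fl, Matrix.mul_apply, Matrix.sum_apply, Fintype.sum_prod_type]

theorem fl_one : fl (1 : Matrix I I (Matrix B B S)) = 1 := comp_one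

theorem fl_ct (A : Matrix I J (Matrix B B S)) : fl Aᴴ = (fl A)ᴴ := rfl

theorem fl_sy (A : Matrix I I (Matrix B B S)) : fl (sy ε A) = sy ε (fl A) := rfl

theorem Iso.fl {a : Matrix I I (Matrix B B S)} {b : Matrix J J (Matrix B B S)} (h : Iso ε a b) :
    Iso ε (fl a) (fl b) := by
  obtain ⟨g, g', h1, h2, χ, h⟩ := h
  refine ⟨MP_9d1ffa_al.fl g, MP_9d1ffa_al.fl g', by rw [← fl_mul, h1, fl_one],
    by rw [← fl_mul, h2, fl_one], MP_9d1ffa_al.fl χ, ?_⟩
  rw [← fl_ct, ← fl_mul, ← fl_mul, h]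
  rfl

theorem NS.fl {a : Matrix I I (Matrix B B S)} (h : NS ε a) : NS ε (fl a) := by
  obtain ⟨μ, -, k⟩ := h.inv
  exact ns_of_left (C := MP_9d1ffa_al.fl μ) (by rw [← fl_sy, ← fl_mul, k, fl_one])

theorem fl_blocks (a : Matrix I I (Matrix B B S)) (b : Matrix J J (Matrix B B S)) :
    Iso ε (fromBlocks (fl a) 0 0 (fl b)) (fl (fromBlocks a 0 0 b)) :=
  UZ_re (Equiv.sumProdDistrib I J B) (by ext ⟨i | i, x⟩ ⟨j | j, y⟩ <;> rfl)

theorem z_fl_hyp : Z ε (fl (hypF (Matrix B B S) I)) := by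
  refine Z.iso (UZ_re (Equiv.sumProdDistrib I I B) ?_) (z_hyp (I × B))
  rw [hypF, ← fl_one]
  ext ⟨i | i, x⟩ ⟨j | j, y⟩ <;> rfl

theorem Z.fl {a : Matrix I I (Matrix B B S)} (h : Z ε a) : Z ε (fl a) := by
  obtain ⟨m, n, k⟩ := h
  exact Z.cancel (Z.iso ((fl_blocks _ _).trans k.fl).symm z_fl_hyp) z_fl_hyp

/-- the map from the Wall group of the matrix ring -/
noncomputable def fl0 : L0 (Matrix B B S) ε → L0 S ε :=
  Quotient.lift (fun a : Fm (Matrix B B S) ε => cls ε (fl a.ψ)) fun a b h => by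
    have k := (cls_eq_zero (a.ns.fl.sum b.ns.neg.fl)).2 (Z.iso (fl_blocks _ _).symm (Z.fl h))
    rw [cls_sum a.ns.fl b.ns.neg.fl, show fl (-b.ψ) = -fl b.ψ from rfl, cls_neg] at k
    exact add_neg_eq_zero.1 k

theorem fl0_cls {a : Matrix I I (Matrix B B S)} (h : NS ε a) : fl0 (cls ε a) = cls ε (fl a) := by
  rw [OL0_cls h]
  exact (cls_iso (OL0_mk_iso a h).fl).symm

theorem fl0_add (x y : L0 (Matrix B B S) ε) : fl0 (x + y) = fl0 x + fl0 y := by
  obtain ⟨_, a, ha, rfl⟩ := cls_surj x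
  obtain ⟨_, b, hb, rfl⟩ := cls_surj y
  rw [← cls_sum ha hb, fl0_cls (ha.sum hb), fl0_cls ha, fl0_cls hb, ← cls_sum ha.fl hb.fl]
  exact (cls_iso (fl_blocks a b)).symm

end Ring

variable {G H Q : Type} [Group G] [Group H] [Group Q] {ε : ℤˣ}

/-- unitary two by two matrices over a group ring -/
abbrev U2 (Q : Type) [Group Q] : Type := unitary (Matrix Bool Bool (ZG Q))

/-- the ring homomorphism of a unitary representation -/
noncomputable def rep (ρ : G →* U2 Q) : ZG G →+* Matrix Bool Bool (ZG Q) :=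
  (MonoidAlgebra.lift ℤ _ G ((unitary _).subtype.comp ρ)).toRingHom

theorem rep_single (ρ : G →* U2 Q) (g : G) (n : ℤ) : rep ρ (single g n) = n • (ρ g).1 :=
  MonoidAlgebra.lift_single _ g n

theorem rep_star (ρ : G →* U2 Q) (x : ZG G) : rep ρ (star x) = star (rep ρ x) := by
  induction x using MonoidAlgebra.induction_linear with
  | zero => simp
  | add a b ha hb => rw [star_add, map_add, map_add, ha, hb, star_add]
  | single g n => rw [star_single, rep_single, rep_single, map_inv, star_zsmul]; rfl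

/-- the transfer along a unitary representation -/
noncomputable def trf (ε : ℤˣ) (ρ : G →* U2 Q) : L0 (ZG G) ε →+ L0 (ZG Q) ε :=
  (AddMonoidHom.mk' fl0 fl0_add).comp (L0.map (rep ρ) (rep_star ρ))

theorem trf_cls (ρ : G →* U2 Q) {I : Type} [Fintype I] [DecidableEq I] {a : Matrix I I (ZG G)}
    (h : NS ε a) : trf ε ρ (cls ε a) = cls ε (fl (a.map (rep ρ))) := by
  change fl0 (L0.map _ _ _) = _
  rw [map_cls _ _ h, fl0_cls (h.map _ (rep_star ρ))]

theorem trf_m0 (ρ : G →* U2 Q) (f : H →* G) (x : L0 (ZG H) ε) :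
    trf ε ρ (m0 ε f x) = trf ε (ρ.comp f) x := by
  obtain ⟨n, a, h, rfl⟩ := cls_surj x
  have e : ∀ x, rep ρ (gm f x) = rep (ρ.comp f) x := fun x => by
    induction x using MonoidAlgebra.induction_linear with
    | zero => simp
    | add a b ha hb => rw [map_add, map_add, map_add, ha, hb]
    | single g n => rw [gm_single, rep_single, rep_single]; rfl
  rw [m0_cls _ h, trf_cls _ (h.mp f), trf_cls _ h]
  congr 2
  funext i j
  exact e _

/-- the diagonal representation -/
noncomputable def dgl (p q : G →* Q) : G →* U2 Q where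
  toFun g := ⟨diagonal fun b => single (bif b then q g else p g) 1, by
    constructor <;> rw [star_eq_conjTranspose, diagonal_conjTranspose, diagonal_mul_diagonal,
      ← diagonal_one] <;> congr 1 <;> funext b <;>
      simp [star_single, single_mul_single, MonoidAlgebra.one_def]⟩
  map_one' := Subtype.ext (by
    change diagonal _ = 1
    rw [← diagonal_one]
    congr 1
    funext b
    cases b <;> simp [MonoidAlgebra.one_def])
  map_mul' g h := Subtype.ext (by
    change diagonal _ = diagonal _ * diagonal _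
    rw [diagonal_mul_diagonal]
    congr 1
    funext b
    cases b <;> simp [single_mul_single])

theorem dgl_comp (p q : G →* Q) (f : H →* G) : (dgl p q).comp f = dgl (p.comp f) (q.comp f) := rfl

theorem dgl_inj {p q : G →* Q} {g : G} (h : dgl p q g = 1) : p g = 1 := by
  have := congrArg (fun U : U2 Q => U.1 false false) h
  simpa [dgl, MonoidAlgebra.one_def, single_left_inj] using this

theorem rep_dgl (p q : G →* Q) (x : ZG G) :
    rep (dgl p q) x = diagonal fun b => bif b then gm q x else gm p x := by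
  induction x using MonoidAlgebra.induction_linear with
  | zero => ext (_ | _) (_ | _) <;> simp
  | add a b ha hb =>
    rw [map_add, ha, hb, diagonal_add, map_add, map_add]
    congr 1
    funext c
    cases c <;> rfl
  | single g n => rw [rep_single]; ext (_ | _) (_ | _) : 2 <;> simp [dgl]

theorem trf_dgl (p q : G →* Q) (x : L0 (ZG G) ε) : trf ε (dgl p q) x = m0 ε p x + m0 ε q x := by
  obtain ⟨n, a, h, rfl⟩ := cls_surj x
  rw [trf_cls _ h, m0_cls _ h, m0_cls _ h, ← cls_sum (h.mp p) (h.mp q)]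
  refine cls_iso (UZ_re ((Equiv.boolProdEquivSum _).symm.trans (Equiv.prodComm _ _)) ?_)
  ext (i | i) (j | j) : 2 <;> simp [fl, rep_dgl, mp_apply]

theorem trf_fix (ρ : G →* U2 Q) (k : Q →* Q) (h : ∀ g, mp k (ρ g).1 = (ρ g).1) (x : L0 (ZG G) ε) :
    m0 ε k (trf ε ρ x) = trf ε ρ x := by
  obtain ⟨n, a, ha, rfl⟩ := cls_surj x
  have e : ∀ x, mp k (rep ρ x) = rep ρ x := fun x => by
    induction x using MonoidAlgebra.induction_linear with
    | zero => rw [map_zero, mp_zero]
    | add a b ha hb => rw [map_add, mp_add, ha, hb]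
    | single g n => rw [rep_single, mp_zsmul, h]
  rw [trf_cls _ ha, m0_cls _ (ha.map _ (rep_star ρ)).fl]
  congr 1
  funext p q
  exact congrFun (congrFun (e _) p.2) q.2

/-- the matrix exchanging the two sheets -/
noncomputable def swp (Q : Type) [Group Q] : U2 Q :=
  ⟨Matrix.of fun b c => if b = c then 0 else 1, by
    constructor <;> ext (_ | _) (_ | _) : 2 <;> simp [Matrix.mul_apply, star_eq_conjTranspose]⟩

theorem swp_comm (p : G →* Q) (g : G) : Commute (swp Q) (dgl p p g) := Subtype.ext (by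
  change (swp Q).1 * diagonal _ = diagonal _ * (swp Q).1
  ext (_ | _) (_ | _) : 2 <;> simp [swp])

theorem swp_conj (p q : G →* Q) (g : G) : swp Q * dgl p q g = dgl q p g * swp Q := Subtype.ext (by
  change (swp Q).1 * diagonal _ = diagonal _ * (swp Q).1
  ext (_ | _) (_ | _) : 2 <;> simp [swp])

theorem mp_swp (k : Q →* Q) : mp k (swp Q).1 = (swp Q).1 := by
  ext (_ | _) (_ | _) : 2 <;> simp [swp, mp_apply]

theorem mp_dgl (k : Q →* Q) (p q : G →* Q) (g : G) :
    mp k (dgl p q g).1 = (dgl (k.comp p) (k.comp q) g).1 := by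
  ext (_ | _) (_ | _) : 2 <;> simp [dgl, mp_apply]

end Pool.Agent.Work.MP_9d1ffa_al
end

-- merged part: Pool.Agent.Work.MP_9d1ffa_al.VRst
section
/-! Restriction to a subgroup of finite index. -/

namespace Pool.Agent.Work.MP_9d1ffa_al.VN

open Matrix

set_option linter.unusedSectionVars false
set_option linter.unusedVariables false

/-- the two duality conditions -/
def AF (R : Type) [Ring R] [StarRing R] : Prop :=
  (∀ (X T : Cx R) (t : Matrix T.I X.I R) (h : Ch T X t) (a b : ℤ),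
    Le X.dual a → Ge T b → Le h.cone (b - 1) → Le T.dual a) ∧
  ∃ N : ℕ, ∀ (X : Cx R) (a : ℤ), Le X.dual a → Ge X (-a - N)

/-- the ring `R` is a finite free self dual module over `S` -/
structure Rst (R S : Type) [Ring R] [StarRing R] [Ring S] [StarRing S] : Type 1 where
  κ : Type
  [fin : Fintype κ]
  [dec : DecidableEq κ]
  φ : R →+* Matrix κ κ S
  φ_star : ∀ x, φ (star x) = (φ x)ᴴ
  θ : R ≃+ (κ → S)
  θ_mul : ∀ x y, θ (x * y) = θ x ᵥ* φ y

attribute [instance] Rst.fin Rst.dec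

variable {R S : Type} [Ring R] [StarRing R] [Ring S] [StarRing S] (ρ : Rst R S) {I J K : Type}

/-- restriction of a matrix -/
def Rst.m (f : Matrix I J R) : Matrix (I × ρ.κ) (J × ρ.κ) S :=
  Matrix.of fun a b => ρ.φ (f a.1 b.1) a.2 b.2

/-- restriction of a vector -/
def Rst.v (x : I → R) : I × ρ.κ → S := fun a => ρ.θ (x a.1) a.2

theorem Rst.m_mul [Fintype J] (f : Matrix I J R) (g : Matrix J K R) :
    ρ.m (f * g) = ρ.m f * ρ.m g := by
  ext a b
  simp only [Rst.m, of_apply, mul_apply, map_sum, map_mul, Matrix.sum_apply,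
    Fintype.sum_prod_type]

theorem Rst.m_zero : ρ.m (0 : Matrix I J R) = 0 := by
  ext a b
  simp [Rst.m]

theorem Rst.m_ct (f : Matrix I J R) : ρ.m fᴴ = (ρ.m f)ᴴ := by
  ext a b
  simp only [Rst.m, of_apply, conjTranspose_apply, ρ.φ_star]

theorem Rst.hg {n : ℤ} {p : I → ℤ} {q : J → ℤ} {f : Matrix I J R} (h : Hg n p q f) :
    Hg n (fun a => p a.1) (fun a => q a.1) (ρ.m f) := fun a b e =>
  h a.1 b.1 fun e' => e (by simp [Rst.m, e'])

theorem Rst.v_mul [Fintype I] (x : I → R) (f : Matrix I J R) :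
    ρ.v (x ᵥ* f) = ρ.v x ᵥ* ρ.m f := by
  funext b
  simp only [Rst.v, Rst.m, vecMul, dotProduct, of_apply, map_sum, ρ.θ_mul, Finset.sum_apply,
    Fintype.sum_prod_type]

theorem Rst.v_inj {x y : I → R} (h : ρ.v x = ρ.v y) : x = y :=
  funext fun i => ρ.θ.injective (funext fun k => congrFun h (i, k))

theorem Rst.v_surj (y : I × ρ.κ → S) : ∃ x, ρ.v x = y :=
  ⟨fun i => ρ.θ.symm fun k => y (i, k), funext fun a => by simp [Rst.v]⟩

theorem Rst.v_zero : ρ.v (0 : I → R) = 0 := by
  funext a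
  simp [Rst.v]

theorem Rst.vd {p : I → ℤ} {k : ℤ} {x : I → R} : Vd (fun a => p a.1) k (ρ.v x) ↔ Vd p k x := by
  refine ⟨fun h i e => ?_, fun h a e => h a.1 fun e' => e (by simp [Rst.v, e'])⟩
  by_contra hn
  exact e (ρ.θ.injective ((funext fun j => by_contra fun e' => hn (h (i, j) e')).trans
    (map_zero ρ.θ).symm))

/-- restriction of a complex -/
abbrev Rst.cx (X : Cx R) : Cx S where
  I := X.I × ρ.κ
  p a := X.p a.1
  d := ρ.m X.d
  hd := ρ.hg X.hd
  dd := by rw [← ρ.m_mul, X.dd, ρ.m_zero]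

theorem Rst.ex {X : Cx R} {k : ℤ} : Ex (ρ.cx X) k ↔ Ex X k := by
  refine ⟨fun h x hx e => ?_, fun h y hy e => ?_⟩
  · obtain ⟨y, hy⟩ := h (ρ.v x) (ρ.vd.2 hx) (by rw [← ρ.v_mul, e, ρ.v_zero])
    obtain ⟨w, rfl⟩ := ρ.v_surj y
    exact ⟨w, ρ.v_inj (by rw [ρ.v_mul, hy])⟩
  · obtain ⟨x, rfl⟩ := ρ.v_surj y
    obtain ⟨w, rfl⟩ := h x (ρ.vd.1 hy) (ρ.v_inj (by rw [ρ.v_mul, e, ρ.v_zero]))
    exact ⟨ρ.v w, (ρ.v_mul _ _).symm⟩

theorem Rst.ex_dual {X : Cx R} {k : ℤ} : Ex (ρ.cx X).dual k ↔ Ex X.dual k := by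
  rw [← ρ.ex (X := X.dual)]
  unfold Ex
  simp only [ρ.m_ct]

theorem Rst.ch {X Y : Cx R} {f : Matrix X.I Y.I R} (h : Ch X Y f) :
    Ch (ρ.cx X) (ρ.cx Y) (ρ.m f) := ⟨ρ.hg h.1, by rw [← ρ.m_mul, ← ρ.m_mul, h.2]⟩

theorem Rst.re {X Y : Cx R} {f : Matrix X.I Y.I R} (h : Ch X Y f) :
    Re (ρ.ch h).cone (ρ.cx h.cone) :=
  ⟨(Equiv.sumProdDistrib _ _ _).symm, 1, fun i => by cases i <;> rfl, by
    ext (a | a) (b | b) <;> simp [Rst.m]⟩

include ρ in
theorem Rst.af (h : AF S) : AF R := by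
  obtain ⟨h1, N, h2⟩ := h
  refine ⟨fun X T t c a b e1 e2 e3 k hk => ρ.ex_dual.1 (h1 _ _ _ (ρ.ch c) a b
    (fun j hj => ρ.ex_dual.2 (e1 j hj)) (fun j hj => ρ.ex.2 (e2 j hj))
    (fun j hj => (ρ.re c).symm.ex (ρ.ex.2 (e3 j hj))) k hk), N, fun X a e k hk =>
      ρ.ex.1 (h2 _ a (fun j hj => ρ.ex_dual.2 (e j hj)) k hk)⟩

theorem exists_rst {G H : Type} [Group G] [Group H] (f : H →* G) (hf : Function.Injective f)
    [f.range.FiniteIndex] : Nonempty (Rst (ZG G) (ZG H)) := by
  classical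
  let _ : Fintype (G ⧸ f.range) := Fintype.ofFinite _
  let u : G → ZG G := fun g => MonoidAlgebra.single g 1
  have um : ∀ a b, u a * u b = u (a * b) := fun a b => by
    simp only [u, MonoidAlgebra.single_mul_single, one_mul]
  let θ : ZG G → G ⧸ f.range → ZG H := fun x j => VGrp_cp f hf 1 (x * u j.out)
  have key : ∀ x, ∑ j, gm f (θ x j) * u j.out⁻¹ = x := fun x => by
    ext g
    have hg : g * ((g⁻¹ : G) : G ⧸ f.range).out ∈ f.range := by
      have := QuotientGroup.eq.1 (Quotient.out_eq' ((g⁻¹ : G) : G ⧸ f.range)).symm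
      rwa [inv_inv] at this
    simp only [MonoidAlgebra.coeff_sum, Finsupp.finsetSum_apply, u,
      MonoidAlgebra.coeff_mul_single_apply, inv_inv, mul_one]
    rw [Finset.sum_eq_single ((g⁻¹ : G) : G ⧸ f.range) (fun j _ hj => VGrp_coeff_gm_not f _ fun e =>
      hj ((Quotient.out_eq' j).symm.trans (QuotientGroup.eq.2 (by rwa [inv_inv])).symm))
      fun e => (e (Finset.mem_univ _)).elim]
    obtain ⟨h, e⟩ := hg
    rw [← e, VGrp_coeff_gm f hf, VGrp_coeff_cp, MonoidAlgebra.coeff_mul_single_apply, e]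
    simp
  have mul : ∀ x y, θ (x * y) = θ x ᵥ* Matrix.of fun i => θ (u i.out⁻¹ * y) := fun x y => by
    funext j
    conv_lhs => rw [← key x]
    simp only [θ, Finset.sum_mul, map_sum, mul_assoc, VGrp_mul_cp]
    rfl
  have one : (Matrix.of fun i : G ⧸ f.range => θ (u i.out⁻¹)) = 1 := by
    funext i j
    simp only [of_apply, θ, um, one_apply]
    ext h
    rw [VGrp_coeff_cp, one_mul]
    split_ifs with e
    · subst e
      rw [inv_mul_cancel, ← VGrp_coeff_gm f hf, map_one]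
      rfl
    · refine Finsupp.single_eq_of_ne fun e' => e ?_
      rw [← Quotient.out_eq' i, ← Quotient.out_eq' j]
      exact QuotientGroup.eq.2 ⟨h, e'⟩
  have add : ∀ x y, θ (x + y) = θ x + θ y := fun x y => by
    funext j
    simp only [θ, add_mul, map_add, Pi.add_apply]
  refine ⟨⟨G ⧸ f.range, ⟨⟨⟨fun y => Matrix.of fun i => θ (u i.out⁻¹ * y), ?_⟩, fun x y => ?_⟩,
    ?_, fun x y => ?_⟩, fun x => ?_,
    ⟨⟨θ, fun y => ∑ j, gm f (y j) * u j.out⁻¹, key, fun y => ?_⟩, add⟩, mul⟩⟩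
  · simp only [mul_one, one]
  · funext i
    exact (congrArg θ (mul_assoc _ _ _).symm).trans (mul _ _)
  · funext i j
    simp [θ]
  · funext i
    exact (congrArg θ (mul_add _ _ _)).trans (add _ _)
  · funext i j
    have e : u i.out⁻¹ * star x * u j.out = star (u j.out⁻¹ * x * u i.out) := by
      simp only [star_mul, u, star_single, inv_inv, mul_assoc]
    change VGrp_cp f hf 1 (u i.out⁻¹ * star x * u j.out) =
      star (VGrp_cp f hf 1 (u j.out⁻¹ * x * u i.out))
    ext h
    rw [e, VGrp_coeff_cp, coeff_star, coeff_star, VGrp_coeff_cp, one_mul, one_mul, map_inv f]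
  · funext j
    have := congrFun (vecMul_one y) j
    rw [← one] at this
    simp only [θ, Finset.sum_mul, map_sum, mul_assoc, VGrp_mul_cp]
    exact this

end Pool.Agent.Work.MP_9d1ffa_al.VN
end

-- merged part: Pool.Agent.Work.MP_9d1ffa_al.VVirt
section
/-! Finite extensions, and passage to finitely generated subgroups. -/

namespace Pool.Agent.Work.MP_9d1ffa_al.VN

open Matrix

set_option linter.unusedSectionVars false
set_option linter.unusedVariables false

variable {G H : Type} [Group G] [Group H]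

theorem ff_of_fpr (hK : K0Zero G) (n : ℕ) : ∀ (M : Type) [AddCommGroup M] [Module (ZG G) M],
    FPR (ZG G) n M → ∃ m, FF (ZG G) m M := by
  induction n with
  | zero => exact fun M _ _ h => ⟨0, h.1, hK M h.1 h.2⟩
  | succ n ih =>
    rintro M _ _ ⟨N, _, _, f, h1, h2, h3, h4⟩
    obtain ⟨m, hm⟩ := ih _ h4
    exact FF.coker (m := 0) _ f (LinearMap.ker f).injective_subtype
      (LinearMap.exact_subtype_ker_map f) h3 hm ⟨h1, hK N h1 h2⟩

theorem coh_of_rc (h : RC G) (hK : K0Zero G) : Coh (ZG G) := fun I _ U hU => by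
  obtain ⟨n, hn⟩ := h ((I → ZG G) ⧸ U)
    (Module.finitePresentation_of_surjective U.mkQ U.mkQ_surjective (by rwa [U.ker_mkQ]))
  obtain ⟨m, hm⟩ := ff_of_fpr hK n _ hn
  have := ff_ker hm U.mkQ U.mkQ_surjective
  rwa [U.ker_mkQ] at this

theorem good_of_coh (h : Coh (ZG G)) (h' : AF (ZG G)) : Good (ZG G) :=
  ⟨h.trn, h'.1, h'.2, fun I _ _ E hE => by
    obtain ⟨n, hn⟩ := h I (LinearMap.range E.vecMulLinear)
      (by rw [LinearMap.range_eq_map]; exact Module.Finite.fg_top.map _)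
    exact sfIdem_of_ff hE hn⟩

theorem good_virt (h : RC G) (hK : K0Zero G) (f : H →* G) (hf : Function.Injective f)
    [f.range.FiniteIndex] (hH : Good (ZG H)) : Good (ZG G) := by
  obtain ⟨ρ⟩ := exists_rst f hf
  exact good_of_coh (coh_of_rc h hK) (ρ.af ⟨hH.aus, hH.fin⟩)

theorem exists_pre (f : H →* G) (hf : Function.Injective f) {J : Type} {x : J → ZG G}
    (h : ∀ j g, (x j).coeff g ≠ 0 → g ∈ f.range) : ∃ y : J → ZG H, gm f ∘ y = x :=
  ⟨fun j => VGrp_cp f hf 1 (x j), vec_ext fun j g => by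
    by_cases e : g ∈ f.range
    · obtain ⟨d, rfl⟩ := e
      rw [Function.comp_apply, VGrp_coeff_gm f hf, VGrp_coeff_cp, one_mul]
    · exact (VGrp_coeff_gm_not f _ e).trans (by_contra fun e' => e (h j g (Ne.symm e')))⟩

variable {Λ : Type} [Ring Λ] [StarRing Λ] {I J : Type} [Fintype I] [Fintype J]

theorem span_step {R : Type} [Ring R] (ι : R →+* Λ) (ρ : Matrix I J Λ) {S : Set (I → R)}
    {W : Submodule Λ (J → Λ)} (h : ∀ y ∈ S, (ι ∘ y) ᵥ* ρ ∈ W) :
    ∀ y ∈ Submodule.span R S, (ι ∘ y) ᵥ* ρ ∈ W := fun y hy => by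
  induction hy using Submodule.span_induction with
  | mem y hy => exact h y hy
  | zero =>
    rw [show ι ∘ (0 : I → R) = 0 from funext fun _ => map_zero _, zero_vecMul]
    exact zero_mem _
  | add x y _ _ hx hy =>
    rw [show ι ∘ (x + y) = ι ∘ x + ι ∘ y from funext fun _ => map_add _ _ _, add_vecMul]
    exact add_mem hx hy
  | smul r x _ hx =>
    rw [show ι ∘ (r • x) = ι r • ι ∘ x from funext fun _ => map_mul _ _ _, smul_vecMul]
    exact W.smul_mem _ hx

theorem nl_fin (A : Amb (ZG G) Λ) (ρ : Matrix I J Λ) (σ : Matrix J I Λ) (k : ℕ) :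
    ∀ l m a b, Nl A ρ σ k l m a b → ∃ s : Finset G, ∀ (H : Type) [Group H] (f : H →* G),
      Function.Injective f → (∀ x ∈ s, x ∈ f.range) →
      ∃ (Y : ℕ → Submodule (ZG H) (I → ZG H)) (Y' : ℕ → Submodule (ZG H) (J → ZG H)),
        (∀ y i, gm f ∘ y = a i → y ∈ Y 0) ∧ (∀ y i, gm f ∘ y = b i → y ∈ Y' 0) ∧
        Y k = ⊥ ∧ Y' k = ⊥ ∧
        (∀ n, ∀ y ∈ Y n, (A.ι.comp (gm f) ∘ y) ᵥ* ρ ∈
          Submodule.span Λ ((fun z => A.ι.comp (gm f) ∘ z) '' Y' (n + 1))) ∧
        ∀ n, ∀ y ∈ Y' n, (A.ι.comp (gm f) ∘ y) ᵥ* σ ∈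
          Submodule.span Λ ((fun z => A.ι.comp (gm f) ∘ z) '' Y (n + 1)) := by
  classical
  induction k with
  | zero =>
    rintro l m _ _ ⟨rfl, rfl⟩
    refine ⟨∅, fun H _ f hf _ => ?_⟩
    have e : ∀ {L : Type} (y : L → ZG H), gm f ∘ y = 0 → y = 0 := fun y hy => funext fun i =>
      MonoidAlgebra.mapDomain_injective hf ((congrFun hy i).trans (map_zero (gm f)).symm)
    have e' : ∀ L : Type, A.ι.comp (gm f) ∘ (0 : L → ZG H) = 0 := fun L =>
      funext fun _ => map_zero _
    refine ⟨fun _ => ⊥, fun _ => ⊥, fun y i => e y, fun y i => e y, rfl, rfl, ?_, ?_⟩ <;>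
    · rintro n y rfl
      rw [e', zero_vecMul]
      exact zero_mem _
  | succ k ih =>
    rintro l m a b ⟨l', m', a', b', N, N', e1, e2, h⟩
    obtain ⟨s, hs⟩ := ih _ _ _ _ h
    obtain ⟨s1, h1⟩ := exists_sup_finset a'
    obtain ⟨s2, h2⟩ := exists_sup_finset b'
    refine ⟨s ∪ s1 ∪ s2, fun H _ f hf hr => ?_⟩
    obtain ⟨Y, Y', c1, c2, c3, c4, c5, c6⟩ := hs H f hf fun x hx => hr x (by simp [hx])
    refine ⟨fun n => n.casesOn (Submodule.span _ {y | ∃ i, gm f ∘ y = a i}) Y,
      fun n => n.casesOn (Submodule.span _ {y | ∃ i, gm f ∘ y = b i}) Y',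
      fun y i e => Submodule.subset_span (s := {y | ∃ i, gm f ∘ y = a i}) ⟨i, e⟩,
      fun y i e => Submodule.subset_span (s := {y | ∃ i, gm f ∘ y = b i}) ⟨i, e⟩, c3, c4,
      fun n => ?_, fun n => ?_⟩
    · cases n with
      | succ n => exact c5 n
      | zero =>
        refine span_step _ _ fun y ⟨i, e⟩ => ?_
        have : (A.ι.comp (gm f) ∘ y) ᵥ* ρ = N i ᵥ* A.m b' := by
          rw [show A.ι.comp (gm f) ∘ y = A.m a i from congrArg (A.ι ∘ ·) e]
          exact congrFun e1 i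
        rw [this, vecMul_eq_sum]
        refine sum_mem fun j _ => Submodule.smul_mem _ _ (Submodule.subset_span ?_)
        obtain ⟨z, hz⟩ := exists_pre f hf (x := b' j) fun i g e => hr g (by simp [h2 j i g e])
        exact ⟨z, c2 z j hz, congrArg (A.ι ∘ ·) hz⟩
    · cases n with
      | succ n => exact c6 n
      | zero =>
        refine span_step _ _ fun y ⟨i, e⟩ => ?_
        have : (A.ι.comp (gm f) ∘ y) ᵥ* σ = N' i ᵥ* A.m a' := by
          rw [show A.ι.comp (gm f) ∘ y = A.m b i from congrArg (A.ι ∘ ·) e]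
          exact congrFun e2 i
        rw [this, vecMul_eq_sum]
        refine sum_mem fun j _ => Submodule.smul_mem _ _ (Submodule.subset_span ?_)
        obtain ⟨z, hz⟩ := exists_pre f hf (x := a' j) fun i g e => hr g (by simp [h1 j i g e])
        exact ⟨z, c1 z j hz, congrArg (A.ι ∘ ·) hz⟩

theorem top_of_one (f : H →* G) {L : Type} [Fintype L] [DecidableEq L]
    {Y : Submodule (ZG H) (L → ZG H)} (h : ∀ y i, gm f ∘ y =
      (1 : Matrix L L (ZG G)).submatrix (Fintype.equivFin L).symm id i → y ∈ Y) : Y = ⊤ := by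
  refine eq_top_iff.2 fun y _ => ?_
  rw [← vecMul_one y, vecMul_eq_sum]
  refine sum_mem fun j _ => Y.smul_mem _ (h _ (Fintype.equivFin L j) (funext fun i => ?_))
  simp [one_apply, apply_ite (gm f)]

theorem NilC.fin {A : Amb (ZG G) Λ} {ρ : Matrix I J Λ} {σ : Matrix J I Λ} (h : NilC A ρ σ) :
    ∃ s : Finset G, ∀ (H : Type) [Group H] (f : H →* G), Function.Injective f →
      (∀ x ∈ s, x ∈ f.range) → ∀ A' : Amb (ZG H) Λ, A'.ι = A.ι.comp (gm f) → NilC A' ρ σ := by
  classical
  obtain ⟨k, hk⟩ := h.nl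
  obtain ⟨s, hs⟩ := nl_fin A ρ σ k _ _ _ _
    (hk _ _ ((1 : Matrix I I (ZG G)).submatrix (Fintype.equivFin I).symm id)
      ((1 : Matrix J J (ZG G)).submatrix (Fintype.equivFin J).symm id))
  refine ⟨s, fun H _ f hf hr A' e => ?_⟩
  obtain ⟨Y, Y', c1, c2, c3, c4, c5, c6⟩ := hs H f hf hr
  exact ⟨Y, Y', k, top_of_one f c1, top_of_one f c2, c3, c4, e ▸ c5, e ▸ c6⟩

end Pool.Agent.Work.MP_9d1ffa_al.VN
end

-- merged part: Pool.Agent.Work.MP_9d1ffa_al.VMain
section
/-! The vanishing theorem over a good ring. -/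

namespace Pool.Agent.Work.MP_9d1ffa_al.VN

open Matrix

set_option linter.unusedSectionVars false
set_option linter.unusedVariables false

variable {R Λ : Type} [Ring R] [StarRing R] [Ring Λ] [StarRing Λ] {A : Amb R Λ}
  {s t : Bool} {ε : ℤˣ}

/-- exchange of the complex and its dual -/
abbrev Sd.swap (X : Sd A ε s t) : Sd A ε t s where
  C := X.C.dual
  ψ := X.φ
  φ := X.ψ
  hψ := X.hφ.of fun k l e => by simp only at e ⊢; omega
  hφ := X.hψ.of fun k l e => by simp only at e ⊢; omega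
  cψ := by
    have := X.cφ
    simpa only [conjTranspose_conjTranspose] using this
  cφ := by
    have := X.cψ
    simpa only [conjTranspose_conjTranspose] using this

theorem iso_swap {J : Type} [Fintype J] [DecidableEq J] (ψ φ : Matrix J J Λ) :
    Iso ε (fromBlocks ψ (1 : Matrix J J Λ) 0 φ) (fromBlocks φ (1 : Matrix J J Λ) 0 ψ) := by
  have e : (fromBlocks 1 0 0 ((ε : ℤ) • 1) : Matrix (J ⊕ J) (J ⊕ J) Λ) *
      fromBlocks 1 0 0 ((ε : ℤ) • 1) = 1 := by
    simp [fromBlocks_multiply, eps_eps, -zsmul_eq_mul, -zsmul_one]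
  refine (UZ_re (b := fromBlocks φ 0 1 ψ) (Equiv.sumComm J J)
    (by ext (i | i) (j | j) <;> rfl)).trans ((iso_conj _ e e).trans (Iso.of_eqv ?_))
  simp only [fromBlocks_multiply, fromBlocks_conjTranspose, conjTranspose_zero, conjTranspose_one,
    ct_zsmul, Matrix.mul_zero, Matrix.zero_mul, Matrix.mul_one, Matrix.one_mul, add_zero, zero_add,
    Matrix.smul_mul, Matrix.mul_smul, eps_eps, smul_zero]
  exact eqv_blocks (Eqv.refl _) (Eqv.refl _) (by simp [ct_zsmul, eps_eps, -zsmul_eq_mul, -zsmul_one])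

/-- the comparison of the two exchanges -/
def Sd.mp (X : Sd A ε s t) : Mp X.tw.swap X.swap.tw where
  f := 1
  g := 1
  h := 0
  k := 0
  cf := ch_one _
  cg := ⟨(hg_one (p := X.C.p)).of fun k l e => by simp only at e ⊢; omega, by simp⟩
  hh := bm_zero
  hk := bm_zero
  eh := by simp [A.m_one]
  ek := by simp [A.m_one]
  qf := qis_one _
  qg := qis_of_inv
    ⟨(hg_one (p := X.C.p)).of fun k l e => by simp only at e ⊢; omega, by simp⟩ 1
    (Matrix.mul_one _) (Matrix.mul_one _)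

theorem z_of_fl (hR : Good R) (n : ℕ) : ∀ (s t : Bool) (X : Sd A ε s t), Fl n X.tw →
    NS ε X.form → Z ε X.form := by
  induction n with
  | zero =>
    intro s t X h hX
    obtain ⟨k, hk⟩ := contr_of_vc hR h.vc.1 h.vc.2
    exact z_final hR.sfi X hX k hk
  | succ n ih =>
    have key : ∀ (s t : Bool) (X : Sd A ε s t) (P : Pc X.tw), Uc A P.T → Fl n P.cone →
        NS ε X.form → Z ε X.form := fun s t X P hP h hX => by
      obtain ⟨X', ω, h1, h2⟩ := surgery X P hP
      have hz : Z ε (fromBlocks ω (1 : Matrix P.T.I P.T.I Λ) (0 : Matrix P.T.I P.T.I Λ) 0) :=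
        z_lag' ω 1 0 1 (by simp) (by simp)
      exact ((ih s t X' (h1 n h) ((hX.sum hz.ns).iso h2.symm)).iso h2).cancel hz
    intro s t X h hX
    rcases h.pull hR with ⟨P, hP, h⟩ | ⟨P, hP, h⟩
    · exact key s t X P hP h hX
    · obtain ⟨Q, e, ⟨F⟩⟩ := X.mp.piece P
      exact (key t s X.swap Q (e ▸ hP) (h.qis F) (hX.iso (iso_swap _ _))).iso (iso_swap _ _)

theorem ns_of_nil {J : Type} [Fintype J] [DecidableEq J] {ψ φ : Matrix J J Λ}
    (h : IsNilpotent (sy ε ψ * sy ε φ)) : NS ε (fromBlocks ψ (1 : Matrix J J Λ) 0 φ) := by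
  obtain ⟨c, hc⟩ := ((h.smul (ε : ℤ)).isUnit_one_sub).exists_left_inv
  refine ns_of_left (C := fromBlocks (-((ε : ℤ) • (sy ε φ * c))) ((ε : ℤ) • 1) c 0 *
    fromBlocks 1 (-((ε : ℤ) • sy ε ψ)) 0 1) ?_
  have e : fromBlocks 1 (-((ε : ℤ) • sy ε ψ)) 0 1 * sy ε (fromBlocks ψ (1 : Matrix J J Λ) 0 φ) =
      fromBlocks 0 (1 - (ε : ℤ) • (sy ε ψ * sy ε φ)) ((ε : ℤ) • 1) (sy ε φ) := by
    simp [sy_blocks, fromBlocks_multiply, eps_eps, sub_eq_add_neg, -zsmul_eq_mul, -zsmul_one]
  rw [Matrix.mul_assoc, e, fromBlocks_multiply]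
  simp [eps_eps, Matrix.mul_assoc, hc, -zsmul_eq_mul, -zsmul_one]

theorem vmain (A : Amb R Λ) (hR : Good R) (s t : Bool) {J : Type} [Fintype J] [DecidableEq J]
    (ψ φ : Matrix J J Λ) (hψ : ∀ k l, ψ k l ∈ A.B s) (hφ : ∀ k l, φ k l ∈ A.B t)
    (h : NilC A (sy ε ψ) (sy ε φ)) : Z ε (fromBlocks ψ (1 : Matrix J J Λ) 0 φ) := by
  let X : Sd A ε s t :=
    { C := Cx.free R J 0
      ψ := ψ
      φ := φ
      hψ := ⟨fun _ _ _ => rfl, hψ⟩
      hφ := ⟨fun _ _ _ => rfl, hφ⟩
      cψ := by simp [A.m_zero]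
      cφ := by simp [A.m_zero] }
  obtain ⟨n, hn⟩ := init hR X.tw (fun _ => rfl) (fun _ => rfl) h
  exact z_of_fl hR n s t X hn (ns_of_nil h.nilpotent)

end Pool.Agent.Work.MP_9d1ffa_al.VN
end

-- merged part: Pool.Agent.Work.MP_9d1ffa_al.VTop
section
/-! Vanishing of the unitary nilpotent groups when the stabilisers of reversible segments are
products of a free group and a free abelian group. -/

namespace Pool.Agent.Work.MP_9d1ffa_al

open Matrix MonoidAlgebra MulAction

set_option linter.unusedSectionVars false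
set_option linter.unusedVariables false

variable {G H : Type} [Group G] [Group H] {P : Type} [MulAction G P] {ε : ℤˣ}

/-- the part of a submodule that is defined over the subgroup -/
def VTop_res {D : Subgroup G} (e : H ≃* D) {J : Type} (W : Submodule (ZG G) (J → ZG G)) :
    Submodule (ZG H) (J → ZG H) where
  carrier := {y | gm (D.subtype.comp e.toMonoidHom) ∘ y ∈ W}
  zero_mem' := by
    have : gm (D.subtype.comp e.toMonoidHom) ∘ (0 : J → ZG H) = 0 := funext fun i => map_zero _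
    simp [this]
  add_mem' {x y} hx hy := by
    have : gm (D.subtype.comp e.toMonoidHom) ∘ (x + y) = gm (D.subtype.comp e.toMonoidHom) ∘ x +
      gm (D.subtype.comp e.toMonoidHom) ∘ y := funext fun i => map_add _ _ _
    exact (congrArg (· ∈ W) this).mpr (W.add_mem hx hy)
  smul_mem' r y hy := by
    have : gm (D.subtype.comp e.toMonoidHom) ∘ (r • y) = gm (D.subtype.comp e.toMonoidHom) r •
      gm (D.subtype.comp e.toMonoidHom) ∘ y := funext fun i => map_mul _ _ _
    exact (congrArg (· ∈ W) this).mpr (W.smul_mem _ hy)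

theorem VTop_le {D : Subgroup G} (e : H ≃* D) {J : Type} [Finite J] {η : P}
    (hD : ∀ g : G, g • η = η ↔ g ∈ D) {W : Submodule (ZG G) (J → ZG G)}
    (hW : ∀ σ, ∀ x ∈ W, proj (fun _ : J => η) (· = σ) x ∈ W) :
    W ≤ Submodule.span (ZG G)
      ((fun z => gm (D.subtype.comp e.toMonoidHom) ∘ z) '' VTop_res e W) := fun x hx => by
  refine mem_of_proj (fun _ : J => η) fun σ => ?_
  by_cases h : ∃ c : G, c • η = σ
  · obtain ⟨c, rfl⟩ := h
    have h1 := W.smul_mem (single c⁻¹ (1 : ℤ) : ZG G) (hW (c • η) x hx)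
    rw [proj_const η hD, smul_smul, single_mul_single, inv_mul_cancel, one_mul, ← one_def,
      one_smul] at h1
    have h2 : gm (D.subtype.comp e.toMonoidHom) ∘ (gm e.symm.toMonoidHom ∘ cmpV D c x) =
        incV D (cmpV D c x) := funext fun i => by
      have : (D.subtype.comp e.toMonoidHom).comp e.symm.toMonoidHom = D.subtype :=
        MonoidHom.ext fun d => by simp
      simp only [Function.comp_apply, gm_comp, this]
      rfl
    rw [proj_const η hD]
    exact Submodule.smul_mem _ _ (Submodule.subset_span ⟨_, by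
      change _ ∈ W
      rwa [h2], h2⟩)
  · have : proj (fun _ : J => η) (· = σ) x = 0 := vec_ext fun i g => by
      rw [coeff_proj, if_neg fun e' => h ⟨g, e'⟩]
      rfl
    rw [this]
    exact zero_mem _

theorem locZ_good {rev : P → P} {mv : P → P → Prop} {hull : P → P → P} (Γ : Geo2 G rev mv hull)
    {σ τ : P} (hm : mv σ τ) (hσ : ∀ g : G, g • σ = rev σ → g * g ≠ 1)
    (hτ : ∀ g : G, g • τ = rev τ → g * g ≠ 1)
    (hR : ∀ s : Finset (stabilizer G (hull σ τ)), ∃ (H : Type) (_ : Group H)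
      (f : H →* stabilizer G (hull σ τ)), Function.Injective f ∧ (∀ x ∈ s, x ∈ f.range) ∧
        VN.Good (ZG H)) : LocZ G rev ε σ τ (hull σ τ) := by
  intro J _ _ A B hA hB ⟨F, F', k, hF, hF', h1, h2⟩
  have fix : ∀ (i : Bool) (h : stabilizer G (hull σ τ)),
      (h : G) • (bif i then τ else σ) = bif i then τ else σ := fun i h => by
    cases i
    exacts [(Γ.stab _ _ hm _ h.2).1, (Γ.stab _ _ hm _ h.2).2]
  have amb := fun (H : Type) [Group H] (f : H →* stabilizer G (hull σ τ))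
      (hf : Function.Injective f) => VN.exists_amb ((stabilizer G (hull σ τ)).subtype.comp f)
    (Subtype.val_injective.comp hf)
    (fun i g => g • (bif i then τ else σ) = rev (bif i then τ else σ))
    (fun i h g a => by
      rw [mul_smul, a, ← Γ.re]
      exact congrArg rev (fix i _))
    (fun i h g a => by
      rw [mul_smul, ← a]
      exact congrArg (g • ·) (fix i _))
    (fun i g a => by rw [inv_smul_eq_iff, ← Γ.re, a, Γ.rr])
    (fun i => by
      cases i
      exacts [hσ, hτ])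
  let e := MulEquiv.refl (stabilizer G (hull σ τ))
  obtain ⟨M, hι, -⟩ := amb _ e.toMonoidHom e.injective
  have hD : ∀ g : G, g • rev (hull σ τ) = rev (hull σ τ) ↔ g ∈ stabilizer G (hull σ τ) :=
    fun g => by
      rw [← Γ.re]
      exact ⟨Γ.rev_inj, congrArg rev⟩
  have tp : VTop_res e (⊤ : Submodule (ZG G) (J → ZG G)) = ⊤ := eq_top_iff.2 fun _ _ => trivial
  have bt : VTop_res e (⊥ : Submodule (ZG G) (J → ZG G)) = ⊥ := eq_bot_iff.2 fun y hy =>
    funext fun i => mapDomain_injective (Subtype.val_injective.comp e.injective)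
      ((congrFun hy i).trans (mapDomain_zero _).symm)
  have hn : VN.NilC M (sy ε A) (sy ε B) := by
    refine ⟨fun m => VTop_res e (F m), fun m => VTop_res e (F' m), k,
      (congrArg _ hF.top).trans tp, (congrArg _ hF'.top).trans tp, (congrArg _ hF.bot).trans bt,
      (congrArg _ hF'.bot).trans bt, fun m y hy => ?_, fun m y hy => ?_⟩
    · rw [hι]
      exact VTop_le e hD (hF'.gr _) (h1 m _ hy)
    · rw [hι]
      exact VTop_le e (fun g => Iff.rfl) (hF.gr _) (h2 m _ hy)
  obtain ⟨s, hs⟩ := hn.fin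
  obtain ⟨H, _, f, hf, hr, hH⟩ := hR s
  obtain ⟨M', hι', hM⟩ := amb H f hf
  exact VN.vmain M' hH true false A B (fun k l => (hM _ _).2 (hA k l))
    (fun k l => (hM _ _).2 (hB k l)) (hs H f hf hr M' (by
      rw [hι, hι']
      exact RingHom.ext fun x => (gm_comp _ _ x).symm))

theorem unilTree_good {V : Type} [MulAction G V] {T : SimpleGraph V}
    (hT : T.IsTree) (act : ∀ (g : G) (a b : V), T.Adj a b → T.Adj (g • a) (g • b))
    (h2 : ∀ (g : G) (a : V), g * g = 1 → g • a = a)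
    (hgood : ∀ a b : V, a ≠ b → (∃ g : G, g • a = b ∧ g • b = a) → ∀ D ≤ stabilizer G (a, b),
      D.FG → ∃ (H : Type) (_ : Group H), Nonempty (H ≃* D) ∧ VN.Good (ZG H)) :
    UNilTree G T ε := by
  classical
  have iso : ∀ (g : G) x y, (T.dist (g • x) (g • y) : ℤ) = T.dist x y := fun g x y => by
    rw [dist_smul hT act]
  have Γ := geo2_tree (tr_of_isTree hT) iso
  refine unilTree_of_loc hT act fun σ τ hm ⟨g, hg⟩ _ => ?_
  refine locZ_good Γ hm (fun x a b => hm.1 ((h2 x _ b).symm.trans (congrArg Prod.fst a)))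
    (fun x a b => hm.2.1 ((h2 x _ b).symm.trans (congrArg Prod.fst a))) fun s => ?_
  have hle : Subgroup.closure (s.image Subtype.val : Set G) ≤ stabilizer G (σ.1, τ.2) :=
    (Subgroup.closure_le _).2 fun x hx => by
      obtain ⟨y, -, rfl⟩ := Finset.mem_image.1 hx
      exact y.2
  obtain ⟨H, _, ⟨e⟩, hH⟩ := hgood σ.1 σ.2 hm.1 ⟨g, congrArg Prod.fst hg, congrArg Prod.snd hg⟩
    _ (fun x hx => (Γ.stab _ _ hm x (hle hx)).1) ⟨_, rfl⟩
  exact ⟨H, inferInstance, (Subgroup.inclusion hle).comp e.toMonoidHom,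
    (Subgroup.inclusion_injective hle).comp e.injective, fun x hx =>
      ⟨e.symm ⟨x, Subgroup.subset_closure (Finset.mem_image_of_mem _ hx)⟩,
        congrArg (Subgroup.inclusion hle) (e.apply_symm_apply _)⟩, hH⟩

theorem unilTree_edge {V : Type} [MulAction G V] {T : SimpleGraph V}
    (hT : T.IsTree) (act : ∀ (g : G) (a b : V), T.Adj a b → T.Adj (g • a) (g • b))
    (h2 : ∀ (g : G) (a : V), g * g = 1 → g • a = a)
    (hfr : ∀ a b : V, a ≠ b → (∃ g : G, g • a = b ∧ g • b = a) → ∀ D ≤ stabilizer G (a, b),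
      D.FG → FZ D ∨ (RC D ∧ K0Zero D ∧ ∃ H : Subgroup D, H.FiniteIndex ∧ FZ H)) :
    UNilTree G T ε := by
  refine unilTree_good hT act h2 fun a b hab hg D hD hfg => ?_
  rcases hfr a b hab hg D hD hfg with ⟨X, n, ⟨e⟩⟩ | ⟨h1, h2, H, h3, X, n, ⟨e⟩⟩
  · exact ⟨_, inferInstance, ⟨e.symm⟩, VN.good_free ⟨n, ⟨MulEquiv.refl _⟩⟩⟩
  · have : (H.subtype.comp e.symm.toMonoidHom).range.FiniteIndex :=
      Subgroup.finiteIndex_of_le (H := H) fun x hx => ⟨e ⟨x, hx⟩, by simp⟩
    exact ⟨_, inferInstance, ⟨MulEquiv.refl _⟩, VN.good_virt h1 h2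
      (H.subtype.comp e.symm.toMonoidHom) (Subtype.val_injective.comp e.symm.injective)
      (VN.good_free ⟨n, ⟨MulEquiv.refl _⟩⟩)⟩

theorem unilTree_free {G V : Type} [Group G] [MulAction G V] {ε : ℤˣ} {T : SimpleGraph V}
    (hT : T.IsTree) (act : ∀ (g : G) (a b : V), T.Adj a b → T.Adj (g • a) (g • b))
    (h2 : ∀ (g : G) (a : V), g * g = 1 → g • a = a)
    (hfr : ∀ a b : V, a ≠ b → (∃ g : G, g • a = b ∧ g • b = a) →
      ∃ (X : Type) (n : ℕ),
        Nonempty (stabilizer G (a, b) ≃* FreeGroup X × Multiplicative (Fin n → ℤ))) :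
    UNilTree G T ε := by
  refine unilTree_edge hT act h2 fun a b hab hg D hD _ => Or.inl ?_
  obtain ⟨X, n, ⟨e⟩⟩ := hfr a b hab hg
  exact VN.sub_free ⟨n, ⟨MulEquiv.refl _⟩⟩ (e.toMonoidHom.comp (Subgroup.inclusion hD))
    (e.injective.comp (Subgroup.inclusion_injective hD))

end Pool.Agent.Work.MP_9d1ffa_al
end

-- merged part: Pool.Agent.Work.MP_9d1ffa_al.WTree
section
/-! Stabilisers and involutions in the tree of an HNN extension. -/

namespace Pool.Agent.Work.MP_9d1ffa_al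

open Matrix MonoidAlgebra

set_option linter.unusedSectionVars false
set_option linter.unusedVariables false

open MulAction Pool.Agent.Work.MP_904812_al

variable {Γ V A K : Type} [Group Γ] [Group V] [Group A] [Group K]

/-- no elements of order two -/
def NoTwo (G : Type) [Group G] : Prop := ∀ g : G, g * g = 1 → g = 1

theorem NoTwo.of_inj (h : NoTwo Γ) (f : V →* Γ) (hf : Function.Injective f) : NoTwo V :=
  fun g e => hf ((h _ (by rw [← map_mul, e, map_one])).trans (map_one f).symm)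

theorem NoTwo.prod (h : NoTwo Γ) (h' : NoTwo V) : NoTwo (Γ × V) := fun g e =>
  Prod.ext (h _ (congrArg Prod.fst e)) (h' _ (congrArg Prod.snd e))

theorem Cut.noTwo (C : Cut Γ V A) (hV : NoTwo V) : NoTwo Γ := fun g hg => by
  have fin : ∀ c : Γ ⧸ C.v.range, g • c = c → g = 1 := fun c gc => by
    obtain ⟨γ, rfl⟩ := C.exists_o c
    obtain ⟨h, e⟩ := (C.stab_iff (γ⁻¹ * g * γ)).1 (by
      rw [mul_smul, mul_smul, gc, inv_smul_smul])
    have h1 : h = 1 := hV h (C.vinj (by
      rw [map_mul, e, map_one]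
      calc γ⁻¹ * g * γ * (γ⁻¹ * g * γ) = γ⁻¹ * (g * g) * γ := by group
        _ = 1 := by rw [hg]; group))
    rw [h1, map_one] at e
    calc g = γ * (γ⁻¹ * g * γ) * γ⁻¹ := by group
      _ = 1 := by rw [← e]; group
  have htr := tr_of_isTree C.isTree
  set d : Γ ⧸ C.v.range → Γ ⧸ C.v.range → ℤ := fun a b => (C.T.dist a b : ℤ) with hd
  have iso : ∀ (g : Γ) x y, d (g • x) (g • y) = d x y := fun g x y => by
    simp only [hd]
    rw [dist_smul C.isTree C.act]
  have adj : ∀ x y, d x y = 1 → C.T.Adj x y := fun x y e =>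
    SimpleGraph.dist_eq_one_iff_adj.1 (by simp only [hd] at e; exact_mod_cast e)
  generalize C.o = a
  generalize h1 : g • a = b
  have h2 : g • b = a := by rw [← h1, ← mul_smul, hg, one_smul]
  have flip : ∀ p, Bt d a p b → Bt d a (g • p) b ∧ d a (g • p) = d a b - d a p := fun p hp => by
    have e1 : d a (g • p) = d b p := by rw [← iso g b p, h2]
    have e2 : d (g • p) b = d p a := by rw [← iso g p a, h1]
    have := htr.symm b p
    have := htr.symm p a
    simp only [Bt] at *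
    omega
  have hpos := htr.nonneg a b
  rcases Int.even_or_odd' (d a b) with ⟨m, hm | hm⟩
  · obtain ⟨c, hc, hc'⟩ := htr.ex_bt a b (t := m) (by omega) (by omega)
    exact fin c (htr.bt_uniq (flip c hc).1 hc (by rw [(flip c hc).2]; omega))
  · exfalso
    obtain ⟨p, hp, hp'⟩ := htr.ex_bt a b (t := m) (by omega) (by omega)
    obtain ⟨hq, hq'⟩ := flip p hp
    obtain ⟨hr, hr'⟩ := flip _ hq
    refine C.noinv g (x := p) (y := g • p) (adj _ _ ?_) rfl (htr.bt_uniq hr hp (by omega))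
    have := (htr.bt_of_le hp hq (by omega)).1
    simp only [Bt] at *
    omega

/-- the stabiliser of two vertices embeds in the edge group -/
theorem Cut.stab_emb (C : Cut Γ V A) {a b : Γ ⧸ C.v.range} (hab : a ≠ b) :
    ∃ χ : stabilizer Γ (a, b) →* A, Function.Injective χ := by
  have htr := tr_of_isTree C.isTree
  set d : Γ ⧸ C.v.range → Γ ⧸ C.v.range → ℤ := fun a b => (C.T.dist a b : ℤ) with hd
  have iso : ∀ (g : Γ) x y, d (g • x) (g • y) = d x y := fun g x y => by
    simp only [hd]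
    rw [dist_smul C.isTree C.act]
  have hpos := htr.pos hab
  obtain ⟨p, hp, hp'⟩ := htr.ex_bt a b (t := 1) (by omega) (by omega)
  have adj : C.T.Adj a p := SimpleGraph.dist_eq_one_iff_adj.1 (by
    simp only [hd] at hp'
    exact_mod_cast hp')
  obtain ⟨γ, rfl⟩ := C.exists_o a
  have h3 := C.act γ⁻¹ _ _ adj
  rw [inv_smul_smul] at h3
  have main : ∀ (m : A →* V) (hm : Function.Injective m) (s : Γ)
      (edge : ∀ h, (C.v h * s) • C.o = s • C.o ↔ h ∈ m.range) (k : V),
      γ⁻¹ • p = (C.v k * s) • C.o →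
      ∃ χ : stabilizer Γ (γ • C.o, b) →* A, Function.Injective χ := fun m hm s edge k ek => by
    let f : A →* Γ := (MulAut.conj (γ * C.v k)).toMonoidHom.comp (C.v.comp m)
    have finj : Function.Injective f := (MulAut.conj _).injective.comp (C.vinj.comp hm)
    have hle : stabilizer Γ (γ • C.o, b) ≤ f.range := fun δ hδ => by
      have f1 : δ • γ • C.o = γ • C.o := congrArg Prod.fst hδ
      have f2 : δ • p = p := geo_fix htr iso f1 (congrArg Prod.snd hδ) hp
      obtain ⟨δ', e⟩ := (C.stab_iff (γ⁻¹ * δ * γ)).1 (by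
        rw [mul_smul, mul_smul, f1, inv_smul_smul])
      obtain ⟨x, hx⟩ := (edge (k⁻¹ * δ' * k)).1 (by
        have e' : C.v (k⁻¹ * δ' * k) * s = (C.v k)⁻¹ * (γ⁻¹ * (δ * (γ * (C.v k * s)))) := by
          rw [map_mul, map_mul, e, map_inv]
          group
        rw [e', mul_smul, mul_smul, mul_smul, mul_smul γ, ← ek, smul_inv_smul, f2, ek, mul_smul,
          inv_smul_smul])
      refine ⟨x, ?_⟩
      change γ * C.v k * C.v (m x) * (γ * C.v k)⁻¹ = δ
      rw [hx, map_mul, map_mul, e, map_inv]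
      group
    exact ⟨(MonoidHom.ofInjective finj).symm.toMonoidHom.comp (Subgroup.inclusion hle),
      (MonoidHom.ofInjective finj).symm.injective.comp (Subgroup.inclusion_injective hle)⟩
  obtain ⟨k, ek | ek⟩ := C.nbr h3
  · exact main C.i C.iinj _ C.edge_iff k ek
  · exact main C.j C.jinj _ C.edge_iff' k ek

theorem Cut.unil_free (C : Cut Γ V A) (hA : LF A) (hΓ : NoTwo Γ) (hK : FA K) (ε : ℤˣ) :
    UNilTree (Γ × K) (C.prod K).T ε := by
  refine unilTree_edge (C.prod K).isTree (C.prod K).act (fun g a e => ?_)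
    fun a b hab _ D hD hfg => Or.inl ?_
  · rw [hΓ.prod hK.tf.two g e, one_smul]
  · obtain ⟨χ, hχ⟩ := (C.prod K).stab_emb hab
    obtain ⟨S, hS⟩ := Group.fg_def.1 ((Group.fg_iff_subgroup_fg D).2 hfg)
    obtain ⟨H, _, f, h1, h2, h3⟩ := hA.big
      (big_all fun x : S => χ (Subgroup.inclusion hD x.1)).prod
    have h4 : Function.Injective (px K f) := h1.prodMap Function.injective_id
    have h5 : ∀ x : D, (χ.comp (Subgroup.inclusion hD)) x ∈ (px K f).range := fun x =>
      (Subgroup.closure_le ((px K f).range.comap (χ.comp (Subgroup.inclusion hD)))).2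
        (fun y hy => h3 ⟨y, hy⟩) (hS ▸ Subgroup.mem_top x)
    exact VN.sub_free hK ((px K (IsFreeGroup.toFreeGroup H).toMonoidHom).comp
      ((MonoidHom.ofInjective h4).symm.toMonoidHom.comp (MonoidHom.codRestrict _ _ h5)))
      (((IsFreeGroup.toFreeGroup H).injective.prodMap Function.injective_id).comp
        ((MonoidHom.ofInjective h4).symm.injective.comp fun x y e =>
          Subgroup.inclusion_injective hD (hχ (congrArg Subtype.val e))))

end Pool.Agent.Work.MP_9d1ffa_al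
end

-- merged part: Pool.Agent.Work.MP_9d1ffa_al.WCop
section
/-! Free products. -/

namespace Pool.Agent.Work.MP_9d1ffa_al

open Matrix MonoidAlgebra Monoid

set_option linter.unusedSectionVars false
set_option linter.unusedVariables false

variable {G H V K Q : Type} [Group G] [Group H] [Group V] [Group K] [Group Q] {ε η : ℤˣ}
  {F : ∀ (S : Type) [Group S], Prop}

/-- the free product with the infinite cyclic group -/
def phC (V : Type) [Group V] : PH (Coprod V Cy) V (FreeGroup Empty) where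
  v := Coprod.inl
  i := 1
  j := 1
  t := Coprod.inr (FreeGroup.of ())
  rel a := by simp

theorem cut_phC (V : Type) [Group V] : ∃ C : Cut _ _ _, C.toPH = phC V := by
  refine cut_of_univ _ (fun _ _ _ => Subsingleton.elim _ _) (fun _ _ _ => Subsingleton.elim _ _)
    (eq_top_iff.2 fun g _ => ?_)
    fun Γ' _ h τ _ => ⟨Coprod.lift h (cy τ), fun z => rfl, by simp [phC, cy]⟩
  induction g using Coprod.induction_on with
  | inl g => exact Subgroup.subset_closure (Or.inr ⟨g, rfl⟩)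
  | inr z =>
    induction z using FreeGroup.induction_on with
    | C1 => rw [map_one]; exact one_mem _
    | of x => exact Subgroup.subset_closure (Or.inl rfl)
    | inv_of x h => rw [map_inv]; exact inv_mem (h trivial)
    | mul a b ha hb => rw [map_mul]; exact mul_mem (ha trivial) (hb trivial)
  | mul a b ha hb => exact mul_mem (ha trivial) (hb trivial)

theorem cop_two (hV : NoTwo V) : NoTwo (Coprod V Cy) := (cut_phC V).choose.noTwo hV

theorem cop_split (hK : FA K) (hV : NoTwo V) (y : L0 (ZG (Coprod V Cy × K)) ε) :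
    ∃ (y₁ : L0 (ZG (V × K)) ε) (y₂ : L0 (ZG (Cy × K)) ε),
      y = m0 ε (px K Coprod.inl) y₁ + m0 ε (px K Coprod.inr) y₂ := by
  obtain ⟨⟨D, pos, a1, a2, a3, a4, a5, a6, a7, a8⟩, rfl : D = _⟩ := cut_phC V
  set C : Cut _ _ _ := ⟨phC V, pos, a1, a2, a3, a4, a5, a6, a7, a8⟩
  let φ : PHom phZ (phC V) :=
    { f := Coprod.inr
      fv := 1
      fa := MonoidHom.id _
      hv := fun h => by simp [phZ, phC]
      hi := fun a => rfl
      hj := fun a => rfl
      ht := rfl }
  obtain ⟨d, hd⟩ := (C.prod K).exists_ed (sfi_free hK) y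
  obtain ⟨y₂, h₂⟩ := (C.prod K).realise₀ (ε := ε) (φ.prod K) d rfl
  have e : m1 (-ε) (φ.prod K).fa d = d := m1_id d
  rw [e] at h₂
  have h := hd.sub h₂
  rw [sub_self] at h
  obtain ⟨y₁, h₁⟩ := h.split (C.unil_free (lf_free _) (cop_two hV) hK ε) ((cop_two hV).prod hK.tf.two)
  exact ⟨y₁, y₂, sub_eq_iff_eq_add.1 h₁.symm⟩

theorem dgl_mul {L : Type} [Group L] {p q : G →* Q} {p' q' : H →* Q} {p'' q'' : L →* Q} {g : G}
    {h : H} {l : L} (e : p g * p' h = p'' l) (e' : q g * q' h = q'' l) :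
    dgl p q g * dgl p' q' h = dgl p'' q'' l := Subtype.ext (by
  change diagonal _ * diagonal _ = diagonal _
  rw [diagonal_mul_diagonal]
  congr 1
  funext b
  cases b <;> simp [single_mul_single, e, e'])

theorem dgl_congr {p q : G →* Q} {p' q' : H →* Q} {g : G} {h : H} (e : p g = p' h)
    (e' : q g = q' h) : dgl p q g = dgl p' q' h := Subtype.ext (by simp only [dgl, MonoidHom.coe_mk,
      OneHom.coe_mk, e, e'])

/-- the embedding of the free product -/
def copI (G H : Type) [Group G] [Group H] : Coprod G H →* Coprod (G × H) Cy :=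
  Coprod.lift (Coprod.inl.comp (MonoidHom.inl G H))
    ((MulAut.conj (Coprod.inr (FreeGroup.of ()))).toMonoidHom.comp
      (Coprod.inl.comp (MonoidHom.inr G H)))

/-- the two sheeted representation -/
noncomputable def copR (G H K : Type) [Group G] [Group H] [Group K] :
    Coprod (G × H) Cy →* U2 (Coprod G H × K) :=
  Coprod.lift (dgl ((MonoidHom.inl _ K).comp (Coprod.inl.comp (MonoidHom.fst G H)))
    ((MonoidHom.inl _ K).comp (Coprod.inr.comp (MonoidHom.snd G H)))) (cy (swp _))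

theorem copR_I : (copR G H K).comp (copI G H) = dgl (MonoidHom.inl _ K) 1 := by
  refine Coprod.hom_ext (MonoidHom.ext fun g => ?_) (MonoidHom.ext fun g => ?_)
  · exact dgl_congr rfl (by simp)
  · have e : copR G H K (Coprod.inr (FreeGroup.of ())) = swp _ := by simp [copR, cy]
    change copR G H K (Coprod.inr (FreeGroup.of ()) * Coprod.inl (1, g) *
      (Coprod.inr (FreeGroup.of ()))⁻¹) = _
    rw [map_mul, map_mul, map_inv, e, mul_inv_eq_iff_eq_mul]
    exact (swp_conj _ _ _).trans (congrArg (· * swp _) (dgl_congr rfl (by simp)))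

theorem copI_inj : Function.Injective (copI G H) := (injective_iff_map_eq_one _).2 fun g h => by
  have := DFunLike.congr_fun (copR_I (G := G) (H := H) (K := Cy)) g
  rw [MonoidHom.comp_apply, h, map_one] at this
  exact congrArg Prod.fst (dgl_inj this.symm)

theorem NoTwo.coprod (h : NoTwo G) (h' : NoTwo H) : NoTwo (Coprod G H) :=
  (cop_two (h.prod h')).of_inj _ copI_inj

theorem copR_comm (γ : Coprod (G × H) Cy) (k : K) :
    Commute (copR G H K γ) (dgl (MonoidHom.inr _ K) (MonoidHom.inr _ K) k) := by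
  induction γ using Coprod.induction_on with
  | inl g =>
    exact (dgl_mul (p'' := px K (Coprod.inl.comp (MonoidHom.fst G H)))
      (q'' := px K (Coprod.inr.comp (MonoidHom.snd G H))) (l := (g, k)) (by simp) (by simp)).trans
      (dgl_mul (by simp) (by simp)).symm
  | inr z =>
    induction z using FreeGroup.induction_on with
    | C1 => rw [map_one, map_one]; exact Commute.one_left _
    | of x => simpa [copR, cy] using swp_comm _ k
    | inv_of x h => rw [map_inv, map_inv]; exact h.inv_left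
    | mul a b ha hb => rw [map_mul, map_mul]; exact ha.mul_left hb
  | mul a b ha hb => rw [map_mul]; exact ha.mul_left hb

/-- the two sheeted representation of the product -/
noncomputable def copP (G H K : Type) [Group G] [Group H] [Group K] :
    Coprod (G × H) Cy × K →* U2 (Coprod G H × K) := (copR G H K).noncommCoprod _ copR_comm

theorem copP_apply (g : Coprod (G × H) Cy × K) :
    copP G H K g = copR G H K g.1 * dgl (MonoidHom.inr _ K) (MonoidHom.inr _ K) g.2 := rfl

theorem copP_I : (copP G H K).comp (px K (copI G H)) = dgl (MonoidHom.id _) (px K 1) :=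
  MonoidHom.ext fun g => by
    rw [MonoidHom.comp_apply, copP_apply]
    exact (congrArg (· * _) (DFunLike.congr_fun copR_I g.1)).trans
      (dgl_mul (by simp) (by simp [Prod.map]))

theorem copP_inl : (copP G H K).comp (px K Coprod.inl) =
    dgl (px K (Coprod.inl.comp (MonoidHom.fst G H))) (px K (Coprod.inr.comp (MonoidHom.snd G H))) :=
  MonoidHom.ext fun g => by
    rw [MonoidHom.comp_apply, copP_apply]
    exact dgl_mul (by simp [Prod.map]) (by simp [Prod.map])

theorem mp_cy_swp (k : Q →* Q) (z : Cy) : mp k (cy (swp Q) z).1 = (cy (swp Q) z).1 := by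
  induction z using FreeGroup.induction_on with
  | C1 => rw [map_one]; exact mp_one _
  | of x => simpa [cy] using mp_swp _
  | inv_of x h => rw [map_inv]; exact (mp_ct _ _).trans (congrArg conjTranspose h)
  | mul a b ha hb => rw [map_mul, Submonoid.coe_mul, mp_mul, ha, hb]

theorem copP_inr (k : Coprod G H × K →* Coprod G H × K)
    (hk : k.comp (MonoidHom.inr _ K) = MonoidHom.inr _ K) (y : L0 (ZG (Cy × K)) ε) :
    m0 ε k (trf ε ((copP G H K).comp (px K Coprod.inr)) y) =
      trf ε ((copP G H K).comp (px K Coprod.inr)) y := by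
  refine trf_fix _ _ (fun g => ?_) y
  have e : copR G H K (px K Coprod.inr g).1 = cy (swp _) g.1 := rfl
  rw [MonoidHom.comp_apply, copP_apply, e, Submonoid.coe_mul, mp_mul, mp_cy_swp, mp_dgl, hk]

theorem cop_eq (hK : FA K) (h2 : NoTwo G) (h2' : NoTwo H) (x : L0 (ZG (Coprod G H × K)) ε) :
    ∃ (y₁ : L0 (ZG ((G × H) × K)) ε) (w : L0 (ZG (Coprod G H × K)) ε),
      x + m0 ε (px K (1 : Coprod G H →* Coprod G H)) x =
      m0 ε (px K (Coprod.inl.comp (MonoidHom.fst G H))) y₁ +
        m0 ε (px K (Coprod.inr.comp (MonoidHom.snd G H))) y₁ +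
        m0 ε (px K (1 : Coprod G H →* Coprod G H)) w := by
  obtain ⟨y₁, y₂, hy⟩ := cop_split hK (h2.prod h2') (m0 ε (px K (copI G H)) x)
  have e1 := trf_m0 (copP G H K) (px K (copI G H)) x
  have e2 := trf_m0 (copP G H K) (px K Coprod.inl) y₁
  have e3 := trf_m0 (copP G H K) (px K Coprod.inr) y₂
  rw [← copP_inr (G := G) (H := H) (px K 1) rfl y₂] at e3
  rw [copP_inl, trf_dgl] at e2
  rw [copP_I, trf_dgl, m0_id] at e1
  rw [hy, map_add, e2, e3] at e1
  exact ⟨y₁, _, e1.symm⟩

theorem Sur.coprod (hK : FA K) (h2 : NoTwo G) (h2' : NoTwo H) (h : Sur F K ε G)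
    (h' : Sur F K ε H) : Sur F K ε (Coprod G H) := by
  intro x
  have one : ∀ w : L0 (ZG (Coprod G H × K)) ε,
      m0 ε (px K (1 : Coprod G H →* Coprod G H)) w ∈ Gen0 F K ε (Coprod G H) := fun w => by
    have := gen0_map (Coprod.inl : G →* Coprod G H) (h (m0 ε (px K 1) w))
    rwa [m0_px, MonoidHom.comp_one] at this
  obtain ⟨y₁, w, e⟩ := cop_eq hK h2 h2' x
  have k1 := gen0_map (Coprod.inl : G →* Coprod G H) (h (m0 ε (px K (MonoidHom.fst G H)) y₁))
  have k2 := gen0_map (Coprod.inr : H →* Coprod G H) (h' (m0 ε (px K (MonoidHom.snd G H)) y₁))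
  rw [m0_px] at k1 k2
  rw [eq_sub_iff_add_eq.2 e]
  exact sub_mem (add_mem (add_mem k1 k2) (one _)) (one _)

theorem Inj.coprod {hK : FA K} (h : Inj hK η G) (h' : Inj hK η H) : Inj hK η (Coprod G H) := by
  refine h.two h' Coprod.fst Coprod.inl Coprod.snd Coprod.inr fun g => ?_
  induction g using Coprod.induction_on with
  | inl g => simp [ab_one]
  | inr g => simp [ab_one]
  | mul a b ha hb =>
    rw [ab_mul, ha, hb, map_mul, map_mul, map_mul, map_mul, ab_mul, ab_mul, add_add_add_comm]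

end Pool.Agent.Work.MP_9d1ffa_al
end
end

-- merged part: Pool.Agent.Work.MP_9d1ffa_al.WGood
section
-- merged part: Pool.Agent.Work.MP_9d1ffa_al.WGood
section
/-! Induction along a hierarchy. -/

namespace Pool.Agent.Work.MP_9d1ffa_al

open Matrix MonoidAlgebra Monoid

set_option linter.unusedSectionVars false
set_option linter.unusedVariables false

variable {G H K X : Type} [Group G] [Group H] [Group K] {ε : ℤˣ}
  {F : ∀ (S : Type) [Group S], Prop} {hK : FA K}

/-- the properties that pass along a hierarchy -/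
structure Fine (hK : FA K) (ε : ℤˣ) (F : ∀ (S : Type) [Group S], Prop) (G : Type) [Group G] :
    Prop where
  two : NoTwo G
  inj : Inj hK (-ε) G
  sur : Sur F K ε G

theorem Fine.ret (h : Fine hK ε F H) (s : G →* H) (r : H →* G) (e : ∀ g, r (s g) = g) :
    Fine hK ε F G :=
  ⟨h.two.of_inj s (Function.LeftInverse.injective e), h.inj.ret s r (MonoidHom.ext e),
    h.sur.ret s r (MonoidHom.ext e)⟩

theorem Fine.lcl (h : Lcl (Fine hK ε F) G) : Fine hK ε F G := by
  refine ⟨fun g e => ?_, Inj.lcl (h.mono fun _ _ k => k.inj), Sur.lcl (h.mono fun _ _ k => k.sur)⟩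
  obtain ⟨H, _, f, h1, h2, g, rfl⟩ := h.big (big_mem g)
  rw [h2.two g (h1 (by rw [map_mul, e, map_one])), map_one]

theorem Fine.coprod (h : Fine hK ε F G) (h' : Fine hK ε F H) : Fine hK ε F (Coprod G H) :=
  ⟨h.two.coprod h'.two, h.inj.coprod h'.inj, h.sur.coprod hK h.two h'.two h'.sur⟩

theorem LocFree.lf (h : LocFree G) : LF G := fun T =>
  ⟨Subgroup.closure (T : Set G), inferInstance, Subgroup.subtype _, Subgroup.subtype_injective _,
    fun g hg => ⟨⟨g, Subgroup.subset_closure hg⟩, rfl⟩, h _ ⟨T, rfl⟩⟩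

variable (hF : ∀ e g, F (Surf e (g + 1)))
include hF

theorem fine_triv [Subsingleton G] : Fine hK ε F G :=
  ⟨fun _ _ => Subsingleton.elim _ _, fun ξ _ => by
    rw [← tm_id ξ, show MonoidHom.id G = 1 from MonoidHom.ext fun _ => Subsingleton.elim _ _,
      tm_one], (sur_of_mem (hF 0 0)).ret 1 1 (MonoidHom.ext fun _ => Subsingleton.elim _ _)⟩

theorem fine_univ {Γ V A : Type} [Group Γ] [Group V] [Group A] (hA : LF A) {D : PH Γ V A}
    (hC : ∃ C : Cut Γ V A, C.toPH = D) (χ : Γ →* Cy) (h1 : χ.comp D.v = 1)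
    (h2 : χ D.t = FreeGroup.of ()) (h : Fine hK ε F V) : Fine hK ε F Γ := by
  obtain ⟨C, rfl⟩ := hC
  have two := C.noTwo h.two
  exact ⟨two, C.inj hA χ h1 h2 h.inj, C.sur hA hK hF (C.unil_free hA two hK ε) (two.prod hK.tf.two)
    (fun _ => h.inj _) fun y => gen0_map _ (h.sur y)⟩

theorem fine_fin (n : ℕ) : ∀ (X : Type) [Finite X], Nat.card X = n → Fine hK ε F (FreeGroup X) := by
  induction n with
  | zero =>
    intro X _ h
    have : IsEmpty X := (Finite.card_eq_zero_iff).1 h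
    exact fine_triv hF
  | succ n ih =>
    intro X _ h
    obtain ⟨x₀⟩ : Nonempty X := Finite.card_pos_iff.1 (by omega)
    have := Fintype.ofFinite X
    classical
    refine fine_univ hF (lf_free _) (cut_free x₀)
      (FreeGroup.lift fun x => if x = x₀ then .of () else 1) ?_ (by simp [phX]) (ih _ ?_)
    · ext ⟨x, hx⟩
      simp [phX, hx]
    · rw [Nat.card_eq_fintype_card] at h ⊢
      rw [Fintype.card_subtype_compl, Fintype.card_subtype_eq, h]
      rfl

theorem fine_free (X : Type) : Fine hK ε F (FreeGroup X) :=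
  Fine.lcl (lcl_free fun S => fine_fin hF _ _ rfl)

theorem fine_hnn {V : Type} [Group V] {A A' : Subgroup V} (φ : A ≃* A') (hA : LF A)
    (h : Fine hK ε F V) : Fine hK ε F (HNNExtension V A A' φ) := by
  let D : PH (HNNExtension V A A' φ) V A :=
    { v := HNNExtension.of
      i := A'.subtype.comp φ.toMonoidHom
      j := A.subtype
      t := HNNExtension.t
      rel := fun a => (HNNExtension.t_mul_of a).symm }
  refine fine_univ hF hA (cut_of_univ D (A'.subtype_injective.comp φ.injective) A.subtype_injective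
    (eq_top_iff.2 fun g hg => ?_) fun Γ' _ f τ k => ⟨HNNExtension.lift f τ fun a => (k a).symm,
      fun x => HNNExtension.lift_of _ _ _ x, HNNExtension.lift_t _ _ _⟩)
    (HNNExtension.lift 1 (FreeGroup.of ()) fun a => by simp)
    (MonoidHom.ext fun x => by simp [D]) (HNNExtension.lift_t _ _ _) h
  clear hg
  induction g using HNNExtension.induction_on with
  | of g => exact Subgroup.subset_closure (Or.inr ⟨g, rfl⟩)
  | t => exact Subgroup.subset_closure (Or.inl rfl)
  | mul x y hx hy => exact mul_mem hx hy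
  | inv x hx => exact inv_mem hx

theorem fine_amalg {A : Type} [Group A] (hA : LF A) {V : Bool → Type} [∀ i, Group (V i)]
    (φ : ∀ i, A →* V i) (hφ : ∀ i, Function.Injective (φ i)) (h : ∀ i, Fine hK ε F (V i)) :
    Fine hK ε F (PushoutI φ) := by
  let i : A →* Coprod (V false) (V true) := Coprod.inl.comp (φ false)
  let j : A →* Coprod (V false) (V true) := Coprod.inr.comp (φ true)
  have hi : Function.Injective i := Coprod.inl_injective.comp (hφ false)
  have hj : Function.Injective j := Coprod.inr_injective.comp (hφ true)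
  let ψ : j.range ≃* i.range := (MonoidHom.ofInjective hj).symm.trans (MonoidHom.ofInjective hi)
  have hψ : ∀ a, (ψ ⟨j a, a, rfl⟩ : Coprod (V false) (V true)) = i a := fun a => by
    have : (MonoidHom.ofInjective hj).symm ⟨j a, a, rfl⟩ = a := (MulEquiv.symm_apply_eq _).2 rfl
    simp only [ψ, MulEquiv.trans_apply, this]
    rfl
  let s : ∀ b, V b →* HNNExtension _ _ _ ψ := fun b => match b with
    | false => HNNExtension.of.comp Coprod.inl
    | true => (MulAut.conj HNNExtension.t).toMonoidHom.comp (HNNExtension.of.comp Coprod.inr)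
  have hs : ∀ b, (s b).comp (φ b) = HNNExtension.of.comp i := by
    rintro (_ | _)
    · rfl
    · refine MonoidHom.ext fun a => ?_
      change HNNExtension.t * HNNExtension.of (j a) * HNNExtension.t⁻¹ = HNNExtension.of (i a)
      rw [← hψ, mul_inv_eq_iff_eq_mul]
      exact HNNExtension.t_mul_of (φ := ψ) ⟨j a, a, rfl⟩
  let r : HNNExtension _ _ _ ψ →* PushoutI φ :=
    HNNExtension.lift (Coprod.lift (PushoutI.of false) (PushoutI.of true)) 1 (by
      rintro ⟨_, a, rfl⟩
      rw [hψ, one_mul, mul_one]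
      exact (PushoutI.of_apply_eq_base φ true a).trans (PushoutI.of_apply_eq_base φ false a).symm)
  refine (fine_hnn hF ψ (hA.equiv (MonoidHom.ofInjective hj))
    ((h false).coprod (h true))).ret (PushoutI.lift s _ hs) r
    (DFunLike.congr_fun (show r.comp _ = MonoidHom.id _ from PushoutI.hom_ext_nonempty ?_))
  rintro (_ | _) <;> ext g <;> simp [r, s]

theorem fine_aux (n : ℕ) : ∀ (X : Type) (L : List (X × Bool)), L.length < n →
    TF (OR (FreeGroup.mk L)) → Fine hK ε F (OR (FreeGroup.mk L)) := by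
  have ret : ∀ {X Y : Type} {r : FreeGroup X} {r' : FreeGroup Y}, Ret r r' →
      Fine hK ε F (OR r') → Fine hK ε F (OR r) := fun R h => by
    obtain ⟨f, g, -, -, e⟩ := R.exists_maps
    exact h.ret f g e
  have sec : ∀ {X : Type} {r : FreeGroup X} (κ : FreeGroup X →* FreeGroup X), κ r = 1 →
      (pr r).comp κ = pr r → Fine hK ε F (OR r) := fun {X r} κ h1 h2 => by
    obtain ⟨s, hs⟩ := exists_lift κ h1
    refine (fine_free hF X).ret s (pr r) fun x => ?_
    obtain ⟨z, rfl⟩ := pr_surj _ x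
    rw [hs]
    exact DFunLike.congr_fun h2 z
  induction n with
  | zero => intro X L h; omega
  | succ n ih =>
    intro X L₀ hn ht
    obtain ⟨L, g, hL, e, hl⟩ := exists_cred L₀
    rw [e] at ht ⊢
    have ht' := (Ret.conj' _ g).tf ht
    refine ret (Ret.conj _ g) ?_
    have step : ∀ (a b : X) (w : X → ℤ), a ≠ b → (∃ s, (a, s) ∈ L) → (∃ s, (b, s) ∈ L) →
        w a ≠ 0 → wdeg w L = 0 → Fine hK ε F (OR (FreeGroup.mk L)) := by
      intro a b w h1 h2 h3 h4 h5
      obtain ⟨M, h, l, L', φ, k1, rfl, -, -, k5, k6, k7, -⟩ := ms hL h1 h2 h3 w h4 h5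
      have t0 : TF (OR (vF b M (φ (FreeGroup.mk L')))) := k7 ▸ tf_alpha ht' w h
      have t1 := tf_vertex k5 k6 t0
      have t2 : TF (OR (FreeGroup.mk L')) := by
        have := (Ret.aut φ.symm (φ (FreeGroup.mk L'))).tf t1
        rwa [φ.symm_apply_apply] at this
      let δ : FreeGroup (Option X) →* Cy := FreeGroup.lift fun o => o.elim (.of ()) fun _ => 1
      have d1 : δ.comp (vF b M) = 1 := by
        ext p
        simp [δ, vF]
      obtain ⟨χ, hχ⟩ := exists_lift (r := vF b M (φ (FreeGroup.mk L'))) δ (DFunLike.congr_fun d1 _)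
      have l1 := fine_univ hF (lf_free _) (cut_std (freiheit k5) (freiheit k6)) χ
        (MonoidHom.ext fun x => by
        obtain ⟨z, rfl⟩ := pr_surj _ x
        exact (hχ _).trans (DFunLike.congr_fun d1 z)) ((hχ _).trans (by simp [δ]))
        (ret (Ret.aut φ _) (ih _ L' (by omega) t2))
      rw [k7] at l1
      exact ret (Ret.alpha _ w h) l1
    cases L with
    | nil => exact sec (MonoidHom.id _) rfl rfl
    | cons p L =>
      have hb : ∃ s, (p.1, s) ∈ p :: L := ⟨p.2, List.mem_cons_self⟩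
      rcases all_or_exists (p :: L) p.1 with h | ⟨a₀, h0, ha₀⟩
      · obtain ⟨k, hk⟩ := mk_eq_zpow h
        rw [hk] at ht' ⊢
        classical
        have key : pr (FreeGroup.of p.1 ^ k) (FreeGroup.of p.1) = 1 →
            Fine hK ε F (OR (FreeGroup.of p.1 ^ k)) := fun e => by
          refine sec (FreeGroup.lift fun x => if x = p.1 then 1 else .of x) (by simp) ?_
          ext x
          by_cases h : x = p.1
          · simp [h, e]
          · simp [h]
        rcases zpow_of_tf ht' with rfl | rfl | rfl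
        · exact sec (MonoidHom.id _) (zpow_zero _) rfl
        · exact key (by simpa using pr_self (FreeGroup.of p.1 ^ (1 : ℤ)))
        · exact key (by simpa using pr_self (FreeGroup.of p.1 ^ (-1 : ℤ)))
      rcases choose_w h0 ha₀ with ⟨a, w, h1, h2, h3, h4⟩ | ⟨h1, w, h2, h3, h4⟩
      · exact step a p.1 w h1 h2 hb h3 h4
      · exact step p.1 a₀ w h0.symm hb ha₀ (by omega) h4

theorem Hier.fine {B : ∀ (S : Type) [Group S], Prop}
    (hB : ∀ (S : Type) [Group S], B S → Fine hK ε F S) (h : Hier B G) : Fine hK ε F G := by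
  induction h with
  | base G h => exact hB G h
  | oneRel X r h =>
    obtain ⟨L, rfl⟩ : ∃ L, FreeGroup.mk L = r := Quot.exists_rep r
    exact fine_aux hF _ X L (Nat.lt_succ_self _) h
  | hnn V A A' φ hA _ ih => exact fine_hnn hF φ hA.lf ih
  | amalg A V φ hA hφ _ ih => exact fine_amalg hF hA.lf φ hφ ih
  | retract G H s r e _ ih => exact ih.ret s r e
  | union G N e _ ih =>
    exact Fine.lcl fun T => ⟨N T, inferInstance, (N T).subtype, (N T).subtype_injective,
      fun g hg => ⟨⟨g, e T g hg⟩, rfl⟩, ih T⟩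

omit hF in
theorem induced_of_mem {x : L0 (ZG (G × K)) ε} (h : x ∈ Gen0 F K ε G) :
    ∀ {I : Type} [Fintype I] [DecidableEq I] {ψ : Matrix I I (ZG (G × K))}, NS ε ψ →
      cls ε ψ = x → Induced ε F ψ := by
  have step : ∀ {S : Type} [Group S] (f : S →* G) (y : L0 (ZG (S × K)) ε) (x : L0 (ZG (G × K)) ε),
      F S → (∀ {I : Type} [Fintype I] [DecidableEq I] {ψ : Matrix I I (ZG (G × K))}, NS ε ψ →
        cls ε ψ = x → Induced ε F ψ) → ∀ {I : Type} [Fintype I] [DecidableEq I]
        {ψ : Matrix I I (ZG (G × K))}, NS ε ψ → cls ε ψ = m0 ε (px K f) y + x → Induced ε F ψ := by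
    intro S _ f y x hS ih I _ _ ψ hψ e
    obtain ⟨m, φ, hφ, rfl⟩ := cls_surj y
    have h1 : NS ε (-mp (px K f) φ) := (hφ.mp _).neg
    refine Induced.step ψ S hS f m φ hφ (ih (hψ.sum h1) ?_)
    exact (cls_sum hψ h1).trans (by rw [cls_neg, ← m0_cls _ hφ, e, add_neg_cancel_comm])
  induction h using AddSubgroup.closure_induction_left with
  | zero => exact fun hψ e => Induced.hyp _ (z_iff.2 ((cls_eq_zero hψ).1 e))
  | add_left x hx y _ ih =>
    obtain ⟨S, _, f, hS, z, rfl⟩ := hx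
    intro I _ _ ψ
    exact step f z y hS ih
  | neg_add_cancel x hx y _ ih =>
    obtain ⟨S, _, f, hS, z, rfl⟩ := hx
    rw [← map_neg]
    intro I _ _ ψ
    exact step f (-z) y hS ih

omit hF in
theorem hier_induced {B : ∀ (S : Type) [Group S], Prop}
    (hB : ∀ (S : Type) [Group S], B S →
      (∀ g : S, g * g = 1 → g = 1) ∧ IsMulTorsionFree (Abelianization S))
    (h : Hier B G) (hK : FA K) {I : Type} [Fintype I] [DecidableEq I]
    {ψ : Matrix I I (ZG (G × K))} (hψ : IsUnit (symF ε ψ)) :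
    Induced ε (fun S _ => B S ∨ ∃ e g : ℕ, Nonempty (S ≃* Surf e (g + 1))) ψ :=
  induced_of_mem ((h.fine (hK := hK) (fun e g => Or.inr ⟨e, g, ⟨MulEquiv.refl _⟩⟩) fun S _ k =>
    ⟨(hB S k).1, inj_of_tf (hB S k).2, sur_of_mem (Or.inl k)⟩).sur _) hψ rfl

end Pool.Agent.Work.MP_9d1ffa_al
end

-- merged part: Pool.Agent.Work.MP_9d1ffa_al.Br.Ind
section
/-! The induction principle for hierarchies along locally free groups. -/

namespace Pool.Agent.Work.MP_9d1ffa_al

open Matrix MonoidAlgebra Monoid FreeGroup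

set_option linter.unusedSectionVars false
set_option linter.unusedVariables false

/-- the universal property of an HNN extension -/
def PH.Univ {Γ V A : Type} [Group Γ] [Group V] [Group A] (D : PH Γ V A) : Prop :=
  ∀ (Γ' : Type) [Group Γ'] (h : V →* Γ') (τ : Γ'), (∀ a, h (D.i a) * τ = τ * h (D.j a)) →
    ∃ Ψ : Γ →* Γ', (∀ x, Ψ (D.v x) = h x) ∧ Ψ D.t = τ

/-- a property of groups that passes along hierarchies -/
structure Closed (P : ∀ (G : Type) [Group G], Prop) : Prop where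
  triv : ∀ (G : Type) [Group G] [Subsingleton G], P G
  ret : ∀ (G H : Type) [Group G] [Group H] (s : G →* H) (r : H →* G), (∀ g, r (s g) = g) →
    P H → P G
  lcl : ∀ (G : Type) [Group G], Lcl P G → P G
  cop : ∀ (G H : Type) [Group G] [Group H], P G → P H → P (Coprod G H)
  cut : ∀ (Γ V A : Type) [Group Γ] [Group V] [Group A] (C : Cut Γ V A), C.toPH.Univ → LF A →
    P V → P Γ

variable {X : Type}

theorem univ_free (x₀ : X) : (phX x₀).Univ := by
  classical
  refine fun Γ' _ h τ _ => ⟨FreeGroup.lift fun x => if e : x = x₀ then τ else h (of ⟨x, e⟩),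
      fun z => ?_, by simp [phX]⟩
  rw [← MonoidHom.comp_apply]
  refine DFunLike.congr_fun ?_ z
  ext y
  simp [phX, y.2]

theorem univ_std {b : X} {M : ℕ} {l : FreeGroup (Xp b M)} : (phG l).Univ := by
  have h0 : ∀ x : X, x = b → (0 : ℤ) ≤ 0 ∧ (0 : ℤ) ≤ M := fun _ _ => ⟨le_rfl, Int.natCast_nonneg M⟩
  intro Γ' _ h τ hr
  have st : ∀ (x : X) (k : ℤ) (p : x = b → 0 ≤ k ∧ k ≤ M) (q : x = b → 0 ≤ k + 1 ∧ k + 1 ≤ M),
      h (pr l (of ⟨(x, k + 1), q⟩)) * τ = τ * h (pr l (of ⟨(x, k), p⟩)) := fun x k p q => by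
    have := hr (of ⟨⟨(x, k), p⟩, fun e => by
      have e1 := q (congrArg (fun p => p.1.1) e)
      have e2 : k = M := congrArg (fun p => p.1.2) e
      omega⟩)
    simpa [phG, phF, shf] using this
  have key : ∀ (x : X) (k : ℤ) (p : x = b → 0 ≤ k ∧ k ≤ M),
      τ ^ k * h (pr l (of ⟨(x, 0), h0 x⟩)) * (τ ^ k)⁻¹ = h (pr l (of ⟨(x, k), p⟩)) := by
    intro x k
    induction k using Int.induction_on with
    | zero => intro p; simp
    | succ k ih =>
      intro p
      have q : x = b → 0 ≤ (k : ℤ) ∧ (k : ℤ) ≤ M := fun e => by have := p e; omega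
      rw [eq_mul_inv_of_mul_eq (st x k q p), ← ih q]
      group
    | pred k ih =>
      intro p
      have q : x = b → 0 ≤ -(k : ℤ) - 1 + 1 ∧ -(k : ℤ) - 1 + 1 ≤ M := fun e => by
        have := p e; omega
      have e := st x _ p q
      simp only [sub_add_cancel] at e q
      rw [← ih q] at e
      rw [← inv_mul_eq_of_eq_mul e]
      group
  obtain ⟨Ψ₀, hΨ₀⟩ : ∃ Ψ₀ : FreeGroup (Option X) →* Γ', Ψ₀ = FreeGroup.lift fun o =>
      o.elim τ fun x => h (pr l (of ⟨(x, 0), h0 x⟩)) := ⟨_, rfl⟩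
  have e : Ψ₀.comp (vF b M) = h.comp (pr l) := by
    ext y
    simpa [hΨ₀, vF] using key y.1.1 y.1.2 y.2
  obtain ⟨Ψ, hΨ⟩ := exists_lift (r := vF b M l) Ψ₀
    ((DFunLike.congr_fun e l).trans (by simp [pr_self]))
  refine ⟨Ψ, fun z => ?_, (hΨ _).trans (by simp [hΨ₀])⟩
  obtain ⟨z, rfl⟩ := PresentedGroup.mk_surjective _ z
  exact (hΨ _).trans (DFunLike.congr_fun e z)

variable {P : ∀ (G : Type) [Group G], Prop} (h0 : Closed P) {G : Type} [Group G]
include h0

theorem Closed.fin (n : ℕ) : ∀ (X : Type) [Finite X], Nat.card X = n → P (FreeGroup X) := by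
  induction n with
  | zero =>
    intro X _ h
    have : IsEmpty X := (Finite.card_eq_zero_iff).1 h
    exact h0.triv _
  | succ n ih =>
    intro X _ h
    obtain ⟨x₀⟩ : Nonempty X := Finite.card_pos_iff.1 (by omega)
    have := Fintype.ofFinite X
    classical
    obtain ⟨C, hC⟩ := cut_free x₀
    refine h0.cut _ _ _ C (hC ▸ univ_free x₀) (lf_free _) (ih _ ?_)
    rw [Nat.card_eq_fintype_card] at h ⊢
    rw [Fintype.card_subtype_compl, Fintype.card_subtype_eq, h]
    rfl

theorem Closed.free (X : Type) : P (FreeGroup X) :=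
  h0.lcl _ (lcl_free fun S => h0.fin _ _ rfl)

theorem Closed.equiv {H : Type} [Group H] (e : G ≃* H) (h : P H) : P G :=
  h0.ret _ _ e.toMonoidHom e.symm.toMonoidHom e.symm_apply_apply h

theorem Closed.lf (h : LF G) : P G :=
  h0.lcl _ (h.mono fun H _ k => h0.equiv (IsFreeGroup.toFreeGroup H) (h0.free _))

theorem Closed.hnn {V : Type} [Group V] {A A' : Subgroup V} (φ : A ≃* A') (hA : LF A)
    (h : P V) : P (HNNExtension V A A' φ) := by
  let D : PH (HNNExtension V A A' φ) V A :=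
    { v := HNNExtension.of
      i := A'.subtype.comp φ.toMonoidHom
      j := A.subtype
      t := HNNExtension.t
      rel := fun a => (HNNExtension.t_mul_of a).symm }
  have u : D.Univ := fun Γ' _ f τ k => ⟨HNNExtension.lift f τ fun a => (k a).symm,
      fun x => HNNExtension.lift_of _ _ _ x, HNNExtension.lift_t _ _ _⟩
  obtain ⟨C, hC⟩ := cut_of_univ D (A'.subtype_injective.comp φ.injective) A.subtype_injective
    (eq_top_iff.2 fun g hg => by
      clear hg
      induction g using HNNExtension.induction_on with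
      | of g => exact Subgroup.subset_closure (Or.inr ⟨g, rfl⟩)
      | t => exact Subgroup.subset_closure (Or.inl rfl)
      | mul x y hx hy => exact mul_mem hx hy
      | inv x hx => exact inv_mem hx) u
  exact h0.cut _ _ _ C (hC ▸ u) hA h

theorem Closed.amalg {A : Type} [Group A] (hA : LF A) {V : Bool → Type} [∀ i, Group (V i)]
    (φ : ∀ i, A →* V i) (hφ : ∀ i, Function.Injective (φ i)) (h : ∀ i, P (V i)) :
    P (PushoutI φ) := by
  let i : A →* Coprod (V false) (V true) := Coprod.inl.comp (φ false)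
  let j : A →* Coprod (V false) (V true) := Coprod.inr.comp (φ true)
  have hi : Function.Injective i := Coprod.inl_injective.comp (hφ false)
  have hj : Function.Injective j := Coprod.inr_injective.comp (hφ true)
  let ψ : j.range ≃* i.range := (MonoidHom.ofInjective hj).symm.trans (MonoidHom.ofInjective hi)
  have hψ : ∀ a, (ψ ⟨j a, a, rfl⟩ : Coprod (V false) (V true)) = i a := fun a => by
    have : (MonoidHom.ofInjective hj).symm ⟨j a, a, rfl⟩ = a := (MulEquiv.symm_apply_eq _).2 rfl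
    simp only [ψ, MulEquiv.trans_apply, this]
    rfl
  let s : ∀ b, V b →* HNNExtension _ _ _ ψ := fun b => match b with
    | false => HNNExtension.of.comp Coprod.inl
    | true => (MulAut.conj HNNExtension.t).toMonoidHom.comp (HNNExtension.of.comp Coprod.inr)
  have hs : ∀ b, (s b).comp (φ b) = HNNExtension.of.comp i := by
    rintro (_ | _)
    · rfl
    · refine MonoidHom.ext fun a => ?_
      change HNNExtension.t * HNNExtension.of (j a) * HNNExtension.t⁻¹ = HNNExtension.of (i a)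
      rw [← hψ, mul_inv_eq_iff_eq_mul]
      exact HNNExtension.t_mul_of (φ := ψ) ⟨j a, a, rfl⟩
  let r : HNNExtension _ _ _ ψ →* PushoutI φ :=
    HNNExtension.lift (Coprod.lift (PushoutI.of false) (PushoutI.of true)) 1 (by
      rintro ⟨_, a, rfl⟩
      rw [hψ, one_mul, mul_one]
      exact (PushoutI.of_apply_eq_base φ true a).trans (PushoutI.of_apply_eq_base φ false a).symm)
  refine h0.ret _ _ (PushoutI.lift s _ hs) r
    (DFunLike.congr_fun (show r.comp _ = MonoidHom.id _ from PushoutI.hom_ext_nonempty ?_))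
    (h0.hnn ψ (hA.equiv (MonoidHom.ofInjective hj)) (h0.cop _ _ (h false) (h true)))
  rintro (_ | _) <;> ext g <;> simp [r, s]

theorem Closed.aux (n : ℕ) : ∀ (X : Type) (L : List (X × Bool)), L.length < n →
    TF (OR (FreeGroup.mk L)) → P (OR (FreeGroup.mk L)) := by
  have ret : ∀ {X Y : Type} {r : FreeGroup X} {r' : FreeGroup Y}, Ret r r' →
      P (OR r') → P (OR r) := fun R h => by
    obtain ⟨f, g, -, -, e⟩ := R.exists_maps
    exact h0.ret _ _ f g e h
  have sec : ∀ {X : Type} {r : FreeGroup X} (κ : FreeGroup X →* FreeGroup X), κ r = 1 →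
      (pr r).comp κ = pr r → P (OR r) := fun {X r} κ h1 h2 => by
    obtain ⟨s, hs⟩ := exists_lift κ h1
    refine h0.ret _ _ s (pr r) (fun x => ?_) (h0.free X)
    obtain ⟨z, rfl⟩ := pr_surj _ x
    rw [hs]
    exact DFunLike.congr_fun h2 z
  induction n with
  | zero => intro X L h; omega
  | succ n ih =>
    intro X L₀ hn ht
    obtain ⟨L, g, hL, e, hl⟩ := exists_cred L₀
    rw [e] at ht ⊢
    have ht' := (Ret.conj' _ g).tf ht
    refine ret (Ret.conj _ g) ?_
    have step : ∀ (a b : X) (w : X → ℤ), a ≠ b → (∃ s, (a, s) ∈ L) → (∃ s, (b, s) ∈ L) →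
        w a ≠ 0 → wdeg w L = 0 → P (OR (FreeGroup.mk L)) := by
      intro a b w h1 h2 h3 h4 h5
      obtain ⟨M, h, l, L', φ, k1, rfl, -, -, k5, k6, k7, -⟩ := ms hL h1 h2 h3 w h4 h5
      have t0 : TF (OR (vF b M (φ (FreeGroup.mk L')))) := k7 ▸ tf_alpha ht' w h
      have t1 := tf_vertex k5 k6 t0
      have t2 : TF (OR (FreeGroup.mk L')) := by
        have := (Ret.aut φ.symm (φ (FreeGroup.mk L'))).tf t1
        rwa [φ.symm_apply_apply] at this
      obtain ⟨C, hC⟩ := cut_std (freiheit k5) (freiheit k6)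
      have l1 := h0.cut _ _ _ C (hC ▸ univ_std) (lf_free _)
        (ret (Ret.aut φ _) (ih _ L' (by omega) t2))
      rw [k7] at l1
      exact ret (Ret.alpha _ w h) l1
    cases L with
    | nil => exact sec (MonoidHom.id _) rfl rfl
    | cons p L =>
      have hb : ∃ s, (p.1, s) ∈ p :: L := ⟨p.2, List.mem_cons_self⟩
      rcases all_or_exists (p :: L) p.1 with h | ⟨a₀, hz, ha₀⟩
      · obtain ⟨k, hk⟩ := mk_eq_zpow h
        rw [hk] at ht' ⊢
        classical
        have key : pr (FreeGroup.of p.1 ^ k) (FreeGroup.of p.1) = 1 →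
            P (OR (FreeGroup.of p.1 ^ k)) := fun e => by
          refine sec (FreeGroup.lift fun x => if x = p.1 then 1 else .of x) (by simp) ?_
          ext x
          by_cases h : x = p.1
          · simp [h, e]
          · simp [h]
        rcases zpow_of_tf ht' with rfl | rfl | rfl
        · exact sec (MonoidHom.id _) (zpow_zero _) rfl
        · exact key (by simpa using pr_self (FreeGroup.of p.1 ^ (1 : ℤ)))
        · exact key (by simpa using pr_self (FreeGroup.of p.1 ^ (-1 : ℤ)))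
      rcases choose_w hz ha₀ with ⟨a, w, h1, h2, h3, h4⟩ | ⟨h1, w, h2, h3, h4⟩
      · exact step a p.1 w h1 h2 hb h3 h4
      · exact step p.1 a₀ w hz.symm hb ha₀ (by omega) h4

/-- a closed property passes from the bottom of a hierarchy to the top -/
theorem Closed.hierB {B : ∀ (S : Type) [Group S], Prop} (hB : ∀ (S : Type) [Group S], B S → P S)
    (h : Hier B G) : P G := by
  induction h with
  | base G h => exact hB G h
  | oneRel X r h =>
    obtain ⟨L, rfl⟩ : ∃ L, FreeGroup.mk L = r := Quot.exists_rep r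
    exact h0.aux _ X L (Nat.lt_succ_self _) h
  | hnn V A A' φ hA _ ih => exact h0.hnn φ hA.lf ih
  | amalg A V φ hA hφ _ ih => exact h0.amalg hA.lf φ hφ ih
  | retract G H s r e _ ih => exact h0.ret _ _ s r e ih
  | union G N e _ ih =>
    exact h0.lcl _ fun T => ⟨N T, inferInstance, (N T).subtype, (N T).subtype_injective,
      fun g hg => ⟨⟨g, e T g hg⟩, rfl⟩, ih T⟩

/-- a closed property holds for all groups with a hierarchy -/
theorem Closed.hier (h : Hier (fun _ _ => False) G) : P G := h0.hierB (fun _ _ k => k.elim) h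

omit h0 in
/-- a property that passes along hierarchies in the presence of another property -/
structure ClosedOn (P Q : ∀ (G : Type) [Group G], Prop) : Prop where
  triv : ∀ (G : Type) [Group G] [Subsingleton G], Q G
  ret : ∀ (G H : Type) [Group G] [Group H] (s : G →* H) (r : H →* G), (∀ g, r (s g) = g) →
    P G → P H → Q H → Q G
  lcl : ∀ (G : Type) [Group G], P G → Lcl (fun H _ => P H ∧ Q H) G → Q G
  cop : ∀ (G H : Type) [Group G] [Group H], P G → P H → P (Coprod G H) → Q G → Q H →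
    Q (Coprod G H)
  cut : ∀ (Γ V A : Type) [Group Γ] [Group V] [Group A] (C : Cut Γ V A), C.toPH.Univ → LF A →
    P V → P Γ → Q V → Q Γ

theorem Closed.and {Q : ∀ (G : Type) [Group G], Prop} (h1 : ClosedOn P Q) :
    Closed fun G _ => P G ∧ Q G where
  triv G _ _ := ⟨h0.triv G, h1.triv G⟩
  ret G H _ _ s r e h := ⟨h0.ret G H s r e h.1, h1.ret G H s r e (h0.ret G H s r e h.1) h.1 h.2⟩
  lcl G _ h := ⟨h0.lcl G (h.mono fun _ _ k => k.1), h1.lcl G (h0.lcl G (h.mono fun _ _ k => k.1)) h⟩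
  cop G H _ _ h h' := ⟨h0.cop G H h.1 h'.1, h1.cop G H h.1 h'.1 (h0.cop G H h.1 h'.1) h.2 h'.2⟩
  cut Γ V A _ _ _ C u hA h := ⟨h0.cut Γ V A C u hA h.1,
    h1.cut Γ V A C u hA h.1 (h0.cut Γ V A C u hA h.1) h.2⟩

end Pool.Agent.Work.MP_9d1ffa_al
end
end

-- merged part: Pool.Agent.Work.MP_9d1ffa_al.Br.Defs
section
/-! The maps in the exact sequence of the Wall groups of a presentation. -/

namespace Pool.Agent.Work.MP_9d1ffa_al

open Matrix MonoidAlgebra TensorProduct

section Alg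

variable {R : Type} [Ring R] [StarRing R] {I : Type} [Fintype I] [DecidableEq I]

/-- the isometry from `ψ ⊕ -ψ` to the hyperbolic form taking the diagonal to the standard
lagrangian -/
noncomputable def hm (ε : ℤˣ) (ψ : Matrix I I R) : Matrix (I ⊕ I) (I ⊕ I) R :=
  fromBlocks 1 1 ((Ring.inverse (sy ε ψ))ᴴ * (ψ * Ring.inverse (sy ε ψ)))
    ((Ring.inverse (sy ε ψ))ᴴ * (ψ * Ring.inverse (sy ε ψ) - 1))

/-- the isometry `T ⊕ 1` of `ψ ⊕ -ψ` as an isometry of the hyperbolic form -/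
noncomputable def aut (ε : ℤˣ) (ψ T : Matrix I I R) : Matrix (I ⊕ I) (I ⊕ I) R :=
  hm ε ψ * fromBlocks T 0 0 1 * Ring.inverse (hm ε ψ)

end Alg

section Grp

variable {F G : Type} [Group F] [Group G]

/-- the product of an integral form with the circle mapped along `g` -/
noncomputable def circ (ε : ℤˣ) {I : Type} [Fintype I] [DecidableEq I] (ψ : Matrix I I ℤ) (g : G) :
    Matrix (I ⊕ I) (I ⊕ I) (ZG G) :=
  aut ε (ψ.map (Int.castRingHom (ZG G))) (dg I g)

/-- the map from the Wall group of the integers -/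
noncomputable def zi (ε : ℤˣ) (G : Type) [Group G] : L0 ℤ ε →+ L0 (ZG G) ε :=
  L0.map (Int.castRingHom (ZG G)) fun x => (star_intCast x).symm

/-- the relations between conjugate elements of the kernel -/
def cjR (π : F →* G) : Submodule ℤ (Ab π.ker) :=
  Submodule.span ℤ {z | ∃ (f : F) (r r' : π.ker), (r' : F) = f * r * f⁻¹ ∧ z = ab r' - ab r}

/-- the group `R / [F, R]` for the kernel `R` -/
abbrev Rel (π : F →* G) : Type := Ab π.ker ⧸ cjR π

/-- the class of an element of the kernel -/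
def rcl (π : F →* G) (r : π.ker) : Rel π := Submodule.Quotient.mk (ab r)

/-- the map from `R / [F, R]` to the abelianisation of `F` -/
def relAb (π : F →* G) : Rel π →ₗ[ℤ] Ab F :=
  (cjR π).liftQ (abm π.ker.subtype) (Submodule.span_le.2 (by
    rintro _ ⟨f, r, r', h, rfl⟩
    change abm π.ker.subtype (ab r' - ab r) = 0
    rw [map_sub, abm_ab, abm_ab, Subgroup.subtype_apply, Subgroup.subtype_apply, h, ab_mul, ab_mul,
      ab_inv]
    abel))

/-- `W` is a sum of products of forms `ψ` with circles along elements `r` of the kernel and of an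
identity matrix, and `ξ` is the sum of the tensors `[ψ] ⊗ r` -/
inductive Bd (ε : ℤˣ) (π : F →* G) : L0 ℤ ε ⊗[ℤ] Rel π →
    ∀ {I : Type} [Fintype I] [DecidableEq I], Matrix (I ⊕ I) (I ⊕ I) (ZG F) → Prop
  | one (I : Type) [Fintype I] [DecidableEq I] : Bd ε π 0 (1 : Matrix (I ⊕ I) (I ⊕ I) (ZG F))
  | add {ξ : L0 ℤ ε ⊗[ℤ] Rel π} {I : Type} [Fintype I] [DecidableEq I]
      {W : Matrix (I ⊕ I) (I ⊕ I) (ZG F)} (h : Bd ε π ξ W) {J : Type} [Fintype J] [DecidableEq J]
      (ψ : Matrix J J ℤ) (hψ : NS ε ψ) (r : π.ker) :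
      Bd ε π (cls ε ψ ⊗ₜ rcl π r + ξ) (dsum (circ ε ψ (r : F)) W)

end Grp

end Pool.Agent.Work.MP_9d1ffa_al
end

-- merged part: Pool.Agent.Work.MP_9d1ffa_al.Br.KTop
section
-- merged part: Pool.Agent.Work.MP_9d1ffa_al.Br.Aut
section
/-! Isometries of nonsingular forms as isometries of hyperbolic forms.

Plan.  Rows of matrices are vectors, `ψ (x, y) = x ψ yᴴ`.  Put `l = sy ε ψ`, `μ = Ring.inverse l`
(`NS.inv`, `inv_ct`, `Ring.inverse_mul_cancel`, `Ring.mul_inverse_cancel`), `β = ψ μ`.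
* `hm_inv`: the inverse of `hm` is `fromBlocks (1 - β) lᴴ β (-lᴴ)`.
* `hm_eqv`: `eqv_blocks`; the last block is `μᴴ (β ψ + ψ βᴴ - ψ) μ` and `ψ βᴴ ~ ε β ψᴴ`
  (`eqv_swap`), `β l = ψ`.
* `Frm ε Φ k k'` says that `k` is an isometry from `Φ` to a hyperbolic form with inverse `k'`.
  Two frames differ by the unitary matrix `k₁ k₂'` (`Frm.uni_mul`), so the class of `k D k'` does
  not depend on the frame (`ucl_mul`, `ucl_inv`). -/

namespace Pool.Agent.Work.MP_9d1ffa_al

open Matrix MonoidAlgebra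

set_option linter.unusedSectionVars false
set_option linter.unusedVariables false

variable {R S : Type} [Ring R] [StarRing R] [Ring S] [StarRing S] {ε : ℤˣ} {I J K L : Type}
  [Fintype I] [DecidableEq I] [Fintype J] [DecidableEq J] [Fintype K] [DecidableEq K]
  [Fintype L] [DecidableEq L]

/-- an invertible isometry of a form -/
def Isom (ε : ℤˣ) (ψ T : Matrix I I R) : Prop := IsUnit T ∧ Eqv ε ψ (T * ψ * Tᴴ)

/-- an isometry onto a hyperbolic form, with its inverse -/
def Frm (ε : ℤˣ) (Φ : Matrix L L R) (k : Matrix (I ⊕ I) L R) (k' : Matrix L (I ⊕ I) R) : Prop :=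
  k * k' = 1 ∧ k' * k = 1 ∧ Eqv ε (hypF R I) (k * Φ * kᴴ)

theorem isom_one (ψ : Matrix I I R) : Isom ε ψ 1 := by
  exact ⟨isUnit_one, Eqv.of_eq (by simp)⟩

theorem Isom.mul {ψ T T' : Matrix I I R} (h : Isom ε ψ T) (h' : Isom ε ψ T') :
    Isom ε ψ (T * T') := by
  refine ⟨h.1.mul h'.1, h.2.trans ((h'.2.conj T).trans (Eqv.of_eq ?_))⟩
  simp only [conjTranspose_mul, Matrix.mul_assoc]

theorem Isom.of_inv {ψ T T' : Matrix I I R} (h : Isom ε ψ T) (e : T * T' = 1) :
    Isom ε ψ T' ∧ T' * T = 1 := by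
  obtain ⟨V, h1, h2⟩ := OU1_inv h.1
  have e' : V = T' := left_inv_eq_right_inv h2 e
  subst e'
  refine ⟨⟨OU1_unit h2 h1, Eqv.symm ((h.2.conj V).trans (Eqv.of_eq ?_))⟩, h2⟩
  calc V * (T * ψ * Tᴴ) * Vᴴ = (V * T) * ψ * (V * T)ᴴ := by
        simp only [conjTranspose_mul, Matrix.mul_assoc]
    _ = ψ := by rw [h2, conjTranspose_one, Matrix.one_mul, Matrix.mul_one]

theorem Isom.sum {ψ T : Matrix I I R} {ψ' T' : Matrix J J R} (h : Isom ε ψ T)
    (h' : Isom ε ψ' T') : Isom ε (fromBlocks ψ 0 0 ψ') (fromBlocks T 0 0 T') := by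
  obtain ⟨V, h1, h2⟩ := OU1_inv h.1
  obtain ⟨V', h1', h2'⟩ := OU1_inv h'.1
  refine ⟨OU1_unit (V := fromBlocks V 0 0 V') ?_ ?_, ?_⟩
  · simp [fromBlocks_multiply, h1, h1']
  · simp [fromBlocks_multiply, h2, h2']
  · simp only [fromBlocks_multiply, fromBlocks_conjTranspose, conjTranspose_zero, Matrix.mul_zero,
      Matrix.zero_mul, add_zero, zero_add]
    exact eqv_blocks h.2 h'.2 rfl

theorem Isom.neg {ψ T : Matrix I I R} (h : Isom ε ψ T) : Isom ε (-ψ) T := by
  refine ⟨h.1, h.2.neg.trans (Eqv.of_eq ?_)⟩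
  rw [Matrix.mul_neg, Matrix.neg_mul]

theorem YAut_ct (f : R →+* S) (hf : ∀ x, f (star x) = star (f x)) (M : Matrix I J R) :
    (M.map f)ᴴ = Mᴴ.map f :=
  (conjTranspose_map f hf).symm

theorem YAut_eqv_map (f : R →+* S) (hf : ∀ x, f (star x) = star (f x)) {a b : Matrix I I R}
    (h : Eqv ε a b) : Eqv ε (a.map f) (b.map f) := by
  obtain ⟨χ, rfl⟩ := h
  refine ⟨χ.map f, ?_⟩
  rw [YAut_ct f hf]
  ext i j
  simp only [Matrix.map_apply, Matrix.sub_apply, Matrix.add_apply, Matrix.smul_apply, map_sub,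
    _root_.map_add, map_zsmul]

theorem Isom.map (f : R →+* S) (hf : ∀ x, f (star x) = star (f x)) {ψ T : Matrix I I R}
    (h : Isom ε ψ T) : Isom ε (ψ.map f) (T.map f) := by
  refine ⟨h.1.map f.mapMatrix, (YAut_eqv_map f hf h.2).trans (Eqv.of_eq ?_)⟩
  rw [Matrix.map_mul, Matrix.map_mul, YAut_ct f hf]

theorem isom_hyp {U : Matrix (I ⊕ I) (I ⊕ I) R} : Isom ε (hypF R I) U ↔ Uni ε U := Iff.rfl

/-- a unitary scalar commuting with the entries -/
theorem isom_scalar {ψ : Matrix I I R} {u : R} (h1 : u * star u = 1) (h2 : star u * u = 1)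
    (h : ∀ i j, Commute (ψ i j) u) : Isom ε ψ (diagonal fun _ => u) := by
  refine ⟨OU1_unit (V := diagonal fun _ => star u) ?_ ?_, Eqv.of_eq ?_⟩
  · rw [diagonal_mul_diagonal]
    simp [h1]
  · rw [diagonal_mul_diagonal]
    simp [h2]
  · ext i j
    rw [diagonal_conjTranspose, mul_diagonal, diagonal_mul, ← (h i j).eq, Pi.star_apply, mul_assoc,
      h1, mul_one]

theorem Frm.uni {Φ D : Matrix L L R} {k : Matrix (I ⊕ I) L R} {k' : Matrix L (I ⊕ I) R}
    (h : Frm ε Φ k k') (hD : Isom ε Φ D) : Uni ε (k * D * k') := by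
  obtain ⟨h1, h2, h3⟩ := h
  obtain ⟨V, v1, v2⟩ := OU1_inv hD.1
  have key (A B : Matrix L L R) (e : A * B = 1) : k * A * k' * (k * B * k') = 1 := by
    calc k * A * k' * (k * B * k') = k * (A * (k' * k) * B) * k' := by
          simp only [Matrix.mul_assoc]
      _ = 1 := by rw [h2, Matrix.mul_one, e, Matrix.mul_one, h1]
  refine ⟨OU1_unit (key D V v1) (key V D v2), h3.trans ((hD.2.conj k).trans
    (Eqv.trans (Eqv.of_eq ?_) (h3.conj (k * D * k')).symm))⟩
  calc k * (D * Φ * Dᴴ) * kᴴ = k * D * (k' * k) * Φ * (k' * k)ᴴ * Dᴴ * kᴴ := by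
        rw [h2, conjTranspose_one, Matrix.mul_one, Matrix.mul_one]
        simp only [Matrix.mul_assoc]
    _ = _ := by simp only [conjTranspose_mul, Matrix.mul_assoc]

theorem Frm.uni_mul {Φ : Matrix L L R} {k₁ k₂ : Matrix (I ⊕ I) L R} {k₁' k₂' : Matrix L (I ⊕ I) R}
    (h₁ : Frm ε Φ k₁ k₁') (h₂ : Frm ε Φ k₂ k₂') : Uni ε (k₁ * k₂') := by
  obtain ⟨h1, h2, h3⟩ := h₁
  obtain ⟨g1, g2, g3⟩ := h₂
  refine ⟨OU1_unit (V := k₂ * k₁') ?_ ?_, h3.trans
    (Eqv.trans (Eqv.of_eq ?_) (g3.conj (k₁ * k₂')).symm)⟩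
  · rw [Matrix.mul_assoc, ← Matrix.mul_assoc k₂', g2, Matrix.one_mul, h1]
  · rw [Matrix.mul_assoc, ← Matrix.mul_assoc k₁', h2, Matrix.one_mul, g1]
  · calc k₁ * Φ * k₁ᴴ = k₁ * (k₂' * k₂) * Φ * (k₂' * k₂)ᴴ * k₁ᴴ := by
          rw [g2, conjTranspose_one, Matrix.mul_one, Matrix.mul_one]
      _ = _ := by simp only [conjTranspose_mul, Matrix.mul_assoc]

theorem Frm.ucl_eq {Φ D : Matrix L L R} {k₁ k₂ : Matrix (I ⊕ I) L R}
    {k₁' k₂' : Matrix L (I ⊕ I) R} (h₁ : Frm ε Φ k₁ k₁') (h₂ : Frm ε Φ k₂ k₂') (hD : Isom ε Φ D) :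
    ucl ε (k₁ * D * k₁') = ucl ε (k₂ * D * k₂') := by
  have a := h₁.uni_mul h₂
  have b := h₂.uni_mul h₁
  have c := h₂.uni hD
  have e : k₁ * D * k₁' = k₁ * k₂' * (k₂ * D * k₂') * (k₂ * k₁') := by
    calc k₁ * D * k₁' = k₁ * (k₂' * k₂) * D * (k₂' * k₂) * k₁' := by
          rw [h₂.2.1, Matrix.mul_one, Matrix.mul_one]
      _ = _ := by simp only [Matrix.mul_assoc]
  have e' : k₁ * k₂' * (k₂ * k₁') = 1 := by
    rw [Matrix.mul_assoc, ← Matrix.mul_assoc k₂', h₂.2.1, Matrix.one_mul, h₁.1]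
  rw [e, ucl_mul (a.mul c) b, ucl_mul a c, ucl_inv a e']
  abel

theorem YAut_inv {A B : Matrix I I R} (h1 : A * B = 1) (h2 : B * A = 1) : Ring.inverse A = B :=
  left_inv_eq_right_inv (Ring.inverse_mul_cancel A (OU1_unit h1 h2)) h1

theorem YAut_hm {ψ : Matrix I I R} (h : NS ε ψ) :
    hm ε ψ * fromBlocks (1 - ψ * Ring.inverse (sy ε ψ)) (sy ε ψ)ᴴ
      (ψ * Ring.inverse (sy ε ψ)) (-(sy ε ψ)ᴴ) = 1 ∧
    fromBlocks (1 - ψ * Ring.inverse (sy ε ψ)) (sy ε ψ)ᴴ
      (ψ * Ring.inverse (sy ε ψ)) (-(sy ε ψ)ᴴ) * hm ε ψ = 1 := by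
  have h1 : (Ring.inverse (sy ε ψ))ᴴ * (sy ε ψ)ᴴ = 1 := by
    rw [← conjTranspose_mul, Ring.mul_inverse_cancel _ h, conjTranspose_one]
  have h2 : (sy ε ψ)ᴴ * (Ring.inverse (sy ε ψ))ᴴ = 1 := by
    rw [← conjTranspose_mul, Ring.inverse_mul_cancel _ h, conjTranspose_one]
  unfold hm
  generalize (Ring.inverse (sy ε ψ))ᴴ = m at h1 h2 ⊢
  generalize ψ * Ring.inverse (sy ε ψ) = b
  generalize (sy ε ψ)ᴴ = l at h1 h2 ⊢
  have h3 (x : Matrix I I R) : l * (m * x) = x := by rw [← Matrix.mul_assoc, h2, Matrix.one_mul]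
  rw [fromBlocks_multiply, fromBlocks_multiply, ← fromBlocks_one, fromBlocks_inj, fromBlocks_inj]
  refine ⟨⟨by simp, by simp, by noncomm_ring, ?_⟩, ?_, ?_, ?_, ?_⟩
  · rw [Matrix.mul_sub, Matrix.mul_one, Matrix.mul_neg, Matrix.sub_mul, h1]
    abel
  · rw [h3]
    simp
  · rw [h3]
    simp
  · rw [Matrix.neg_mul, h3]
    simp
  · rw [Matrix.neg_mul, h3]
    simp

theorem YAut_unit {ψ : Matrix I I R} (h : NS ε ψ) : IsUnit (hm ε ψ) :=
  OU1_unit (YAut_hm h).1 (YAut_hm h).2

theorem hm_inv {ψ : Matrix I I R} (h : NS ε ψ) :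
    Ring.inverse (hm ε ψ) = fromBlocks (1 - ψ * Ring.inverse (sy ε ψ)) (sy ε ψ)ᴴ
      (ψ * Ring.inverse (sy ε ψ)) (-(sy ε ψ)ᴴ) := by
  exact YAut_inv (YAut_hm h).1 (YAut_hm h).2

theorem hm_frm {ψ : Matrix I I R} (h : NS ε ψ) :
    Frm ε (fromBlocks ψ 0 0 (-ψ)) (hm ε ψ) (Ring.inverse (hm ε ψ)) := by
  refine ⟨Ring.mul_inverse_cancel _ (YAut_unit h), Ring.inverse_mul_cancel _ (YAut_unit h), ?_⟩
  have h1 : sy ε ψ * Ring.inverse (sy ε ψ) = 1 := Ring.mul_inverse_cancel _ h
  have h2 : Ring.inverse (sy ε ψ) * sy ε ψ = 1 := Ring.inverse_mul_cancel _ h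
  unfold hm hypF
  generalize Ring.inverse (sy ε ψ) = m at h1 h2 ⊢
  have h3 : ψ * m * ψ + (ε : ℤ) • (ψ * m * ψᴴ) = ψ := by
    rw [← Matrix.mul_smul, ← Matrix.mul_add, Matrix.mul_assoc]
    exact (congrArg _ h2).trans (Matrix.mul_one _)
  generalize ψ * m = b at h3 ⊢
  rw [fromBlocks_conjTranspose, fromBlocks_multiply, fromBlocks_multiply]
  refine eqv_blocks (Eqv.of_eq (by simp)) ?_ ?_
  · have k : Eqv ε 0 (b * ψ + ψ * bᴴ - ψ) := ⟨ψ * bᴴ, by
      rw [conjTranspose_mul, conjTranspose_conjTranspose, ← sub_eq_zero]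
      refine Eq.trans ?_ (sub_eq_zero.2 h3)
      abel⟩
    refine (Eqv.of_eq (by simp)).trans ((k.conj mᴴ).trans (Eqv.of_eq ?_))
    simp only [conjTranspose_mul, conjTranspose_sub, conjTranspose_one, conjTranspose_conjTranspose]
    noncomm_ring
  · simp only [conjTranspose_mul, conjTranspose_sub, conjTranspose_one, conjTranspose_zero,
      conjTranspose_conjTranspose, conjTranspose_add, conjTranspose_neg, Matrix.mul_zero,
      Matrix.mul_one, Matrix.one_mul, add_zero, zero_add, smul_zero, Matrix.mul_neg,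
      Matrix.neg_mul, Matrix.sub_mul, Matrix.mul_sub]
    rw [← h1, sy, Matrix.add_mul, Matrix.smul_mul]
    simp only [smul_add, smul_neg, smul_sub]
    abel

theorem hm_map (f : R →+* S) (hf : ∀ x, f (star x) = star (f x)) {ψ : Matrix I I R} (h : NS ε ψ) :
    (hm ε ψ).map f = hm ε (ψ.map f) ∧
      (Ring.inverse (hm ε ψ)).map f = Ring.inverse (hm ε (ψ.map f)) := by
  have e : sy ε (ψ.map f) = (sy ε ψ).map f := by
    ext i j
    simp only [sy, Matrix.map_apply, Matrix.add_apply, Matrix.smul_apply,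
      conjTranspose_apply, _root_.map_add, map_zsmul, hf]
  have k {N : Type} [Fintype N] [DecidableEq N] {A : Matrix N N R} (hA : IsUnit A) :
      (Ring.inverse A).map f = Ring.inverse (A.map f) := by
    refine (YAut_inv ?_ ?_).symm
    · rw [← Matrix.map_mul, Ring.mul_inverse_cancel _ hA,
        Matrix.map_one _ (map_zero f) (map_one f)]
    · rw [← Matrix.map_mul, Ring.inverse_mul_cancel _ hA,
        Matrix.map_one _ (map_zero f) (map_one f)]
  have e1 : (hm ε ψ).map f = hm ε (ψ.map f) := by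
    rw [hm, hm, e, ← k h, fromBlocks_map, Matrix.map_mul, Matrix.map_mul, Matrix.map_mul,
      Matrix.map_sub _ (map_sub f), Matrix.map_mul, Matrix.map_one _ (map_zero f) (map_one f),
      YAut_ct f hf]
  exact ⟨e1, by rw [k (YAut_unit h), e1]⟩

theorem aut_uni {ψ T : Matrix I I R} (h : NS ε ψ) (hT : Isom ε ψ T) : Uni ε (aut ε ψ T) := by
  exact (hm_frm h).uni (hT.sum (isom_one _))

theorem aut_one {ψ : Matrix I I R} (h : NS ε ψ) : aut ε ψ 1 = 1 := by
  rw [aut, fromBlocks_one, Matrix.mul_one, Ring.mul_inverse_cancel _ (YAut_unit h)]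

theorem aut_mul {ψ : Matrix I I R} (h : NS ε ψ) (T T' : Matrix I I R) :
    aut ε ψ (T * T') = aut ε ψ T * aut ε ψ T' := by
  have e : (fromBlocks (T * T') 0 0 1 : Matrix (I ⊕ I) (I ⊕ I) R) =
      fromBlocks T 0 0 1 * (Ring.inverse (hm ε ψ) * hm ε ψ) * fromBlocks T' 0 0 1 := by
    rw [Ring.inverse_mul_cancel _ (YAut_unit h), Matrix.mul_one, fromBlocks_multiply]
    simp
  simp only [aut, e, Matrix.mul_assoc]

theorem aut_map (f : R →+* S) (hf : ∀ x, f (star x) = star (f x)) {ψ : Matrix I I R} (h : NS ε ψ)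
    (T : Matrix I I R) : (aut ε ψ T).map f = aut ε (ψ.map f) (T.map f) := by
  rw [aut, aut, Matrix.map_mul, Matrix.map_mul, (hm_map f hf h).1, (hm_map f hf h).2,
    fromBlocks_map, Matrix.map_zero _ (map_zero f), Matrix.map_one _ (map_zero f) (map_one f)]

/-- the upper rows -/
theorem aut_blocks {ψ : Matrix I I R} (h : NS ε ψ) (T : Matrix I I R) :
    (aut ε ψ T).toBlocks₁₁ = 1 + (T - 1) * (1 - ψ * Ring.inverse (sy ε ψ)) ∧
      (aut ε ψ T).toBlocks₁₂ = (T - 1) * (sy ε ψ)ᴴ := by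
  rw [aut, hm_inv h, hm, fromBlocks_multiply, fromBlocks_multiply, toBlocks_fromBlocks₁₁,
    toBlocks_fromBlocks₁₂]
  constructor <;> noncomm_ring

end Pool.Agent.Work.MP_9d1ffa_al
end

-- merged part: Pool.Agent.Work.MP_9d1ffa_al.Br.Aut2
section
/-! Conjugation formulas for `aut`.

Plan.  Each statement exhibits a second frame of `Φ ⊕ -Φ` (see `Frm` in `Aut.lean`); the
conjugating matrix `X` is `k₁ k₂'` and does not depend on the isometry `T`.
* `aut_sum`: the frame `dsum (hm ψ) (hm ψ')` of `(ψ ⊕ ψ') ⊕ -(ψ ⊕ ψ')` (note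
  `dsum (fromBlocks a 0 0 b) (fromBlocks a' 0 0 b')`, `dsum_blocks`); in fact
  `hm (ψ ⊕ ψ') = dsum (hm ψ) (hm ψ')`, so equality holds.
* `aut_iso`: if `ψ' ~ g ψ gᴴ` then `hm ψ' * diag (g, g)` is a frame of `ψ ⊕ -ψ`, but over the index
  set `J`; first enlarge: the matrix `X = hm ψ' * diag (g, g) * (hm ψ)⁻¹` is rectangular, it is an
  isometry between the two hyperbolic forms.
* `aut_hyp`: the frame of `H ⊕ -H` given by the permutation `sumSumSumComm` after
  `diag (1, fromBlocks 1 0 0 (-1))`.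
* `ucl_aut_fb` (feedback): with `Ψ = ψ ⊕ H`, `κ = T₂₁ w` where `w (1 - T₁₁) = 1 = (1 - T₁₁) w`,
  the isometry `T' = T diag (1, U⁻¹)` fixes the rows `(κ, 1)`, so `T' - 1 = (1; -κ) (T₁₁ - 1, Y)`.
  Apply `ucl_sys` (with `ε` replaced by `-ε`, use `obtain ⟨η, rfl⟩ : ∃ η, ε = -η`) to
  `aut Ψ T'` and `θ = diag (0, hypF)`: by `aut_blocks` the system is, after the change of basis
  `(p, h) ↦ (p - h κ, h)`, block triangular with invertible diagonal blocks
  `(1 - T₁₁) (sy ψ)ᴴ` and `sy η hypF`.  Then `aut_mul`, `aut_sum`, `aut_one`, `ucl_aut_hyp`. -/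

namespace Pool.Agent.Work.MP_9d1ffa_al

open Matrix MonoidAlgebra

set_option linter.unusedSectionVars false
set_option linter.unusedVariables false

variable {R S : Type} [Ring R] [StarRing R] [Ring S] [StarRing S] {ε : ℤˣ} {I J K L : Type}
  [Fintype I] [DecidableEq I] [Fintype J] [DecidableEq J] [Fintype K] [DecidableEq K]
  [Fintype L] [DecidableEq L]

theorem YAut2_inv {A B : Matrix I I R} (h1 : A * B = 1) (h2 : B * A = 1) :
    Ring.inverse A = B :=
  Ring.inverse_unit ⟨A, B, h1, h2⟩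

theorem YAut2_hm {ψ : Matrix I I R} {ψ' : Matrix J J R} (h : NS ε ψ) (h' : NS ε ψ') :
    hm ε (fromBlocks ψ 0 0 ψ') = dsum (hm ε ψ) (hm ε ψ') := by
  obtain ⟨μ, m1, m2⟩ := h.inv
  obtain ⟨μ', m1', m2'⟩ := h'.inv
  have e : Ring.inverse (sy ε (fromBlocks ψ 0 0 ψ')) = fromBlocks μ 0 0 μ' := by
    rw [OL0_sy]
    apply YAut2_inv
    · simp [fromBlocks_multiply, m1, m1']
    · simp [fromBlocks_multiply, m2, m2']
  unfold hm
  rw [e, YAut2_inv m1 m2, YAut2_inv m1' m2', dsum_blocks, fromBlocks_one]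
  have e1 : (fromBlocks μ 0 0 μ')ᴴ * (fromBlocks ψ 0 0 ψ' * fromBlocks μ 0 0 μ') =
      fromBlocks (μᴴ * (ψ * μ)) 0 0 (μ'ᴴ * (ψ' * μ')) := by
    simp [fromBlocks_multiply, fromBlocks_conjTranspose]
  have e2 : (fromBlocks μ 0 0 μ')ᴴ * (fromBlocks ψ 0 0 ψ' * fromBlocks μ 0 0 μ' - 1) =
      fromBlocks (μᴴ * (ψ * μ - 1)) 0 0 (μ'ᴴ * (ψ' * μ' - 1)) := by
    rw [← fromBlocks_one, sub_eq_add_neg, fromBlocks_neg]
    simp [fromBlocks_multiply, fromBlocks_conjTranspose, fromBlocks_add, sub_eq_add_neg]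
  rw [e1, e2]

theorem aut_sum {ψ : Matrix I I R} {ψ' : Matrix J J R} (h : NS ε ψ) (h' : NS ε ψ')
    (T : Matrix I I R) (T' : Matrix J J R) :
    aut ε (fromBlocks ψ 0 0 ψ') (fromBlocks T 0 0 T') = dsum (aut ε ψ T) (aut ε ψ' T') := by
  have e : hm ε (fromBlocks ψ 0 0 ψ') = dsum (hm ε ψ) (hm ε ψ') := YAut2_hm h h'
  have e' : Ring.inverse (hm ε (fromBlocks ψ 0 0 ψ')) =
      dsum (Ring.inverse (hm ε ψ)) (Ring.inverse (hm ε ψ')) := by
    rw [e]
    apply YAut2_inv
    · rw [dsum_mul, (hm_frm h).1, (hm_frm h').1, dsum_one]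
    · rw [dsum_mul, (hm_frm h).2.1, (hm_frm h').2.1, dsum_one]
  have e2 : (fromBlocks (fromBlocks T 0 0 T') 0 0 1 : Matrix ((I ⊕ J) ⊕ (I ⊕ J)) _ R) =
      dsum (fromBlocks T 0 0 1) (fromBlocks T' 0 0 1) := by
    rw [dsum_blocks, fromBlocks_one, fromBlocks_zero]
  unfold aut
  rw [e', e, e2, dsum_mul, dsum_mul]

theorem YAut2_cancel {M N P : Type} [Fintype N]
    {A : Matrix M I R} {k' : Matrix I J R} {k : Matrix J I R} {B : Matrix I N R}
    {C : Matrix N P R} (h : k' * k = 1) : A * k' * (k * B * C) = A * B * C := by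
  rw [Matrix.mul_assoc k B C, ← Matrix.mul_assoc (A * k'), Matrix.mul_assoc A k' k, h,
    Matrix.mul_one, Matrix.mul_assoc]

theorem YAut2_mid {M P : Type}
    {A : Matrix M I R} {k' : Matrix I J R} {k : Matrix J I R} {C : Matrix I P R}
    (h : k' * k = 1) : A * k' * k * C = A * C := by
  rw [Matrix.mul_assoc A k' k, h, Matrix.mul_one]

theorem YAut2_back {a : Matrix I I R} {b : Matrix J J R} {k : Matrix I J R} {k' : Matrix J I R}
    (h : k' * k = 1) (e : Eqv ε a (k * b * kᴴ)) : Eqv ε b (k' * a * k'ᴴ) := by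
  have c := (e.conj k').symm
  have : k' * (k * b * kᴴ) * k'ᴴ = b := by
    rw [← Matrix.mul_assoc, ← Matrix.mul_assoc, h, Matrix.one_mul, Matrix.mul_assoc,
      ← conjTranspose_mul, h, conjTranspose_one, Matrix.mul_one]
  rwa [this] at c

theorem YAut2_comp {a : Matrix I I R} {b : Matrix J J R} {c : Matrix K K R} {k : Matrix I J R}
    {l : Matrix J K R} (e : Eqv ε a (k * b * kᴴ)) (e' : Eqv ε b (l * c * lᴴ)) :
    Eqv ε a (k * l * c * (k * l)ᴴ) := by
  refine e.trans ((e'.conj k).trans (Eqv.of_eq ?_))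
  simp only [conjTranspose_mul, Matrix.mul_assoc]

theorem aut_iso {ψ : Matrix I I R} {ψ' : Matrix J J R} (h : NS ε ψ) {g : Matrix J I R}
    {g' : Matrix I J R} (h1 : g * g' = 1) (h2 : g' * g = 1) (e : Eqv ε (g * ψ * gᴴ) ψ') :
    ∃ (X : Matrix (J ⊕ J) (I ⊕ I) R) (X' : Matrix (I ⊕ I) (J ⊕ J) R), Frm ε (hypF R I) X X' ∧
      ∀ (S : Type) [Ring S] [StarRing S] (f : R →+* S), (∀ x, f (star x) = star (f x)) →
        ∀ T : Matrix I I S, aut ε (ψ'.map f) (g.map f * T * g'.map f) =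
          X.map f * aut ε (ψ.map f) T * X'.map f := by
  have h' : NS ε ψ' := h.iso ⟨g, g', h1, h2, e.symm⟩
  obtain ⟨a1, a2, a3⟩ := hm_frm h
  obtain ⟨b1, b2, b3⟩ := hm_frm h'
  have d1 : (fromBlocks g 0 0 g : Matrix (J ⊕ J) (I ⊕ I) R) * fromBlocks g' 0 0 g' = 1 := by
    simp [fromBlocks_multiply, h1]
  have d2 : (fromBlocks g' 0 0 g' : Matrix (I ⊕ I) (J ⊕ J) R) * fromBlocks g 0 0 g = 1 := by
    simp [fromBlocks_multiply, h2]
  refine ⟨hm ε ψ' * fromBlocks g 0 0 g * Ring.inverse (hm ε ψ),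
    hm ε ψ * fromBlocks g' 0 0 g' * Ring.inverse (hm ε ψ'), ⟨?_, ?_, ?_⟩, ?_⟩
  · rw [YAut2_cancel a2, YAut2_mid d1, b1]
  · rw [YAut2_cancel b2, YAut2_mid d2, a1]
  · have c1 := YAut2_back a2 a3
    have c2 : Eqv ε (fromBlocks ψ' 0 0 (-ψ'))
        (fromBlocks g 0 0 g * fromBlocks ψ 0 0 (-ψ) * (fromBlocks g 0 0 g)ᴴ) := by
      have : (fromBlocks g 0 0 g : Matrix (J ⊕ J) (I ⊕ I) R) * fromBlocks ψ 0 0 (-ψ) *
          (fromBlocks g 0 0 g)ᴴ = fromBlocks (g * ψ * gᴴ) 0 0 (-(g * ψ * gᴴ)) := by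
        simp [fromBlocks_multiply, fromBlocks_conjTranspose]
      rw [this]
      exact eqv_blocks e.symm e.symm.neg rfl
    exact YAut2_comp (YAut2_comp b3 c2) c1
  · intro S _ _ f hf T
    obtain ⟨p1, p2⟩ := hm_map f hf h
    obtain ⟨q1, q2⟩ := hm_map f hf h'
    obtain ⟨r1, r2, -⟩ := hm_frm (h.map f hf)
    have g1 : g.map f * g'.map f = 1 := by
      rw [← Matrix.map_mul, h1, Matrix.map_one _ f.map_zero f.map_one]
    simp only [Matrix.map_mul, p1, p2, q1, q2, fromBlocks_map, Matrix.map_zero _ f.map_zero]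
    unfold aut
    have d3 : (fromBlocks (g.map f * T * g'.map f) 0 0 1 : Matrix (J ⊕ J) (J ⊕ J) S) =
        (fromBlocks (g.map f) 0 0 (g.map f) : Matrix (J ⊕ J) (I ⊕ I) S) *
          (fromBlocks T 0 0 1 : Matrix (I ⊕ I) (I ⊕ I) S) *
          (fromBlocks (g'.map f) 0 0 (g'.map f) : Matrix (I ⊕ I) (J ⊕ J) S) := by
      simp [fromBlocks_multiply, g1]
    rw [d3, YAut2_cancel r2, YAut2_cancel r2]
    simp only [Matrix.mul_assoc]

/-- the frame of the sum of a hyperbolic form and its negative -/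
def YAut2_k (R : Type) [Ring R] (I : Type) [DecidableEq I] :
    Matrix ((I ⊕ I) ⊕ (I ⊕ I)) ((I ⊕ I) ⊕ (I ⊕ I)) R :=
  fromBlocks (fromBlocks 1 0 0 0) (fromBlocks 0 0 1 0) (fromBlocks 0 1 0 0)
    (fromBlocks 0 0 0 (-1))

theorem YAut2_kk : YAut2_k R I * YAut2_k R I = 1 := by
  simp [YAut2_k, fromBlocks_multiply, fromBlocks_add]

theorem YAut2_kH : YAut2_k R I * fromBlocks (hypF R I) 0 0 (-hypF R I) * (YAut2_k R I)ᴴ =
    hypF R (I ⊕ I) := by
  simp [YAut2_k, hypF, fromBlocks_multiply, fromBlocks_add, fromBlocks_neg,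
    fromBlocks_conjTranspose]

theorem YAut2_kmap (f : R →+* S) : (YAut2_k R I).map f = YAut2_k S I := by
  have : (-1 : Matrix I I R).map f = -1 := by
    rw [Matrix.map_neg _ (fun a => f.map_neg a), Matrix.map_one _ f.map_zero f.map_one]
  simp [YAut2_k, fromBlocks_map, this]

theorem YAut2_kU (U : Matrix (I ⊕ I) (I ⊕ I) R) :
    YAut2_k R I * fromBlocks U 0 0 1 * YAut2_k R I =
      dsum U (1 : Matrix (I ⊕ I) (I ⊕ I) R) := by
  rw [← fromBlocks_toBlocks U, ← fromBlocks_one (l := I) (m := I), dsum_blocks]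
  simp [YAut2_k, fromBlocks_multiply, fromBlocks_add]

theorem aut_hyp (R : Type) [Ring R] [StarRing R] (ε : ℤˣ) (I : Type) [Fintype I] [DecidableEq I] :
    ∃ X X' : Matrix ((I ⊕ I) ⊕ (I ⊕ I)) ((I ⊕ I) ⊕ (I ⊕ I)) R, Uni ε X ∧ X * X' = 1 ∧
      ∀ (S : Type) [Ring S] [StarRing S] (f : R →+* S), (∀ x, f (star x) = star (f x)) →
        ∀ U : Matrix (I ⊕ I) (I ⊕ I) S, aut ε (hypF S I) U =
          X.map f * dsum U (1 : Matrix (I ⊕ I) (I ⊕ I) S) * X'.map f := by
  have hH : NS ε (hypF R I) := ns_hyp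
  have a := hm_frm hH
  have b : Frm ε (fromBlocks (hypF R I) 0 0 (-hypF R I)) (YAut2_k R I) (YAut2_k R I) :=
    ⟨YAut2_kk, YAut2_kk, Eqv.of_eq YAut2_kH.symm⟩
  refine ⟨hm ε (hypF R I) * YAut2_k R I, YAut2_k R I * Ring.inverse (hm ε (hypF R I)),
    a.uni_mul b, ?_, ?_⟩
  · rw [← Matrix.mul_assoc, YAut2_mid YAut2_kk, a.1]
  · intro S _ _ f hf U
    obtain ⟨p1, p2⟩ := hm_map f hf hH
    have hm' : (hypF R I).map f = hypF S I := by
      simp [hypF, fromBlocks_map]
    rw [Matrix.map_mul, Matrix.map_mul, p1, p2, hm', YAut2_kmap, ← YAut2_kU, YAut2_cancel YAut2_kk,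
      ← Matrix.mul_assoc, YAut2_mid YAut2_kk]
    rfl

theorem YAut2_sub {a b : Matrix I I R} (h : Eqv ε a b) (e : J → I) :
    Eqv ε (a.submatrix e e) (b.submatrix e e) := by
  obtain ⟨χ, rfl⟩ := h
  exact ⟨χ.submatrix e e, rfl⟩

/-- a rectangular isometry between hyperbolic forms does not change the class -/
theorem ucl_frm {X : Matrix (J ⊕ J) (I ⊕ I) R} {X' : Matrix (I ⊕ I) (J ⊕ J) R}
    (h : Frm ε (hypF R I) X X') {U : Matrix (I ⊕ I) (I ⊕ I) R} (hU : Uni ε U) :
    ucl ε (X * U * X') = ucl ε U := by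
  obtain ⟨h1, h2, h3⟩ := h
  have h4 := YAut2_back h2 h3
  have hV : Uni ε (X * U * X') := Frm.uni ⟨h1, h2, h3⟩ (isom_hyp.2 hU)
  set Y : Matrix ((I ⊕ J) ⊕ (I ⊕ J)) ((I ⊕ J) ⊕ (I ⊕ J)) R :=
    (fromBlocks 0 X' X 0).submatrix (Equiv.sumSumSumComm I J I J) (Equiv.sumSumSumComm I J I J)
    with hY
  have y1 : Y * Y = 1 := by
    rw [hY, submatrix_mul_equiv]
    simp [fromBlocks_multiply, h1, h2]
  have y2 : Uni ε Y := by
    refine ⟨OU1_unit y1 y1, ?_⟩
    have e0 : hypF R (I ⊕ J) = (fromBlocks (hypF R I) 0 0 (hypF R J)).submatrix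
        (Equiv.sumSumSumComm I J I J) (Equiv.sumSumSumComm I J I J) := by
      change _ = dsum (hypF R I) (hypF R J)
      unfold hypF
      rw [dsum_blocks, fromBlocks_one, fromBlocks_zero]
    rw [hY, e0, conjTranspose_submatrix, submatrix_mul_equiv, submatrix_mul_equiv]
    apply YAut2_sub
    have : (fromBlocks 0 X' X 0 : Matrix ((I ⊕ I) ⊕ (J ⊕ J)) ((I ⊕ I) ⊕ (J ⊕ J)) R) *
        fromBlocks (hypF R I) 0 0 (hypF R J) * (fromBlocks 0 X' X 0)ᴴ =
        fromBlocks (X' * hypF R J * X'ᴴ) 0 0 (X * hypF R I * Xᴴ) := by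
      simp [fromBlocks_multiply, fromBlocks_conjTranspose]
    rw [this]
    exact eqv_blocks h4 h3 rfl
  have y3 : Y * dsum U (1 : Matrix (J ⊕ J) (J ⊕ J) R) * Y =
      dsum (1 : Matrix (I ⊕ I) (I ⊕ I) R) (X * U * X') := by
    unfold dsum
    rw [hY, submatrix_mul_equiv, submatrix_mul_equiv]
    simp [fromBlocks_multiply, h2]
  have y4 := congrArg (ucl ε) y3
  have y5 := ucl_inv y2 y1
  rw [ucl_mul (y2.mul (hU.dsum uni_one)) y2, ucl_mul y2 (hU.dsum uni_one), ucl_dsum hU uni_one,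
    ucl_dsum uni_one hV, ucl_one, ucl_one, add_zero, zero_add] at y4
  rw [← y4, add_right_comm]
  nth_rewrite 1 [y5]
  rw [neg_add_cancel, zero_add]

theorem ucl_aut_iso {ψ : Matrix I I R} {ψ' : Matrix J J R} (h : NS ε ψ) {g : Matrix J I R}
    {g' : Matrix I J R} (h1 : g * g' = 1) (h2 : g' * g = 1) (e : Eqv ε (g * ψ * gᴴ) ψ')
    {T : Matrix I I R} (hT : Isom ε ψ T) :
    ucl ε (aut ε ψ' (g * T * g')) = ucl ε (aut ε ψ T) := by
  obtain ⟨X, X', hX, k⟩ := aut_iso h h1 h2 e
  have := k R (RingHom.id R) (fun _ => rfl) T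
  simp only [RingHom.coe_id, Matrix.map_id] at this
  rw [this]
  exact ucl_frm hX (aut_uni h hT)

theorem ucl_aut_hyp {U : Matrix (I ⊕ I) (I ⊕ I) R} (hU : Uni ε U) :
    ucl ε (aut ε (hypF R I) U) = ucl ε U := by
  obtain ⟨X, X', hX, h1, k⟩ := aut_hyp R ε I
  have := k R (RingHom.id R) (fun _ => rfl) U
  simp only [RingHom.coe_id, Matrix.map_id] at this
  rw [this, ucl_mul (hX.mul (hU.dsum uni_one)) (hX.of_inv h1).1, ucl_mul hX (hU.dsum uni_one),
    ucl_dsum hU uni_one, ucl_one, ucl_inv hX h1]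
  abel

theorem YAut2_tri {A A' : Matrix J J R} (Z : Matrix J K R) {s s' : Matrix K K R}
    (h1 : A' * A = 1) (h2 : s' * s = 1) :
    fromBlocks A' (-(A' * Z * s')) 0 s' * fromBlocks A Z 0 s = 1 := by
  rw [fromBlocks_multiply]
  simp [h1, h2, Matrix.mul_assoc]

theorem YAut2_fb {ψ : Matrix J J R} (h : NS ε ψ)
    {T : Matrix (J ⊕ (I ⊕ I)) (J ⊕ (I ⊕ I)) R} (hT : Isom ε (fromBlocks ψ 0 0 (hypF R I)) T)
    {κ : Matrix (I ⊕ I) J R} {A w : Matrix J J R} {Y : Matrix J (I ⊕ I) R}
    (eE : fromBlocks 1 0 κ 1 * (T - 1) = fromBlocks A Y 0 0) (w1 : w * A = -1) :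
    ucl ε (aut ε (fromBlocks ψ 0 0 (hypF R I)) T) = 0 := by
  obtain ⟨η, rfl⟩ : ∃ η, ε = -η := ⟨-ε, (neg_neg ε).symm⟩
  have hΨ : NS (-η) (fromBlocks ψ 0 0 (hypF R I)) := h.sum ns_hyp
  obtain ⟨b1, b2⟩ := aut_blocks hΨ T
  obtain ⟨μ, m1, m2⟩ := h.inv
  obtain ⟨s', -, s2⟩ := (ns_hyp : NS η (hypF R I)).inv
  obtain ⟨B, hB⟩ : ∃ B, B = 1 - fromBlocks ψ 0 0 (hypF R I) *
      Ring.inverse (sy (-η) (fromBlocks ψ 0 0 (hypF R I))) := ⟨_, rfl⟩
  rw [← hB] at b1
  have a1 : μᴴ * w * (A * -(sy (-η) ψ)ᴴ) = 1 := by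
    rw [Matrix.mul_assoc, ← Matrix.mul_assoc w, w1]
    simp [← conjTranspose_mul, m1]
  have key : ∃ Z, fromBlocks 1 0 κ 1 * sysM η (aut (-η) (fromBlocks ψ 0 0 (hypF R I)) T)
      (fromBlocks 0 0 0 (hypF R I)) =
      fromBlocks (A * -(sy (-η) ψ)ᴴ) Z 0 (sy η (hypF R I)) := by
    have e1 : sysM η (aut (-η) (fromBlocks ψ 0 0 (hypF R I)) T) (fromBlocks 0 0 0 (hypF R I)) =
        fromBlocks 0 0 0 (sy η (hypF R I)) + (T - 1) * (B * fromBlocks 0 0 0 (sy η (hypF R I)) -
          (fromBlocks (sy (-η) ψ) 0 0 (sy (-η) (hypF R I)))ᴴ) := by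
      unfold sysM
      rw [b1, b2, OL0_sy, OL0_sy, sy_zero, Matrix.add_mul, Matrix.one_mul, Matrix.mul_sub,
        Matrix.mul_assoc, add_sub_assoc]
    rw [e1, Matrix.mul_add, ← Matrix.mul_assoc, eE, ← fromBlocks_toBlocks B,
      fromBlocks_conjTranspose, sub_eq_add_neg, fromBlocks_neg]
    simp only [fromBlocks_multiply, fromBlocks_add]
    simp
  obtain ⟨Z, hZ⟩ := key
  refine ucl_sys (aut_uni hΨ hT) (ψ := fromBlocks 0 0 0 (hypF R I))
    (C := fromBlocks (μᴴ * w) (-(μᴴ * w * Z * s')) 0 s' * fromBlocks 1 0 κ 1) ?_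
  rw [Matrix.mul_assoc, hZ]
  exact YAut2_tri Z a1 s2

theorem ucl_aut_fb {ψ : Matrix J J R} (h : NS ε ψ) {T₁ w : Matrix J J R}
    {T₂ : Matrix J (I ⊕ I) R} {T₃ : Matrix (I ⊕ I) J R} {T₄ U : Matrix (I ⊕ I) (I ⊕ I) R}
    (hT : Isom ε (fromBlocks ψ 0 0 (hypF R I)) (fromBlocks T₁ T₂ T₃ T₄))
    (w1 : w * (1 - T₁) = 1) (w2 : (1 - T₁) * w = 1) (hU : Uni ε U) (e : U = T₄ + T₃ * w * T₂) :
    ucl ε (aut ε (fromBlocks ψ 0 0 (hypF R I)) (fromBlocks T₁ T₂ T₃ T₄)) = ucl ε U := by
  obtain ⟨V, hV, v1, v2⟩ := hU.inv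
  have hΨ : NS ε (fromBlocks ψ 0 0 (hypF R I)) := h.sum ns_hyp
  have hT' : Isom ε (fromBlocks ψ 0 0 (hypF R I))
      (fromBlocks T₁ T₂ T₃ T₄ * fromBlocks 1 0 0 V) :=
    hT.mul ((isom_one ψ).sum (isom_hyp.2 hV))
  have hD : Isom ε (fromBlocks ψ 0 0 (hypF R I)) (fromBlocks 1 0 0 U) :=
    (isom_one ψ).sum (isom_hyp.2 hU)
  have eT : fromBlocks T₁ T₂ T₃ T₄ =
      fromBlocks T₁ T₂ T₃ T₄ * fromBlocks 1 0 0 V * fromBlocks 1 0 0 U := by
    rw [Matrix.mul_assoc, fromBlocks_multiply (1 : Matrix J J R)]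
    simp [v2]
  have e3 : T₃ * w * (T₁ - 1) + T₃ = 0 := by
    rw [← neg_sub, Matrix.mul_neg, Matrix.mul_assoc, w1, Matrix.mul_one, neg_add_cancel]
  have e4 : T₃ * w * (T₂ * V) + (T₄ * V - 1) = 0 := by
    rw [← v1, e, Matrix.add_mul]
    simp only [Matrix.mul_assoc]
    abel
  have eE : (fromBlocks 1 0 (T₃ * w) 1 : Matrix (J ⊕ (I ⊕ I)) (J ⊕ (I ⊕ I)) R) *
      (fromBlocks T₁ T₂ T₃ T₄ * fromBlocks 1 0 0 V - 1) = fromBlocks (T₁ - 1) (T₂ * V) 0 0 := by
    have : fromBlocks T₁ T₂ T₃ T₄ * fromBlocks 1 0 0 V - 1 =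
        fromBlocks (T₁ - 1) (T₂ * V) T₃ (T₄ * V - 1) := by
      rw [← fromBlocks_one (l := J) (m := I ⊕ I), sub_eq_add_neg, fromBlocks_neg]
      simp [fromBlocks_multiply, fromBlocks_add, sub_eq_add_neg]
    rw [this, fromBlocks_multiply]
    simp [e3, e4]
  have w3 : w * (T₁ - 1) = -1 := by rw [← neg_sub, Matrix.mul_neg, w1]
  have z := YAut2_fb h hT' eE w3
  rw [eT, aut_mul hΨ, ucl_mul (aut_uni hΨ hT') (aut_uni hΨ hD), z, aut_sum h ns_hyp, aut_one h,
    ucl_dsum uni_one (aut_uni ns_hyp (isom_hyp.2 hU)), ucl_one, ucl_aut_hyp hU, zero_add, zero_add]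

end Pool.Agent.Work.MP_9d1ffa_al
end

-- merged part: Pool.Agent.Work.MP_9d1ffa_al.Br.KEuc
section
/-! The Euclidean algorithm for rows of integers. -/

namespace Pool.Agent.Work.MP_9d1ffa_al

open Matrix

variable {ι : Type} [Fintype ι] [DecidableEq ι]

theorem KEuc_mul (v : ι → ℤ) (i j : ι) (r : ℤ) :
    v ᵥ* (1 + single i j r) = Function.update v j (v j + v i * r) := by
  funext k
  rw [vecMul_add, vecMul_one, Pi.add_apply, vecMul, dotProduct, Finset.sum_eq_single i]
  · by_cases h : k = j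
    · subst h
      simp
    · simp [Function.update_of_ne h, Ne.symm h]
  · intro b _ hb
    simp [Ne.symm hb]
  · simp

/-- every row of integers is carried to a multiple of a basis vector by elementary matrices -/
theorem euc (S : Submonoid (Matrix ι ι ℤ)) (hS : ∀ i j r, i ≠ j → 1 + single i j r ∈ S) (i₀ : ι)
    (v : ι → ℤ) : ∃ E ∈ S, ∃ e, v ᵥ* E = Pi.single i₀ e := by
  let μ : (ι → ℤ) → ℕ := fun v => ∑ k, (if k = i₀ then 1 else 2) * (v k).natAbs
  have up : ∀ (v : ι → ℤ) j z, μ (Function.update v j z) + (if j = i₀ then 1 else 2) *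
      (v j).natAbs = μ v + (if j = i₀ then 1 else 2) * z.natAbs := fun v j z => by
    simp only [μ]
    rw [← Finset.add_sum_erase _ _ (Finset.mem_univ j), ← Finset.add_sum_erase _ _
      (Finset.mem_univ j), Function.update_self, Finset.sum_congr rfl (g := fun k =>
        (if k = i₀ then 1 else 2) * (v k).natAbs) fun k hk => by
          rw [Function.update_of_ne (Finset.ne_of_mem_erase hk)]]
    ring
  induction hn : μ v using Nat.strong_induction_on generalizing v with
  | _ n ih =>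
    have step : ∀ E ∈ S, μ (v ᵥ* E) < μ v → ∃ E ∈ S, ∃ e, v ᵥ* E = Pi.single i₀ e :=
      fun E hE h => by
        obtain ⟨E', h1, e, h2⟩ := ih _ (hn ▸ h) _ rfl
        exact ⟨E * E', mul_mem hE h1, e, by rw [← vecMul_vecMul, h2]⟩
    by_cases h : ∀ j, j ≠ i₀ → v j = 0
    · refine ⟨1, one_mem _, v i₀, ?_⟩
      funext k
      by_cases e : k = i₀
      · simp [e]
      · simp [e, h k e]
    push Not at h
    obtain ⟨j, hj, h0⟩ := h
    have sg : ∀ a b : ℤ, a ≠ 0 → a.natAbs ≤ b.natAbs → ∃ r, (b + a * r).natAbs < b.natAbs :=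
      fun a b ha hb => by
        by_cases c : (b + a * 1).natAbs < b.natAbs
        · exact ⟨1, c⟩
        · exact ⟨-1, by omega⟩
    by_cases h1 : v i₀ = 0
    · refine step _ (mul_mem (hS j i₀ 1 hj) (hS i₀ j (-1) hj.symm)) ?_
      rw [← vecMul_vecMul, KEuc_mul, KEuc_mul]
      have a := up v i₀ (v i₀ + v j * 1)
      have b := up (Function.update v i₀ (v i₀ + v j * 1)) j
        (Function.update v i₀ (v i₀ + v j * 1) j + Function.update v i₀ (v i₀ + v j * 1) i₀ * -1)
      rw [Function.update_of_ne hj, Function.update_self] at b ⊢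
      rw [if_pos rfl] at a
      rw [if_neg hj] at b
      omega
    · rcases le_total (v i₀).natAbs (v j).natAbs with c | c
      · obtain ⟨r, hr⟩ := sg _ _ h1 c
        refine step _ (hS i₀ j r hj.symm) ?_
        have a := up v j (v j + v i₀ * r)
        rw [KEuc_mul]
        rw [if_neg hj] at a
        omega
      · obtain ⟨r, hr⟩ := sg _ _ h0 c
        refine step _ (hS j i₀ r hj) ?_
        have a := up v i₀ (v i₀ + v j * r)
        rw [KEuc_mul]
        rw [if_pos rfl] at a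
        omega

end Pool.Agent.Work.MP_9d1ffa_al
end

-- merged part: Pool.Agent.Work.MP_9d1ffa_al.Br.Z1
section
/-! The odd Wall groups of the integers vanish (block of helper71). -/

namespace Pool.Agent.Work.MP_9d1ffa_al

open Matrix

section

variable {η : ℤˣ} {I : Type} [Fintype I] [DecidableEq I]

theorem Z1_euc (i : I) (v : I → ℤ) : ∃ (E F : Matrix I I ℤ) (e : ℤ), E * F = 1 ∧ F * E = 1 ∧
    v ᵥ* E = Pi.single i e ∧ ∀ k, e ∣ v k := by
  obtain ⟨E, hE, e, h⟩ := euc (IsUnit.submonoid _) (fun i j r hij => by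
    have h : ∀ r : ℤ, (1 + single i j r) * (1 + single i j (-r)) = (1 : Matrix I I ℤ) := fun r => by
      rw [mul_add, add_mul, add_mul, mul_one, mul_one, one_mul, single_mul_single_of_ne _ _ _ _ hij.symm,
        add_zero, add_assoc, ← single_add, add_neg_cancel, single_zero, add_zero]
    exact OU1_unit (h r) (by simpa using h (-r))) i v
  obtain ⟨F, h1, h2⟩ := OU1_inv hE
  refine ⟨E, F, e, h1, h2, h, fun k => ⟨F i k, ?_⟩⟩
  have : v = Pi.single i e ᵥ* F := by rw [← h, vecMul_vecMul, h1, vecMul_one]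
  rw [this]
  simp [vecMul, dotProduct, Pi.single_apply]

/-- an upper row of an isometry -/
def Z1_Good (η : ℤˣ) (i : I) (v : I ⊕ I → ℤ) : Prop := ∃ U, Uni η U ∧ U (Sum.inl i) = v

theorem Z1_mul {i : I} {v : I ⊕ I → ℤ} (h : Z1_Good η i v) {W : Matrix (I ⊕ I) (I ⊕ I) ℤ}
    (hW : W ∈ RU ℤ η I) : Z1_Good η i (v ᵥ* W) := by
  obtain ⟨U, hU, rfl⟩ := h
  exact ⟨U * W, hU.mul (Uni.of_mem hW), rfl⟩

theorem Z1_iso {i : I} {x y : I → ℤ} (h : Z1_Good η i (Sum.elim x y)) : ∃ t : ℤ, x ⬝ᵥ y = t - η * t := by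
  obtain ⟨U, hU, h⟩ := h
  rw [← fromBlocks_toBlocks U] at hU
  obtain ⟨χ, h1⟩ := (uni_iff.1 hU).2.1
  refine ⟨χ i i, ?_⟩
  have h2 := congrFun (congrFun h1 i) i
  rw [Matrix.sub_apply, Matrix.add_apply, Matrix.smul_apply] at h2
  simpa [mul_apply, toBlocks₁₁, toBlocks₁₂, h, dotProduct] using h2

theorem Z1_prim {i : I} {v : I ⊕ I → ℤ} (h : Z1_Good η i v) {e : ℤ} (he : ∀ k, e ∣ v k) : e ∣ 1 := by
  obtain ⟨U, hU, rfl⟩ := h
  obtain ⟨V, h1, -⟩ := OU1_inv hU.1
  have h2 := congrFun (congrFun h1 (Sum.inl i)) (Sum.inl i)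
  rw [one_apply_eq, mul_apply] at h2
  rw [← h2]
  exact Finset.dvd_sum fun k _ => (he k).mul_right _

theorem Z1_gl (i : I) (x y : I → ℤ) : ∃ W ∈ RU ℤ η I, ∃ (x' : I → ℤ) (e : ℤ),
    Sum.elim x y ᵥ* W = Sum.elim x' (Pi.single i e) ∧ ∀ k, e ∣ y k := by
  obtain ⟨E, F, e, h1, h2, h3, h4⟩ := Z1_euc i y
  refine ⟨_, (GenU.gl Fᴴ Eᴴ (by rw [← conjTranspose_mul, h1, conjTranspose_one])
    (by rw [← conjTranspose_mul, h2, conjTranspose_one])).mem, x ᵥ* Fᴴ, e, ?_, h4⟩
  simp [vecMul_fromBlocks, h3]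

theorem Z1_sw (j : I) (x y : I → ℤ) : ∃ W ∈ RU ℤ η I, ∃ x' : I → ℤ,
    Sum.elim x y ᵥ* W = Sum.elim x' (Function.update y j (x j)) := by
  let s : Matrix Unit I ℤ := of fun _ i => if i = j then 1 else 0
  have h : sᴴ * s = single j j 1 := by
    ext a b
    simp only [s, mul_apply, single_apply, conjTranspose_apply, of_apply, Finset.univ_unique, Finset.sum_singleton,
      star_trivial]
    by_cases h1 : a = j <;> by_cases h2 : b = j <;> simp [h1, h2, @eq_comm _ j]
  refine ⟨_, (GenU.sw Unit s ?_).mem, _, (vecMul_fromBlocks _ _ _ _ _).trans (congrArg _ ?_)⟩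
  · ext a b
    simp [s, mul_apply]
  · ext k
    rw [h, vecMul_sub, vecMul_one]
    by_cases h1 : k = j
    · subst h1
      simp [vecMul, dotProduct, single_apply]
    · simp [vecMul, dotProduct, h1, Ne.symm h1]

theorem Z1_low (i : I) (x : I → ℤ) (e s : ℤ) : ∃ W ∈ RU ℤ η I, ∃ x' : I → ℤ,
    Sum.elim x (Pi.single i e) ᵥ* W = Sum.elim x' (Pi.single i e) ∧ x' i = x i + e * (s - η * s) := by
  refine ⟨_, OU2_low ⟨single i i s, rfl⟩, _, (vecMul_fromBlocks _ _ _ _ _).trans (congrArg _ ?_), ?_⟩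
  · simp
  · simp

theorem Z1_zero (i : I) (n : ℕ) : ∀ (x : I → ℤ) (e : ℤ), e.natAbs < n →
    Z1_Good η i (Sum.elim x (Pi.single i e)) →
    ∃ W ∈ RU ℤ η I, ∃ x' : I → ℤ, Sum.elim x (Pi.single i e) ᵥ* W = Sum.elim x' 0 := by
  induction n with
  | zero => exact fun _ _ h => absurd h (Nat.not_lt_zero _)
  | succ n ih =>
    intro x e hn h
    by_cases h0 : e = 0
    · exact ⟨1, one_mem _, x, by simp [h0]⟩
    have key : ∀ W ∈ RU ℤ η I, ∀ (x' : I → ℤ) (e' : ℤ), e'.natAbs < e.natAbs →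
        Sum.elim x (Pi.single i e) ᵥ* W = Sum.elim x' (Pi.single i e') →
        ∃ W ∈ RU ℤ η I, ∃ x' : I → ℤ, Sum.elim x (Pi.single i e) ᵥ* W = Sum.elim x' 0 := by
      intro W hW x' e' h1 h2
      obtain ⟨W', hW', x'', h3⟩ := ih x' e' (by omega) (h2 ▸ Z1_mul h hW)
      exact ⟨W * W', mul_mem hW hW', x'', by rw [← vecMul_vecMul, h2, h3]⟩
    by_cases hA : ∃ j, j ≠ i ∧ ¬ e ∣ x j
    · obtain ⟨j, hj, hA⟩ := hA
      obtain ⟨W, hW, x', h1⟩ := Z1_sw (η := η) j x (Pi.single i e)
      obtain ⟨W', hW', x'', e', h2, h3⟩ := Z1_gl (η := η) i x' (Function.update (Pi.single i e) j (x j))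
      have h4 := h3 i
      have h5 := h3 j
      rw [Function.update_of_ne hj.symm, Pi.single_eq_same] at h4
      rw [Function.update_self] at h5
      refine key (W * W') (mul_mem hW hW') x'' e' (lt_of_le_of_ne (Int.natAbs_le_of_dvd_ne_zero h4 h0) fun h6 =>
        hA ((Int.natAbs_dvd_natAbs.1 (h6 ▸ dvd_rfl)).trans h5)) (by rw [← vecMul_vecMul, h1, h2])
    · obtain ⟨s, hs⟩ : ∃ s : ℤ, (x i + e * (s - η * s)).natAbs < e.natAbs := by
        obtain ⟨t, ht⟩ := Z1_iso h
        rw [dotProduct_single] at ht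
        rcases Int.units_eq_one_or η with rfl | rfl
        · refine ⟨0, ?_⟩
          have : x i = 0 := (mul_eq_zero.1 (ht.trans (by simp))).resolve_right h0
          simpa [this] using h0
        · have h1 := Int.emod_nonneg (x i + |e|) (b := 2 * e) (by omega)
          have h2 := Int.emod_lt_abs (x i + |e|) (b := 2 * e) (by omega)
          have h3 := Int.emod_add_mul_ediv (x i + |e|) (2 * e)
          rw [abs_mul, abs_two] at h2
          generalize (x i + |e|) % (2 * e) = r, (x i + |e|) / (2 * e) = q at h1 h2 h3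
          refine ⟨-q, ?_⟩
          have h4 : x i + e * (-q - ((-1 : ℤˣ) : ℤ) * -q) = r - |e| := by
            rw [Units.val_neg, Units.val_one]
            linear_combination -h3
          rw [h4]
          have h5 : r ≠ 0 := by
            rintro rfl
            have h6 : e ∣ x i := by
              rw [show x i = e * (2 * q) - |e| by linear_combination -h3]
              exact dvd_sub (dvd_mul_right _ _) ((dvd_abs _ _).2 dvd_rfl)
            have h7 : e ∣ 1 := Z1_prim h fun k => by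
              rcases k with k | k
              · by_cases hk : k = i
                · exact hk ▸ h6
                · exact not_not.1 fun hc => hA ⟨k, hk, hc⟩
              · by_cases hk : k = i <;> simp [hk]
            rw [Units.val_neg, Units.val_one] at ht
            rcases Int.isUnit_iff.1 (isUnit_of_dvd_one h7) with rfl | rfl
            · simp only [abs_one] at h3
              omega
            · simp only [abs_neg, abs_one] at h3
              omega
          rw [Int.abs_eq_natAbs] at h2 ⊢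
          omega
      obtain ⟨W, hW, x', h1, h2⟩ := Z1_low (η := η) i x e s
      obtain ⟨W', hW', x'', h3⟩ := Z1_sw (η := η) i x' (Pi.single i e)
      refine key (W * W') (mul_mem hW hW') x'' (x' i) (h2 ▸ hs) ?_
      rw [← vecMul_vecMul, h1, h3]
      congr 1
      ext k
      by_cases hk : k = i <;> simp [hk]

theorem Z1_row (i : I) {U : Matrix (I ⊕ I) (I ⊕ I) ℤ} (hU : Uni η U) :
    ∃ W ∈ RU ℤ η I, (U * W) (Sum.inl i) = Sum.elim (Pi.single i 1) 0 := by
  have h : Z1_Good η i (Sum.elim (U (Sum.inl i) ∘ Sum.inl) (U (Sum.inl i) ∘ Sum.inr)) :=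
    ⟨U, hU, (Sum.elim_comp_inl_inr _).symm⟩
  obtain ⟨W, hW, x, e, h1, -⟩ := Z1_gl (η := η) i (U (Sum.inl i) ∘ Sum.inl) (U (Sum.inl i) ∘ Sum.inr)
  have h2 := h1 ▸ Z1_mul h hW
  obtain ⟨W', hW', x', h3⟩ := Z1_zero i _ x e (Nat.lt_succ_self _) h2
  have h4 := h3 ▸ Z1_mul h2 hW'
  obtain ⟨E, F, u, a1, a2, a3, a4⟩ := Z1_euc i x'
  have h5 : u * u = 1 := by
    have : u ∣ 1 := Z1_prim h4 fun k => by
      rcases k with k | k
      · exact a4 k
      · exact dvd_zero _
    rcases Int.isUnit_iff.1 (isUnit_of_dvd_one this) with rfl | rfl <;> rfl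
  refine ⟨W * W' * _, mul_mem (mul_mem hW hW') (GenU.gl (u • E) (u • F)
    (by rw [smul_mul_smul_comm, h5, a1, one_smul]) (by rw [smul_mul_smul_comm, h5, a2, one_smul])).mem, ?_⟩
  rw [Sum.elim_comp_inl_inr] at h1
  show U (Sum.inl i) ᵥ* _ = _
  rw [← vecMul_vecMul, ← vecMul_vecMul, h1, h3, vecMul_fromBlocks]
  simp only [Sum.elim_comp_inl, Sum.elim_comp_inr, vecMul_zero, zero_vecMul, add_zero, vecMul_smul, a3,
    ← Pi.single_smul, smul_eq_mul, h5]

theorem Z1_uni {a b c d : Matrix I I ℤ} (h1 : Eqv η 0 (a * bᴴ)) (h2 : Eqv η 0 (c * dᴴ))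
    (h3 : a * dᴴ + (η : ℤ) • (b * cᴴ) = 1) : Uni η (fromBlocks a b c d) := by
  refine uni_iff.2 ⟨?_, h1, h2, h3⟩
  have e1 := h1.sy_eq
  have e2 := h2.sy_eq
  have e3 := congrArg conjTranspose h3
  rw [sy_zero, sy, conjTranspose_mul, conjTranspose_conjTranspose] at e1 e2
  rw [conjTranspose_add, ct_zsmul, conjTranspose_mul, conjTranspose_mul, conjTranspose_conjTranspose,
    conjTranspose_conjTranspose, conjTranspose_one] at e3
  have e : fromBlocks a b c d * fromBlocks dᴴ ((η : ℤ) • bᴴ) ((η : ℤ) • cᴴ) aᴴ = 1 := by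
    rw [fromBlocks_multiply, ← fromBlocks_one]
    simp only [Matrix.mul_smul]
    rw [h3, ← e2, add_comm _ (d * aᴴ), e3]
    congr 1
    rw [← eps_eps (ε := η) (b * aᴴ), ← smul_add, ← e1, smul_zero]
  exact OU1_unit e (mul_eq_one_comm.1 e)

theorem Z1_step (ih : ∀ U : Matrix (I ⊕ I) (I ⊕ I) ℤ, Uni η U → U ∈ RU ℤ η I)
    (U : Matrix ((I ⊕ Unit) ⊕ (I ⊕ Unit)) ((I ⊕ Unit) ⊕ (I ⊕ Unit)) ℤ) (hU : Uni η U) :
    U ∈ RU ℤ η (I ⊕ Unit) := by
  obtain ⟨W, hW, h⟩ := Z1_row (Sum.inr ()) hU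
  refine OU2_cancel ?_ hW
  have hX := hU.mul (Uni.of_mem hW)
  generalize U * W = X at h hX
  obtain ⟨a, b, c, d, rfl⟩ : ∃ a b c d, X = fromBlocks a b c d := ⟨_, _, _, _, (fromBlocks_toBlocks _).symm⟩
  obtain ⟨a1, a2, a3, a4, rfl⟩ : ∃ a1 a2 a3 a4, a = fromBlocks a1 a2 a3 a4 :=
    ⟨_, _, _, _, (fromBlocks_toBlocks _).symm⟩
  obtain ⟨b1, b2, b3, b4, rfl⟩ : ∃ a1 a2 a3 a4, b = fromBlocks a1 a2 a3 a4 :=
    ⟨_, _, _, _, (fromBlocks_toBlocks _).symm⟩
  obtain ⟨c1, c2, c3, c4, rfl⟩ : ∃ a1 a2 a3 a4, c = fromBlocks a1 a2 a3 a4 :=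
    ⟨_, _, _, _, (fromBlocks_toBlocks _).symm⟩
  obtain ⟨d1, d2, d3, d4, rfl⟩ : ∃ a1 a2 a3 a4, d = fromBlocks a1 a2 a3 a4 :=
    ⟨_, _, _, _, (fromBlocks_toBlocks _).symm⟩
  obtain rfl : a3 = 0 := by
    ext u k
    simpa using congrFun h (Sum.inl (Sum.inl k))
  obtain rfl : a4 = 1 := by
    ext u k
    simpa using congrFun h (Sum.inl (Sum.inr k))
  obtain rfl : b3 = 0 := by
    ext u k
    simpa using congrFun h (Sum.inr (Sum.inl k))
  obtain rfl : b4 = 0 := by
    ext u k
    simpa using congrFun h (Sum.inr (Sum.inr k))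
  obtain ⟨-, h1, h2, h3⟩ := uni_iff.1 hX
  rw [fromBlocks_conjTranspose, fromBlocks_multiply, ← fromBlocks_zero] at h1 h2
  rw [fromBlocks_conjTranspose, fromBlocks_conjTranspose, fromBlocks_multiply, fromBlocks_multiply,
    fromBlocks_smul, fromBlocks_add, ← fromBlocks_one, fromBlocks_inj] at h3
  obtain ⟨h1, -, h4⟩ := OU1_eqv_blocks h1
  obtain rfl : b2 = 0 := by
    rw [← eps_eps (ε := η) b2, show (η : ℤ) • b2 = 0 by simpa using h4.symm, smul_zero]
  obtain rfl : d2 = 0 := by simpa using h3.2.2.1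
  obtain ⟨V, hV, h5, -⟩ := OU2_inv (ih _ (Z1_uni (a := a1) (b := b1) (c := c1) (d := d1) (by simpa using h1)
    (by simpa using (OU1_eqv_blocks h2).1) (by simpa using h3.1)))
  have hD := ru_dsum_one (J := Unit) hV
  refine OU2_cancel (ru_tu (hX.mul (Uni.of_mem hD)) ?_) hD
  rw [← fromBlocks_toBlocks V, fromBlocks_multiply, ← fromBlocks_one, fromBlocks_inj] at h5
  rw [dsum_eq, fromBlocks_multiply, toBlocks_fromBlocks₁₂, fromBlocks_multiply, fromBlocks_multiply,
    fromBlocks_add, ← fromBlocks_one, toBlocks_fromBlocks₁₂]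
  simp [h5.2.1]

theorem Z1_all (n : ℕ) (U : Matrix (Fin n ⊕ Fin n) (Fin n ⊕ Fin n) ℤ) (hU : Uni η U) : U ∈ RU ℤ η (Fin n) := by
  induction n with
  | zero => rw [Subsingleton.elim U 1]; exact one_mem _
  | succ n ih =>
    let e : Fin (n + 1) ≃ Fin n ⊕ Unit := finSuccEquivLast.trans (Equiv.optionEquivSumPUnit _)
    have h := ru_reindex (Z1_step ih _ (hU.reindex e.symm)) e
    convert h
    ext (a | a) (b | b) <;> simp

end

theorem l1_int (η : ℤˣ) (c : L1 ℤ η) : c = 0 := by
  obtain ⟨n, U, hU, rfl⟩ := ucl_surj c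
  exact ucl_mem (Z1_all n U hU)

end Pool.Agent.Work.MP_9d1ffa_al
end

-- merged part: Pool.Agent.Work.MP_9d1ffa_al.Br.Lift
section
/-! Homomorphisms out of the Wall groups, functoriality, and trivial groups.

Plan.
* `exists_l0_lift`: `f` vanishes on `Z` forms (definition of `Z`, `ns_hyp`, `NS.sum`); if
  `cls a = cls b` then `cls (a ⊕ -b) = 0` (`cls_sum`, `cls_neg`, `cls_eq_zero`), and
  `f (b ⊕ -b) = 0` (`z_sum_neg`), so `f a = f b`.  Define `φ x` through `cls_surj` and choice.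
* `exists_l1_lift`: `f 1 = 0`, `f` vanishes on `RU` (closure induction, `Uni.of_mem`, `GenU.uni`)
  and on `Nul` matrices; use `ucl_dsum`, `ucl_inv`, `ucl_eq_zero`, `Uni.inv`, `ucl_surj`.
* for a trivial group the augmentation `aug` is inverse to the cast from the integers. -/

namespace Pool.Agent.Work.MP_9d1ffa_al

open Matrix MonoidAlgebra TensorProduct

set_option linter.unusedSectionVars false
set_option linter.unusedVariables false

section Alg

variable {R S T : Type} [Ring R] [StarRing R] [Ring S] [StarRing S] [Ring T] [StarRing T] {ε : ℤˣ}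
  {M : Type} [AddCommGroup M]

theorem exists_l0_lift (f : ∀ (I : Type) [Fintype I] [DecidableEq I], Matrix I I R → M)
    (iso : ∀ (I J : Type) [Fintype I] [DecidableEq I] [Fintype J] [DecidableEq J]
      (a : Matrix I I R) (b : Matrix J J R), NS ε a → Iso ε a b → f I a = f J b)
    (sum : ∀ (I J : Type) [Fintype I] [DecidableEq I] [Fintype J] [DecidableEq J]
      (a : Matrix I I R) (b : Matrix J J R), NS ε a → NS ε b →
        f (I ⊕ J) (fromBlocks a 0 0 b) = f I a + f J b)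
    (hyp : ∀ (I : Type) [Fintype I] [DecidableEq I], f (I ⊕ I) (hypF R I) = 0) :
    ∃ φ : L0 R ε →+ M, ∀ (I : Type) [Fintype I] [DecidableEq I] (a : Matrix I I R), NS ε a →
      φ (cls ε a) = f I a := by
  have hz : ∀ (I : Type) [Fintype I] [DecidableEq I] (a : Matrix I I R), NS ε a → Z ε a →
      f I a = 0 := by
    rintro I _ _ a ha ⟨m, n, h⟩
    have h1 := iso _ _ _ _ (ha.sum ns_hyp) h
    rwa [sum _ _ _ _ ha ns_hyp, hyp, hyp, add_zero] at h1
  have he : ∀ (I J : Type) [Fintype I] [DecidableEq I] [Fintype J] [DecidableEq J]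
      (a : Matrix I I R) (b : Matrix J J R), NS ε a → NS ε b → cls ε a = cls ε b →
        f I a = f J b := by
    intro I J _ _ _ _ a b ha hb h
    have h1 := hz _ _ (ha.sum hb.neg) ((cls_eq_zero (ha.sum hb.neg)).1 (by
      rw [cls_sum ha hb.neg, cls_neg, h, add_neg_cancel]))
    have h2 := hz _ _ (hb.sum hb.neg) (z_sum_neg hb)
    rw [sum _ _ _ _ ha hb.neg] at h1
    rw [sum _ _ _ _ hb hb.neg] at h2
    exact add_right_cancel (h1.trans h2.symm)
  choose n ψ hψ e using cls_surj (R := R) (ε := ε)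
  refine ⟨AddMonoidHom.mk' (fun x => f _ (ψ x)) fun x y => ?_,
    fun I _ _ a ha => he _ _ _ _ (hψ _) ha (e _)⟩
  rw [← sum _ _ _ _ (hψ x) (hψ y)]
  exact he _ _ _ _ (hψ _) ((hψ x).sum (hψ y)) (by rw [cls_sum (hψ x) (hψ y), e, e, e])

theorem exists_l1_lift (f : ∀ (I : Type) [Fintype I] [DecidableEq I], Matrix (I ⊕ I) (I ⊕ I) R → M)
    (mul : ∀ (I : Type) [Fintype I] [DecidableEq I] (U V : Matrix (I ⊕ I) (I ⊕ I) R), Uni ε U →
      Uni ε V → f I (U * V) = f I U + f I V)
    (sum : ∀ (I J : Type) [Fintype I] [DecidableEq I] [Fintype J] [DecidableEq J]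
      (U : Matrix (I ⊕ I) (I ⊕ I) R) (V : Matrix (J ⊕ J) (J ⊕ J) R), Uni ε U → Uni ε V →
        f (I ⊕ J) (dsum U V) = f I U + f J V)
    (gen : ∀ (I : Type) [Fintype I] [DecidableEq I] (U : Matrix (I ⊕ I) (I ⊕ I) R), GenU ε U →
      f I U = 0) :
    ∃ φ : L1 R ε →+ M, ∀ (I : Type) [Fintype I] [DecidableEq I] (U : Matrix (I ⊕ I) (I ⊕ I) R),
      Uni ε U → φ (ucl ε U) = f I U := by
  have h1 : ∀ (I : Type) [Fintype I] [DecidableEq I], f I 1 = 0 := fun I _ _ => by
    have h := mul I 1 1 uni_one uni_one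
    rw [mul_one] at h
    exact left_eq_add.1 h
  have hr : ∀ (I : Type) [Fintype I] [DecidableEq I] (U : Matrix (I ⊕ I) (I ⊕ I) R),
      U ∈ RU R ε I → f I U = 0 := by
    intro I _ _ U hU
    induction hU using Submonoid.closure_induction with
    | mem x hx => exact gen I x hx
    | one => exact h1 I
    | mul x y hx hy ihx ihy => rw [mul I x y (Uni.of_mem hx) (Uni.of_mem hy), ihx, ihy, add_zero]
  have he : ∀ (I J : Type) [Fintype I] [DecidableEq I] [Fintype J] [DecidableEq J]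
      (U : Matrix (I ⊕ I) (I ⊕ I) R) (V : Matrix (J ⊕ J) (J ⊕ J) R), Uni ε U → Uni ε V →
        ucl ε U = ucl ε V → f I U = f J V := by
    intro I J _ _ _ _ U V hU hV h
    obtain ⟨W, hW, h2, -⟩ := hV.inv
    obtain ⟨κ, _, _, h3⟩ := (ucl_eq_zero (hU.dsum hW)).1 (by
      rw [ucl_dsum hU hW, ucl_inv hV h2, h, add_neg_cancel])
    have h4 := hr _ _ h3
    have h5 := mul J V W hV hW
    rw [sum _ _ _ _ (hU.dsum hW) uni_one, h1, add_zero, sum _ _ _ _ hU hW] at h4
    rw [h2, h1] at h5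
    exact add_right_cancel (h4.trans h5)
  choose n U hU e using ucl_surj (R := R) (η := ε)
  refine ⟨AddMonoidHom.mk' (fun x => f _ (U x)) fun x y => ?_,
    fun I _ _ a ha => he _ _ _ _ (hU _) ha (e _)⟩
  rw [← sum _ _ _ _ (hU x) (hU y)]
  exact he _ _ _ _ (hU _) ((hU x).dsum (hU y)) (by rw [ucl_dsum (hU x) (hU y), e, e, e])

theorem l0_map_comp (f : S →+* T) (hf : ∀ x, f (star x) = star (f x)) (g : R →+* S)
    (hg : ∀ x, g (star x) = star (g x)) (k : R →+* T) (hk : ∀ x, k (star x) = star (k x))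
    (e : ∀ x, f (g x) = k x) (y : L0 R ε) : L0.map f hf (L0.map g hg y) = L0.map k hk y := by
  obtain ⟨n, a, ha, rfl⟩ := cls_surj y
  rw [map_cls g hg ha, map_cls f hf (ha.map g hg), map_cls k hk ha]
  congr 1
  exact Matrix.ext fun i j => e _

theorem l0_map_id (k : R →+* R) (hk : ∀ x, k (star x) = star (k x)) (e : ∀ x, k x = x)
    (y : L0 R ε) : L0.map k hk y = y := by
  obtain ⟨n, a, ha, rfl⟩ := cls_surj y
  rw [map_cls k hk ha]
  congr 1
  exact Matrix.ext fun i j => e _

theorem l1_map_comp (f : S →+* T) (hf : ∀ x, f (star x) = star (f x)) (g : R →+* S)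
    (hg : ∀ x, g (star x) = star (g x)) (k : R →+* T) (hk : ∀ x, k (star x) = star (k x))
    (e : ∀ x, f (g x) = k x) (y : L1 R ε) : L1.map f hf (L1.map g hg y) = L1.map k hk y := by
  obtain ⟨n, a, ha, rfl⟩ := ucl_surj y
  rw [map_ucl g hg ha, map_ucl f hf (ha.map g hg), map_ucl k hk ha]
  congr 1
  exact Matrix.ext fun i j => e _

theorem l1_map_id (k : R →+* R) (hk : ∀ x, k (star x) = star (k x)) (e : ∀ x, k x = x)
    (y : L1 R ε) : L1.map k hk y = y := by
  obtain ⟨n, a, ha, rfl⟩ := ucl_surj y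
  rw [map_ucl k hk ha]
  congr 1
  exact Matrix.ext fun i j => e _

end Alg

variable {G H : Type} [Group G] [Group H] {ε : ℤˣ}

/-- the augmentation -/
noncomputable def aug (G : Type) [Group G] : ZG G →+* ℤ := (MonoidAlgebra.lift ℤ ℤ G 1).toRingHom

theorem aug_single (g : G) (n : ℤ) : aug G (single g n) = n := by
  simp [aug]

theorem aug_star (x : ZG G) : aug G (star x) = star (aug G x) := by
  induction x using MonoidAlgebra.induction_linear with
  | zero => simp
  | add x y hx hy => rw [star_add, map_add, map_add, star_add, hx, hy]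
  | single g n => rw [star_single, aug_single, aug_single, star_trivial]

theorem gm_one (x : ZG G) : gm (1 : G →* H) x = (aug G x : ZG H) := by
  induction x using MonoidAlgebra.induction_linear with
  | zero => simp
  | add x y hx hy => rw [map_add, map_add, Int.cast_add, hx, hy]
  | single g n => rw [gm_single, aug_single, MonoidHom.one_apply, MonoidAlgebra.intCast_def,
      Int.cast_id]

theorem zi_cls {I : Type} [Fintype I] [DecidableEq I] {ψ : Matrix I I ℤ} (h : NS ε ψ) :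
    zi ε G (cls ε ψ) = cls ε (ψ.map (Int.castRingHom (ZG G))) := map_cls _ _ h

theorem mp_cast (f : G →* H) {I J : Type} (ψ : Matrix I J ℤ) :
    mp f (ψ.map (Int.castRingHom (ZG G))) = ψ.map (Int.castRingHom (ZG H)) :=
  Matrix.ext fun _ _ => map_intCast (gm f) _

theorem m0_zi (f : G →* H) (y : L0 ℤ ε) : m0 ε f (zi ε G y) = zi ε H y :=
  l0_map_comp _ _ _ _ _ _ (fun x => map_intCast (gm f) x) y

theorem zi_inj (ε : ℤˣ) (G : Type) [Group G] : Function.Injective (zi ε G) :=
  Function.LeftInverse.injective (g := L0.map (aug G) aug_star) fun y =>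
    (l0_map_comp _ _ _ _ (RingHom.id ℤ) (fun _ => rfl) (fun x => map_intCast (aug G) x) y).trans
      (l0_map_id _ _ (fun _ => rfl) y)

theorem m0_one (x : L0 (ZG G) ε) : m0 ε (1 : G →* H) x = zi ε H (L0.map (aug G) aug_star x) :=
  (l0_map_comp _ _ _ _ _ _ (fun y => (gm_one y).symm) x).symm

theorem m0_one_mem (x : L0 (ZG G) ε) : m0 ε (1 : G →* H) x ∈ (zi ε H).range := ⟨_, (m0_one x).symm⟩

theorem m1_one (c : L1 (ZG G) ε) : m1 ε (1 : G →* H) c = 0 := by
  have h := l1_map_comp (Int.castRingHom (ZG H)) (fun x => (star_intCast x).symm) (aug G) aug_star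
    (gm (1 : G →* H)) (gm_star _) (fun y => (gm_one y).symm) c
  rw [l1_int ε (L1.map (aug G) aug_star c), map_zero] at h
  exact h.symm

theorem zi_surj_triv [Subsingleton G] : Function.Surjective (zi ε G) := fun x => by
  refine ⟨_, (m0_one x).symm.trans ?_⟩
  rw [Subsingleton.elim (1 : G →* G) (MonoidHom.id G), m0_id]

theorem l1_triv [Subsingleton G] (c : L1 (ZG G) ε) : c = 0 := by
  rw [← m1_id c, Subsingleton.elim (MonoidHom.id G) 1, m1_one]

/-- conjugate homomorphisms induce the same map -/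
theorem m0_conj (f f' : G →* H) (t : H) (h : ∀ g, f g * t = t * f' g) (x : L0 (ZG G) ε) :
    m0 ε f x = m0 ε f' x := by
  obtain ⟨n, a, ha, rfl⟩ := cls_surj x
  rw [m0_cls _ ha, m0_cls _ ha,
    cls_iso (iso_conj (mp f' a) (dg_mul_inv (J := Fin n) t) (dg_inv_mul t)), ← mp_mul_dg f f' t h,
    dg_ct, Matrix.mul_assoc, dg_mul_inv, Matrix.mul_one]

end Pool.Agent.Work.MP_9d1ffa_al
end

-- merged part: Pool.Agent.Work.MP_9d1ffa_al.Br.Circ
section
/-! Products of forms with circles.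

Plan.  `exists_cU` is `exists_l0_lift` with `ucl_aut_iso` (a scalar matrix commutes with the images
of matrices: `g.map ι * diagonal u * g'.map ι = diagonal u`), `aut_sum`, `ucl_dsum`,
`ucl_aut_hyp` and the fact that `diagonal u = fromBlocks (diagonal u) 0 0 (diagonal u)` is a
generator `GenU.gl`.  The other statements follow from `aut_map`, `aut_mul`, `aut_one`,
`cls_surj`.  Recall `dg I g = diagonal fun _ => single g 1` (`rfl`). -/

namespace Pool.Agent.Work.MP_9d1ffa_al

open Matrix MonoidAlgebra TensorProduct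

set_option linter.unusedSectionVars false
set_option linter.unusedVariables false

theorem exists_cU {R S : Type} [Ring R] [StarRing R] [Ring S] [StarRing S] (η : ℤˣ) (ι : R →+* S)
    (hι : ∀ x, ι (star x) = star (ι x)) (u : S) (h1 : u * star u = 1) (h2 : star u * u = 1)
    (h : ∀ r, Commute (ι r) u) : ∃ φ : L0 R η →+ L1 S η,
      ∀ (I : Type) [Fintype I] [DecidableEq I] (ψ : Matrix I I R), NS η ψ →
        φ (cls η ψ) = ucl η (aut η (ψ.map ι) (diagonal fun _ => u)) := by
  have hI (I : Type) [Fintype I] [DecidableEq I] (ψ : Matrix I I R) :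
      Isom η (ψ.map ι) (diagonal fun _ => u) := isom_scalar h1 h2 fun i j => h _
  have hd (I J : Type) [DecidableEq I] [DecidableEq J] : (diagonal fun _ : I ⊕ J => u) =
      fromBlocks (diagonal fun _ => u) 0 0 (diagonal fun _ => u) := by
    rw [fromBlocks_diagonal]
    congr 1
    ext (i | i) <;> rfl
  refine exists_l0_lift (fun I _ _ ψ => ucl η (aut η (ψ.map ι) (diagonal fun _ => u))) ?_ ?_ ?_
  · rintro I J _ _ _ _ a b ha ⟨g, g', g1, g2, e⟩
    have k1 : g.map ι * g'.map ι = 1 := by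
      rw [← Matrix.map_mul, g1, Matrix.map_one _ (map_zero ι) (map_one ι)]
    have k2 : g'.map ι * g.map ι = 1 := by
      rw [← Matrix.map_mul, g2, Matrix.map_one _ (map_zero ι) (map_one ι)]
    have e' : Eqv η (g.map ι * a.map ι * (g.map ι)ᴴ) (b.map ι) := by
      have := (YAut_eqv_map ι hι e).symm
      rwa [Matrix.map_mul, Matrix.map_mul, ← YAut_ct ι hι] at this
    have d : g.map ι * (diagonal fun _ : I => u) * g'.map ι = diagonal fun _ : J => u := by
      have : g.map ι * (diagonal fun _ : I => u) = (diagonal fun _ : J => u) * g.map ι := by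
        ext i j
        rw [mul_diagonal, diagonal_mul]
        exact (h _).eq
      rw [this, Matrix.mul_assoc, k1, Matrix.mul_one]
    have := ucl_aut_iso (ha.map ι hι) k1 k2 e' (hI I a)
    rw [d] at this
    exact this.symm
  · intro I J _ _ _ _ a b ha hb
    rw [fromBlocks_map, Matrix.map_zero _ (map_zero ι), Matrix.map_zero _ (map_zero ι), hd,
      aut_sum (ha.map ι hι) (hb.map ι hι),
      ucl_dsum (aut_uni (ha.map ι hι) (hI I a)) (aut_uni (hb.map ι hι) (hI J b))]
  · intro I _ _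
    have e : (hypF R I).map ι = hypF S I := by
      rw [hypF, hypF, fromBlocks_map, Matrix.map_zero _ (map_zero ι),
        Matrix.map_one _ (map_zero ι) (map_one ι)]
    have g : GenU η (diagonal fun _ : I ⊕ I => u) := by
      have := GenU.gl (η := η) (diagonal fun _ : I => u) (diagonal fun _ => star u)
        (by rw [diagonal_mul_diagonal]; simp [h1]) (by rw [diagonal_mul_diagonal]; simp [h2])
      have e2 : (diagonal fun _ : I => star u)ᴴ = diagonal fun _ => u := by
        rw [diagonal_conjTranspose]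
        congr 1
        ext i
        simp
      rwa [e2, ← hd] at this
    rw [e, ucl_aut_hyp g.uni, ucl_gen g]

variable {G H V W : Type} [Group G] [Group H] [Group V] [Group W] {η : ℤˣ} {I J : Type}
  [Fintype I] [DecidableEq I] [Fintype J] [DecidableEq J]

theorem single_star_mul (g : G) : (single g 1 : ZG G) * star (single g 1 : ZG G) = 1 ∧
    star (single g 1 : ZG G) * (single g 1 : ZG G) = 1 := by
  rw [star_single, single_mul_single, single_mul_single, mul_inv_cancel, inv_mul_cancel, mul_one]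
  exact ⟨rfl, rfl⟩

theorem gm_commute (f : V →* G) (g : G) (h : ∀ v, Commute (f v) g) (r : ZG V) :
    Commute (gm f r) (single g 1) := by
  induction r using MonoidAlgebra.induction_linear with
  | zero => simp
  | add a b ha hb =>
    rw [_root_.map_add]
    exact ha.add_left hb
  | single v n =>
    rw [gm_single, Commute, SemiconjBy, single_mul_single, single_mul_single, (h v).eq, mul_one,
      one_mul]

/-- the product with a circle mapped along a centralising element -/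
noncomputable def cG (η : ℤˣ) (f : V →* G) (g : G) (h : ∀ v, Commute (f v) g) :
    L0 (ZG V) η →+ L1 (ZG G) η :=
  (exists_cU η (gm f) (gm_star f) (single g 1) (single_star_mul g).1 (single_star_mul g).2
    (gm_commute f g h)).choose

theorem cG_cls (f : V →* G) (g : G) (h : ∀ v, Commute (f v) g) {ψ : Matrix I I (ZG V)}
    (hψ : NS η ψ) : cG η f g h (cls η ψ) = ucl η (aut η (mp f ψ) (dg I g)) :=
  (exists_cU η (gm f) (gm_star f) (single g 1) (single_star_mul g).1 (single_star_mul g).2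
    (gm_commute f g h)).choose_spec I ψ hψ

/-- the product of an integral class with a circle -/
noncomputable def cZ (η : ℤˣ) (g : G) : L0 ℤ η →+ L1 (ZG G) η :=
  (exists_cU η (Int.castRingHom (ZG G)) (fun x => (star_intCast x).symm) (single g 1)
    (single_star_mul g).1 (single_star_mul g).2 fun r => Int.cast_commute r _).choose

theorem cZ_cls (g : G) {ψ : Matrix I I ℤ} (hψ : NS η ψ) :
    cZ η g (cls η ψ) = ucl η (circ η ψ g) :=
  (exists_cU η (Int.castRingHom (ZG G)) (fun x => (star_intCast x).symm) (single g 1)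
    (single_star_mul g).1 (single_star_mul g).2 fun r => Int.cast_commute r _).choose_spec I ψ hψ

theorem isom_dg (f : V →* G) (g : G) (h : ∀ v, Commute (f v) g) (ψ : Matrix I I (ZG V)) :
    Isom η (mp f ψ) (dg I g) := by
  exact isom_scalar (single_star_mul g).1 (single_star_mul g).2 fun i j => gm_commute f g h _

theorem m1_cG (k : G →* H) (f : V →* G) (g : G) (h : ∀ v, Commute (f v) g)
    (h' : ∀ v, Commute ((k.comp f) v) (k g)) (y : L0 (ZG V) η) :
    m1 η k (cG η f g h y) = cG η (k.comp f) (k g) h' y := by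
  obtain ⟨n, ψ, hψ, rfl⟩ := cls_surj y
  rw [cG_cls _ _ _ hψ, cG_cls _ _ _ hψ, m1_ucl _ (aut_uni (hψ.mp f) (isom_dg f g h ψ)), ← mp_mp,
    ← mp_dg]
  exact congrArg (ucl η) (aut_map (gm k) (gm_star k) (hψ.mp f) _)

theorem cG_m0 (k : W →* V) (f : V →* G) (g : G) (h : ∀ v, Commute (f v) g)
    (h' : ∀ v, Commute ((f.comp k) v) g) (y : L0 (ZG W) η) :
    cG η f g h (m0 η k y) = cG η (f.comp k) g h' y := by
  obtain ⟨n, ψ, hψ, rfl⟩ := cls_surj y
  rw [m0_cls _ hψ, cG_cls _ _ _ (hψ.mp k), cG_cls _ _ _ hψ, mp_mp]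

theorem cG_one (f : V →* G) (h : ∀ v, Commute (f v) 1) (y : L0 (ZG V) η) : cG η f 1 h y = 0 := by
  obtain ⟨n, ψ, hψ, rfl⟩ := cls_surj y
  rw [cG_cls _ _ _ hψ, dg_one, aut_one (hψ.mp f), ucl_one]

theorem cG_zi (f : V →* G) (g : G) (h : ∀ v, Commute (f v) g) (y : L0 ℤ η) :
    cG η f g h (zi η V y) = cZ η g y := by
  obtain ⟨n, ψ, hψ, rfl⟩ := cls_surj y
  rw [zi_cls hψ, cG_cls _ _ _ (hψ.map _ fun x => (star_intCast x).symm), cZ_cls _ hψ, mp_cast,
    circ]

theorem ns_cast {ψ : Matrix I I ℤ} (h : NS η ψ) : NS η (ψ.map (Int.castRingHom (ZG G))) :=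
  h.map _ fun x => (star_intCast x).symm

theorem circ_uni {ψ : Matrix I I ℤ} (h : NS η ψ) (g : G) : Uni η (circ η ψ g) := by
  exact aut_uni (ns_cast h) (isom_scalar (single_star_mul g).1 (single_star_mul g).2
    fun i j => Int.cast_commute _ _)

theorem circ_one {ψ : Matrix I I ℤ} (h : NS η ψ) : circ η ψ (1 : G) = 1 := by
  rw [circ, dg_one, aut_one (ns_cast h)]

theorem circ_mul {ψ : Matrix I I ℤ} (h : NS η ψ) (g g' : G) :
    circ η ψ (g * g') = circ η ψ g * circ η ψ g' := by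
  rw [circ, circ, circ, ← dg_mul, aut_mul (ns_cast h)]

theorem mp_circ (k : G →* H) {ψ : Matrix I I ℤ} (h : NS η ψ) (g : G) :
    mp k (circ η ψ g) = circ η ψ (k g) := by
  rw [circ, circ, ← mp_cast k, ← mp_dg]
  exact aut_map (gm k) (gm_star k) (ns_cast h) _

/-- conjugation of the group element is conjugation by a scalar matrix -/
theorem circ_conj {ψ : Matrix I I ℤ} (h : NS η ψ) (f g : G) :
    circ η ψ (f * g * f⁻¹) = dg (I ⊕ I) f * circ η ψ g * dg (I ⊕ I) f⁻¹ := by
  have c (M : Matrix (I ⊕ I) (I ⊕ I) ℤ) (t : G) : M.map (Int.castRingHom (ZG G)) * dg (I ⊕ I) t =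
      dg (I ⊕ I) t * M.map (Int.castRingHom (ZG G)) := by
    ext i j : 1
    rw [dg, mul_diagonal, diagonal_mul]
    exact (Int.cast_commute (M i j) (single t 1 : ZG G)).eq
  have e : (fromBlocks (dg I (f * g * f⁻¹)) 0 0 1 : Matrix (I ⊕ I) (I ⊕ I) (ZG G)) =
      dg (I ⊕ I) f * fromBlocks (dg I g) 0 0 1 * dg (I ⊕ I) f⁻¹ := by
    rw [dg_blocks, dg_blocks, fromBlocks_multiply, fromBlocks_multiply]
    simp [dg_mul, dg_one]
  obtain ⟨e1, e2⟩ := hm_map (Int.castRingHom (ZG G)) (fun x => (star_intCast x).symm) h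
  rw [circ, circ, aut, aut, e, ← e2, ← e1]
  simp only [← Matrix.mul_assoc]
  rw [c (hm η ψ), Matrix.mul_assoc _ (dg (I ⊕ I) f⁻¹), ← c (Ring.inverse _), ← Matrix.mul_assoc]

theorem circ_sum {ψ : Matrix I I ℤ} {ψ' : Matrix J J ℤ} (h : NS η ψ) (h' : NS η ψ') (g : G) :
    circ η (fromBlocks ψ 0 0 ψ') g = dsum (circ η ψ g) (circ η ψ' g) := by
  rw [circ, circ, circ, fromBlocks_map, Matrix.map_zero _ (map_zero _),
    Matrix.map_zero _ (map_zero _), dg_blocks, aut_sum (ns_cast h) (ns_cast h')]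

theorem m1_cZ (k : G →* H) (g : G) (y : L0 ℤ η) : m1 η k (cZ η g y) = cZ η (k g) y := by
  obtain ⟨n, ψ, hψ, rfl⟩ := cls_surj y
  rw [cZ_cls _ hψ, cZ_cls _ hψ, m1_ucl _ (circ_uni hψ g), mp_circ _ hψ]

theorem cZ_mul (g g' : G) (y : L0 ℤ η) : cZ η (g * g') y = cZ η g y + cZ η g' y := by
  obtain ⟨n, ψ, hψ, rfl⟩ := cls_surj y
  rw [cZ_cls _ hψ, cZ_cls _ hψ, cZ_cls _ hψ, circ_mul hψ, ucl_mul (circ_uni hψ g) (circ_uni hψ g')]

theorem exists_asz (η : ℤˣ) (G : Type) [Group G] :
    ∃ a : L0 ℤ η ⊗[ℤ] Ab G →ₗ[ℤ] L1 (ZG G) η, ∀ y g, a (y ⊗ₜ ab g) = cZ η g y := by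
  let p : G →* Multiplicative (L0 ℤ η →+ L1 (ZG G) η) :=
    MonoidHom.mk' (fun g => Multiplicative.ofAdd (cZ η g)) fun g g' =>
      congrArg Multiplicative.ofAdd (AddMonoidHom.ext fun y => cZ_mul g g' y)
  let q : Ab G →+ (L0 ℤ η →+ L1 (ZG G) η) :=
    AddMonoidHom.mk' (fun z => Multiplicative.toAdd (Abelianization.lift p z.toMul)) fun a b =>
      congrArg Multiplicative.toAdd (map_mul (Abelianization.lift p) _ _)
  refine ⟨TensorProduct.lift (LinearMap.mk₂ ℤ (fun y z => q z y) (fun _ _ _ => map_add _ _ _)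
    (fun _ _ _ => map_zsmul _ _ _) (fun _ _ _ => by rw [q.map_add]; rfl)
    (fun _ _ _ => by rw [q.map_zsmul]; rfl)), fun y g => ?_⟩
  exact TensorProduct.lift.tmul _ _

/-- the assembly map in odd degrees -/
noncomputable def asz (η : ℤˣ) (G : Type) [Group G] : L0 ℤ η ⊗[ℤ] Ab G →ₗ[ℤ] L1 (ZG G) η :=
  (exists_asz η G).choose

theorem asz_tmul (y : L0 ℤ η) (g : G) : asz η G (y ⊗ₜ ab g) = cZ η g y :=
  (exists_asz η G).choose_spec y g

theorem m1_asz (k : G →* H) (ξ : L0 ℤ η ⊗[ℤ] Ab G) :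
    m1 η k (asz η G ξ) = asz η H ((abm k).lTensor _ ξ) := by
  induction ξ using TensorProduct.induction_on with
  | zero => simp
  | tmul y z =>
    obtain ⟨g, rfl⟩ := ab_surj z
    rw [LinearMap.lTensor_tmul, abm_ab, asz_tmul, asz_tmul, m1_cZ]
  | add a b ha hb => simp only [_root_.map_add, ha, hb]

/-- a sum of circles represents the assembled class -/
theorem Bd.uni {F : Type} [Group F] {π : F →* G} {ξ : L0 ℤ η ⊗[ℤ] Rel π}
    {W : Matrix (I ⊕ I) (I ⊕ I) (ZG F)} (h : Bd η π ξ W) :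
    Uni η W ∧ mp π W = 1 ∧ ucl η W = asz η F ((relAb π).lTensor _ ξ) := by
  induction h with
  | one I => exact ⟨uni_one, mp_one π, by rw [ucl_one, map_zero, map_zero]⟩
  | add h ψ hψ r ih =>
    obtain ⟨i1, i2, i3⟩ := ih
    refine ⟨(circ_uni hψ _).dsum i1, ?_, ?_⟩
    · rw [mp_dsum, mp_circ _ hψ, i2, show π (r : F) = 1 from r.2, circ_one hψ, dsum_one]
    · rw [ucl_dsum (circ_uni hψ _) i1, _root_.map_add, _root_.map_add, i3, LinearMap.lTensor_tmul,
        show relAb π (rcl π r) = ab (r : F) from rfl, asz_tmul, cZ_cls _ hψ]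

theorem exists_bd {F : Type} [Group F] (π : F →* G) (ξ : L0 ℤ η ⊗[ℤ] Rel π) :
    ∃ (I : Type) (_ : Fintype I) (_ : DecidableEq I) (W : Matrix (I ⊕ I) (I ⊕ I) (ZG F)),
      Bd η π ξ W := by
  have key (ξ : L0 ℤ η ⊗[ℤ] Rel π) : ∀ ξ' : L0 ℤ η ⊗[ℤ] Rel π,
      (∃ (I : Type) (_ : Fintype I) (_ : DecidableEq I) (W : Matrix (I ⊕ I) (I ⊕ I) (ZG F)),
        Bd η π ξ' W) → ∃ (I : Type) (_ : Fintype I) (_ : DecidableEq I)
          (W : Matrix (I ⊕ I) (I ⊕ I) (ZG F)), Bd η π (ξ + ξ') W := by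
    induction ξ using TensorProduct.induction_on with
    | zero =>
      intro ξ' h
      rwa [zero_add]
    | tmul y z =>
      rintro ξ' ⟨I, _, _, W, h⟩
      obtain ⟨n, ψ, hψ, rfl⟩ := cls_surj y
      obtain ⟨z, rfl⟩ := Submodule.Quotient.mk_surjective _ z
      obtain ⟨r, rfl⟩ := ab_surj z
      exact ⟨_, _, _, _, h.add ψ hψ r⟩
    | add a b ha hb =>
      intro ξ' h
      rw [add_assoc]
      exact ha _ (hb _ h)
  have := key ξ 0 ⟨Fin 0, _, _, _, Bd.one (Fin 0)⟩
  rwa [add_zero] at this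

/-- the generator of the infinite cyclic factor -/
abbrev zz (V : Type) [Group V] (k : ℤ) : V × Multiplicative ℤ := (1, Multiplicative.ofAdd k)

theorem zz_comm (k : ℤ) (v : V) : Commute (MonoidHom.inl V (Multiplicative ℤ) v) (zz V k) :=
  Prod.ext (by simp) (by simp)

/-- the product with the circle -/
noncomputable def wz (η : ℤˣ) (V : Type) [Group V] :
    L0 (ZG V) η →+ L1 (ZG (V × Multiplicative ℤ)) η :=
  cG η (MonoidHom.inl V _) (zz V 1) (zz_comm 1)

theorem m1_wz (k : V →* W) (y : L0 (ZG V) η) :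
    m1 η (px (Multiplicative ℤ) k) (wz η V y) = wz η W (m0 η k y) := by
  have c {f f' : V →* W × Multiplicative ℤ} {g g' : W × Multiplicative ℤ} (e : f = f')
      (e' : g = g') (h : ∀ v, Commute (f v) g) (h' : ∀ v, Commute (f' v) g') :
      cG η f g h y = cG η f' g' h' y := by
    subst e e'
    rfl
  rw [wz, wz, m1_cG _ _ _ _ fun v => (zz_comm 1 v).map (px (Multiplicative ℤ) k),
    cG_m0 _ _ _ _ fun v => zz_comm 1 (k v)]
  exact c (MonoidHom.ext fun v => rfl) (show (k 1, _) = (1, _) by rw [map_one]; rfl) _ _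

theorem m1_fst_wz (y : L0 (ZG V) η) : m1 η (MonoidHom.fst V _) (wz η V y) = 0 := by
  rw [wz, m1_cG _ _ _ _ fun v => (zz_comm 1 v).map (MonoidHom.fst V _)]
  exact cG_one _ _ y

theorem wz_zi (y : L0 ℤ η) : wz η V (zi η V y) = cZ η (zz V 1) y := cG_zi _ _ _ y

end Pool.Agent.Work.MP_9d1ffa_al
end

-- merged part: Pool.Agent.Work.MP_9d1ffa_al.Br.WDefs
section
/-! Frames for the Wang sequence in odd degrees.  For a unitary matrix `U` over the Laurent ring
the rows of non-negative degree that are orthogonal to `z ^ N V⁺ U` form a module over the ring of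
coefficients with a nonsingular form. -/

namespace Pool.Agent.Work.MP_9d1ffa_al

open Matrix MonoidAlgebra TensorProduct

set_option linter.unusedSectionVars false
set_option linter.unusedVariables false

/-- the product with the infinite cyclic group -/
abbrev TZ (V : Type) [Group V] : Type := V × Multiplicative ℤ

variable {V : Type} [Group V] {I J L b : Type}

theorem inl_inj : Function.Injective (MonoidHom.inl V (Multiplicative ℤ)) :=
  fun a b h => congrArg Prod.fst h

/-- constant matrices -/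
noncomputable abbrev up (A : Matrix I J (ZG V)) : Matrix I J (ZG (TZ V)) :=
  mp (MonoidHom.inl V (Multiplicative ℤ)) A

/-- the constant term -/
noncomputable abbrev dn (A : Matrix I J (ZG (TZ V))) : Matrix I J (ZG V) :=
  rs (MonoidHom.inl V (Multiplicative ℤ)) inl_inj A

/-- all degrees are at least `k` -/
def Ge (k : ℤ) (A : Matrix I J (ZG (TZ V))) : Prop := Sup (fun g => k ≤ g.2.toAdd) A

/-- all degrees are less than `k` -/
def Lt (k : ℤ) (A : Matrix I J (ZG (TZ V))) : Prop := Sup (fun g => g.2.toAdd < k) A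

variable [Fintype I] [DecidableEq I]

/-- the rows lie in the module of `U` -/
def InP (U : Matrix (I ⊕ I) (I ⊕ I) (ZG (TZ V))) (N : ℤ) (Y : Matrix L (I ⊕ I) (ZG (TZ V))) :
    Prop := Ge 0 Y ∧ ∃ B, Y = B * U ∧ Lt N B

/-- the form on the span of the rows -/
noncomputable def frm (A : Matrix b (I ⊕ I) (ZG (TZ V))) : Matrix b b (ZG V) :=
  dn (A * hypF (ZG (TZ V)) I * Aᴴ)

/-- the rows of `A` are a basis of the module of `U` -/
structure Fr (η : ℤˣ) (U : Matrix (I ⊕ I) (I ⊕ I) (ZG (TZ V))) (N : ℤ) [Fintype b] [DecidableEq b]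
    (A : Matrix b (I ⊕ I) (ZG (TZ V))) : Prop where
  mem : InP U N A
  ns : NS η (frm A)
  span : ∀ (L : Type) (Y : Matrix L (I ⊕ I) (ZG (TZ V))), InP U N Y →
    ∃ c : Matrix L b (ZG V), Y = up c * A

/-- `x` is the class of the module of `U` -/
def WE (η : ℤˣ) (U : Matrix (I ⊕ I) (I ⊕ I) (ZG (TZ V))) (x : L0 (ZG V) η) : Prop :=
  ∃ (κ : Type) (_ : Fintype κ) (_ : DecidableEq κ) (N : ℤ) (b : Type) (_ : Fintype b)
    (_ : DecidableEq b) (A : Matrix b ((I ⊕ κ) ⊕ (I ⊕ κ)) (ZG (TZ V))), 0 ≤ N ∧ Ge (-N) U ∧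
      Fr η (dsum U (1 : Matrix (κ ⊕ κ) (κ ⊕ κ) (ZG (TZ V)))) N A ∧ x = cls η (frm A)

/-- the window of the first `n` powers -/
noncomputable def win (V J : Type) [Group V] [DecidableEq J] (n : ℕ) :
    Matrix (Fin n × J) J (ZG (TZ V)) :=
  fun p j => if p.2 = j then single (zz V (p.1 : ℕ)) 1 else 0

end Pool.Agent.Work.MP_9d1ffa_al
end

-- merged part: Pool.Agent.Work.MP_9d1ffa_al.Br.KMap
section
/-! Functoriality of Whitehead groups. -/

namespace Pool.Agent.Work.MP_9d1ffa_al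

open Matrix MonoidAlgebra

set_option linter.unusedSectionVars false
set_option linter.unusedVariables false

variable {G H Q : Type} [Group G] [Group H] [Group Q] {F : Set (Subgroup G)}
  {F' : Set (Subgroup Q)} {ι κ B : Type} [Fintype ι] [DecidableEq ι] [Fintype κ] [DecidableEq κ]
  [Fintype B] [DecidableEq B]

/-- the Whitehead group vanishes -/
abbrev Wh0 (G : Type) [Group G] : Prop := WhGen (∅ : Set (Subgroup G))

theorem Triv.blocks {A : Matrix ι ι (ZG G)} {D : Matrix κ κ (ZG G)} (hA : Triv F A)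
    (hD : Triv F D) : Triv F (fromBlocks A 0 0 D) := by
  have := ((triv_block_iff (κ := κ)).2 hA).mul
    (((triv_block_iff (κ := ι)).2 hD).reindex (Equiv.sumComm ι κ))
  rw [show (fromBlocks D 0 0 (1 : Matrix ι ι (ZG G))).submatrix (Equiv.sumComm ι κ)
    (Equiv.sumComm ι κ) = fromBlocks 1 0 0 D by ext (a | a) (b | b) : 1 <;> rfl] at this
  simpa [fromBlocks_multiply] using this

theorem Triv.of_blocks {A : Matrix ι ι (ZG G)} {D : Matrix κ κ (ZG G)}
    (h : Triv F (fromBlocks A 0 0 D)) (hD : Triv F D) : Triv F A := by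
  refine (triv_block_iff (κ := κ)).1 (((triv_one (ι := ι)).blocks hD).of_mul_right ?_)
  simpa [fromBlocks_multiply] using h

theorem Triv.lower {A : Matrix ι ι (ZG G)} {D : Matrix κ κ (ZG G)} (hA : Triv F A)
    (hD : Triv F D) (C : Matrix κ ι (ZG G)) : Triv F (fromBlocks A 0 C D) := by
  obtain ⟨D', h1, -, -⟩ := hD.inv
  have := (hA.blocks hD).mul (triv_lower (D' * C))
  simpa [fromBlocks_multiply, ← Matrix.mul_assoc, h1] using this

theorem Triv.mp (f : G →* Q) (h : ∀ H ∈ F, ∀ (κ : Type) [Fintype κ] [DecidableEq κ]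
    (X : Matrix κ κ (ZG H)), IsUnit X → Triv F' (mp (f.comp H.subtype) X))
    {A : Matrix ι ι (ZG G)} (hA : Triv F A) : Triv F' (mp f A) := by
  obtain ⟨m, hm⟩ := hA
  refine (triv_block_iff (κ := Fin m)).1 ?_
  rw [← mp_one f, ← mp_zero f, ← mp_zero f, ← mp_blocks]
  generalize fromBlocks A 0 0 (1 : Matrix (Fin m) (Fin m) (ZG G)) = C at hm
  induction hm using Submonoid.closure_induction with
  | one => rw [mp_one]; exact triv_one
  | mul A B _ _ hA hB => rw [mp_mul]; exact hA.mul hB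
  | mem C hC =>
    obtain ⟨i, j, r, hij, rfl⟩ | ⟨g, ε, rfl⟩ | ⟨H, hH, X, hX, rfl⟩ := hC
    · rw [mp_add, mp_one, MP_9d1ffa_al.mp, Matrix.map_single]
      exact triv_elem hij _
    · rw [MP_9d1ffa_al.mp, diagonal_map (map_zero _)]
      simp only [gm_single]
      exact triv_sgn _ _
    · have := h H hH _ X hX
      rwa [← mp_mp] at this

theorem Triv.mp₀ (f : G →* Q) {A : Matrix ι ι (ZG G)} (hA : Triv ∅ A) :
    Triv F' (MP_9d1ffa_al.mp f A) := hA.mp f fun _ h => h.elim

theorem Wh0.mp (h : Wh0 G) (f : G →* Q) {A : Matrix ι ι (ZG G)} (hA : IsUnit A) :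
    Triv F' (mp f A) := (h.triv hA).mp₀ f

theorem Wh0.ret (h : Wh0 H) (s : G →* H) (r : H →* G) (e : ∀ g, r (s g) = g) : Wh0 G :=
  fun n A hA => by
    have := h.mp (F' := ∅) r (IsUnit.mp s hA)
    rwa [mp_mp, show r.comp s = MonoidHom.id G from MonoidHom.ext e, mp_id] at this

theorem Wh0.equiv (h : Wh0 H) (e : G ≃* H) : Wh0 G :=
  h.ret e.toMonoidHom e.symm.toMonoidHom e.symm_apply_apply

theorem WhGen.wh0 (h : WhGen F) (k : ∀ H ∈ F, Wh0 H) : Wh0 G := fun n A hA => by
  rw [← mp_id A]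
  exact (h n A hA).mp _ fun H hH _ _ _ X hX => (k H hH).mp _ hX

theorem big_unit {A : Matrix ι ι (ZG G)} (hA : IsUnit A) :
    Big G fun H _ f => ∃ A', IsUnit A' ∧ mp f A' = A := by
  obtain ⟨C, h1, h2⟩ := isUnit_iff_exists.1 hA
  refine ((big_mat A).and (big_mat C)).mono ?_
  rintro H _ f hf ⟨⟨A, rfl⟩, C, rfl⟩
  exact ⟨A, isUnit_iff_exists.2 ⟨C, mp_inj hf (by rw [mp_mul, h1, mp_one]),
    mp_inj hf (by rw [mp_mul, h2, mp_one])⟩, rfl⟩

theorem triv_fl_diag (D : ι → Matrix B B (ZG Q)) (h : ∀ i, Triv F' (D i)) :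
    Triv F' (fl (diagonal D)) := by
  suffices k : ∀ s : Finset ι, Triv F' (fl (diagonal fun i => if i ∈ s then D i else 1)) by
    simpa using k Finset.univ
  intro s
  induction s using Finset.induction_on with
  | empty => simpa [fl_one] using triv_one
  | insert i s hi ih =>
    have e : (diagonal fun k => if k ∈ insert i s then D k else 1) =
        (diagonal fun k => if k = i then D i else 1) * diagonal fun k => if k ∈ s then D k else 1 := by
      rw [diagonal_mul_diagonal]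
      congr 1
      funext k
      by_cases a : k = i
      · simp [a, hi]
      · simp [a]
    rw [e, fl_mul]
    refine Triv.mul ?_ ih
    have := triv_swap (F := F') (Matrix.of fun (p : ι × B) b => if p.1 = i then (D i - 1) p.2 b else 0)
      (Matrix.of fun b (q : ι × B) => if q = (i, b) then 1 else 0) (by
        convert h i using 1
        ext a b : 1
        rw [Matrix.add_apply, Matrix.mul_apply, Finset.sum_eq_single (i, a)]
        · simp
        · intro x _ hx
          simp [hx]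
        · simp)
    convert this using 1
    ext ⟨k, a⟩ ⟨l, b⟩ : 1
    by_cases c : l = i <;> by_cases d : k = i <;>
      simp [fl, Matrix.mul_apply, diagonal_apply, one_apply, c, d]
    · simp [Ne.symm c]
    · by_cases e : k = l <;> simp [e, one_apply]

theorem Triv.fl (φ : ZG G →+* Matrix B B (ZG Q)) (h₁ : ∀ g, Triv F' (φ (single g 1)))
    (h : ∀ H ∈ F, ∀ (κ : Type) [Fintype κ] [DecidableEq κ] (X : Matrix κ κ (ZG H)), IsUnit X →
      Triv F' (fl ((MP_9d1ffa_al.mp H.subtype X).map φ)))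
    {A : Matrix ι ι (ZG G)} (hA : Triv F A) : Triv F' (fl (A.map φ)) := by
  obtain ⟨m, hm⟩ := hA
  have key : Triv F' (MP_9d1ffa_al.fl ((fromBlocks A 0 0 (1 : Matrix (Fin m) (Fin m) _)).map φ)) := by
    generalize fromBlocks A 0 0 (1 : Matrix (Fin m) (Fin m) (ZG G)) = C at hm
    induction hm using Submonoid.closure_induction with
    | one => rw [Matrix.map_one _ (map_zero _) (map_one _), fl_one]; exact triv_one
    | mul A B _ _ hA hB => rw [Matrix.map_mul, fl_mul]; exact hA.mul hB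
    | mem C hC =>
      obtain ⟨i, j, r, hij, rfl⟩ | ⟨g, ε, rfl⟩ | ⟨H, hH, X, hX, rfl⟩ := hC
      · rw [Matrix.map_add _ (map_add φ), Matrix.map_one _ (map_zero _) (map_one _),
          Matrix.map_single, show MP_9d1ffa_al.fl (1 + Matrix.single i j (φ r)) =
            MP_9d1ffa_al.fl 1 + MP_9d1ffa_al.fl (Matrix.single i j (φ r)) from rfl, fl_one]
        refine triv_tri (fun p => if p.1 = i then 0 else 1) _ fun p q e => ?_
        have : i = p.1 ∧ j = q.1 := by
          by_contra c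
          exact e (by simp [MP_9d1ffa_al.fl, Matrix.single, c])
        rw [← this.1, ← this.2]
        simp [hij.symm]
      · rw [diagonal_map (map_zero _)]
        refine triv_fl_diag _ fun k => ?_
        rcases Int.units_eq_one_or (ε k) with e | e
        · rw [e]
          exact h₁ _
        · have := (h₁ (g k)).mul (triv_sgn (fun _ => 1) fun _ => -1)
          rw [e, Units.val_neg, MonoidAlgebra.single_neg, map_neg]
          convert this using 1
          simp [MonoidAlgebra.single_neg, ← MonoidAlgebra.one_def, ← diagonal_neg]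
      · exact h H hH _ X hX
  refine (triv_block_iff (κ := Fin m × B)).1 ?_
  convert key.reindex (Equiv.sumProdDistrib ι (Fin m) B).symm using 1
  rw [← fl_one, fromBlocks_map, Matrix.map_one _ (map_zero _) (map_one _),
    Matrix.map_zero _ (map_zero _), Matrix.map_zero _ (map_zero _)]
  ext (⟨i, x⟩ | ⟨i, x⟩) (⟨j, y⟩ | ⟨j, y⟩) : 1 <;> rfl

end Pool.Agent.Work.MP_9d1ffa_al
end

-- merged part: Pool.Agent.Work.MP_9d1ffa_al.Br.KRC
section
/-! Subgroups of a locally free group times a free abelian group are regular coherent. -/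

namespace Pool.Agent.Work.MP_9d1ffa_al

open Matrix MonoidAlgebra VN

set_option linter.unusedSectionVars false
set_option linter.unusedVariables false

section Ring

variable {R Λ : Type} [Ring R] [Ring Λ] {I J L : Type} [Fintype I] [Fintype J] [Fintype L]

theorem KRC_le (ι : R →+* Λ) {M : Matrix I L R} {N : Matrix J L R}
    (h : LinearMap.range M.vecMulLinear ≤ LinearMap.range N.vecMulLinear) :
    LinearMap.range (M.map ι).vecMulLinear ≤ LinearMap.range (N.map ι).vecMulLinear := by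
  classical
  choose a ha using fun i => h (LinearMap.mem_range_self _ (Pi.single i 1))
  have e : Matrix.of a * N = M := by
    funext i
    exact (ha i).trans (single_one_vecMul _ _)
  rintro _ ⟨x, rfl⟩
  exact ⟨x ᵥ* (Matrix.of a).map ι, by
    rw [vecMulLinear_apply, vecMul_vecMul, ← Matrix.map_mul, e, vecMulLinear_apply]⟩

theorem KRC_ker {ι : R →+* Λ} (hι : Flt ι) {a : Matrix I J R} {b : Matrix J L R}
    (h : LinearMap.ker b.vecMulLinear = LinearMap.range a.vecMulLinear) :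
    LinearMap.ker (b.map ι).vecMulLinear = LinearMap.range (a.map ι).vecMulLinear := by
  classical
  refine le_antisymm (fun v hv => hι I J L (fun _ => True) a b (fun v _ e => h.le e) v
    (fun _ _ => trivial) hv) ?_
  rintro _ ⟨x, rfl⟩
  have e : a * b = 0 := SF_ext fun x => by
    rw [← vecMul_vecMul, vecMul_zero]
    exact h.ge ⟨x, rfl⟩
  rw [LinearMap.mem_ker, vecMulLinear_apply, vecMulLinear_apply, vecMul_vecMul, ← Matrix.map_mul, e,
    Matrix.map_zero _ (map_zero _), vecMul_zero]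

theorem FF.flat {ι : R →+* Λ} (hι : Flt ι) {n : ℕ} (M : Matrix I J R)
    (h : FF R n (LinearMap.range M.vecMulLinear)) :
    FF Λ n (LinearMap.range (M.map ι).vecMulLinear) := by
  induction n generalizing I J with
  | zero =>
    obtain ⟨a, b, _, _, _, U, V, W, e, h1, h2⟩ := OK1_mats h
    rw [le_antisymm (KRC_le ι e.ge) (KRC_le ι e.le)]
    refine OK1_base _ (V.map ι) (W.map ι) (KRC_ker hι h1) ?_
    rw [← Matrix.map_mul, h2, Matrix.map_one _ (map_zero _) (map_one _)]
  | succ n ih =>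
    obtain ⟨k, f, hf, hk⟩ := h
    obtain ⟨N, hN⟩ := Res_mat ((LinearMap.range M.vecMulLinear).subtype ∘ₗ f)
    have e1 : LinearMap.range N.vecMulLinear = LinearMap.range M.vecMulLinear := by
      rw [hN, LinearMap.range_comp_of_range_eq_top _ (LinearMap.range_eq_top.2 hf),
        Submodule.range_subtype]
    have e2 : LinearMap.ker N.vecMulLinear = LinearMap.ker f := by
      rw [hN, LinearMap.ker_comp_of_ker_eq_bot _ (Submodule.ker_subtype _)]
    obtain ⟨_, g, hg, -⟩ := hk.succ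
    obtain ⟨m, P, hP⟩ := Res_fg_mat (Y := LinearMap.ker f)
      (Module.Finite.iff_fg.1 (Module.Finite.of_surjective g hg))
    rw [← hP] at hk e2
    rw [le_antisymm (KRC_le ι e1.ge) (KRC_le ι e1.le)]
    refine ⟨k, _, (N.map ι).vecMulLinear.surjective_rangeRestrict, ?_⟩
    rw [LinearMap.ker_rangeRestrict, KRC_ker hι e2]
    exact ih P hk

theorem FF.fpr {n : ℕ} {M : Type} [AddCommGroup M] [Module R M] (h : FF R n M) : FPR R n M := by
  induction n generalizing M with
  | zero =>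
    obtain ⟨h1, h2⟩ := h
    exact ⟨h1, inferInstance⟩
  | succ n ih =>
    obtain ⟨k, f, hf, hk⟩ := h
    exact ⟨_, inferInstance, inferInstance, f, inferInstance, inferInstance, hf, ih hk⟩

theorem KRC_fp (h : Coh R) (M : Type) [AddCommGroup M] [Module R M]
    (hM : Module.FinitePresentation R M) : ∃ n, FF R n M := by
  obtain ⟨k, f, hf⟩ := Module.Finite.exists_fin' R M
  obtain ⟨n, hn⟩ := h _ _ (Module.FinitePresentation.fg_ker f hf)
  exact ⟨n + 1, k, f, hf, hn⟩

end Ring

variable {D A K : Type} [Group D] [Group A] [Group K]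

theorem rc_of_coh (h : Coh (ZG D)) : RC D ∧ K0Zero D :=
  ⟨fun M _ _ hM => (KRC_fp h M hM).imp fun _ => FF.fpr, fun M _ _ h1 h2 =>
    let ⟨_, hn⟩ := KRC_fp h M (Module.finitePresentation_of_projective _ _)
    hn.stablyFree h2⟩

theorem coh_of_lcl (h : Lcl (fun H _ => Coh (ZG H)) D) : Coh (ZG D) := fun I _ U hU => by
  obtain ⟨n, M, rfl⟩ := Res_fg_mat hU
  obtain ⟨H, _, f, hf, hH, M, rfl⟩ := h.big (big_mat M)
  exact (hH I _ (Submodule.fg_range _)).imp fun _ => FF.flat (flt_gm f hf) M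

theorem Lcl.prod {P : ∀ (H : Type) [Group H], Prop} (h : Lcl (fun H _ => P (H × K)) D) :
    Lcl P (D × K) := fun T => by
  obtain ⟨H, _, f, h1, h2, h3⟩ := h.big (big_all fun x : T => x.1).prod
  exact ⟨_, inferInstance, px K f, h1.prodMap Function.injective_id, fun g hg => h3 ⟨g, hg⟩, h2⟩

theorem coh_of_emb (hA : LF A) (hK : FA K) (χ : D →* A × K) (hχ : Function.Injective χ) :
    Coh (ZG D) := coh_of_lcl fun T => by
  obtain ⟨H, _, f, h1, h2, h3⟩ := hA.big (big_all fun x : T => χ x.1).prod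
  have h4 : Function.Injective (px K f) := h1.prodMap Function.injective_id
  let E := (px K f).range.comap χ
  obtain ⟨Y, m, ⟨e⟩⟩ := sub_free hK ((px K (IsFreeGroup.toFreeGroup H).toMonoidHom).comp
      ((MonoidHom.ofInjective h4).symm.toMonoidHom.comp
        (MonoidHom.codRestrict (χ.comp E.subtype) _ fun x => x.2)))
      (((IsFreeGroup.toFreeGroup H).injective.prodMap Function.injective_id).comp
        ((MonoidHom.ofInjective h4).symm.injective.comp fun x y e =>
          Subtype.ext (hχ (congrArg Subtype.val e))))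
  refine ⟨_, inferInstance, E.subtype.comp e.symm.toMonoidHom,
    Subtype.val_injective.comp e.symm.injective,
    fun g hg => ⟨e ⟨g, h3 ⟨g, hg⟩⟩, by simp⟩, coh_of_lcl (Lcl.prod (lcl_free fun S => ?_))⟩
  exact fun I _ U hU => ff_of_fg ⟨m, ⟨MulEquiv.refl _⟩⟩ U hU

end Pool.Agent.Work.MP_9d1ffa_al
end

-- merged part: Pool.Agent.Work.MP_9d1ffa_al.Br.KCut
section
/-! Whitehead groups of HNN extensions and of free abelian groups. -/

namespace Pool.Agent.Work.MP_9d1ffa_al

open Matrix MonoidAlgebra MulAction Pool.Agent.Work.MP_904812_al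

set_option linter.unusedSectionVars false
set_option linter.unusedVariables false

variable {Γ V A B K : Type} [Group Γ] [Group V] [Group A] [Group B] [Group K]

theorem triv_conj {F : Set (Subgroup Γ)} {H : Subgroup Γ} (hH : H ∈ F) (f : V →* Γ) (γ : Γ)
    (h : ∀ g, γ⁻¹ * f g * γ ∈ H) {κ : Type} [Fintype κ] [DecidableEq κ] {X : Matrix κ κ (ZG V)}
    (hX : IsUnit X) : Triv F (mp f X) := by
  let c : V →* Γ := MonoidHom.mk' (fun g => γ⁻¹ * f g * γ) fun a b => by
    rw [map_mul]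
    group
  have e := mp_mul_dg f c γ (fun g => by
    change _ = γ * (γ⁻¹ * f g * γ)
    group) X
  have d : Triv F (dg κ γ) := triv_diag fun _ => γ
  refine d.of_mul_right ?_
  rw [e]
  refine d.mul (triv_of_on hH (IsUnit.mp c hX) fun i j g hg => ?_)
  obtain ⟨x, rfl⟩ := sup_mp c X i j g hg
  exact h x

theorem Cut.whGen (C : Cut Γ V A) (hB : LF B) (hK : FA K) (χ : A →* B × K)
    (hχ : Function.Injective χ) : WhGen {C.v.range} := by
  have rc : ∀ a b : Γ ⧸ C.v.range, a ≠ b → RC (stabilizer Γ (a, b)) ∧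
      K0Zero (stabilizer Γ (a, b)) := fun a b h => by
    obtain ⟨ψ, hψ⟩ := C.stab_emb h
    exact rc_of_coh (coh_of_emb hB hK (χ.comp ψ) (hχ.comp hψ))
  have adj : ∀ x y, (C.T.dist x y : ℤ) = 1 → C.T.Adj x y := fun x y e =>
    SimpleGraph.dist_eq_one_iff_adj.1 (by exact_mod_cast e)
  have key : WhGen (Set.range fun x : Γ ⧸ C.v.range => stabilizer Γ x) :=
    tree_main (tr_of_isTree C.isTree) C.o (fun g x y => by rw [dist_smul C.isTree C.act])
      (fun g x y e => C.noinv g (adj x y e)) (fun x y e => (rc x y (adj x y e).ne).2)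
      (fun v => ⟨_, ⟨v, rfl⟩, le_rfl⟩) (fun f hf => ⟨0, (rc _ _ (hf 0).1.1).1⟩)
      fun σ s h _ k => (k (rc _ _ h.1).1).elim
  intro n M hM
  rw [← mp_id M]
  refine (key n M hM).mp _ ?_
  rintro _ ⟨x, rfl⟩ κ _ _ X hX
  obtain ⟨γ, rfl⟩ := C.exists_o x
  refine triv_conj (Set.mem_singleton _) _ γ (fun g => (C.stab_iff _).1 ?_) hX
  have e : g.1 • γ • C.o = γ • C.o := g.2
  rw [mul_smul, mul_smul]
  exact inv_smul_eq_iff.2 e

theorem Cut.wh0 (C : Cut Γ V A) (hB : LF B) (hK : FA K) (χ : A →* B × K)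
    (hχ : Function.Injective χ) (hV : Wh0 V) : Wh0 Γ :=
  (C.whGen hB hK χ hχ).wh0 fun H hH => by
    obtain rfl : H = _ := hH
    exact hV.equiv (MonoidHom.ofInjective C.vinj).symm

theorem triv_int {F : Set (Subgroup Γ)} (n : ℕ) (M : Matrix (Fin n) (Fin n) ℤ) (hM : IsUnit M) :
    Triv F (M.map (Int.castRingHom (ZG Γ))) := by
  induction n with
  | zero =>
    rw [Subsingleton.elim (M.map _) 1]
    exact triv_one
  | succ n ih =>
    let e : Fin 1 ⊕ Fin n ≃ Fin (n + 1) := finSumFinEquiv.trans (finCongr (add_comm 1 n))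
    let S : Submonoid (Matrix (Fin 1 ⊕ Fin n) (Fin 1 ⊕ Fin n) ℤ) :=
      { carrier := {E | IsUnit E ∧ Triv F (E.map (Int.castRingHom (ZG Γ)))}
        mul_mem' := fun a b => ⟨a.1.mul b.1, by rw [Matrix.map_mul]; exact a.2.mul b.2⟩
        one_mem' := ⟨isUnit_one, by
          rw [Matrix.map_one _ (map_zero _) (map_one _)]; exact triv_one⟩ }
    obtain ⟨E, ⟨h1, h2⟩, d, hd⟩ := euc S (fun i j r hij => ⟨(isUnit_iff_isUnit_det _).2
      ((det_transvection_of_ne i j hij r) ▸ isUnit_one), by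
        rw [Matrix.map_add _ (map_add _), Matrix.map_one _ (map_zero _) (map_one _),
          Matrix.map_single]
        exact triv_elem hij _⟩) (Sum.inl 0) (M.submatrix e e (Sum.inl 0))
    have h3 : IsUnit (M.submatrix e e * E) := ((isUnit_submatrix_equiv e e).2 hM).mul h1
    have h4 : M.submatrix e e * E = fromBlocks (diagonal fun _ => d) 0
        (M.submatrix e e * E).toBlocks₂₁ (M.submatrix e e * E).toBlocks₂₂ := by
      ext (i | i) (j | j)
      · obtain rfl := Subsingleton.elim i 0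
        obtain rfl := Subsingleton.elim j 0
        exact (congrFun hd (Sum.inl 0)).trans (by simp)
      · obtain rfl := Subsingleton.elim i 0
        exact (congrFun hd (Sum.inr j)).trans (by simp)
      · rfl
      · rfl
    rw [h4, isUnit_fromBlocks_zero₁₂, isUnit_diagonal] at h3
    obtain ⟨u, rfl⟩ := h3.1.apply 0
    have h5 : Triv F ((M.submatrix e e * E).map (Int.castRingHom (ZG Γ))) := by
      rw [h4, fromBlocks_map, Matrix.map_zero _ (map_zero _), diagonal_map (map_zero _)]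
      exact (triv_sgn (fun _ => 1) fun _ => u).lower (ih _ h3.2) _
    rw [Matrix.map_mul] at h5
    have := (h2.of_mul_right h5).reindex e.symm
    rwa [← submatrix_map, submatrix_submatrix, Equiv.self_comp_symm, submatrix_id_id] at this

theorem wh0_triv [Subsingleton Γ] : Wh0 Γ := fun n M hM => by
  let s : ZG Γ →+* ℤ := (MonoidAlgebra.lift ℤ ℤ Γ 1).toRingHom
  have e : ∀ x, Int.castRingHom (ZG Γ) (s x) = x := fun x => by
    induction x using MonoidAlgebra.induction_linear with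
    | zero => simp
    | add a b ha hb => rw [map_add, map_add, ha, hb]
    | single g n =>
      obtain rfl := Subsingleton.elim g 1
      simp [s, MonoidAlgebra.intCast_def]
  have := triv_int (F := (∅ : Set (Subgroup Γ))) n (M.map s) (hM.map s.mapMatrix)
  rwa [Matrix.map_map, show Int.castRingHom (ZG Γ) ∘ s = id from funext e, Matrix.map_id] at this

theorem wh0_fa (hK : FA K) : Wh0 K := by
  obtain ⟨n, ⟨e⟩⟩ := hK
  refine Wh0.equiv ?_ e
  clear e
  induction n with
  | zero => exact wh0_triv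
  | succ n ih =>
    have e0 : (Fin (n + 1) → ℤ) ≃+ (Fin n → ℤ) × ℤ :=
      (Fin.consLinearEquiv ℤ fun _ : Fin (n + 1) => ℤ).symm.toAddEquiv.trans AddEquiv.prodComm
    exact ((Cut.line _).wh0 (lf_free Cy) ⟨n, ⟨MulEquiv.refl _⟩⟩ (MonoidHom.inr _ _)
      (fun a b h => congrArg Prod.snd h) ih).equiv
        ((AddEquiv.toMultiplicative e0).trans (MulEquiv.prodMultiplicative _ _))

end Pool.Agent.Work.MP_9d1ffa_al
end

-- merged part: Pool.Agent.Work.MP_9d1ffa_al.Br.KCop
section
/-! Whitehead groups of free products. -/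

namespace Pool.Agent.Work.MP_9d1ffa_al

open Matrix MonoidAlgebra Monoid

set_option linter.unusedSectionVars false
set_option linter.unusedVariables false

variable {G H K Q I : Type} [Group G] [Group H] [Group K] [Group Q] [Fintype I] [DecidableEq I]
  {F : Set (Subgroup Q)}

theorem rep_mp (ρ : G →* U2 Q) (f : H →* G) (a : Matrix I I (ZG H)) :
    (mp f a).map (rep ρ) = a.map (rep (ρ.comp f)) := by
  have e : ∀ x, rep ρ (gm f x) = rep (ρ.comp f) x := fun x => by
    induction x using MonoidAlgebra.induction_linear with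
    | zero => simp
    | add a b ha hb => rw [map_add, map_add, map_add, ha, hb]
    | single g n => rw [gm_single, rep_single, rep_single]; rfl
  funext i j
  exact e _

theorem triv_fl_dgl (p q : G →* Q) (a : Matrix I I (ZG G)) :
    Triv F (fl (a.map (rep (dgl p q)))) ↔ Triv F (fromBlocks (mp p a) 0 0 (mp q a)) := by
  let e : I ⊕ I ≃ I × Bool := (Equiv.boolProdEquivSum _).symm.trans (Equiv.prodComm _ _)
  have h : (fl (a.map (rep (dgl p q)))).submatrix e e = fromBlocks (mp p a) 0 0 (mp q a) := by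
    ext (i | i) (j | j) : 1 <;> simp [e, fl, rep_dgl, mp_apply]
  rw [← h]
  refine ⟨fun k => k.reindex e, fun k => ?_⟩
  simpa using k.reindex e.symm

theorem triv_dgl (p q : G →* Q) (g : G) : Triv F (dgl p q g).1 := triv_diag _

theorem triv_copP (g : Coprod (G × H) Cy × K) :
    Triv (∅ : Set (Subgroup _)) (copP G H K g).1 := by
  rw [copP_apply, Submonoid.coe_mul]
  refine Triv.mul ?_ (triv_dgl _ _ _)
  obtain ⟨g, k⟩ := g
  induction g using Coprod.induction_on with
  | inl g => exact triv_dgl _ _ g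
  | inr z =>
    induction z using FreeGroup.induction_on with
    | C1 => simp only [map_one]; exact triv_one
    | of x =>
      have e : copR G H K (Coprod.inr (FreeGroup.of ())) = swp _ := by simp [copR, cy]
      simp only [e]
      convert triv_swap_perm (F := ∅) (i := false) (j := true) (by simp) using 1
      ext (_ | _) (_ | _) : 1 <;> rfl
    | inv_of x h =>
      refine h.of_mul_left ?_
      rw [← Submonoid.coe_mul, ← map_mul, ← map_mul, mul_inv_cancel, map_one, map_one]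
      exact triv_one
    | mul a b ha hb => simp only [map_mul, Submonoid.coe_mul]; exact ha.mul hb
  | mul a b ha hb => simp only [map_mul, Submonoid.coe_mul]; exact ha.mul hb

theorem wh0_cop (hK : FA K) (h : Wh0 (G × K)) (h' : Wh0 (H × K)) : Wh0 (Coprod G H × K) := by
  intro n x hx
  obtain ⟨⟨D, pos, a1, a2, a3, a4, a5, a6, a7, a8⟩, rfl : D = _⟩ := cut_phC (G × H)
  set C : Cut _ _ _ := ⟨phC (G × H), pos, a1, a2, a3, a4, a5, a6, a7, a8⟩
  have k := (((C.prod K).whGen (lf_free _) hK (MonoidHom.id _) Function.injective_id).triv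
    (IsUnit.mp (px K (copI G H)) hx)).fl (F' := ∅) (rep (copP G H K))
    (fun g => by rw [rep_single, one_smul]; exact triv_copP g) (by
      rintro _ (rfl : _ = _) κ _ _ X hX
      let e := (MonoidHom.ofInjective (C.prod K).vinj).symm.toMonoidHom
      have e1 : (C.prod K).v.range.subtype = (px K Coprod.inl).comp e :=
        MonoidHom.ext fun g => (MonoidHom.apply_ofInjective_symm _ g).symm
      have hY := IsUnit.mp e hX
      rw [e1, ← mp_mp, rep_mp, copP_inl, triv_fl_dgl, ← mp_px, ← mp_px]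
      exact (h.mp _ (IsUnit.mp _ hY)).blocks (h'.mp _ (IsUnit.mp _ hY)))
  rw [rep_mp, copP_I, triv_fl_dgl, mp_id] at k
  refine k.of_blocks ?_
  have := h.mp (F' := ∅) (px K (Coprod.inl : G →* Coprod G H))
    (IsUnit.mp (px K (1 : Coprod G H →* G)) hx)
  rwa [mp_px, MonoidHom.comp_one] at this

end Pool.Agent.Work.MP_9d1ffa_al
end

-- merged part: Pool.Agent.Work.MP_9d1ffa_al.Br.KSfi
section
/-! Projective modules are stably free when the Whitehead group of the product with the infinite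
cyclic group vanishes. -/

namespace Pool.Agent.Work.MP_9d1ffa_al

open Matrix MonoidAlgebra

set_option linter.unusedSectionVars false

section Mod

variable {R M P : Type} [Ring R] [AddCommGroup M] [Module R M] [AddCommGroup P] [Module R P]

/-- an injective map whose cokernel has a finite free resolution -/
def KSg (f : M →ₗ[R] M) : Prop :=
  Function.Injective f ∧ ∃ n, FF R n (M ⧸ LinearMap.range f)

theorem KS_ses (f : M →ₗ[R] M) {g : M →ₗ[R] M} (hg : Function.Injective g) :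
    ∃ (i : (M ⧸ LinearMap.range f) →ₗ[R] (M ⧸ LinearMap.range (g ∘ₗ f)))
      (q : (M ⧸ LinearMap.range (g ∘ₗ f)) →ₗ[R] (M ⧸ LinearMap.range g)),
      Function.Injective i ∧ Function.Exact i q ∧ Function.Surjective q := by
  refine ⟨(LinearMap.range f).mapQ _ g ?_, (LinearMap.range (g ∘ₗ f)).mapQ _ LinearMap.id ?_,
    ?_, fun y => ?_, fun y => ?_⟩
  · rintro _ ⟨x, rfl⟩
    exact ⟨x, rfl⟩
  · rintro _ ⟨x, rfl⟩
    exact ⟨f x, rfl⟩
  · refine (injective_iff_map_eq_zero _).2 fun y hy => ?_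
    obtain ⟨y, rfl⟩ := Submodule.Quotient.mk_surjective _ y
    obtain ⟨x, hx⟩ := (Submodule.Quotient.mk_eq_zero _).1 hy
    exact (Submodule.Quotient.mk_eq_zero _).2 ⟨x, hg hx⟩
  · obtain ⟨y, rfl⟩ := Submodule.Quotient.mk_surjective _ y
    refine ⟨fun hy => ?_, ?_⟩
    · obtain ⟨x, hx⟩ := (Submodule.Quotient.mk_eq_zero _).1 hy
      exact ⟨Submodule.Quotient.mk x, congrArg Submodule.Quotient.mk hx⟩
    · rintro ⟨x, hx⟩
      obtain ⟨x, rfl⟩ := Submodule.Quotient.mk_surjective _ x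
      rw [← hx]
      exact (Submodule.Quotient.mk_eq_zero _).2 ⟨x, rfl⟩
  · obtain ⟨y, rfl⟩ := Submodule.Quotient.mk_surjective _ y
    exact ⟨Submodule.Quotient.mk y, rfl⟩

theorem KSg.comp {f g : M →ₗ[R] M} (hf : KSg f) (hg : KSg g) : KSg (g ∘ₗ f) := by
  obtain ⟨i, q, h1, h2, h3⟩ := KS_ses f hg.1
  obtain ⟨n, hn⟩ := hf.2
  obtain ⟨m, hm⟩ := hg.2
  exact ⟨hg.1.comp hf.1, max n m,
    FF.ext i q h1 h2 h3 (hn.mono (le_max_left _ _)) (hm.mono (le_max_right _ _))⟩

theorem KSg.cancel {f g : M →ₗ[R] M} (hf : KSg f) (h : KSg (g ∘ₗ f))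
    (hg : Function.Injective g) : KSg g := by
  obtain ⟨i, q, h1, h2, h3⟩ := KS_ses f hg
  obtain ⟨n, hn⟩ := hf.2
  obtain ⟨m, hm⟩ := h.2
  exact ⟨hg, FF.coker i q h1 h2 h3 hn hm⟩

theorem KS_equiv {f : M →ₗ[R] M} (p : M →ₗ[R] P) (hp : Function.Surjective p)
    (e : LinearMap.range f = LinearMap.ker p) : Nonempty ((M ⧸ LinearMap.range f) ≃ₗ[R] P) :=
  ⟨(Submodule.quotEquivOfEq _ _ e).trans (p.quotKerEquivOfSurjective hp)⟩

theorem KS_free {f : M →ₗ[R] M} (hf : Function.Injective f) [Module.Finite R P] [Module.Free R P]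
    (p : M →ₗ[R] P) (hp : Function.Surjective p) (e : LinearMap.range f = LinearMap.ker p) :
    KSg f := by
  obtain ⟨a⟩ := KS_equiv p hp e
  exact ⟨hf, 0, FF.equiv a.symm ⟨inferInstance, inferInstance⟩⟩

end Mod

section Pol

open Polynomial

variable {R i : Type} [Ring R] [Fintype i] [DecidableEq i]

/-- multiplication by a matrix of polynomials -/
noncomputable def KSm (A : Matrix i i R[X]) : (i → R[X]) →ₗ[R] (i → R[X]) :=
  A.vecMulLinear.restrictScalars R

theorem KSm_apply (A : Matrix i i R[X]) (v : i → R[X]) : KSm A v = v ᵥ* A := rfl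

theorem KSm_mul (A B : Matrix i i R[X]) : KSm (A * B) = KSm B ∘ₗ KSm A :=
  LinearMap.ext fun v => (vecMul_vecMul v A B).symm

theorem KS_mul {A B : Matrix i i R[X]} (hA : KSg (KSm A)) (hB : KSg (KSm B)) :
    KSg (KSm (A * B)) := by
  rw [KSm_mul]
  exact hA.comp hB

theorem KS_unit {A B : Matrix i i R[X]} (h1 : A * B = 1) (h2 : B * A = 1) : KSg (KSm A) := by
  refine KS_free (P := Empty → R) (fun v w e => ?_) 0 (fun v => ⟨0, Subsingleton.elim _ _⟩) ?_
  · have := congrArg (· ᵥ* B) e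
    simpa only [KSm_apply, vecMul_vecMul, h1, vecMul_one] using this
  · rw [LinearMap.ker_zero, LinearMap.range_eq_top]
    exact fun v => ⟨v ᵥ* B, by rw [KSm_apply, vecMul_vecMul, h2, vecMul_one]⟩

theorem KS_step (S : i → Prop) [DecidablePred S] :
    KSg (KSm (diagonal fun k => if S k then (X : R[X]) else 1)) := by
  refine KS_free (P := {k // S k} → R) ((injective_iff_map_eq_zero _).2 fun v e => ?_)
    (LinearMap.pi fun k => lcoeff R 0 ∘ₗ LinearMap.proj k.1) (fun w => ?_) ?_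
  · funext k
    have := congrFun e k
    rw [KSm_apply, vecMul_diagonal] at this
    split_ifs at this
    · exact (isRegular_X.right.mul_right_eq_zero_iff).1 this
    · simpa using this
  · refine ⟨fun k => if h : S k then C (w ⟨k, h⟩) else 0, funext fun k => ?_⟩
    simp [k.2]
  · ext v
    refine ⟨?_, fun hv => ⟨fun k => if S k then divX (v k) else v k, funext fun k => ?_⟩⟩
    · rintro ⟨w, rfl⟩
      funext k
      simp [KSm_apply, vecMul_diagonal, k.2]
    · rw [KSm_apply, vecMul_diagonal]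
      split_ifs with h
      · have : (v k).coeff 0 = 0 := congrFun hv ⟨k, h⟩
        have e := divX_mul_X_add (v k)
        rwa [this, C_0, add_zero] at e
      · exact mul_one _

theorem KS_diag (m : i → ℕ) : KSg (KSm (diagonal fun k => (X : R[X]) ^ m k)) := by
  have key (n : ℕ) : ∀ m : i → ℕ, (∀ k, m k ≤ n) →
      KSg (KSm (diagonal fun k => (X : R[X]) ^ m k)) := by
    induction n with
    | zero =>
      intro m hm
      have e : (diagonal fun k => (X : R[X]) ^ m k) = 1 := by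
        rw [← diagonal_one]
        exact congrArg _ (funext fun k => by rw [Nat.le_zero.1 (hm k), pow_zero])
      rw [e]
      exact KS_unit (one_mul 1) (one_mul 1)
    | succ n ih =>
      intro m hm
      have := KS_mul (ih (fun k => m k - 1) fun k => by have := hm k; omega)
        (KS_step fun k => 0 < m k)
      rw [diagonal_mul_diagonal] at this
      refine (congrArg (fun d => KSg (KSm (diagonal d))) (funext fun k => ?_)).mp this
      split_ifs with h
      · rw [← pow_succ, Nat.sub_add_cancel h]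
      · rw [mul_one, Nat.le_zero.1 (not_lt.1 h)]
  exact key (Finset.univ.sup m) m fun k => Finset.le_sup (Finset.mem_univ k)

theorem KS_comm (n : ℕ) (A : Matrix i i R[X]) : Commute (scalar i ((X : R[X]) ^ n)) A :=
  scalar_commute _ (fun r => commute_X_pow r n) A

theorem KS_strip {n : ℕ} {B : Matrix i i R[X]}
    (h : KSg (KSm (scalar i ((X : R[X]) ^ n) * B))) : KSg (KSm B) := by
  have h1 := h.1
  rw [(KS_comm n B).eq, KSm_mul, LinearMap.coe_comp] at h1
  rw [KSm_mul, scalar_apply] at h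
  exact (KS_diag fun _ => n).cancel h h1.of_comp

theorem KS_uu {S : Type} [Ring S] {x e : S} (hx : Commute x e) (he : e * e = e) :
    (x * e + (1 - e)) * (e + x * (1 - e)) = x ∧ (e + x * (1 - e)) * (x * e + (1 - e)) = x := by
  have h1 : e * x = x * e := hx.eq.symm
  have h2 (y : S) : e * (x * y) = x * (e * y) := by rw [← mul_assoc, h1, mul_assoc]
  constructor <;>
    simp only [mul_add, add_mul, mul_sub, sub_mul, mul_assoc, mul_one, one_mul, h1, h2, he] <;>
    abel

/-- the matrix `X E + 1 - E` -/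
noncomputable def KSu (E : Matrix i i R) : Matrix i i R[X] :=
  scalar i X * E.map C + (1 - E.map C)

theorem KS_idem {E : Matrix i i R} (hE : E * E = E) (h : KSg (KSm (KSu E))) :
    ∃ n, FF R n (LinearMap.range E.vecMulLinear) := by
  obtain ⟨n, hn⟩ := h.2
  have hx : Commute (scalar i X) (E.map (C : R →+* R[X])) := by simpa using KS_comm 1 (E.map C)
  have he : E.map (C : R →+* R[X]) * E.map C = E.map C := by rw [← Matrix.map_mul, hE]
  refine (KS_equiv (f := KSm (KSu E))
    (E.vecMulLinear.rangeRestrict ∘ₗ (lcoeff R 0).compLeft i) ?_ ?_).elim fun a => ⟨n, hn.equiv a⟩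
  · refine E.vecMulLinear.surjective_rangeRestrict.comp fun w => ⟨fun k => C (w k), ?_⟩
    funext k
    exact coeff_C_zero
  · ext v
    have e0 : v ∈ LinearMap.ker (E.vecMulLinear.rangeRestrict ∘ₗ (lcoeff R 0).compLeft i) ↔
        (constantCoeff ∘ v) ᵥ* E = 0 := Subtype.ext_iff
    rw [e0]
    refine ⟨?_, fun hv => ⟨C ∘ (constantCoeff ∘ v) +
      (fun k => divX (v k)) ᵥ* (E.map C + scalar i X * (1 - E.map C)), ?_⟩⟩
    · rintro ⟨w, rfl⟩
      have e1 : (KSu E).map constantCoeff = 1 - E := by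
        ext k l
        simp [KSu, Matrix.one_apply, apply_ite (fun p : R[X] => p.coeff 0)]
      have e2 : constantCoeff ∘ (w ᵥ* KSu E) = (constantCoeff ∘ w) ᵥ* (1 - E) := by
        funext k
        rw [← e1]
        exact RingHom.map_vecMul _ _ _ _
      rw [KSm_apply, e2, vecMul_vecMul, Matrix.sub_mul, Matrix.one_mul, hE, sub_self, vecMul_zero]
    · have e1 : (C ∘ (constantCoeff ∘ v)) ᵥ* E.map (C : R →+* R[X]) = 0 := by
        funext k
        rw [← RingHom.map_vecMul, hv]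
        exact C_0
      rw [KSm_apply, add_vecMul, vecMul_vecMul, KSu, (KS_uu hx he).2, vecMul_add, hx.eq,
        ← vecMul_vecMul, e1, zero_vecMul, zero_add, vecMul_sub, e1, vecMul_one, sub_zero]
      funext k
      rw [scalar_apply, Pi.add_apply, vecMul_diagonal, add_comm]
      exact divX_mul_X_add (v k)

end Pol

section Grp

open Polynomial

variable {H i : Type} [Group H] [Fintype i] [DecidableEq i]

/-- the powers of the generator -/
noncomputable def KSz (H : Type) [Group H] (k : ℤ) : ZG (H × Multiplicative ℤ) :=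
  single (1, Multiplicative.ofAdd k) 1

theorem KSz_mul (k : ℤ) (g : H × Multiplicative ℤ) (n : ℤ) :
    KSz H k * single g n = single (g.1, Multiplicative.ofAdd (k + g.2.toAdd)) n := by
  rw [KSz, single_mul_single, one_mul]
  exact congrArg (single · n) (Prod.ext (one_mul _) rfl)

theorem KSz_add (k l : ℤ) : KSz H k * KSz H l = KSz H (k + l) := KSz_mul k _ _

theorem KSz_comm (k : ℤ) (r : ZG (H × Multiplicative ℤ)) : Commute (KSz H k) r := by
  induction r using induction_linear with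
  | zero => exact Commute.zero_right _
  | add x y hx hy => exact hx.add_right hy
  | single g n =>
    change _ * _ = _ * _
    rw [KSz, single_mul_single, single_mul_single, mul_comm n]
    exact congrArg (MonoidAlgebra.single · _) (Prod.ext (by simp) (mul_comm _ _))

/-- polynomials as elements of the group ring -/
noncomputable def KSp (H : Type) [Group H] : (ZG H)[X] →+* ZG (H × Multiplicative ℤ) :=
  eval₂RingHom' (gm (MonoidHom.inl H _)) (KSz H 1) fun _ => (KSz_comm 1 _).symm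

theorem KSp_X (n : ℕ) : KSp H (X ^ n) = KSz H n := by
  induction n with
  | zero => exact map_one _
  | succ n ih =>
    rw [pow_succ, map_mul, ih, Nat.cast_succ, ← KSz_add]
    exact congrArg _ (eval₂_X _ _)

theorem KSp_mono (n : ℕ) (g : H) (a : ℤ) :
    KSp H (X ^ n * C (single g a)) = single (g, Multiplicative.ofAdd (n : ℤ)) a := by
  have e : KSp H (C (single g a)) = MonoidAlgebra.single (g, 1) a :=
    (eval₂_C _ _).trans (by simp [gm])
  rw [map_mul, KSp_X, e, KSz_mul]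
  simp

theorem KSp_coeff (p : (ZG H)[X]) (g : H) (m : ℕ) :
    (KSp H p).coeff (g, Multiplicative.ofAdd (m : ℤ)) = (p.coeff m).coeff g := by
  classical
  induction p using Polynomial.induction_on' with
  | add p q hp hq => simp [hp, hq]
  | monomial n a =>
    induction a using induction_linear with
    | zero => simp
    | add x y hx hy => simp [hx, hy]
    | single g' a =>
      rw [← C_mul_X_pow_eq_monomial, ← X_pow_mul, KSp_mono, X_pow_mul, coeff_C_mul_X_pow]
      by_cases h : m = n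
      · simp [h, Finsupp.single_apply]
      · simp [h]

theorem KSp_inj : Function.Injective (KSp H) := fun p q e => by
  ext m g
  rw [← KSp_coeff, e, KSp_coeff]

theorem KSp_surj (r : ZG (H × Multiplicative ℤ)) : ∃ (n : ℕ) (p : (ZG H)[X]),
    KSp H p = KSz H n * r := by
  induction r using induction_linear with
  | zero => exact ⟨0, 0, by simp⟩
  | add x y hx hy =>
    obtain ⟨n, p, hp⟩ := hx
    obtain ⟨m, q, hq⟩ := hy
    refine ⟨m + n, X ^ m * p + X ^ n * q, ?_⟩
    rw [map_add, map_mul, map_mul, hp, hq, KSp_X, KSp_X, ← mul_assoc, ← mul_assoc, KSz_add,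
      KSz_add, mul_add, Nat.cast_add, add_comm (n : ℤ)]
  | single g a =>
    refine ⟨g.2.toAdd.natAbs, X ^ (g.2.toAdd.natAbs + g.2.toAdd).toNat * C (single g.1 a), ?_⟩
    rw [KSp_mono, KSz_mul, Int.toNat_of_nonneg (by omega)]

theorem KSp_scalar (n : ℕ) : (scalar i (X ^ n)).map (KSp H) = scalar i (KSz H n) := by
  rw [scalar_apply, scalar_apply, diagonal_map (map_zero _), KSp_X]

theorem KS_closure {u : Matrix i i (ZG (H × Multiplicative ℤ))}
    (h : u ∈ Submonoid.closure (Gen ∅ i)) : ∃ (n : ℕ) (A : Matrix i i (ZG H)[X]),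
      A.map (KSp H) = scalar i (KSz H n) * u ∧ KSg (KSm A) := by
  induction h using Submonoid.closure_induction with
  | one =>
    exact ⟨0, _, by rw [mul_one, ← KSp_scalar, scalar_apply], KS_diag fun _ => 0⟩
  | mul u v _ _ hu hv =>
    obtain ⟨n, A, h1, h2⟩ := hu
    obtain ⟨m, B, h3, h4⟩ := hv
    refine ⟨n + m, A * B, ?_, KS_mul h2 h4⟩
    rw [Matrix.map_mul, h1, h3, mul_assoc, ← mul_assoc u,
      ← (scalar_commute _ (KSz_comm m) u).eq, ← mul_assoc, ← mul_assoc, ← map_mul, KSz_add,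
      mul_assoc, Nat.cast_add]
  | mem u hu =>
    rcases hu with ⟨a, b, r, hab, rfl⟩ | ⟨g, ε, rfl⟩ | ⟨_, h, _⟩
    · obtain ⟨n, p, hp⟩ := KSp_surj r
      have s : Matrix.single a b p * Matrix.single a b p = 0 :=
        Matrix.single_mul_single_of_ne _ _ _ _ hab.symm _
      refine ⟨n, _, ?_, KS_mul (KS_mul (KS_diag fun k => if k = a then 0 else n)
        (KS_unit (A := 1 + Matrix.single a b p) (B := 1 - Matrix.single a b p) ?_ ?_))
        (KS_diag fun k => if k = a then n else 0)⟩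
      · ext1 k l
        rw [map_apply, mul_diagonal, diagonal_mul, scalar_apply, diagonal_mul, map_mul, map_mul,
          KSp_X, KSp_X, Matrix.add_apply, Matrix.add_apply, map_add, Matrix.single_apply,
          Matrix.single_apply,
          Matrix.one_apply, Matrix.one_apply]
        have z : KSz H 0 = 1 := rfl
        by_cases h1 : k = l
        · subst h1
          have : ¬ (a = k ∧ b = k) := fun h => hab (h.1.trans h.2.symm)
          by_cases h2 : k = a <;> simp [h2, this, z, hab.symm]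
        · by_cases h2 : a = k ∧ b = l
          · obtain ⟨rfl, rfl⟩ := h2
            simp [hab, hab.symm, z, hp]
          · simp [h1, h2]
      · rw [mul_sub, mul_one, add_mul, one_mul, s, add_zero, add_sub_cancel_right]
      · rw [sub_mul, one_mul, mul_add, mul_one, s, add_zero, add_sub_cancel_right]
    · let n := Finset.univ.sup fun k => (g k).2.toAdd.natAbs
      have hn (k : i) : (g k).2.toAdd.natAbs ≤ n :=
        Finset.le_sup (f := fun k => (g k).2.toAdd.natAbs) (Finset.mem_univ k)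
      have s (g : i → H) : (diagonal fun k => C (single (g k) (ε k : ℤ) : ZG H)) *
          (diagonal fun k => C (single (g k)⁻¹ (ε k : ℤ) : ZG H)) = 1 := by
        rw [diagonal_mul_diagonal, ← diagonal_one]
        refine congrArg _ (funext fun k => ?_)
        rw [← map_mul, single_mul_single, mul_inv_cancel, ← Units.val_mul, Int.units_mul_self]
        exact C_1
      refine ⟨n, _, ?_, KS_mul (KS_diag fun k => (n + (g k).2.toAdd).toNat)
        (KS_unit (s fun k => (g k).1) (by simpa only [inv_inv] using s fun k => (g k).1⁻¹))⟩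
      rw [diagonal_mul_diagonal, diagonal_map (map_zero _), scalar_apply, diagonal_mul_diagonal]
      refine congrArg _ (funext fun k => ?_)
      rw [KSp_mono, KSz_mul, Int.toNat_of_nonneg (by have := hn k; omega)]
    · exact h.elim

end Grp

open Polynomial in
theorem sfi_of_wh {H : Type} [Group H]
    (h : WhGen (∅ : Set (Subgroup (H × Multiplicative ℤ)))) : SFI (ZG H) := by
  intro I _ _ E hE
  have hx : Commute (scalar I X) (E.map (C : ZG H →+* (ZG H)[X])) := by
    simpa using KS_comm 1 (E.map C)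
  have he : E.map (C : ZG H →+* (ZG H)[X]) * E.map C = E.map C := by rw [← Matrix.map_mul, hE]
  have z : IsUnit ((scalar I (X ^ 1)).map (KSp H)) := by
    rw [KSp_scalar]
    refine IsUnit.map _ (isUnit_iff_exists.2 ⟨KSz H (-1), ?_, ?_⟩) <;> rw [KSz_add] <;> rfl
  have hu : IsUnit ((KSu E).map (KSp H)) := by
    obtain ⟨e1, e2⟩ := KS_uu hx he
    have c : Commute ((KSu E).map (KSp H))
        ((E.map C + scalar I X * (1 - E.map C)).map (KSp H)) := by
      change _ * _ = _ * _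
      rw [← Matrix.map_mul, ← Matrix.map_mul, KSu, e1, e2]
    refine (c.isUnit_mul_iff.1 ?_).1
    rwa [← Matrix.map_mul, KSu, e1, ← pow_one X]
  obtain ⟨m, hm⟩ := h.triv hu
  obtain ⟨n, A, h1, h2⟩ := KS_closure hm
  have e : A = scalar _ (X ^ n) * fromBlocks (KSu E) 0 0 1 := by
    refine Matrix.map_injective KSp_inj ?_
    simp only []
    rw [h1, Matrix.map_mul, KSp_scalar, fromBlocks_map, Matrix.map_zero _ (map_zero _),
      Matrix.map_zero _ (map_zero _), Matrix.map_one _ (map_zero _) (map_one _)]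
  rw [e] at h2
  have h3 := KS_mul (KS_strip h2) (KS_diag (Sum.elim (fun _ => 0) fun _ => 1))
  have e' : fromBlocks (KSu E) 0 0 1 * (diagonal fun k : I ⊕ Fin m =>
      (X : (ZG H)[X]) ^ Sum.elim (fun _ => 0) (fun _ => 1) k) = KSu (fromBlocks E 0 0 1) := by
    ext1 (k | k) (l | l) <;> simp [KSu, Matrix.one_apply, apply_ite C]
  rw [e'] at h3
  have hE' : fromBlocks E 0 0 (1 : Matrix (Fin m) (Fin m) (ZG H)) * fromBlocks E 0 0 1 =
      fromBlocks E 0 0 1 := by rw [triv0_blk_mul, hE]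
  obtain ⟨r, hr⟩ := KS_idem hE' h3
  obtain ⟨a, _, _, ha⟩ := sfIdem_of_ff hE' hr
  refine ⟨Fin m ⊕ a, inferInstance, inferInstance, ?_⟩
  rw [← triv0_assoc]
  exact USchur_reindex ha _

end Pool.Agent.Work.MP_9d1ffa_al
end

-- merged part: Pool.Agent.Work.MP_9d1ffa_al.Br.KTop
section
/-! Vanishing of Whitehead groups along hierarchies. -/

namespace Pool.Agent.Work.MP_9d1ffa_al

open Matrix MonoidAlgebra

/-- the Whitehead groups of the products with free abelian groups vanish -/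
def WhK (G : Type) [Group G] : Prop :=
  ∀ (K : Type) [Group K], FA K → WhGen (∅ : Set (Subgroup (G × K)))

theorem closed_whK : Closed WhK where
  triv G _ _ K _ hK := (wh0_fa hK).ret (MonoidHom.snd G K) (MonoidHom.inr G K) fun _ =>
    Prod.ext (Subsingleton.elim _ _) rfl
  ret G H _ _ s r e h K _ hK := Wh0.ret (h K hK) (px K s) (px K r) fun g => Prod.ext (e g.1) rfl
  lcl G _ h K _ hK n A hA := by
    obtain ⟨H, _, f, -, h1, A, h2, rfl⟩ := h.big (big_unit hA).prod
    exact Wh0.mp (h1 K hK) _ h2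
  cop G H _ _ h h' K _ hK := wh0_cop hK (h K hK) (h' K hK)
  cut Γ V A _ _ _ C _ hA h K _ hK :=
    (C.prod K).wh0 hA hK (MonoidHom.id _) Function.injective_id (h K hK)

theorem WhK.sfi {G K : Type} [Group G] [Group K] (h : WhK G) (hK : FA K) : SFI (ZG (G × K)) :=
  sfi_of_wh (Wh0.equiv (h _ hK.prod_int) MulEquiv.prodAssoc)

theorem WhK.sfi₀ {G : Type} [Group G] (h : WhK G) : SFI (ZG G) :=
  sfi_of_wh (h _ ⟨1, ⟨(MulEquiv.funUnique (Fin 1) _).symm.trans
    (MulEquiv.piMultiplicative _).symm⟩⟩)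

end Pool.Agent.Work.MP_9d1ffa_al
end
end
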