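import Pool.Agent.Work.MP_9d1ffa_al.Br.Defs

/-! The exact sequence of Wall groups of a presentation. -/

namespace Pool.Agent.Work.MP_9d1ffa_al

open Matrix TensorProduct

section

variable {F G : Type} [Group F] [Group G]

/-- the group `Λ ⊗ R/[F,R]` for `Λ = L0 ℤ η` and the kernel `R` -/
def LRel (η : ℤˣ) (π : F →* G) : Type := L0 ℤ η ⊗[ℤ] Rel π

noncomputable instance LRel.group (η : ℤˣ) (π : F →* G) : AddCommGroup (LRel η π) :=
  TensorProduct.addCommGroup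

/-- the group `Λ ⊗ F_ab` for `Λ = L0 ℤ η` -/
def LAb (η : ℤˣ) (F : Type) [Group F] : Type := L0 ℤ η ⊗[ℤ] Ab F

noncomputable instance LAb.group (η : ℤˣ) (F : Type) [Group F] : AddCommGroup (LAb η F) :=
  TensorProduct.addCommGroup

/-- `x` is the image of a form over the group ring of `F` whose boundary is a sum of products of
integral forms with circles along elements of the kernel that represents `ξ` -/
def Fill (ε : ℤˣ) (π : F →* G) (x : L0 (ZG G) ε) (ξ : LRel (-ε) π) : Prop :=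
  ∃ (I : Type) (_ : Fintype I) (_ : DecidableEq I) (W : Matrix (I ⊕ I) (I ⊕ I) (ZG F))
    (θ : Matrix I I (ZG F)), Bd (-ε) π ξ W ∧ IsUnit (sysM ε W θ) ∧ x = cls ε (mp π θ)

/-- `a` is the product of integral forms with circles -/
def Circles (η : ℤˣ) (π : F →* G) (a : LAb η F →+ L1 (ZG G) η) : Prop :=
  ∀ (I : Type) [Fintype I] [DecidableEq I] (ψ : Matrix I I ℤ) (f : F),
    NS η ψ → a (cls η ψ ⊗ₜ[ℤ] ab f) = ucl η (circ η ψ (π f))

/-- the sequence `0 → A → B → C → D → E → 0` is exact -/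
def Exact5 {A B C D E : Type} [AddCommGroup A] [AddCommGroup B] [AddCommGroup C] [AddCommGroup D]
    [AddCommGroup E] (i : A →+ B) (d : B →+ C) (b : C →+ D) (a : D →+ E) : Prop :=
  Function.Injective i ∧ Function.Exact i d ∧ Function.Exact d b ∧ Function.Exact b a ∧
    Function.Surjective a

/-- the map `Λ ⊗ R/[F,R] → Λ ⊗ F_ab` -/
noncomputable def relT (η : ℤˣ) (π : F →* G) : LRel η π →+ LAb η F :=
  ((relAb π).lTensor (L0 ℤ η)).toAddMonoidHom

/-- the sequence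
`0 → L0 ℤ ε → L0 ℤG ε → Λ ⊗ R/[F,R] → Λ ⊗ F_ab → L1 ℤG (-ε) → 0`, `Λ = L0 ℤ (-ε)`, is exact -/
def PSeq (ε : ℤˣ) (π : F →* G) : Prop :=
  ∃ (d : L0 (ZG G) ε →+ LRel (-ε) π) (a : LAb (-ε) F →+ L1 (ZG G) (-ε)),
    (∀ x ξ, d x = ξ ↔ Fill ε π x ξ) ∧ Circles (-ε) π a ∧ Exact5 (zi ε G) d (relT (-ε) π) a

end

/-- the sequence is exact for every presentation -/
def WSeq (G : Type) [Group G] : Prop :=
  ∀ (X : Type) (π : FreeGroup X →* G), Function.Surjective π → ∀ ε : ℤˣ, PSeq ε π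

/-- no elements of order two, vanishing Whitehead groups, and the exact sequence -/
def Wall (G : Type) [Group G] : Prop :=
  (∀ g : G, g * g = 1 → g = 1) ∧
    (∀ n : ℕ, WhGen (∅ : Set (Subgroup (G × Multiplicative (Fin n → ℤ))))) ∧ WSeq G

/-- the even part of the sequence -/
def Ev (G : Type) [Group G] : Prop :=
  ∀ (X : Type) (π : FreeGroup X →* G), Function.Surjective π → ∀ ε : ℤˣ,
    ∃ d : L0 (ZG G) ε →+ L0 ℤ (-ε) ⊗[ℤ] Rel π,
      (∀ (ξ : L0 ℤ (-ε) ⊗[ℤ] Rel π) (I : Type) [Fintype I] [DecidableEq I]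
        (W : Matrix (I ⊕ I) (I ⊕ I) (ZG (FreeGroup X))) (θ : Matrix I I (ZG (FreeGroup X))),
        Bd (-ε) π ξ W → IsUnit (sysM ε W θ) → d (cls ε (mp π θ)) = ξ) ∧
      (∀ x : L0 (ZG G) ε, ∃ (ξ : L0 ℤ (-ε) ⊗[ℤ] Rel π) (I : Type) (_ : Fintype I)
        (_ : DecidableEq I) (W : Matrix (I ⊕ I) (I ⊕ I) (ZG (FreeGroup X)))
        (θ : Matrix I I (ZG (FreeGroup X))),
        Bd (-ε) π ξ W ∧ IsUnit (sysM ε W θ) ∧ x = cls ε (mp π θ)) ∧
      Function.Exact (zi ε G) d ∧ Function.Exact d ((relAb π).lTensor (L0 ℤ (-ε)))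

end Pool.Agent.Work.MP_9d1ffa_al
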