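import Pool.Agent.Work.MP_9d1ffa_al.Br.KTop
import Pool.Agent.Work.MP_9d1ffa_al.WGood
import Pool.Agent.Work.MP_9d1ffa_al.Br.Seq

-- merged part: Pool.Agent.Work.MP_9d1ffa_al.Br.WFr
section
/-! Degrees, windows and first properties of frames.

Plan.  Degrees: `Sup.mul`, `Sup.ct`, `Sup.eq_zero`, `Sup.rs_zero`, `sup_mp`, `sup_dg`,
`exists_sup_finset`, `fm_add_not`, `mp_rs`.  `Uni.lt_inv`: `Uni.omega` gives
`U' = Ω Uᴴ Ω⁻¹` with constant `Ω = sy η hypF` (`sy_hyp`, `OFrame_mu`).  `Fr.indep`: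
`c * sy η (frm A) = dn (up c * A * Ω * Aᴴ)` (`rs_mp_mul`).  `Fr.iso`: `A = up c * A'`,
`A' = up c' * A`, and `c c' = 1`, `c' c = 1` by `Fr.indep`; `frm_up`. -/

namespace Pool.Agent.Work.MP_9d1ffa_al

open Matrix MonoidAlgebra TensorProduct

set_option linter.unusedSectionVars false
set_option linter.unusedVariables false

variable {V : Type} [Group V] {η : ℤˣ} {I J L b b' : Type} [Fintype I] [DecidableEq I] [Fintype J]
  [DecidableEq J] [Fintype b] [DecidableEq b] [Fintype b'] [DecidableEq b']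
  {U U' : Matrix (I ⊕ I) (I ⊕ I) (ZG (TZ V))} {N N' : ℤ} {A : Matrix b (I ⊕ I) (ZG (TZ V))}
  {A' : Matrix b' (I ⊕ I) (ZG (TZ V))}

section Deg

variable {K M : Type} {k l : ℤ} {X Y : Matrix L K (ZG (TZ V))}

theorem Ge.mono (h : Ge k X) (e : l ≤ k) : Ge l X := by
  exact Sup.mono h fun g hg => e.trans hg

theorem Lt.mono (h : Lt k X) (e : k ≤ l) : Lt l X := by
  exact Sup.mono h fun g hg => hg.trans_le e

theorem Ge.add (h : Ge k X) (h' : Ge k Y) : Ge k (X + Y) := Sup.add h h'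

theorem Ge.sub (h : Ge k X) (h' : Ge k Y) : Ge k (X - Y) := Sup.sub h h'

theorem Lt.add (h : Lt k X) (h' : Lt k Y) : Lt k (X + Y) := Sup.add h h'

theorem Lt.sub (h : Lt k X) (h' : Lt k Y) : Lt k (X - Y) := Sup.sub h h'

theorem Ge.mul [Fintype K] {Y : Matrix K M (ZG (TZ V))} (h : Ge k X) (h' : Ge l Y) :
    Ge (k + l) (X * Y) := by
  exact Sup.mul h h' fun a b ha hb => add_le_add ha hb

theorem Lt.mul [Fintype K] {Y : Matrix K M (ZG (TZ V))} (h : Lt k X) (h' : Lt (l + 1) Y) :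
    Lt (k + l) (X * Y) := by
  refine Sup.mul h h' fun a b ha hb => ?_
  change a.2.toAdd + b.2.toAdd < _
  omega

theorem Ge.ct (h : Ge k X) : Lt (-k + 1) Xᴴ := by
  refine (Sup.ct h).mono fun g hg => ?_
  change k ≤ -g.2.toAdd at hg
  omega

theorem Lt.ct (h : Lt (k + 1) X) : Ge (-k) Xᴴ := by
  refine (Sup.ct h).mono fun g hg => ?_
  change -g.2.toAdd < k + 1 at hg
  omega

theorem Ge.eq_zero (h : Ge k X) (h' : Lt k X) : X = 0 := by
  exact Sup.eq_zero h h' fun g a => not_lt.2 a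

theorem ge_up (c : Matrix L K (ZG V)) : Ge 0 (up c) ∧ Lt 1 (up c) := by
  constructor <;> refine (sup_mp _ c).mono ?_ <;> rintro _ ⟨h, rfl⟩ <;> simp

theorem ge_one [DecidableEq K] : Ge 0 (1 : Matrix K K (ZG (TZ V))) ∧
    Lt 1 (1 : Matrix K K (ZG (TZ V))) := by
  constructor <;> refine sup_one.mono ?_ <;> rintro _ rfl <;> simp

theorem ge_dg [DecidableEq K] (k : ℤ) : Ge k (dg K (zz V k)) ∧ Lt (k + 1) (dg K (zz V k)) := by
  constructor <;> refine (sup_dg _).mono ?_ <;> rintro _ rfl <;> simp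

theorem Ge.eq_up (h : Ge 0 X) (h' : Lt 1 X) : X = up (dn X) := by
  rw [up, mp_rs]
  refine (Sup.fm_eq fun a b g e => ⟨g.1, Prod.ext rfl (toAdd_eq_zero.1 ?_).symm⟩).symm
  have h1 := h a b g e
  have h2 := h' a b g e
  omega

theorem Ge.dn_zero (h : Ge 1 X) : dn X = 0 := by
  exact Sup.rs_zero h fun x => by simp

theorem Lt.dn_zero (h : Lt 0 X) : dn X = 0 := by
  exact Sup.rs_zero h fun x => by simp

theorem exists_deg [Finite L] [Finite K] (X : Matrix L K (ZG (TZ V))) :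
    ∃ n : ℕ, Ge (-n) X ∧ Lt n X := by
  obtain ⟨s, hs⟩ := exists_sup_finset X
  have k : ∀ g ∈ s, g.2.toAdd.natAbs ≤ s.sup fun g => g.2.toAdd.natAbs := fun g hg =>
    Finset.le_sup (f := fun g : TZ V => g.2.toAdd.natAbs) hg
  refine ⟨(s.sup fun g => g.2.toAdd.natAbs) + 1, hs.mono fun g hg => ?_, hs.mono fun g hg => ?_⟩
  all_goals
    have := k g hg
    omega

/-- splitting at a degree -/
theorem exists_cut (k : ℤ) (X : Matrix L K (ZG (TZ V))) :
    ∃ Y Y', X = Y + Y' ∧ Lt k Y ∧ Ge k Y' ∧ (∀ l, Ge l X → Ge l Y) ∧ ∀ l, Lt l X → Lt l Y' := by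
  exact ⟨_, _, (fm_add_not (fun g : TZ V => g.2.toAdd < k) X).symm, sup_fm _ _,
    (sup_fm _ _).mono fun g => not_lt.1, fun l h => Sup.fm h _, fun l h => Sup.fm h _⟩

theorem dg_zz_comm [Fintype L] [DecidableEq L] [Fintype K] [DecidableEq K] (k : ℤ)
    (X : Matrix L K (ZG (TZ V))) : dg L (zz V k) * X = X * dg K (zz V k) := by
  refine mat_ext fun a b g => ?_
  rw [coeff_dg_mul, coeff_mul_dg]
  exact congrArg _ (Prod.ext (by simp) (mul_comm _ _))

theorem dg_zz_mul [Fintype K] [DecidableEq K] (k l : ℤ) :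
    dg K (zz V k) * dg K (zz V l) = dg K (zz V (k + l)) := by
  rw [dg_mul]
  exact congrArg _ (Prod.ext (mul_one _) rfl)

theorem dg_zz_ct [DecidableEq K] (k : ℤ) : (dg K (zz V k))ᴴ = dg K (zz V (-k)) := by
  rw [dg_ct]
  exact congrArg _ (Prod.ext inv_one rfl)

theorem dg_zz_zero [DecidableEq K] : dg K (zz V 0) = 1 := dg_one

theorem win_deg (n : ℕ) : Ge 0 (win V J n) ∧ Lt n (win V J n) := by
  have k : Sup (fun g => ∃ a : Fin n, g = zz V (a : ℕ)) (win V J n) := fun p j g e => by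
    refine ⟨p.1, by_contra fun hg => e ?_⟩
    rw [win]
    split_ifs
    · simp [hg]
    · simp
  constructor <;> refine k.mono ?_ <;> rintro _ ⟨a, rfl⟩ <;> simp

theorem YWFr_mul (n : ℕ) (Y : Matrix L J (ZG (TZ V))) (a : L) (p : Fin n × J) (g : TZ V) :
    ((Y * (win V J n)ᴴ) a p).coeff g = (Y a p.2).coeff (g * zz V (p.1 : ℕ)) := by
  rw [Matrix.mul_apply, Finset.sum_eq_single p.2 (fun j _ e => by simp [win, e.symm]) (by simp),
    conjTranspose_apply, win, if_pos rfl, star_single, coeff_mul_single_apply, mul_one, inv_inv]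

theorem dn_win (n : ℕ) : dn (win V J n * (win V J n)ᴴ) = 1 := by
  classical
  refine mat_ext fun p q g => ?_
  rw [coeff_rs, YWFr_mul, win, Matrix.one_apply]
  by_cases e : p = q
  · subst e
    simp [one_def, Finsupp.single_apply, Prod.ext_iff]
  · rw [if_neg e]
    split_ifs with e2
    · have e3 : (q.1 : ℕ) ≠ p.1 := fun k => e (Prod.ext (Fin.ext k.symm) e2)
      simp [e3]
    · rfl

theorem eq_win {n : ℕ} {Y : Matrix L J (ZG (TZ V))} (h : Ge 0 Y) (h' : Lt n Y) :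
    Y = up (dn (Y * (win V J n)ᴴ)) * win V J n := by
  classical
  refine mat_ext fun a j g => ?_
  have k : ∀ i : Fin n, (∑ j', up (dn (Y * (win V J n)ᴴ)) a (i, j') * win V J n (i, j') j).coeff g =
      if g.2.toAdd = (i : ℕ) then (Y a j).coeff g else 0 := fun i => by
    rw [Finset.sum_eq_single j (fun j' _ e => by simp [win, e]) (by simp), win, if_pos rfl,
      coeff_mul_single_apply, mul_one, up, mp_rs, coeff_fm, YWFr_mul, inv_mul_cancel_right]
    refine if_ctx_congr ⟨?_, fun e => ⟨g.1, Prod.ext (by simp) ?_⟩⟩ (fun _ => rfl) fun _ => rfl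
    · rintro ⟨x, e⟩
      have := congrArg (fun z : TZ V => z.2.toAdd) e
      change 0 = g.2.toAdd + -((i : ℕ) : ℤ) at this
      omega
    · refine (toAdd_eq_zero.1 ?_).symm
      change g.2.toAdd + -((i : ℕ) : ℤ) = 0
      omega
  rw [Matrix.mul_apply, Fintype.sum_prod_type, coeff_sum, Finset.sum_apply']
  simp only [k]
  by_cases e : (Y a j).coeff g = 0
  · simp [e]
  · have h1 := h a j g e
    have h2 := h' a j g e
    rw [Finset.sum_eq_single ⟨g.2.toAdd.toNat, by omega⟩ (fun i _ e' => if_neg fun e2 =>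
      e' (Fin.ext (by simp [e2]))) (by simp), if_pos (by simp [h1])]

end Deg

theorem YWFr_inP {Y : Matrix L (I ⊕ I) (ZG (TZ V))} : InP U N Y ↔
    Ge 0 Y ∧ ∃ B : Matrix L (I ⊕ I) (ZG (TZ V)), Y = B * U ∧ Lt N B := Iff.rfl

theorem YWFr_om : Ge 0 (sy η (hypF (ZG (TZ V)) I)) ∧ Lt 1 (sy η (hypF (ZG (TZ V)) I)) := by
  rw [← mp_hyp (MonoidHom.inl V (Multiplicative ℤ)), ← mp_sy]
  exact ge_up _

theorem Uni.lt_inv (hU : Uni η U) (e : U * U' = 1) (h : Ge (-N) U) : Lt (N + 1) U' := by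
  have k : U' = sy η (hypF (ZG (TZ V)) I) * Uᴴ * up (fromBlocks 0 ((η : ℤ) • 1) 1 0) := by
    rw [up, mp_blocks, mp_zero, mp_zsmul, mp_one, ← Matrix.one_mul (_ * Uᴴ), ← (hU.of_inv e).2,
      Matrix.mul_assoc U', ← Matrix.mul_assoc U, hU.omega, Matrix.mul_assoc, OFrame_mu.1,
      Matrix.mul_one]
  rw [k]
  exact ((YWFr_om.2.mul h.ct).mul (l := 0) (ge_up _).2).mono (by omega)

theorem sy_frm (A : Matrix b (I ⊕ I) (ZG (TZ V))) :
    sy η (frm A) = dn (A * sy η (hypF (ZG (TZ V)) I) * Aᴴ) := by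
  rw [frm, OW_rs_sy, sy_conj]

theorem frm_up (c : Matrix b' b (ZG V)) (A : Matrix b (I ⊕ I) (ZG (TZ V))) :
    frm (up c * A) = c * frm A * cᴴ := by
  rw [frm, frm, conjTranspose_mul, ← mp_ct, ← Matrix.mul_assoc, dn, rs_mul_mp,
    Matrix.mul_assoc (up c), Matrix.mul_assoc (up c), rs_mp_mul, Matrix.mul_assoc A]

/-- the module is orthogonal to the far part -/
theorem InP.perp {K : Type} (hU : Uni η U) {Y : Matrix L (I ⊕ I) (ZG (TZ V))} (h : InP U N Y)
    {B : Matrix K (I ⊕ I) (ZG (TZ V))} (hB : Ge N B) :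
    dn (Y * sy η (hypF (ZG (TZ V)) I) * (B * U)ᴴ) = 0 ∧
      dn (B * U * sy η (hypF (ZG (TZ V)) I) * Yᴴ) = 0 := by
  obtain ⟨-, C, rfl, hC⟩ := YWFr_inP.1 h
  have k : ∀ {K K' : Type} (X : Matrix K (I ⊕ I) (ZG (TZ V))) (X' : Matrix K' (I ⊕ I) (ZG (TZ V))),
      X * U * sy η (hypF (ZG (TZ V)) I) * (X' * U)ᴴ = X * sy η (hypF (ZG (TZ V)) I) * X'ᴴ :=
    fun X X' => by
      conv_rhs => rw [← hU.omega]
      simp only [conjTranspose_mul, Matrix.mul_assoc]
  rw [k, k]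
  exact ⟨Lt.dn_zero (((hC.mul (l := 0) YWFr_om.2).mul hB.ct).mono (by omega)),
    Ge.dn_zero (((hB.mul YWFr_om.1).mul (Lt.ct (k := N - 1) (hC.mono (by omega)))).mono
      (by omega))⟩

theorem Fr.indep (h : Fr η U N A) {c : Matrix L b (ZG V)} (e : up c * A = 0) : c = 0 := by
  obtain ⟨μ, hμ⟩ := IsUnit.exists_right_inv h.ns
  rw [← Matrix.mul_one c, ← hμ, ← Matrix.mul_assoc, sy_frm, ← rs_mp_mul, ← Matrix.mul_assoc,
    ← Matrix.mul_assoc, e, Matrix.zero_mul, Matrix.zero_mul, rs_zero, Matrix.zero_mul]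

theorem Fr.iso (h : Fr η U N A) (h' : Fr η U N A') : Iso η (frm A) (frm A') := by
  obtain ⟨c, e⟩ := h.span _ _ h'.mem
  obtain ⟨c', e'⟩ := h'.span _ _ h.mem
  refine ⟨c, c', sub_eq_zero.1 (h'.indep ?_), sub_eq_zero.1 (h.indep ?_),
    Eqv.of_eq (by rw [← frm_up, ← e])⟩
  · rw [up, mp_sub, mp_mul, mp_one, Matrix.sub_mul, Matrix.mul_assoc, ← e', ← e, Matrix.one_mul,
      sub_self]
  · rw [up, mp_sub, mp_mul, mp_one, Matrix.sub_mul, Matrix.mul_assoc, ← e, ← e', Matrix.one_mul,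
      sub_self]

theorem Fr.rows (h : Fr η U N A) (e : b' ≃ b) : Fr η U N (A.submatrix e id) := by
  obtain ⟨h1, B, h2, h3⟩ := YWFr_inP.1 h.mem
  refine ⟨⟨fun k => h1 (e k), B.submatrix e id, by rw [h2]; rfl, fun k => h3 (e k)⟩,
    IsUnit.map (reindexAlgEquiv ℤ _ e.symm) h.ns, fun L Y hY => ?_⟩
  obtain ⟨c, hc⟩ := h.span L Y hY
  exact ⟨c.submatrix id e, by rw [up, mp_submatrix, submatrix_mul_equiv, hc]; rfl⟩

theorem Fr.reindex (h : Fr η U N A) (e : J ≃ I) :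
    Fr η (U.submatrix (e.sumCongr e) (e.sumCongr e)) N (A.submatrix id (e.sumCongr e)) ∧
      frm (A.submatrix id (e.sumCongr e)) = frm A := by
  have e0 : hypF (ZG (TZ V)) J = (hypF (ZG (TZ V)) I).submatrix (e.sumCongr e) (e.sumCongr e) := by
    funext i j
    rcases i with i | i <;> rcases j with j | j <;> simp [hypF, Matrix.one_apply]
  have e1 : frm (A.submatrix id (e.sumCongr e)) = frm A := by
    rw [frm, e0, conjTranspose_submatrix, submatrix_mul_equiv, submatrix_mul_equiv]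
    rfl
  obtain ⟨h1, B, h2, h3⟩ := YWFr_inP.1 h.mem
  refine ⟨⟨YWFr_inP.2 ⟨fun k l => h1 k _, B.submatrix id (e.sumCongr e),
    by rw [submatrix_mul_equiv, h2], fun k l => h3 k _⟩, e1 ▸ h.ns, fun L Y hY => ?_⟩, e1⟩
  obtain ⟨k1, C, rfl, k2⟩ := YWFr_inP.1 hY
  have e2 : C * U.submatrix (e.sumCongr e) (e.sumCongr e) =
      (C.submatrix id (e.sumCongr e).symm * U).submatrix id (e.sumCongr e) := by
    rw [← submatrix_mul_equiv _ _ _ (e.sumCongr e), submatrix_submatrix, Equiv.symm_comp_self]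
    rfl
  rw [e2] at k1 ⊢
  obtain ⟨c, hc⟩ := h.span L (C.submatrix id (e.sumCongr e).symm * U)
    ⟨fun k l => by simpa using k1 k ((e.sumCongr e).symm l), _, rfl, fun k l => k2 k _⟩
  exact ⟨c, by rw [hc]; rfl⟩

end Pool.Agent.Work.MP_9d1ffa_al
end

-- merged part: Pool.Agent.Work.MP_9d1ffa_al.Br.WProd
section
/-! Frames of products, of sums and of some special matrices.

Plan.
* `Fr.mul`.  Membership: `A = B U = (B U'⁻¹) (U' U)` with `Uni.lt_inv`; `z ^ N A' U` with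
  `A' = B' U'`.  Spanning: if `Y = B'' U' U`, cut `C = B'' U'` at degree `N` (`exists_cut`),
  `C = C₁ + C₂`; then `C₁ U = Y - C₂ U` lies in the module of `U`, and
  `z ^ (-N) C₂ = z ^ (-N) (B'' - C₁ U'⁻¹) U'` lies in the module of `U'`.  The form:
  `eqv_blocks` with `InP.perp` for the cross terms, and `U H Uᴴ ~ H` (`Eqv.conj`,
  `OEx_eqv_rs`, `dg_zz_comm`) for the last block; nonsingularity by `Eqv.sy_eq` and `NS.sum`.
* `Fr.dsum`: `dsum_eq`; the rows of `Y` split into the columns belonging to `I` and to `J`.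
* `fr_shear`: the rows `(x, φ)` with `x` in the window and `φ = (x σ)_{≥ n} + φ₀`; take
  `A = fromBlocks w Y' 0 w` where `w = win V I n` and `w σ = Y + Y'` is cut at degree `n`;
  its form is `fromBlocks * 1 0 0` (`dn_win`, `z_lag'`).  No sign condition on `σ` is used except
  that `n` is a natural number.
* `fr_const`: the module is zero (`Ge.eq_zero`). -/

namespace Pool.Agent.Work.MP_9d1ffa_al

open Matrix MonoidAlgebra TensorProduct

set_option linter.unusedSectionVars false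
set_option linter.unusedVariables false

variable {V : Type} [Group V] {η : ℤˣ} {I J L b b' : Type} [Fintype I] [DecidableEq I] [Fintype J]
  [DecidableEq J] [Fintype b] [DecidableEq b] [Fintype b'] [DecidableEq b']
  {U U' : Matrix (I ⊕ I) (I ⊕ I) (ZG (TZ V))} {N N' : ℤ} {A : Matrix b (I ⊕ I) (ZG (TZ V))}
  {A' : Matrix b' (I ⊕ I) (ZG (TZ V))}

theorem YWProd_inP {Y : Matrix L (I ⊕ I) (ZG (TZ V))} : InP U N Y ↔
    Ge 0 Y ∧ ∃ B : Matrix L (I ⊕ I) (ZG (TZ V)), Y = B * U ∧ Lt N B := Iff.rfl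

theorem YWProd_eqv {K : Type} {x y : Matrix K K (ZG (TZ V))} (h : Eqv η x y) :
    Eqv η (dn x) (dn y) := by
  obtain ⟨χ, rfl⟩ := h
  exact ⟨dn χ, by rw [dn, rs_sub, rs_add, rs_zsmul, rs_ct]⟩

theorem YWProd_sup {G K K' M M' : Type} [Group G] {S : G → Prop} {x : Matrix K M (ZG G)}
    {y : Matrix K M' (ZG G)} {z : Matrix K' M (ZG G)} {w : Matrix K' M' (ZG G)} (hx : Sup S x)
    (hy : Sup S y) (hz : Sup S z) (hw : Sup S w) : Sup S (fromBlocks x y z w) := by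
  rintro (k | k) (l | l)
  exacts [hx k l, hy k l, hz k l, hw k l]

theorem YWProd_sub {G K M M' : Type} [Group G] {S : G → Prop} {x : Matrix K M (ZG G)}
    (e : M' ≃ M) (h : Sup S (x.submatrix id e)) : Sup S x := fun k l => by
  have h1 := h k (e.symm l)
  rwa [submatrix_apply, Equiv.apply_symm_apply] at h1

theorem YWProd_col {R K M P P' : Type} [Ring R] [Fintype M] (x : Matrix K M R) (y : Matrix M P R)
    (e : P' → P) : x * y.submatrix id e = (x * y).submatrix id e := rfl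

theorem YWProd_ge {K M : Type} {k l : ℤ} {X : Matrix K M (ZG (TZ V))} (h : Ge k X) (e : k = l) :
    Ge l X := e ▸ h

theorem YWProd_lt {K M P : Type} [Fintype M] {k l m : ℤ} {X : Matrix K M (ZG (TZ V))}
    {Y : Matrix M P (ZG (TZ V))} (h : Lt k X) (h' : Lt l Y) (e : k + l = m + 1) :
    Lt m (X * Y) := by
  have h1 : Lt (l - 1 + 1) Y := by rwa [sub_add_cancel]
  have h2 := h.mul h1
  rwa [show k + (l - 1) = m by omega] at h2

theorem Fr.mul (hU : Uni η U) (hU' : Uni η U') (g : Ge (-N) U) (g' : Ge (-N') U')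
    (h : Fr η U N A) (h' : Fr η U' N' A') :
    Fr η (U' * U) (N + N') (fromRows A (dg b' (zz V N) * A' * U)) ∧
      Eqv η (fromBlocks (frm A) 0 0 (frm A')) (frm (fromRows A (dg b' (zz V N) * A' * U))) := by
  obtain ⟨W, -, w1, w2⟩ := hU'.inv
  have hW := hU'.lt_inv w1 g'
  obtain ⟨a0, B, a1, a2⟩ := YWProd_inP.1 h.mem
  obtain ⟨a0', B', a1', a2'⟩ := YWProd_inP.1 h'.mem
  have gz : Ge N (dg b' (zz V N) * A') := YWProd_ge ((ge_dg N).1.mul a0') (add_zero _)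
  have key : Eqv η (fromBlocks (frm A) 0 0 (frm A'))
      (frm (fromRows A (dg b' (zz V N) * A' * U))) := by
    rw [frm.eq_1 (fromRows _ _), conjTranspose_fromRows_eq_fromCols_conjTranspose, fromRows_mul,
      fromRows_mul_fromCols, dn, rs_blocks]
    refine eqv_blocks (Eqv.refl _) (YWProd_eqv ?_) ?_
    · refine (Eqv.of_eq ?_).trans ((hU.2.conj (dg b' (zz V N) * A')).trans (Eqv.of_eq ?_))
      · rw [conjTranspose_mul, dg_zz_ct, Matrix.mul_assoc (dg _ _), Matrix.mul_assoc (dg _ _),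
          ← Matrix.mul_assoc _ A'ᴴ, ← dg_zz_comm, ← Matrix.mul_assoc, dg_zz_mul, add_neg_cancel,
          dg_zz_zero, Matrix.one_mul]
      · simp only [conjTranspose_mul, Matrix.mul_assoc]
    · have k := (h.mem.perp hU gz).1
      rw [conjTranspose_zero, smul_zero, add_zero, ← k, ← rs_ct, ← rs_zsmul, ← rs_add, sy]
      congr 1
      simp only [conjTranspose_mul, conjTranspose_conjTranspose, Matrix.mul_add, Matrix.add_mul,
        Matrix.mul_smul, Matrix.smul_mul, Matrix.mul_assoc]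
  refine ⟨⟨YWProd_inP.2 ⟨sup_fromRows.2 ⟨a0, YWProd_ge (gz.mul g) (add_neg_cancel _)⟩,
    fromRows (B * W) (dg b' (zz V N) * B'), ?_, sup_fromRows.2
      ⟨a2.mul hW, YWProd_lt (ge_dg N).2 a2' (by ring)⟩⟩, ?_, ?_⟩, key⟩
  · rw [fromRows_mul, Matrix.mul_assoc B, ← Matrix.mul_assoc W, w2, Matrix.one_mul, ← a1, a1']
    simp only [Matrix.mul_assoc]
  · have k := h.ns.sum h'.ns
    unfold NS at k ⊢
    rwa [← key.sy_eq]
  · intro L Y hY
    obtain ⟨y0, C, y1, y2⟩ := YWProd_inP.1 hY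
    obtain ⟨C₁, C₂, c0, c1, c2, -⟩ := exists_cut N (C * U')
    have e1 : Y = C₁ * U + C₂ * U := by rw [y1, ← Matrix.mul_assoc, c0, Matrix.add_mul]
    obtain ⟨c, hc⟩ := h.span L (C₁ * U) ⟨by
      rw [← sub_eq_iff_eq_add.2 e1]
      exact y0.sub (YWProd_ge (c2.mul g) (add_neg_cancel _)), C₁, rfl, c1⟩
    obtain ⟨d, hd⟩ := h'.span L (C₂ * dg _ (zz V (-N)))
      (YWProd_inP.2 ⟨YWProd_ge (c2.mul (ge_dg _).1) (add_neg_cancel _),
        (C - C₁ * W) * dg _ (zz V (-N)), by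
        rw [Matrix.mul_assoc, dg_zz_comm, ← Matrix.mul_assoc, Matrix.sub_mul, Matrix.mul_assoc C₁,
          w2, Matrix.mul_one, c0, add_sub_cancel_left],
        YWProd_lt (y2.sub (c1.mul hW)) (ge_dg _).2 (by ring)⟩)
    refine ⟨fromCols c d, ?_⟩
    rw [up, mp_fromCols, fromCols_mul_fromRows, ← hc, dg_zz_comm, ← Matrix.mul_assoc,
      ← Matrix.mul_assoc, ← hd, Matrix.mul_assoc C₂, dg_zz_mul, neg_add_cancel, dg_zz_zero,
      Matrix.mul_one, e1]

theorem Fr.dsum {W : Matrix (J ⊕ J) (J ⊕ J) (ZG (TZ V))} {D : Matrix b' (J ⊕ J) (ZG (TZ V))}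
    (h : Fr η U N A) (h' : Fr η W N D) :
    ∃ E : Matrix (b ⊕ b') ((I ⊕ J) ⊕ (I ⊕ J)) (ZG (TZ V)), Fr η (dsum U W) N E ∧
      frm E = fromBlocks (frm A) 0 0 (frm D) := by
  obtain ⟨a0, B, a1, a2⟩ := YWProd_inP.1 h.mem
  obtain ⟨a0', B', a1', a2'⟩ := YWProd_inP.1 h'.mem
  have eh : hypF (ZG (TZ V)) (I ⊕ J) = (fromBlocks (hypF (ZG (TZ V)) I) 0 0
      (hypF (ZG (TZ V)) J)).submatrix (Equiv.sumSumSumComm I J I J)
        (Equiv.sumSumSumComm I J I J) := by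
    change _ = MP_9d1ffa_al.dsum _ _
    rw [hypF, hypF, hypF, dsum_blocks, fromBlocks_one, fromBlocks_zero]
  have key : frm ((fromBlocks A 0 0 D).submatrix id (Equiv.sumSumSumComm I J I J)) =
      fromBlocks (frm A) 0 0 (frm D) := by
    rw [frm, eh, conjTranspose_submatrix, submatrix_mul_equiv, submatrix_mul_equiv,
      submatrix_id_id, fromBlocks_conjTranspose, fromBlocks_multiply, fromBlocks_multiply]
    simp only [conjTranspose_zero, Matrix.mul_zero, Matrix.zero_mul, add_zero, zero_add]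
    rw [dn, rs_blocks, rs_zero, rs_zero]
    rfl
  refine ⟨(fromBlocks A 0 0 D).submatrix id (Equiv.sumSumSumComm I J I J),
    ⟨YWProd_inP.2 ⟨fun k l => YWProd_sup a0 sup_zero sup_zero a0' _ _,
    (fromBlocks B 0 0 B').submatrix id (Equiv.sumSumSumComm I J I J), ?_,
    fun k l => YWProd_sup a2 sup_zero sup_zero a2' _ _⟩, key ▸ h.ns.sum h'.ns, ?_⟩, key⟩
  · rw [MP_9d1ffa_al.dsum, submatrix_mul_equiv, fromBlocks_multiply, ← a1, ← a1']
    simp
  · intro L Y hY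
    obtain ⟨y0, C, y1, y2⟩ := YWProd_inP.1 hY
    obtain ⟨C', rfl⟩ : ∃ C' : Matrix L ((I ⊕ I) ⊕ (J ⊕ J)) (ZG (TZ V)),
        C = C'.submatrix id (Equiv.sumSumSumComm I J I J) :=
      ⟨C.submatrix id (Equiv.sumSumSumComm I J I J).symm, by
        rw [submatrix_submatrix, Equiv.symm_comp_self]
        rfl⟩
    rw [MP_9d1ffa_al.dsum, submatrix_mul_equiv, ← fromCols_toCols C', fromCols_mul_fromBlocks,
      Matrix.mul_zero, Matrix.mul_zero, add_zero, zero_add] at y1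
    subst y1
    have y3 := YWProd_sub _ y0
    have y4 : Lt N C' := YWProd_sub _ y2
    obtain ⟨c, hc⟩ := h.span L _ ⟨(sup_fromCols.1 y3).1, _, rfl, fun k l => y4 k _⟩
    obtain ⟨d, hd⟩ := h'.span L _ ⟨(sup_fromCols.1 y3).2, _, rfl, fun k l => y4 k _⟩
    refine ⟨fromCols c d, ?_⟩
    rw [hc, hd, up, up, up, mp_fromCols, YWProd_col, fromCols_mul_fromBlocks, Matrix.mul_zero,
      Matrix.mul_zero, add_zero, zero_add]

theorem fr_shear (η : ℤˣ) (σ : Matrix I I (ZG (TZ V))) (n : ℕ) :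
    ∃ A : Matrix ((Fin n × I) ⊕ (Fin n × I)) (I ⊕ I) (ZG (TZ V)),
      Fr η (fromBlocks 1 σ 0 1) n A ∧ Z η (frm A) := by
  obtain ⟨Y, Y', c0, c1, c2, -⟩ := exists_cut n (win V I n * σ)
  obtain ⟨w1, w2⟩ := win_deg (V := V) (J := I) n
  have c3 : Ge 0 Y' := c2.mono (Int.natCast_nonneg n)
  have key : Z η (frm (fromBlocks (win V I n) Y' 0 (win V I n))) := by
    rw [frm, hypF, fromBlocks_conjTranspose, fromBlocks_multiply, fromBlocks_multiply]
    simp only [conjTranspose_zero, Matrix.mul_zero, Matrix.zero_mul, add_zero, zero_add,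
      Matrix.mul_one]
    rw [dn, rs_blocks, rs_zero]
    have e := dn_win (V := V) (J := I) n
    rw [dn] at e
    rw [e]
    exact z_lag' _ _ _ 1 (by simp) (by simp)
  refine ⟨_, ⟨YWProd_inP.2 ⟨YWProd_sup w1 c3 sup_zero w1,
    fromBlocks (win V I n) (-Y) 0 (win V I n), ?_,
    YWProd_sup w2 (Sup.neg c1) sup_zero w2⟩, key.ns, ?_⟩, key⟩
  · rw [fromBlocks_multiply, c0]
    simp
  · intro L X hY
    obtain ⟨y0, C, y1, y2⟩ := YWProd_inP.1 hY
    rw [← fromCols_toCols C, fromCols_mul_fromBlocks, Matrix.mul_zero, Matrix.mul_one,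
      Matrix.mul_one, add_zero] at y1
    subst y1
    obtain ⟨y3, y4⟩ := sup_fromCols.1 y0
    have y5 : Lt n C.toCols₁ := fun k l => y2 k _
    have y6 : Lt n C.toCols₂ := fun k l => y2 k _
    obtain ⟨c, hc⟩ : ∃ c, C.toCols₁ = up c * win V I n := ⟨_, eq_win y3 y5⟩
    have e : C.toCols₁ * σ + C.toCols₂ - up c * Y' = up c * Y + C.toCols₂ := by
      rw [hc, Matrix.mul_assoc, c0, Matrix.mul_add]
      abel
    obtain ⟨d, hd⟩ : ∃ d, C.toCols₁ * σ + C.toCols₂ - up c * Y' = up d * win V I n :=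
      ⟨_, eq_win (Ge.sub y4 (YWProd_ge ((ge_up c).1.mul c3) (add_zero _)))
        (e ▸ (YWProd_lt (ge_up c).2 c1 (add_comm _ _)).add y6)⟩
    refine ⟨fromCols c d, ?_⟩
    rw [up, mp_fromCols, fromCols_mul_fromBlocks, Matrix.mul_zero, add_zero, ← hd, ← hc,
      add_sub_cancel]

theorem fr_one (η : ℤˣ) (n : ℕ) :
    ∃ A : Matrix ((Fin n × I) ⊕ (Fin n × I)) (I ⊕ I) (ZG (TZ V)),
      Fr η 1 n A ∧ Z η (frm A) := by
  simpa only [fromBlocks_one] using fr_shear η (0 : Matrix I I (ZG (TZ V))) n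

theorem fr_one_one (η : ℤˣ) :
    Fr η (1 : Matrix (I ⊕ I) (I ⊕ I) (ZG (TZ V))) 1 (1 : Matrix (I ⊕ I) (I ⊕ I) (ZG (TZ V))) ∧
    frm (1 : Matrix (I ⊕ I) (I ⊕ I) (ZG (TZ V))) = hypF (ZG V) I := by
  have e : frm (1 : Matrix (I ⊕ I) (I ⊕ I) (ZG (TZ V))) = hypF (ZG V) I := by
    rw [frm, conjTranspose_one, Matrix.one_mul, Matrix.mul_one,
      ← mp_hyp (MonoidHom.inl V (Multiplicative ℤ)), dn, rs_mp]
  refine ⟨⟨⟨ge_one.1, 1, (Matrix.mul_one _).symm, ge_one.2⟩, e ▸ ns_hyp, ?_⟩, e⟩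
  intro L Y hY
  obtain ⟨y0, C, y1, y2⟩ := YWProd_inP.1 hY
  rw [Matrix.mul_one] at y1
  exact ⟨dn Y, by rw [Matrix.mul_one]; exact y0.eq_up (y1 ▸ y2)⟩

theorem fr_const (η : ℤˣ) (U₀ : Matrix (I ⊕ I) (I ⊕ I) (ZG V)) :
    Fr η (up U₀) 0 (0 : Matrix Empty (I ⊕ I) (ZG (TZ V))) := by
  refine ⟨⟨sup_zero, 0, (Matrix.zero_mul _).symm, sup_zero⟩, isUnit_of_subsingleton _, ?_⟩
  intro L Y hY
  obtain ⟨y0, C, y1, y2⟩ := YWProd_inP.1 hY
  exact ⟨0, by
    rw [Matrix.mul_zero]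
    exact y0.eq_zero (y1 ▸ YWProd_lt y2 (ge_up U₀).2 rfl)⟩

end Pool.Agent.Work.MP_9d1ffa_al
end

-- merged part: Pool.Agent.Work.MP_9d1ffa_al.Br.WEx
section
/-! Existence of frames.

Plan.  Let `U U' = 1`.  Take `n ≥ 1` with `Ge (-n) U`, `Lt n U` (`exists_deg`), `N = n`.  For rows
`Y` with `Ge 0 Y` put `pj Y = fm (degree < N) (Y U') * U`; then `InP U N (pj Y)`,
`Y - pj Y = B U` with `Ge N B`, `pj (up c * Y) = up c * pj Y` (`fm_mul_left`), `pj Y = Y` if
`InP U N Y`, and `InP U N Y` implies `Lt (2 n) Y`.  With the window `w = win V (I ⊕ I) (2 n)` put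
`E = dn (pj w * wᴴ)`, so `pj w = up E * w` (`eq_win`) and `E E = E` (use `dn_win` to cancel `w`).
`fr_of_free`: if `E = W₀ U₀`, `U₀ W₀ = 1`, then `A = up U₀ * pj w` is a frame: spanning from
`eq_win`; a left inverse of `sy η (frm A)` (`ns_of_left`, `sy_frm`) comes from
`Y₀ = up W₀ᴴ * w * Ω⁻¹`, because `pj Y₀ = up c * A`, `InP.perp` and
`dn (Y₀ Ω Aᴴ) = W₀ᴴ Eᴴ U₀ᴴ = 1`.
For `exists_we`, `hV` gives an index set `a` with `E ⊕ 1_a` free.  Apply the construction to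
`dsum U 1` with `κ = a`: the rows of `w' = ` (window of `U`) ⊕ (`win V (a ⊕ a) n`) satisfy
`dn (w' w'ᴴ) = 1`, the idempotent is `E ⊕ 1` on an index set containing `a` (`USchur_left`,
`USchur_reindex`); so state `fr_of_free` for an abstract window as below. -/

namespace Pool.Agent.Work.MP_9d1ffa_al

open Matrix MonoidAlgebra TensorProduct

set_option linter.unusedSectionVars false
set_option linter.unusedVariables false

variable {V : Type} [Group V] {η : ℤˣ} {I J L b b' : Type} [Fintype I] [DecidableEq I] [Fintype J]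
  [DecidableEq J] [Fintype b] [DecidableEq b] [Fintype b'] [DecidableEq b']
  {U U' : Matrix (I ⊕ I) (I ⊕ I) (ZG (TZ V))} {N N' : ℤ} {A : Matrix b (I ⊕ I) (ZG (TZ V))}
  {A' : Matrix b' (I ⊕ I) (ZG (TZ V))}

theorem YWEx_mk {Y : Matrix L (I ⊕ I) (ZG (TZ V))} (h0 : Ge 0 Y)
    (B : Matrix L (I ⊕ I) (ZG (TZ V))) (e : Y = B * U) (hB : Lt N B) : InP U N Y := ⟨h0, B, e, hB⟩

theorem YWEx_ex {Y : Matrix L (I ⊕ I) (ZG (TZ V))} (h : InP U N Y) :
    ∃ B : Matrix L (I ⊕ I) (ZG (TZ V)), Y = B * U ∧ Lt N B := h.2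

theorem YWEx_upmul {K M : Type} [Fintype K] (a : Matrix L K (ZG V)) (c : Matrix K M (ZG V)) :
    up (a * c) = up a * up c := mp_mul _ _ _

theorem YWEx_dnl {K M : Type} [Fintype K] (a : Matrix L K (ZG V)) (X : Matrix K M (ZG (TZ V))) :
    dn (up a * X) = a * dn X := rs_mp_mul _ _

theorem YWEx_dnr {K M : Type} [Fintype K] (X : Matrix L K (ZG (TZ V))) (a : Matrix K M (ZG V)) :
    dn (X * up a) = dn X * a := rs_mul_mp _ _

theorem YWEx_up {K : Type} [Fintype K] {Y : Matrix K (I ⊕ I) (ZG (TZ V))} (h : InP U N Y)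
    (c : Matrix L K (ZG V)) : InP U N (up c * Y) := by
  obtain ⟨B, e, hB⟩ := YWEx_ex h
  refine YWEx_mk (by simpa using (ge_up c).1.mul h.1) (up c * B) (by rw [e, Matrix.mul_assoc]) ?_
  simpa using (ge_up c).2.mul (l := N - 1) (Y := B) (by simpa using hB)

theorem YWEx_eq (hU : Uni η U) {Y Y' B : Matrix L (I ⊕ I) (ZG (TZ V))} (h : InP U N Y)
    (h' : InP U N Y') (e : Y - Y' = B * U) (hB : Ge N B) : Y = Y' := by
  obtain ⟨U', -, e1, -⟩ := hU.inv
  obtain ⟨B1, rfl, h1⟩ := YWEx_ex h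
  obtain ⟨B2, rfl, h2⟩ := YWEx_ex h'
  have e2 : B1 - B2 = B := by
    have := congrArg (· * U') e
    simpa only [Matrix.sub_mul, Matrix.mul_assoc, e1, Matrix.mul_one] using this
  have z : B = 0 := hB.eq_zero (e2 ▸ h1.sub h2)
  rw [← sub_eq_zero, e, z, Matrix.zero_mul]

theorem YWEx_cut (hU : Uni η U) (g : Ge (-N) U) {Y : Matrix L (I ⊕ I) (ZG (TZ V))}
    (h : Ge 0 Y) : ∃ P B : Matrix L (I ⊕ I) (ZG (TZ V)), InP U N P ∧ Y - P = B * U ∧ Ge N B := by
  obtain ⟨U', -, e1, e2⟩ := hU.inv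
  obtain ⟨C, C', e, h1, h2, -, -⟩ := exists_cut N (Y * U')
  have e3 : C * U + C' * U = Y := by
    rw [← Matrix.add_mul, ← e, Matrix.mul_assoc, e2, Matrix.mul_one]
  refine ⟨C * U, C', YWEx_mk ?_ C rfl h1, (eq_sub_of_add_eq' e3).symm, h2⟩
  rw [eq_sub_of_add_eq e3]
  exact h.sub (by simpa using h2.mul g)

/-- a frame from a window whose idempotent has free image -/
theorem fr_of_free (hU : Uni η U) (g : Ge (-N) U) {M : Type} [Fintype M] [DecidableEq M]
    {w : Matrix M (I ⊕ I) (ZG (TZ V))} {E : Matrix M M (ZG V)} (w0 : Ge 0 w)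
    (w1 : dn (w * wᴴ) = 1) (hE : InP U N (up E * w))
    (hE' : ∃ B, w - up E * w = B * U ∧ Ge N B)
    (w2 : ∀ (L : Type) (Y : Matrix L (I ⊕ I) (ZG (TZ V))), InP U N Y →
      ∃ c : Matrix L M (ZG V), Y = up c * w) (hF : FreeIdem E) :
    ∃ (b : Type) (_ : Fintype b) (_ : DecidableEq b) (A : Matrix b (I ⊕ I) (ZG (TZ V))),
      Fr η U N A := by
  obtain ⟨b, _, _, U₀, W₀, a1, a2⟩ := hF
  obtain ⟨B, eB, hB⟩ : ∃ B : Matrix M (I ⊕ I) (ZG (TZ V)), w - up E * w = B * U ∧ Ge N B := hE'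
  have a3 : U₀ * E = U₀ := by rw [← a2, ← Matrix.mul_assoc, a1, Matrix.one_mul]
  have hA : InP U N (up U₀ * w) := by
    have := YWEx_up hE U₀
    rwa [← Matrix.mul_assoc, ← YWEx_upmul, a3] at this
  have sp : ∀ (L : Type) (Y : Matrix L (I ⊕ I) (ZG (TZ V))), InP U N Y →
      ∃ c : Matrix L b (ZG V), Y = up c * (up U₀ * w) := by
    intro L Y hY
    obtain ⟨c, e⟩ := w2 L Y hY
    refine ⟨c * W₀, ?_⟩
    have : Y = up c * (up E * w) := YWEx_eq hU hY (YWEx_up hE c) (B := up c * B)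
      (by rw [e, ← Matrix.mul_sub, eB, Matrix.mul_assoc]) (by simpa using (ge_up c).1.mul hB)
    rw [this, ← a2, YWEx_upmul, YWEx_upmul]
    simp only [Matrix.mul_assoc]
  refine ⟨b, inferInstance, inferInstance, up U₀ * w, hA, ?_, sp⟩
  obtain ⟨μ, -, m2⟩ := (ns_hyp (ε := η) (R := ZG V) (I := I)).inv
  have m3 : up μ * sy η (hypF (ZG (TZ V)) I) = 1 := by
    rw [← mp_hyp (MonoidHom.inl V (Multiplicative ℤ)), ← mp_sy]
    exact (mp_mul _ _ _).symm.trans (by rw [m2, mp_one])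
  obtain ⟨P, C, hP, eP, hC⟩ := YWEx_cut hU g (Y := up W₀ᴴ * w * up μ)
    (by simpa using ((ge_up W₀ᴴ).1.mul w0).mul (ge_up μ).1)
  obtain ⟨c, rfl⟩ := sp _ P hP
  refine ns_of_left (C := c) ?_
  have p := (hA.perp hU hC).2
  have e1 : up c * (up U₀ * w * sy η (hypF (ZG (TZ V)) I) * (up U₀ * w)ᴴ) =
      up W₀ᴴ * (w * wᴴ) * up U₀ᴴ - C * U * sy η (hypF (ZG (TZ V)) I) * (up U₀ * w)ᴴ := by
    rw [← eP, Matrix.sub_mul, Matrix.sub_mul, Matrix.mul_assoc _ (up μ), m3, Matrix.mul_one,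
      conjTranspose_mul, show (up U₀)ᴴ = up U₀ᴴ from (mp_ct _ _).symm]
    simp only [Matrix.mul_assoc, sub_sub_cancel]
  rw [sy_frm, ← YWEx_dnl, e1]
  refine (rs_sub _ _).trans ((congrArg _ p).trans ((sub_zero _).trans ?_))
  refine (YWEx_dnr _ _).trans ?_
  rw [YWEx_dnl, w1, Matrix.mul_one, ← conjTranspose_mul, a1, conjTranspose_one]

/-- the hypotheses on a window -/
def YWEx_W (U : Matrix (I ⊕ I) (I ⊕ I) (ZG (TZ V))) (N : ℤ) {M : Type} [Fintype M]
    [DecidableEq M] (w : Matrix M (I ⊕ I) (ZG (TZ V))) (E : Matrix M M (ZG V)) : Prop :=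
  Ge 0 w ∧ dn (w * wᴴ) = 1 ∧ InP U N (up E * w) ∧
    (∃ B : Matrix M (I ⊕ I) (ZG (TZ V)), w - up E * w = B * U ∧ Ge N B) ∧
    ∀ (L : Type) (Y : Matrix L (I ⊕ I) (ZG (TZ V))), InP U N Y →
      ∃ c : Matrix L M (ZG V), Y = up c * w

theorem YWEx_blocks {G K K' M M' Q : Type} [Group G] {S : G → Prop} {a : Matrix K M (ZG G)}
    {d : Matrix K' M' (ZG G)} (ha : Sup S a) (hd : Sup S d) (e : Q → M ⊕ M') :
    Sup S ((fromBlocks a 0 0 d).submatrix id e) := by
  intro k l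
  have : Sup S (fromBlocks a 0 0 d) := by
    rw [← fromRows_fromCols_eq_fromBlocks]
    exact sup_fromRows.2 ⟨sup_fromCols.2 ⟨ha, sup_zero⟩, sup_fromCols.2 ⟨sup_zero, hd⟩⟩
  exact this k (e l)

theorem YWEx_cols {G M M' Q : Type} [Group G] {S : G → Prop} {a : Matrix L M (ZG G)}
    {d : Matrix L M' (ZG G)} (e : Q ≃ M ⊕ M') (h : Sup S ((fromCols a d).submatrix id e)) :
    Sup S a ∧ Sup S d := by
  refine sup_fromCols.1 fun k l => ?_
  obtain ⟨l, rfl⟩ := e.surjective l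
  exact h k l

theorem YWEx_mul {R K K' : Type} [Ring R] [StarRing R] (a : Matrix K (I ⊕ I) R)
    (d : Matrix K' (J ⊕ J) R) (U : Matrix (I ⊕ I) (I ⊕ I) R) (W : Matrix (J ⊕ J) (J ⊕ J) R) :
    (fromBlocks a 0 0 d).submatrix id (Equiv.sumSumSumComm I J I J) * dsum U W =
      (fromBlocks (a * U) 0 0 (d * W)).submatrix id (Equiv.sumSumSumComm I J I J) := by
  rw [dsum, submatrix_mul_equiv, fromBlocks_multiply]
  simp

theorem YWEx_left {R K K' M M' Q : Type} [Ring R] [Fintype K] [Fintype K'] (E : Matrix K K R)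
    (F : Matrix K' K' R) (a : Matrix K M R) (d : Matrix K' M' R) (e : Q → M ⊕ M') :
    fromBlocks E 0 0 F * (fromBlocks a 0 0 d).submatrix id e =
      (fromBlocks (E * a) 0 0 (F * d)).submatrix id e := by
  have : fromBlocks E 0 0 F * (fromBlocks a 0 0 d).submatrix id e =
      (fromBlocks E 0 0 F * fromBlocks a 0 0 d).submatrix id e := rfl
  rw [this, fromBlocks_multiply]
  simp

theorem YWEx_dsum {W : Matrix (J ⊕ J) (J ⊕ J) (ZG (TZ V))} {M M' : Type} [Fintype M]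
    [DecidableEq M] [Fintype M'] [DecidableEq M'] {w : Matrix M (I ⊕ I) (ZG (TZ V))}
    {E : Matrix M M (ZG V)} {v : Matrix M' (J ⊕ J) (ZG (TZ V))} {F : Matrix M' M' (ZG V)}
    (h : YWEx_W U N w E) (h' : YWEx_W W N v F) :
    YWEx_W (dsum U W) N ((fromBlocks w 0 0 v).submatrix id (Equiv.sumSumSumComm I J I J))
      (fromBlocks E 0 0 F) := by
  obtain ⟨w0, w1, i1, ⟨C1, f1, k1⟩, w2⟩ := h
  obtain ⟨v0, v1, i2, ⟨C2, f2, k2⟩, v2⟩ := h'
  obtain ⟨B1, e1, l1⟩ := YWEx_ex i1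
  obtain ⟨B2, e2, l2⟩ := YWEx_ex i2
  have e : up (fromBlocks E 0 0 F) * (fromBlocks w 0 0 v).submatrix id
      (Equiv.sumSumSumComm I J I J) = (fromBlocks (up E * w) 0 0 (up F * v)).submatrix id
        (Equiv.sumSumSumComm I J I J) := by
    rw [← YWEx_left, up, mp_blocks, mp_zero, mp_zero]
  refine ⟨YWEx_blocks w0 v0 _, ?_,
    YWEx_mk ?_ _ ?_ (YWEx_blocks l1 l2 (Equiv.sumSumSumComm I J I J)),
    ⟨_, ?_, YWEx_blocks k1 k2 (Equiv.sumSumSumComm I J I J)⟩, ?_⟩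
  · rw [conjTranspose_submatrix, submatrix_mul_equiv, submatrix_id_id, fromBlocks_conjTranspose,
      fromBlocks_multiply]
    simp only [conjTranspose_zero, Matrix.mul_zero, Matrix.zero_mul, add_zero, zero_add]
    refine (rs_blocks _ _ _ _).trans ?_
    rw [rs_zero, rs_zero, ← fromBlocks_one, ← w1, ← v1]
  · rw [e]
    exact YWEx_blocks i1.1 i2.1 _
  · rw [e, YWEx_mul, e1, e2]
  · rw [e, YWEx_mul, ← f1, ← f2]
    ext (k | k) ((l | l) | (l | l)) : 2 <;> simp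
  · intro L Y hY
    have y0 := hY.1
    obtain ⟨B, rfl, hB⟩ := YWEx_ex hY
    clear hY
    obtain ⟨P, Q, rfl⟩ : ∃ P Q, B = (fromCols P Q).submatrix id (Equiv.sumSumSumComm I J I J) :=
      ⟨(B.submatrix id (Equiv.sumSumSumComm I J I J).symm).toCols₁,
        (B.submatrix id (Equiv.sumSumSumComm I J I J).symm).toCols₂, by
          rw [fromCols_toCols]
          ext k ((l | l) | (l | l)) : 2 <;> rfl⟩
    have e3 : (fromCols P Q).submatrix id (Equiv.sumSumSumComm I J I J) * dsum U W =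
        (fromCols (P * U) (Q * W)).submatrix id (Equiv.sumSumSumComm I J I J) := by
      rw [dsum, submatrix_mul_equiv, fromCols_mul_fromBlocks]
      simp
    rw [e3] at y0 ⊢
    obtain ⟨p0, q0⟩ := YWEx_cols _ y0
    obtain ⟨p1, q1⟩ := YWEx_cols _ hB
    obtain ⟨c, ec⟩ := w2 L _ (YWEx_mk p0 P rfl p1)
    obtain ⟨d, ed⟩ := v2 L _ (YWEx_mk q0 Q rfl q1)
    refine ⟨fromCols c d, ?_⟩
    have : up (fromCols c d) * (fromBlocks w 0 0 v).submatrix id (Equiv.sumSumSumComm I J I J) =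
        (up (fromCols c d) * fromBlocks w 0 0 v).submatrix id (Equiv.sumSumSumComm I J I J) := rfl
    rw [this, up, mp_fromCols, fromCols_mul_fromBlocks, ec, ed]
    simp

theorem YWEx_one (n : ℕ) :
    YWEx_W (1 : Matrix (J ⊕ J) (J ⊕ J) (ZG (TZ V))) n (win V (J ⊕ J) n) 1 := by
  have e : up (1 : Matrix (Fin n × (J ⊕ J)) (Fin n × (J ⊕ J)) (ZG V)) * win V (J ⊕ J) n =
      win V (J ⊕ J) n := by rw [up, mp_one, Matrix.one_mul]
  refine ⟨(win_deg n).1, dn_win n, ?_, ⟨0, ?_, sup_zero⟩, ?_⟩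
  · rw [e]
    exact YWEx_mk (win_deg n).1 _ (Matrix.mul_one _).symm (win_deg n).2
  · rw [e, sub_self, Matrix.zero_mul]
  · intro L Y hY
    obtain ⟨B, e, hB⟩ := YWEx_ex hY
    exact ⟨_, eq_win hY.1 (by rwa [e, Matrix.mul_one])⟩

theorem YWEx_win (hU : Uni η U) {n : ℕ} (g : Ge (-n) U) (g' : Lt n U) :
    ∃ E : Matrix (Fin (2 * n) × (I ⊕ I)) (Fin (2 * n) × (I ⊕ I)) (ZG V),
      E * E = E ∧ YWEx_W U n (win V (I ⊕ I) (2 * n)) E := by
  have w2 : ∀ (L : Type) (Y : Matrix L (I ⊕ I) (ZG (TZ V))), InP U n Y →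
      ∃ c : Matrix L (Fin (2 * n) × (I ⊕ I)) (ZG V), Y = up c * win V (I ⊕ I) (2 * n) := by
    intro L Y hY
    obtain ⟨B, e, hB⟩ := YWEx_ex hY
    refine ⟨_, eq_win hY.1 ?_⟩
    rw [e]
    exact (hB.mul (l := n) (g'.mono (by omega))).mono (by push_cast; omega)
  obtain ⟨P, B, hP, eP, hB⟩ := YWEx_cut hU g (win_deg (V := V) (J := I ⊕ I) (2 * n)).1
  obtain ⟨E, rfl⟩ := w2 _ P hP
  refine ⟨E, ?_, (win_deg _).1, dn_win _, hP, ⟨B, eP, hB⟩, w2⟩
  have e := YWEx_eq hU hP (YWEx_up hP E) (B := up E * B)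
    (by rw [← Matrix.mul_sub, eP, Matrix.mul_assoc]) (by simpa using (ge_up E).1.mul hB)
  have e' := congrArg (fun X => dn (X * (win V (I ⊕ I) (2 * n))ᴴ)) e
  simp only [Matrix.mul_assoc, YWEx_dnl, dn_win, Matrix.mul_one] at e'
  exact e'.symm

theorem YWEx_free {R M a K : Type} [Ring R] [StarRing R] [Fintype M] [DecidableEq M] [Fintype a]
    [DecidableEq a] [Fintype K] [DecidableEq K] {E : Matrix M M R}
    (h : FreeIdem (fromBlocks E 0 0 (1 : Matrix a a R))) (f : a ↪ K) :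
    FreeIdem (fromBlocks E 0 0 (1 : Matrix K K R)) := by
  classical
  let e : K ≃ a ⊕ {x // x ∉ Set.range f} :=
    ((Equiv.sumCongr f.toEquivRange (Equiv.refl _)).trans (Equiv.sumCompl (· ∈ Set.range f))).symm
  have := USchur_reindex (USchur_left h {x // x ∉ Set.range f}) ((Equiv.refl M).sumCongr e)
  convert this using 1
  ext (k | k) (l | l) <;> simp [Matrix.one_apply]

theorem exists_we (hV : SFI (ZG V)) (hU : Uni η U) : ∃ x, WE η U x := by
  obtain ⟨m, g, g'⟩ := exists_deg U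
  have g1 : Ge (-((m + 1 : ℕ) : ℤ)) U := g.mono (by push_cast; omega)
  obtain ⟨E, e, hW⟩ := YWEx_win hU g1 (g'.mono (by push_cast; omega))
  obtain ⟨a, _, _, hF⟩ := hV _ E e
  obtain ⟨w0, w1, hE, hE', w2⟩ := YWEx_dsum hW (YWEx_one (J := a) (m + 1))
  have g2 : Ge (-((m + 1 : ℕ) : ℤ)) (dsum U (1 : Matrix (a ⊕ a) (a ⊕ a) (ZG (TZ V)))) :=
    fun k l => YWEx_blocks g1 (ge_one.1.mono (by push_cast; omega))
      (Equiv.sumSumSumComm I a I a) (Equiv.sumSumSumComm I a I a k) l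
  obtain ⟨b, _, _, A, hA⟩ := fr_of_free (hU.dsum uni_one) g2 w0 w1 hE hE' w2
    (YWEx_free hF ⟨fun x => ((0 : Fin (m + 1)), Sum.inl x),
      fun x y e => Sum.inl_injective (congrArg Prod.snd e)⟩)
  exact ⟨_, a, inferInstance, inferInstance, _, b, inferInstance, inferInstance, A,
    Int.natCast_nonneg _, g1, hA, rfl⟩

end Pool.Agent.Work.MP_9d1ffa_al
end

-- merged part: Pool.Agent.Work.MP_9d1ffa_al.Br.WUq
section
/-! The class of the module of a unitary matrix is well defined and additive.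

Plan.  `WE.more`: raise `N` by `Fr.mul` with `U' = 1` and `fr_one`; enlarge `κ` by `Fr.dsum`
with `fr_one` and `Fr.reindex` (an index set of larger cardinality is equivalent to `κ₀ ⊕ Fin m`;
`dsum (dsum U 1) 1` reindexed is `dsum U 1`).  Classes: `cls_iso`, `Iso.of_eqv`, `cls_sum`,
`cls_eq_zero`.  The three consequences take common `κ` and `N`: `Fr.iso`; `Fr.mul` with
`dsum_mul`; `Fr.dsum` with `Equiv.sumSumSumComm`. -/

namespace Pool.Agent.Work.MP_9d1ffa_al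

open Matrix MonoidAlgebra TensorProduct

set_option linter.unusedSectionVars false
set_option linter.unusedVariables false

variable {V : Type} [Group V] {η : ℤˣ} {I J L b b' : Type} [Fintype I] [DecidableEq I] [Fintype J]
  [DecidableEq J] [Fintype b] [DecidableEq b] [Fintype b'] [DecidableEq b']
  {U U' : Matrix (I ⊕ I) (I ⊕ I) (ZG (TZ V))} {N N' : ℤ} {A : Matrix b (I ⊕ I) (ZG (TZ V))}
  {A' : Matrix b' (I ⊕ I) (ZG (TZ V))}

variable {x y : L0 (ZG V) η}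

theorem ge_dsum {W : Matrix (J ⊕ J) (J ⊕ J) (ZG (TZ V))} (h : Ge N U) (h' : Ge N W) :
    Ge N (dsum U W) := by
  rintro ((i | i) | (i | i)) ((j | j) | (j | j)) g hg <;>
    first | exact h _ _ g hg | exact h' _ _ g hg | exact (hg rfl).elim

/-- `x` is the class of a frame of `U` at the level `N` -/
def YWUq_F (η : ℤˣ) (U : Matrix (I ⊕ I) (I ⊕ I) (ZG (TZ V))) (N : ℤ) (x : L0 (ZG V) η) : Prop :=
  ∃ (b : Type) (_ : Fintype b) (_ : DecidableEq b) (A : Matrix b (I ⊕ I) (ZG (TZ V))),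
    Fr η U N A ∧ x = cls η (frm A)

theorem YWUq_re (h : YWUq_F η U N x) (e : J ≃ I) :
    YWUq_F η (U.submatrix (e.sumCongr e) (e.sumCongr e)) N x := by
  obtain ⟨b, _, _, A, hA, rfl⟩ := h
  exact ⟨b, _, _, _, (hA.reindex e).1, by rw [(hA.reindex e).2]⟩

theorem YWUq_mul (hU : Uni η U) (hU' : Uni η U') (g : Ge (-N) U) (g' : Ge (-N') U')
    (h : YWUq_F η U N x) (h' : YWUq_F η U' N' y) : YWUq_F η (U' * U) (N + N') (x + y) := by
  obtain ⟨b, _, _, A, hA, rfl⟩ := h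
  obtain ⟨b', _, _, A', hA', rfl⟩ := h'
  obtain ⟨k1, k2⟩ := Fr.mul hU hU' g g' hA hA'
  exact ⟨_, _, _, _, k1, by rw [← cls_sum hA.ns hA'.ns, cls_iso (Iso.of_eqv k2)]⟩

theorem YWUq_sum {W : Matrix (J ⊕ J) (J ⊕ J) (ZG (TZ V))} (h : YWUq_F η U N x)
    (h' : YWUq_F η W N y) : YWUq_F η (dsum U W) N (x + y) := by
  obtain ⟨b, _, _, A, hA, rfl⟩ := h
  obtain ⟨b', _, _, A', hA', rfl⟩ := h'
  obtain ⟨E, k1, k2⟩ := hA.dsum hA'
  exact ⟨_, _, _, E, k1, by rw [k2, cls_sum hA.ns hA'.ns]⟩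

theorem YWUq_one (h : 0 ≤ N) : YWUq_F η (1 : Matrix (I ⊕ I) (I ⊕ I) (ZG (TZ V))) N 0 := by
  obtain ⟨n, rfl⟩ := Int.eq_ofNat_of_zero_le h
  obtain ⟨A, k1, k2⟩ := fr_one (V := V) (I := I) η n
  exact ⟨_, _, _, A, k1, ((cls_eq_zero k1.ns).2 k2).symm⟩

theorem YWUq_ge (h : 0 ≤ N) (g : Ge (-N) U) :
    Ge (-N) (dsum U (1 : Matrix (J ⊕ J) (J ⊕ J) (ZG (TZ V)))) :=
  ge_dsum g (ge_one.1.mono (by omega))

theorem YWUq_we (h0 : 0 ≤ N) (g : Ge (-N) U)
    (h : YWUq_F η (dsum U (1 : Matrix (J ⊕ J) (J ⊕ J) (ZG (TZ V)))) N x) : WE η U x := by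
  obtain ⟨b, _, _, A, hA, e⟩ := h
  exact ⟨J, _, _, N, b, _, _, A, h0, g, hA, e⟩



theorem Fr.we (h : Fr η U N A) (h0 : 0 ≤ N) (g : Ge (-N) U) : WE η U (cls η (frm A)) := by
  have k := YWUq_re (x := cls η (frm A)) ⟨b, _, _, A, h, rfl⟩ (Equiv.sumEmpty I Empty)
  have e : U.submatrix ((Equiv.sumEmpty I Empty).sumCongr (Equiv.sumEmpty I Empty))
      ((Equiv.sumEmpty I Empty).sumCongr (Equiv.sumEmpty I Empty)) =
      MP_9d1ffa_al.dsum U (1 : Matrix (Empty ⊕ Empty) (Empty ⊕ Empty) (ZG (TZ V))) := by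
    refine Matrix.ext ?_
    rintro ((i | i) | (i | i)) ((j | j) | (j | j)) <;>
      first | exact i.elim | exact j.elim | rfl
  exact YWUq_we h0 g (e ▸ k)

theorem YWUq_big {K : Type} [Fintype K] [DecidableEq K] (h0 : 0 ≤ N)
    (h : YWUq_F η (dsum U (1 : Matrix (J ⊕ J) (J ⊕ J) (ZG (TZ V)))) N x)
    (hc : Fintype.card J ≤ Fintype.card K) :
    YWUq_F η (dsum U (1 : Matrix (K ⊕ K) (K ⊕ K) (ZG (TZ V)))) N x := by
  obtain ⟨m, hm⟩ := Nat.exists_eq_add_of_le hc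
  let e : K ≃ J ⊕ Fin m := Fintype.equivOfCardEq (by rw [Fintype.card_sum, Fintype.card_fin, hm])
  have k1 := YWUq_re (YWUq_sum h (YWUq_one (I := Fin m) h0)) (Equiv.sumAssoc I J (Fin m)).symm
  have e1 : ∀ (W : Matrix (J ⊕ J) (J ⊕ J) (ZG (TZ V)))
      (X : Matrix (Fin m ⊕ Fin m) (Fin m ⊕ Fin m) (ZG (TZ V))), (dsum (dsum U W) X).submatrix
      ((Equiv.sumAssoc I J (Fin m)).symm.sumCongr (Equiv.sumAssoc I J (Fin m)).symm)
      ((Equiv.sumAssoc I J (Fin m)).symm.sumCongr (Equiv.sumAssoc I J (Fin m)).symm) =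
      dsum U (dsum W X) := fun W X => by
    refine Matrix.ext ?_
    rintro ((i | i | i) | (i | i | i)) ((j | j | j) | (j | j | j)) <;> rfl
  rw [e1, dsum_one, add_zero] at k1
  have k2 := YWUq_re k1 ((Equiv.refl I).sumCongr e)
  have e2 : ∀ W : Matrix ((J ⊕ Fin m) ⊕ (J ⊕ Fin m)) ((J ⊕ Fin m) ⊕ (J ⊕ Fin m)) (ZG (TZ V)),
      (dsum U W).submatrix (((Equiv.refl I).sumCongr e).sumCongr ((Equiv.refl I).sumCongr e))
      (((Equiv.refl I).sumCongr e).sumCongr ((Equiv.refl I).sumCongr e)) =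
      dsum U (W.submatrix (e.sumCongr e) (e.sumCongr e)) := fun W => by
    refine Matrix.ext ?_
    rintro ((i | i) | (i | i)) ((j | j) | (j | j)) <;> rfl
  rwa [e2, submatrix_one_equiv] at k2



theorem WE.more (hU : Uni η U) (h : WE η U x) : ∃ (m₀ : ℕ) (N₀ : ℤ), 0 ≤ N₀ ∧ Ge (-N₀) U ∧
    ∀ (κ : Type) [Fintype κ] [DecidableEq κ], m₀ ≤ Fintype.card κ → ∀ N, N₀ ≤ N →
      ∃ (b : Type) (_ : Fintype b) (_ : DecidableEq b)
        (A : Matrix b ((I ⊕ κ) ⊕ (I ⊕ κ)) (ZG (TZ V))),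
        Fr η (dsum U (1 : Matrix (κ ⊕ κ) (κ ⊕ κ) (ZG (TZ V)))) N A ∧ x = cls η (frm A) := by
  obtain ⟨κ₀, _, _, N₀, b, _, _, A, h0, g, hA, e⟩ := h
  refine ⟨Fintype.card κ₀, N₀, h0, g, fun κ _ _ hc N hN => ?_⟩
  have k := YWUq_mul (hU.dsum uni_one) uni_one (YWUq_ge h0 g)
    (ge_one.1.mono (by omega : -(N - N₀) ≤ 0)) ⟨b, _, _, A, hA, e⟩ (YWUq_one (by omega))
  rw [Matrix.one_mul, add_zero, add_sub_cancel] at k
  exact YWUq_big (by omega) k hc

theorem WE.unique (hU : Uni η U) (h : WE η U x) (h' : WE η U y) : x = y := by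
  obtain ⟨m, N, h0, -, k⟩ := h.more hU
  obtain ⟨m', N', h0', -, k'⟩ := h'.more hU
  obtain ⟨b, _, _, A, hA, rfl⟩ := k (Fin (m + m')) (by simp) (N + N') (by omega)
  obtain ⟨b', _, _, A', hA', rfl⟩ := k' (Fin (m + m')) (by simp) (N + N') (by omega)
  exact cls_iso (hA.iso hA')

theorem WE.mul (hU : Uni η U) (hU' : Uni η U') (h : WE η U x) (h' : WE η U' y) :
    WE η (U * U') (x + y) := by
  obtain ⟨m, N, h0, g, k⟩ := h.more hU
  obtain ⟨m', N', h0', g', k'⟩ := h'.more hU'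
  have k1 := YWUq_mul (hU'.dsum uni_one) (hU.dsum uni_one) (YWUq_ge h0' g') (YWUq_ge h0 g)
    (k' (Fin (m + m')) (by simp) N' le_rfl) (k (Fin (m + m')) (by simp) N le_rfl)
  rw [dsum_mul, Matrix.one_mul, add_comm y] at k1
  exact YWUq_we (by omega) ((g.mul g').mono (by omega)) k1

theorem WE.dsum {W : Matrix (J ⊕ J) (J ⊕ J) (ZG (TZ V))} (hU : Uni η U) (hW : Uni η W)
    (h : WE η U x) (h' : WE η W y) : WE η (dsum U W) (x + y) := by
  obtain ⟨m, N, h0, g, k⟩ := h.more hU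
  obtain ⟨m', N', h0', g', k'⟩ := h'.more hW
  have k1 := YWUq_re (YWUq_sum (k (Fin m) (by simp) (N + N') (by omega))
    (k' (Fin m') (by simp) (N + N') (by omega))) (Equiv.sumSumSumComm I J (Fin m) (Fin m'))
  have e1 : ∀ (X : Matrix (Fin m ⊕ Fin m) (Fin m ⊕ Fin m) (ZG (TZ V)))
      (Y : Matrix (Fin m' ⊕ Fin m') (Fin m' ⊕ Fin m') (ZG (TZ V))),
      (MP_9d1ffa_al.dsum (MP_9d1ffa_al.dsum U X) (MP_9d1ffa_al.dsum W Y)).submatrix
      ((Equiv.sumSumSumComm I J (Fin m) (Fin m')).sumCongr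
        (Equiv.sumSumSumComm I J (Fin m) (Fin m')))
      ((Equiv.sumSumSumComm I J (Fin m) (Fin m')).sumCongr
        (Equiv.sumSumSumComm I J (Fin m) (Fin m'))) =
      MP_9d1ffa_al.dsum (MP_9d1ffa_al.dsum U W) (MP_9d1ffa_al.dsum X Y) := fun X Y => by
    refine Matrix.ext ?_
    rintro (((i | i) | (i | i)) | ((i | i) | (i | i))) (((j | j) | (j | j)) | ((j | j) | (j | j))) <;>
      rfl
  rw [e1, dsum_one] at k1
  exact YWUq_we (by omega) (ge_dsum (g.mono (by omega)) (g'.mono (by omega))) k1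

end Pool.Agent.Work.MP_9d1ffa_al
end

-- merged part: Pool.Agent.Work.MP_9d1ffa_al.Br.WGen
section
/-! The boundary map of the Wang sequence in odd degrees.

Plan.
* `Fr.z_diag`: with `p = fromBlocks 1 0 0 0` the rows `A p` lie in the module, so
  `A p = up E * A`; `E E = E` by `Fr.indep`; `frm_up` shows that `E` and `1 - E` are isotropic;
  `z_split` with `NS.inv`.
* `we_circ`: `N = 0`, no stabilisation, `A = up (fromCols (1 - β) lᴴ)`, the upper rows of the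
  inverse of `hm` (`hm_inv`, `hm_map`, `hm_frm`); in the coordinates `Y * hm` the matrix acts as
  `diag (z, 1)`.  The form is `~ ψ` by the third part of `hm_frm`.
* `exists_dz`: let `f U` be the class given by `exists_we` if `U` is unitary (else `0`), apply
  `exists_l1_lift` with `WE.unique`, `WE.mul`, `WE.dsum`.  Generators: `gl` by `Fr.z_diag` (the
  stabilised matrix is again block diagonal, `dsum_blocks`), `sh` by `fr_shear`, `Fr.we`,
  `exists_deg`; for `sw κ s` put `g = fromBlocks (1 - sᴴ s) sᴴ s 0` on `I ⊕ κ` (`g g = 1`,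
  `gᴴ = g`) and `G = fromBlocks g 0 0 g`; then `dsum U 1 = G * dsum 1 (swap) * G` where the middle
  factor is constant (`fr_const`, `genU_swap`). -/

namespace Pool.Agent.Work.MP_9d1ffa_al

open Matrix MonoidAlgebra TensorProduct

set_option linter.unusedSectionVars false
set_option linter.unusedVariables false

variable {V : Type} [Group V] {η : ℤˣ} {I J L b b' : Type} [Fintype I] [DecidableEq I] [Fintype J]
  [DecidableEq J] [Fintype b] [DecidableEq b] [Fintype b'] [DecidableEq b']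
  {U U' : Matrix (I ⊕ I) (I ⊕ I) (ZG (TZ V))} {N N' : ℤ} {A : Matrix b (I ⊕ I) (ZG (TZ V))}
  {A' : Matrix b' (I ⊕ I) (ZG (TZ V))}

theorem YWGen_ge_blocks {k : ℤ} {a : Matrix I I (ZG (TZ V))} {d : Matrix J J (ZG (TZ V))}
    (ha : Ge k a) (hd : Ge k d) : Ge k (fromBlocks a 0 0 d) := by
  rw [← fromRows_fromCols_eq_fromBlocks]
  exact sup_fromRows.2 ⟨sup_fromCols.2 ⟨ha, sup_zero⟩, sup_fromCols.2 ⟨sup_zero, hd⟩⟩

theorem YWGen_ge_mul_up {K M : Type} [Fintype K] {k : ℤ} {X : Matrix L K (ZG (TZ V))}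
    (h : Ge k X) (c : Matrix K M (ZG V)) : Ge k (X * up c) := by
  simpa only [add_zero] using h.mul (ge_up c).1

theorem YWGen_lt_mul_up {K M : Type} [Fintype K] {k : ℤ} {X : Matrix L K (ZG (TZ V))}
    (h : Lt k X) (c : Matrix K M (ZG V)) : Lt k (X * up c) := by
  have h1 : Lt (0 + 1) (up c) := by simpa only [zero_add] using (ge_up c).2
  simpa only [add_zero] using h.mul h1

theorem YWGen_frm_zero (A : Matrix b (I ⊕ I) (ZG (TZ V))) (p : Matrix (I ⊕ I) (I ⊕ I) (ZG (TZ V)))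
    (e : p * hypF (ZG (TZ V)) I * pᴴ = 0) : frm (A * p) = 0 := by
  have : A * p * hypF (ZG (TZ V)) I * (A * p)ᴴ = A * (p * hypF (ZG (TZ V)) I * pᴴ) * Aᴴ := by
    simp only [conjTranspose_mul, Matrix.mul_assoc]
  rw [frm, this, e, Matrix.mul_zero, Matrix.zero_mul]
  exact rs_zero

theorem Fr.z_diag (hV : SFI (ZG V)) {g d : Matrix I I (ZG (TZ V))}
    (h : Fr η (fromBlocks g 0 0 d) N A) : Z η (frm A) := by
  obtain ⟨p, hp⟩ : ∃ p : Matrix (I ⊕ I) (I ⊕ I) (ZG (TZ V)), p = fromBlocks 1 0 0 0 := ⟨_, rfl⟩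
  have hup : p = up (fromBlocks (1 : Matrix I I (ZG V)) 0 0 0) := by
    rw [hp, up, mp_blocks, mp_one, mp_zero]
  have pp : p * p = p := by
    rw [hp]; simp [fromBlocks_multiply]
  have hm : InP (fromBlocks g 0 0 d) N (A * p) := by
    obtain ⟨h0, B, e0, hB⟩ := h.mem
    have e : A = B * (fromBlocks g 0 0 d : Matrix (I ⊕ I) (I ⊕ I) _) := e0
    have e2 : A * p = B * p * (fromBlocks g 0 0 d : Matrix (I ⊕ I) (I ⊕ I) _) := by
      rw [e, Matrix.mul_assoc, Matrix.mul_assoc, hp]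
      simp [fromBlocks_multiply]
    exact ⟨hup ▸ YWGen_ge_mul_up h0 _, _, e2, hup ▸ YWGen_lt_mul_up hB _⟩
  obtain ⟨E, hE⟩ := h.span _ _ hm
  have EE : E * E = E := by
    refine sub_eq_zero.1 (h.indep ?_)
    rw [up, mp_sub, mp_mul, Matrix.sub_mul, Matrix.mul_assoc, ← hE, ← Matrix.mul_assoc, ← hE,
      Matrix.mul_assoc, pp, sub_self]
  have EE' : (1 - E) * (1 - E) = 1 - E := by
    rw [Matrix.sub_mul, Matrix.mul_sub, Matrix.mul_sub, EE, Matrix.one_mul, Matrix.one_mul,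
      Matrix.mul_one, sub_self, sub_zero]
  have hE' : up (1 - E) * A = A * (1 - p) := by
    rw [up, mp_sub, mp_one, Matrix.sub_mul, Matrix.mul_sub, Matrix.one_mul, Matrix.mul_one, hE]
  obtain ⟨μ, m1, m2⟩ := h.ns.inv
  refine z_split m1 m2 (hV _ _ EE) (hV _ _ EE') ?_ ?_
  · rw [← frm_up, ← hE]
    refine YWGen_frm_zero _ _ ?_
    rw [hp]
    simp [hypF, fromBlocks_multiply, fromBlocks_conjTranspose]
  · rw [← frm_up, hE']
    refine YWGen_frm_zero _ _ ?_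
    have : (1 - p) * hypF (ZG (TZ V)) I = 0 := by
      rw [Matrix.sub_mul, Matrix.one_mul, hp]
      simp [hypF, fromBlocks_multiply]
    rw [this, Matrix.zero_mul]

theorem YWGen_cls_empty {R : Type} [Ring R] [StarRing R] [IsEmpty J] (a : Matrix J J R) :
    cls η a = 0 := by
  have h := cls_sum (ε := η) (OL0_ns_empty a) (OL0_ns_empty a)
  rw [cls_iso (OL0_empty a a)] at h
  exact left_eq_add.1 h

theorem we_const (U₀ : Matrix (I ⊕ I) (I ⊕ I) (ZG V)) : WE η (up U₀) 0 := by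
  have h := (fr_const η U₀).we le_rfl (by simpa only [neg_zero] using (ge_up U₀).1)
  rwa [YWGen_cls_empty] at h

/-- the row `(1, 0)` -/
def YWGen_c (R I : Type) [Ring R] [DecidableEq I] : Matrix I (I ⊕ I) R := fromCols 1 0

/-- the column `(1, 0)` -/
def YWGen_r (R I : Type) [Ring R] [DecidableEq I] : Matrix (I ⊕ I) I R := fromRows 1 0

/-- the column `(0, 1)` -/
def YWGen_s (R I : Type) [Ring R] [DecidableEq I] : Matrix (I ⊕ I) I R := fromRows 0 1

/-- the row `(0, 1)` -/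
def YWGen_t (R I : Type) [Ring R] [DecidableEq I] : Matrix I (I ⊕ I) R := fromCols 0 1

theorem YWGen_fr {k k' : Matrix (I ⊕ I) (I ⊕ I) (ZG V)} (h2 : k' * k = 1) (h1 : k * k' = 1)
    {z w : Matrix I I (ZG (TZ V))} (hz : w * z = 1) (lw : Lt 0 w) (lz : Lt (1 + 1) z)
    {D : Matrix (I ⊕ I) (I ⊕ I) (ZG (TZ V))} (hD : D = fromBlocks z 0 0 1)
    (hn : NS η (frm (up (YWGen_c (ZG V) I * k')))) :
    Fr η (up k * D * up k') 0 (up (YWGen_c (ZG V) I * k')) := by
  have u2 : up k' * up k = 1 := by rw [up, up, ← mp_mul, h2, mp_one]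
  have u1 : up k * up k' = 1 := by rw [up, up, ← mp_mul, h1, mp_one]
  have c1 : up (YWGen_c (ZG V) I * k') = YWGen_c (ZG (TZ V)) I * up k' := by
    rw [up, mp_mul, YWGen_c, mp_fromCols, mp_one, mp_zero, YWGen_c]
  have r1 : up (YWGen_r (ZG V) I) = YWGen_r (ZG (TZ V)) I := by
    rw [up, YWGen_r, mp_fromRows, mp_one, mp_zero, YWGen_r]
  have r2 : up (YWGen_s (ZG V) I) = YWGen_s (ZG (TZ V)) I := by
    rw [up, YWGen_s, mp_fromRows, mp_one, mp_zero, YWGen_s]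
  have d1 : YWGen_c (ZG (TZ V)) I * D =
      z * YWGen_c (ZG (TZ V)) I := by
    rw [hD, YWGen_c, fromCols_mul_fromBlocks, mul_fromCols]
    simp
  have d2 : D * YWGen_r (ZG (TZ V)) I =
      YWGen_r (ZG (TZ V)) I * z := by
    rw [hD, YWGen_r, fromBlocks_mul_fromRows, fromRows_mul]
    simp
  have d3 : D * YWGen_s (ZG (TZ V)) I =
      YWGen_s (ZG (TZ V)) I := by
    rw [hD, YWGen_s, fromBlocks_mul_fromRows]
    simp
  have e1 : up (YWGen_c (ZG V) I * k') = w * up (YWGen_c (ZG V) I * k') *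
      (up k * D * up k') := by
    rw [c1]
    calc YWGen_c (ZG (TZ V)) I * up k' =
          w * z * YWGen_c (ZG (TZ V)) I * up k' := by
          rw [hz, Matrix.one_mul]
      _ = w * (YWGen_c (ZG (TZ V)) I * (up k' * up k) *
          D) * up k' := by
          rw [u2, Matrix.mul_one, d1, Matrix.mul_assoc w z]
      _ = _ := by simp only [Matrix.mul_assoc]
  refine ⟨⟨(ge_up _).1, _, e1, ?_⟩, hn, ?_⟩
  · exact YWGen_lt_mul_up lw _
  · rintro L Y ⟨h0, B, e0, hB⟩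
    have e : Y = B * (up k * D * up k') := e0
    have e' : Y * up k = B * up k * D := by
      rw [e]
      calc _ = B * up k * D * (up k' * up k) := by simp only [Matrix.mul_assoc]
        _ = _ := by rw [u2, Matrix.mul_one]
    have g1 := YWGen_ge_mul_up (YWGen_ge_mul_up h0 k) (YWGen_r (ZG V) I)
    have g2 := YWGen_ge_mul_up (YWGen_ge_mul_up h0 k) (YWGen_s (ZG V) I)
    have l1 := YWGen_lt_mul_up (YWGen_lt_mul_up hB k) (YWGen_r (ZG V) I)
    have l2 := YWGen_lt_mul_up (YWGen_lt_mul_up hB k) (YWGen_s (ZG V) I)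
    have z2 : Y * up k * up (YWGen_s (ZG V) I) = 0 := by
      refine g2.eq_zero ?_
      rw [e', Matrix.mul_assoc, r2, d3]
      rwa [r2] at l2
    have z1 : Lt 1 (Y * up k * up (YWGen_r (ZG V) I)) := by
      have := l1.mul lz
      rw [zero_add, Matrix.mul_assoc, r1] at this
      rwa [e', Matrix.mul_assoc, r1, d2]
    refine ⟨dn (Y * up k * up (YWGen_r (ZG V) I)), ?_⟩
    rw [← g1.eq_up z1, c1, r1]
    rw [r2] at z2
    have o : YWGen_r (ZG (TZ V)) I * YWGen_c (ZG (TZ V)) I +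
        YWGen_s (ZG (TZ V)) I * YWGen_t (ZG (TZ V)) I = 1 := by
      rw [YWGen_r, YWGen_c, YWGen_s, YWGen_t, fromRows_mul_fromCols, fromRows_mul_fromCols,
        fromBlocks_add, ← fromBlocks_one]
      simp
    calc Y = Y * up k * (YWGen_r (ZG (TZ V)) I * YWGen_c (ZG (TZ V)) I +
          YWGen_s (ZG (TZ V)) I * YWGen_t (ZG (TZ V)) I) * up k' := by
          rw [o, Matrix.mul_one, Matrix.mul_assoc, u1, Matrix.mul_one]
      _ = _ := by
          rw [Matrix.mul_add, ← Matrix.mul_assoc _ (YWGen_s _ _), z2, Matrix.zero_mul, add_zero]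
          simp only [Matrix.mul_assoc]

theorem we_circ {ψ : Matrix I I (ZG V)} (h : NS η ψ) :
    WE η (aut η (up ψ) (dg I (zz V 1))) (cls η ψ) := by
  obtain ⟨h1, h2, h3⟩ := hm_frm h
  have hm' := hm_map (gm (MonoidHom.inl V (Multiplicative ℤ))) (gm_star _) h
  have e : aut η (up ψ) (dg I (zz V 1)) =
      up (hm η ψ) * fromBlocks (dg I (zz V 1)) 0 0 1 * up (Ring.inverse (hm η ψ)) := by
    rw [aut, up, up, up, mp, mp, mp, hm'.1, hm'.2]
  generalize Ring.inverse (hm η ψ) = k' at h1 h2 e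
  generalize hm η ψ = k at h1 h2 h3 e
  have q : Eqv η (frm (up (YWGen_c (ZG V) I * k'))) ψ := by
    have a := h3.conj (YWGen_c (ZG V) I * k')
    rw [← Matrix.mul_one (up _), frm_up, (fr_one_one η).2]
    refine a.trans (Eqv.of_eq ?_)
    have c : YWGen_c (ZG V) I * k' * k = YWGen_c (ZG V) I := by
      rw [Matrix.mul_assoc, h2, Matrix.mul_one]
    calc _ = YWGen_c (ZG V) I * k' * k * fromBlocks ψ 0 0 (-ψ) * (YWGen_c (ZG V) I * k' * k)ᴴ := by
          simp only [conjTranspose_mul, Matrix.mul_assoc]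
      _ = ψ := by
          rw [c, YWGen_c, fromCols_mul_fromBlocks,
            conjTranspose_fromCols_eq_fromRows_conjTranspose, fromCols_mul_fromRows]
          simp
  have hz : dg I (zz V (-1)) * dg I (zz V 1) = 1 := by
    rw [dg_zz_mul, neg_add_cancel, dg_zz_zero]
  have lw : Lt 0 (dg I (zz V (-1))) := by
    simpa only [neg_add_cancel] using (ge_dg (K := I) (V := V) (-1)).2
  have := (YWGen_fr h2 h1 hz lw (ge_dg (K := I) (V := V) 1).2 rfl
    (h.iso (Iso.of_eqv q.symm))).we le_rfl (by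
    have a := (ge_up k).1.mul (YWGen_ge_blocks ((ge_dg (K := I) (V := V) 1).1.mono zero_le_one)
      (ge_one (K := I)).1)
    simpa only [add_zero, neg_zero] using YWGen_ge_mul_up a k')
  rwa [cls_iso (Iso.of_eqv q), ← e] at this

theorem YWGen_diag (hV : SFI (ZG V)) {g d : Matrix I I (ZG (TZ V))} {x : L0 (ZG V) η}
    (h : WE η (fromBlocks g 0 0 d) x) : x = 0 := by
  obtain ⟨κ, _, _, N, b, _, _, A, -, -, hF, rfl⟩ := h
  rw [← fromBlocks_one, dsum_blocks, fromBlocks_zero] at hF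
  exact (cls_eq_zero hF.ns).2 (hF.z_diag hV)

theorem YWGen_swap {R : Type} [Ring R] [StarRing R] {κ : Type} [Fintype κ] [DecidableEq κ]
    (s : Matrix κ I R) (h : s * sᴴ = 1) (g : Matrix (I ⊕ κ) (I ⊕ κ) R)
    (hg : g = fromBlocks (1 - sᴴ * s) sᴴ s 0) :
    g * g = 1 ∧ gᴴ = g ∧
      dsum (fromBlocks (1 - sᴴ * s) (sᴴ * s) ((η : ℤ) • (sᴴ * s)) (1 - sᴴ * s))
        (1 : Matrix (κ ⊕ κ) (κ ⊕ κ) R) = fromBlocks g 0 0 g *
          dsum (1 : Matrix (I ⊕ I) (I ⊕ I) R) (fromBlocks 0 1 ((η : ℤ) • 1) 0) *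
          fromBlocks g 0 0 g := by
  have a1 : s * (1 - sᴴ * s) = 0 := by
    rw [Matrix.mul_sub, ← Matrix.mul_assoc, h, Matrix.one_mul, Matrix.mul_one, sub_self]
  have a2 : (1 - sᴴ * s) * sᴴ = 0 := by
    rw [Matrix.sub_mul, Matrix.mul_assoc, h, Matrix.one_mul, Matrix.mul_one, sub_self]
  have a3 : (1 - sᴴ * s) * (1 - sᴴ * s) = 1 - sᴴ * s := by
    rw [Matrix.mul_sub, ← Matrix.mul_assoc, a2, Matrix.zero_mul, sub_zero, Matrix.mul_one]
  subst hg
  refine ⟨?_, ?_, ?_⟩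
  · simp [fromBlocks_multiply, a1, a2, a3, h]
  · simp [fromBlocks_conjTranspose]
  · rw [← fromBlocks_one (l := κ), ← fromBlocks_one (l := I), dsum_blocks, dsum_blocks]
    simp only [fromBlocks_multiply, Matrix.mul_zero, Matrix.zero_mul, add_zero,
      zero_add, Matrix.mul_one, Matrix.mul_smul, Matrix.smul_mul, a1, a2, a3, h, smul_zero]

theorem YWGen_gen (hV : SFI (ZG V)) (hU : GenU η U) : WE η U 0 := by
  obtain ⟨x, hx⟩ := exists_we hV hU.uni
  suffices x = 0 from this ▸ hx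
  cases hU with
  | gl g g' h1 h2 => exact YWGen_diag hV hx
  | sh χ =>
    obtain ⟨n, hn, -⟩ := exists_deg (fromBlocks 1 (χ - (η : ℤ) • χᴴ) 0 1 :
      Matrix (I ⊕ I) (I ⊕ I) (ZG (TZ V)))
    obtain ⟨A, hA, hZ⟩ := fr_shear η (χ - (η : ℤ) • χᴴ) n
    rw [WE.unique (GenU.sh χ).uni hx (hA.we (Int.natCast_nonneg n) hn)]
    exact (cls_eq_zero hA.ns).2 hZ
  | sw κ s h =>
    obtain ⟨g1, g2, e⟩ := YWGen_swap (η := η) s h _ rfl
    generalize fromBlocks (1 - sᴴ * s) sᴴ s 0 = g at g1 g2 e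
    have uG : Uni η (fromBlocks g 0 0 g) := by
      have := (GenU.gl (η := η) g g g1 g1).uni
      rwa [g2] at this
    obtain ⟨y, hy⟩ := exists_we hV uG
    obtain rfl := YWGen_diag hV hy
    have uM : Uni η (dsum (1 : Matrix (I ⊕ I) (I ⊕ I) (ZG (TZ V)))
        (fromBlocks 0 1 ((η : ℤ) • 1) 0 : Matrix (κ ⊕ κ) (κ ⊕ κ) (ZG (TZ V)))) :=
      uni_one.dsum genU_swap.uni
    have wM := we_const (η := η) (dsum (1 : Matrix (I ⊕ I) (I ⊕ I) (ZG V))
        (fromBlocks 0 1 ((η : ℤ) • 1) 0 : Matrix (κ ⊕ κ) (κ ⊕ κ) (ZG V)))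
    rw [up, mp_dsum, mp_blocks, mp_zsmul, mp_one, mp_one, mp_zero] at wM
    have w1 := we_const (η := η) (1 : Matrix (κ ⊕ κ) (κ ⊕ κ) (ZG V))
    rw [up, mp_one] at w1
    have a := WE.mul (uG.mul uM) uG (WE.mul uG uM hy wM) hy
    have c := WE.dsum (GenU.sw κ s h).uni uni_one hx w1
    rw [e] at c
    simpa using WE.unique ((uG.mul uM).mul uG) c a

theorem exists_dz (hV : SFI (ZG V)) (η : ℤˣ) : ∃ φ : L1 (ZG (TZ V)) η →+ L0 (ZG V) η,
    ∀ (I : Type) [Fintype I] [DecidableEq I] (U : Matrix (I ⊕ I) (I ⊕ I) (ZG (TZ V))) (x),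
      Uni η U → WE η U x → φ (ucl η U) = x := by
  classical
  let f : ∀ (I : Type) [Fintype I] [DecidableEq I], Matrix (I ⊕ I) (I ⊕ I) (ZG (TZ V)) →
      L0 (ZG V) η := fun I _ _ U => if h : Uni η U then (exists_we hV h).choose else 0
  have hf : ∀ (I : Type) [Fintype I] [DecidableEq I] (U : Matrix (I ⊕ I) (I ⊕ I) (ZG (TZ V))),
      Uni η U → WE η U (f I U) := fun I _ _ U h => by
    simp only [f, dif_pos h]
    exact (exists_we hV h).choose_spec
  obtain ⟨φ, hφ⟩ := exists_l1_lift (ε := η) f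
    (fun I _ _ U W hU hW => WE.unique (hU.mul hW) (hf _ _ (hU.mul hW))
      (WE.mul hU hW (hf _ _ hU) (hf _ _ hW)))
    (fun I J _ _ _ _ U W hU hW => WE.unique (hU.dsum hW) (hf _ _ (hU.dsum hW))
      (WE.dsum hU hW (hf _ _ hU) (hf _ _ hW)))
    (fun I _ _ U hU => WE.unique hU.uni (hf _ _ hU.uni) (YWGen_gen hV hU))
  exact ⟨φ, fun I _ _ U x hU hx => (hφ I U hU).trans (WE.unique hU (hf _ _ hU) hx)⟩

/-- injectivity in the Wang sequence -/
theorem wang_inj (hV : SFI (ZG V)) {y : L0 (ZG V) η} {c : L1 (ZG V) η}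
    (h : wz η V y = m1 η (MonoidHom.inl V _) c) : y = 0 := by
  obtain ⟨φ, hφ⟩ := exists_dz hV η
  obtain ⟨n, ψ, hψ, rfl⟩ := cls_surj y
  obtain ⟨m, U₀, hU, rfl⟩ := ucl_surj c
  have e := congrArg φ h
  rw [wz, cG_cls _ _ _ hψ, m1_ucl _ hU,
    hφ _ _ _ (aut_uni (hψ.mp _) (isom_dg _ _ (zz_comm 1) ψ)) (we_circ hψ),
    hφ _ _ _ (hU.mp _) (we_const U₀)] at e
  exact e

end Pool.Agent.Work.MP_9d1ffa_al
end

-- merged part: Pool.Agent.Work.MP_9d1ffa_al.Br.WReal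
section
/-! Realisation: a unitary matrix over the Laurent ring is a constant times a product with the
circle.

Plan of `Fr.real`.  Put `z = zz V 1`, `U₁ = dg (zz V N) * U` (a scalar matrix is a generator
`GenU.gl`, `dg_blocks`, so `ucl U₁ = ucl U`), `Ψ = frm A ⊕ hypF`.  Both `Y = fromRows A U₁`
(`Fr.mul` with `U' = 1`, `fr_one_one`) and `Y' = fromRows (dg z * A) 1` (`Fr.mul` with `U = 1`,
`U' = U`, then `Fr.rows` with `Equiv.sumComm`) are frames of `(U, N + 1)` with forms `~ Ψ`.  So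
`Y = up S * Y'` with `Isom η Ψ S` (`Fr.span`, `Fr.indep`, `frm_up`).  From
`A = up S₁₁ * dg z * A + up S₁₂` one gets `A = up (S₁₁ ^ k) * dg (zz V k) * A + R` with `Lt k R`;
for `k = n` with `Lt n A` this forces `S₁₁ ^ n = 0` (`Ge.eq_zero`, `Fr.indep`), so
`1 - up S₁₁ * dg z` is a unit.  Now `ucl_aut_fb` for `T = up S * fromBlocks (dg z) 0 0 1`,
`aut_mul`, `aut_map`, `aut_sum`, `aut_one`, `cG_cls`, `isom_dg`. -/

namespace Pool.Agent.Work.MP_9d1ffa_al

open Matrix MonoidAlgebra TensorProduct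

set_option linter.unusedSectionVars false
set_option linter.unusedVariables false

variable {V : Type} [Group V] {η : ℤˣ} {I J L b b' : Type} [Fintype I] [DecidableEq I] [Fintype J]
  [DecidableEq J] [Fintype b] [DecidableEq b] [Fintype b'] [DecidableEq b']
  {U U' : Matrix (I ⊕ I) (I ⊕ I) (ZG (TZ V))} {N N' : ℤ} {A : Matrix b (I ⊕ I) (ZG (TZ V))}
  {A' : Matrix b' (I ⊕ I) (ZG (TZ V))}

theorem YWReal_sub {R K M : Type} [Ring R] [StarRing R] {x y : Matrix K K R} (h : Eqv η x y)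
    (e : M → K) : Eqv η (x.submatrix e e) (y.submatrix e e) := by
  obtain ⟨χ, rfl⟩ := h
  exact ⟨χ.submatrix e e, rfl⟩

theorem YWReal_scalar (g : TZ V) : GenU η (dg (I ⊕ I) g) := by
  have e : dg I g = (dg I g⁻¹)ᴴ := by rw [dg_ct, inv_inv]
  have h := GenU.gl (η := η) (dg I g) (dg I g⁻¹) (dg_mul_inv g) (dg_inv_mul g)
  rwa [← e, ← dg_blocks] at h

theorem YWReal_isom {Y Y' : Matrix b (I ⊕ I) (ZG (TZ V))} {Ψ : Matrix b b (ZG V)}
    (h : Fr η U N Y) (h' : Fr η U N Y') (e : Eqv η Ψ (frm Y)) (e' : Eqv η Ψ (frm Y')) :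
    ∃ S : Matrix b b (ZG V), Y = up S * Y' ∧ Isom η Ψ S := by
  obtain ⟨S, hS⟩ := h'.span _ Y h.mem
  obtain ⟨S', hS'⟩ := h.span _ Y' h'.mem
  have k {Y Y' : Matrix b (I ⊕ I) (ZG (TZ V))} {S S' : Matrix b b (ZG V)} (h : Fr η U N Y)
      (a : Y = up S * Y') (a' : Y' = up S' * Y) : S * S' = 1 := by
    refine sub_eq_zero.1 (h.indep ?_)
    unfold up at *
    rw [mp_sub, mp_mul, mp_one, Matrix.sub_mul, Matrix.mul_assoc, ← a', ← a, Matrix.one_mul,
      sub_self]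
  refine ⟨S, hS, OU1_unit (k h hS hS') (k h' hS' hS), e.trans ?_⟩
  rw [hS, frm_up]
  exact (e'.conj S).symm

theorem YWReal_pow (s : Matrix b b (ZG V)) (k : ℕ) :
    (up s * dg b (zz V 1)) ^ k = dg b (zz V k) * up (s ^ k) := by
  induction k with
  | zero =>
    unfold up
    rw [pow_zero, pow_zero, mp_one, Matrix.mul_one]
    exact dg_zz_zero.symm
  | succ k ih =>
    rw [pow_succ, ih, ← dg_zz_comm, pow_succ, Nat.cast_succ, ← dg_zz_mul]
    unfold up
    rw [mp_mul, Matrix.mul_assoc, Matrix.mul_assoc, ← Matrix.mul_assoc (mp _ (s ^ k)),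
      ← dg_zz_comm, Matrix.mul_assoc]

theorem YWReal_nil (h : Fr η U N A) {s : Matrix b b (ZG V)} {r : Matrix b (I ⊕ I) (ZG V)}
    (e : A = up s * dg b (zz V 1) * A + up r) : IsNilpotent (up s * dg b (zz V 1)) := by
  have key (k : ℕ) : ∃ R, A = (up s * dg b (zz V 1)) ^ k * A + R ∧ Lt k R := by
    induction k with
    | zero => exact ⟨0, by rw [pow_zero, Matrix.one_mul, add_zero], sup_zero⟩
    | succ k ih =>
      obtain ⟨R, h1, h2⟩ := ih
      refine ⟨(up s * dg b (zz V 1)) ^ k * up r + R, ?_, Lt.add ?_ (h2.mono (by omega))⟩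
      · rw [pow_succ, Matrix.mul_assoc _ _ A, ← add_assoc, ← Matrix.mul_add, ← e]
        exact h1
      · rw [YWReal_pow, Matrix.mul_assoc]
        have a : Lt (0 + 1) (up (s ^ k) * up r) := by
          have := (ge_up (s ^ k)).2.mul (l := 0) (by simpa using (ge_up r).2)
          simpa using this
        have := (ge_dg (K := b) (V := V) k).2.mul a
        simpa using this
  obtain ⟨n, -, hn⟩ := exists_deg A
  obtain ⟨R, h1, h2⟩ := key n
  have h3 : (up s * dg b (zz V 1)) ^ n * A = 0 := by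
    refine Ge.eq_zero (k := n) ?_ ?_
    · rw [YWReal_pow]
      simpa using ((ge_dg (K := b) (V := V) n).1.mul (ge_up (s ^ n)).1).mul h.mem.1
    · rw [eq_sub_of_add_eq h1.symm]
      exact hn.sub h2
  have h4 : s ^ n = 0 := by
    refine h.indep ?_
    have := congrArg (dg b (zz V (-n)) * ·) h3
    rwa [YWReal_pow, Matrix.mul_assoc, ← Matrix.mul_assoc, dg_zz_mul, neg_add_cancel, dg_zz_zero,
      Matrix.one_mul, Matrix.mul_zero] at this
  refine ⟨n, ?_⟩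
  rw [YWReal_pow, h4]
  unfold up
  rw [mp_zero, Matrix.mul_zero]

theorem Fr.real (hU : Uni η U) (g : Ge (-N) U) (h : Fr η U N A) :
    ∃ c : L1 (ZG V) η, ucl η U = m1 η (MonoidHom.inl V _) c + wz η V (cls η (frm A)) := by
  have g1 : Ge (-1) (1 : Matrix (I ⊕ I) (I ⊕ I) (ZG (TZ V))) := ge_one.1.mono (by omega)
  obtain ⟨f1, f2⟩ := fr_one_one (V := V) (I := I) η
  obtain ⟨a1, a2⟩ := Fr.mul hU uni_one g g1 h f1
  obtain ⟨b1, b2⟩ := Fr.mul uni_one hU g1 g f1 h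
  rw [Matrix.one_mul, Matrix.mul_one] at a1
  rw [Matrix.mul_one, f2] at a2
  rw [Matrix.mul_one, Matrix.mul_one, add_comm] at b1
  rw [Matrix.mul_one, f2] at b2
  have es : (fromRows (1 : Matrix (I ⊕ I) (I ⊕ I) (ZG (TZ V))) (dg b (zz V 1) * A)).submatrix
      (Equiv.sumComm b (I ⊕ I)) id = fromRows (dg b (zz V 1) * A) 1 := by
    ext (i | i) j <;> rfl
  have c1 := b1.rows (Equiv.sumComm b (I ⊕ I))
  have c2 : Eqv η (fromBlocks (frm A) 0 0 (hypF (ZG V) I))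
      (frm (fromRows (dg b (zz V 1) * A) 1)) := by
    have := YWReal_sub b2 (Equiv.sumComm b (I ⊕ I))
    rw [← es]
    refine (Eqv.of_eq ?_).trans this
    ext (i | i) (j | j) <;> rfl
  rw [es] at c1
  obtain ⟨S, hS, iS⟩ := YWReal_isom a1 c1 a2 c2
  rw [← fromBlocks_toBlocks S] at hS iS
  generalize S.toBlocks₁₁ = s₁ at hS iS
  generalize S.toBlocks₁₂ = s₂ at hS iS
  generalize S.toBlocks₂₁ = s₃ at hS iS
  generalize S.toBlocks₂₂ = s₄ at hS iS
  have nΨ : NS η (fromBlocks (frm A) 0 0 (hypF (ZG V) I)) := h.ns.sum ns_hyp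
  have nA : NS η (up (frm A)) := h.ns.map _ (gm_star _)
  have eΨ : up (fromBlocks (frm A) 0 0 (hypF (ZG V) I)) =
      fromBlocks (up (frm A)) 0 0 (hypF (ZG (TZ V)) I) := by
    unfold up
    rw [mp_blocks, mp_zero, mp_zero, mp_hyp]
  have eS : up (fromBlocks s₁ s₂ s₃ s₄) = fromBlocks (up s₁) (up s₂) (up s₃) (up s₄) :=
    mp_blocks _ _ _ _ _
  rw [eS, fromBlocks_mul_fromRows, Matrix.mul_one, Matrix.mul_one, ← Matrix.mul_assoc,
    ← Matrix.mul_assoc] at hS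
  obtain ⟨e1, e2⟩ := fromRows_inj.eq_iff.1 hS
  obtain ⟨w, w2, w1⟩ := OU1_inv (YWReal_nil h e1).isUnit_one_sub
  have i1 : Isom η (fromBlocks (up (frm A)) 0 0 (hypF (ZG (TZ V)) I))
      (up (fromBlocks s₁ s₂ s₃ s₄)) := by
    rw [← eΨ]
    exact iS.map _ (gm_star _)
  have iz : Isom η (up (frm A)) (dg b (zz V 1)) := isom_dg _ _ (zz_comm 1) _
  have i2 := iz.sum (isom_one (hypF (ZG (TZ V)) I))
  have eT : up (fromBlocks s₁ s₂ s₃ s₄) * fromBlocks (dg b (zz V 1)) 0 0 1 =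
      fromBlocks (up s₁ * dg b (zz V 1)) (up s₂) (up s₃ * dg b (zz V 1)) (up s₄) := by
    rw [eS, fromBlocks_multiply]
    simp only [Matrix.mul_zero, Matrix.mul_one, add_zero, zero_add]
  have uz := (YWReal_scalar (η := η) (I := I) (zz V N)).uni
  have eA : A = w * up s₂ := by
    have : (1 - up s₁ * dg b (zz V 1)) * A = up s₂ := by
      rw [Matrix.sub_mul, Matrix.one_mul]
      exact sub_eq_of_eq_add' e1
    rw [← this, ← Matrix.mul_assoc, w1, Matrix.one_mul]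
  have fb := ucl_aut_fb nA (eT ▸ i1.mul i2) w1 w2 (uz.mul hU)
    (by rw [Matrix.mul_assoc _ w, ← eA, add_comm]; exact e2)
  have nΨ' : NS η (fromBlocks (up (frm A)) 0 0 (hypF (ZG (TZ V)) I)) := nA.sum ns_hyp
  rw [← eT, aut_mul nΨ', ucl_mul (aut_uni nΨ' i1) (aut_uni nΨ' i2), aut_sum nA ns_hyp,
    aut_one ns_hyp, ucl_dsum (aut_uni nA iz) uni_one, ucl_one, add_zero, ucl_mul uz hU,
    ucl_gen (YWReal_scalar _), zero_add] at fb
  refine ⟨ucl η (aut η (fromBlocks (frm A) 0 0 (hypF (ZG V) I)) (fromBlocks s₁ s₂ s₃ s₄)), ?_⟩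
  rw [← fb, m1_ucl _ (aut_uni nΨ iS), wz, cG_cls _ _ _ h.ns, ← eΨ]
  exact congrArg (fun X => ucl η X + _) (aut_map _ (gm_star _) nΨ _).symm

/-- surjectivity in the Wang sequence -/
theorem wang_surj (hV : SFI (ZG V)) (c : L1 (ZG (TZ V)) η) :
    ∃ (c₀ : L1 (ZG V) η) (y : L0 (ZG V) η), c = m1 η (MonoidHom.inl V _) c₀ + wz η V y := by
  obtain ⟨n, U, hU, rfl⟩ := ucl_surj c
  obtain ⟨x, κ, _, _, N, b, _, _, A, h0, g, h, -⟩ := exists_we hV hU
  have g1 : Ge (-N) (1 : Matrix (κ ⊕ κ) (κ ⊕ κ) (ZG (TZ V))) := ge_one.1.mono (by omega)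
  have g2 : Ge (-N) (fromBlocks U 0 0 (1 : Matrix (κ ⊕ κ) (κ ⊕ κ) (ZG (TZ V)))) := by
    rw [← fromRows_fromCols_eq_fromBlocks]
    exact sup_fromRows.2 ⟨sup_fromCols.2 ⟨g, sup_zero⟩, sup_fromCols.2 ⟨sup_zero, g1⟩⟩
  obtain ⟨c₀, e⟩ := Fr.real (hU.dsum uni_one) (fun k l => g2 _ _) h
  rw [ucl_dsum hU uni_one, ucl_one, add_zero] at e
  exact ⟨c₀, _, e⟩

end Pool.Agent.Work.MP_9d1ffa_al
end

-- merged part: Pool.Agent.Work.MP_9d1ffa_al.Br.Lf
section
/-! Wall groups of locally free groups, and injectivity in odd degrees.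

Plan.
* `K0` is the trivial free abelian group; `SFI.ret` transports `SFI` along a retraction
  (`SFI.of_ret`, as in `sfi_isFree`); `Cut.unil₀` is proved like `Cut.unil_free` (WTree), using
  `VN.sub_free fa_K0` and `MonoidHom.inl`.
* `Cut.ed_v`: `Cut.Ed` with `J = Empty`, `P = Q = 0`, `U = 1` (unfold `Cut.Rep`, `Cut.EF`,
  `PH.lin`), or `Cut.EF.addV`.  `PHom.idm`, `PHom.inl` are the obvious morphisms.
* `LF.zi_surj`: induction over finite bases as in `asm_fin` (WO): for the cut `cut_free x₀` the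
  edge class lies in `L1` of a trivial group (`l1_triv`), so `Cut.exists_ed`, `Cut.Ed.split`,
  `Cut.unil₀`, `tf_free`; then `lcl_free`, `big_l0`, `m0_zi`.
* `cyc_surj`, `cyc_inj`: `wang_surj`, `wang_inj` for the trivial group `V = K0`, `l1_triv`,
  `zi_surj_triv`, `zi_inj`, `wz_zi`, `m1_cZ`; transport along homomorphisms between `Cy × K0` and
  `K0 × Multiplicative ℤ` (`cy`, `zpowersHom`).
* `sigma`: the linear map `y ↦ cZ η (of (), 1) y` into `Lam K0 η` is bijective; then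
  `asm fa_K0 G (rTensor σ ξ) = m1 η inl (asz η G ξ)`, which transports `Inj` and `LF.asm`
  (`m1_one`, `LinearEquiv.rTensor` or `LinearMap.rTensor` of an inverse). -/

namespace Pool.Agent.Work.MP_9d1ffa_al

open Matrix MonoidAlgebra TensorProduct Monoid

set_option linter.unusedSectionVars false
set_option linter.unusedVariables false

variable {G H Γ V A : Type} [Group G] [Group H] [Group Γ] [Group V] [Group A] {ε η : ℤˣ}

/-- the trivial free abelian group -/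
abbrev K0 : Type := Multiplicative (Fin 0 → ℤ)

theorem fa_K0 : FA K0 := ⟨0, ⟨MulEquiv.refl _⟩⟩

theorem fa_Z : FA (Multiplicative ℤ) :=
  ⟨1, ⟨AddEquiv.toMultiplicative (AddEquiv.funUnique (Fin 1) ℤ).symm⟩⟩

theorem SFI.ret (h : SFI (ZG H)) (s : G →* H) (r : H →* G) (e : ∀ g, r (s g) = g) :
    SFI (ZG G) := by
  intro I _ _ E hE
  have k : mp r (mp s E) = E := by
    rw [mp_mp, show r.comp s = MonoidHom.id G from MonoidHom.ext e, mp_id]
  rw [← k]
  exact SFI.of_ret _ I (h I _ (by rw [← mp_mul, hE]))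

theorem LF.sfi₀ (h : LF A) : SFI (ZG A) := by
  exact (h.sfi fa_K0).ret (MonoidHom.inl A K0) (MonoidHom.fst A K0) fun _ => rfl

theorem Cut.unil₀ (C : Cut Γ V A) (hA : LF A) (hΓ : NoTwo Γ) (ε : ℤˣ) : UNilTree Γ C.T ε := by
  refine unilTree_edge C.isTree C.act (fun g a e => ?_) fun a b hab _ D hD hfg => Or.inl ?_
  · rw [hΓ g e, one_smul]
  · obtain ⟨χ, hχ⟩ := C.stab_emb hab
    obtain ⟨S, hS⟩ := Group.fg_def.1 ((Group.fg_iff_subgroup_fg D).2 hfg)
    obtain ⟨H, _, f, h1, h2, h3⟩ := hA.big (big_all fun x : S => χ (Subgroup.inclusion hD x.1))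
    have h5 : ∀ x : D, (χ.comp (Subgroup.inclusion hD)) x ∈ f.range := fun x =>
      (Subgroup.closure_le (f.range.comap (χ.comp (Subgroup.inclusion hD)))).2
        (fun y hy => h3 ⟨y, hy⟩) (hS ▸ Subgroup.mem_top x)
    have h6 : Function.Injective (MonoidHom.inl (FreeGroup (IsFreeGroup.Generators H)) K0) :=
      fun _ _ e => congrArg Prod.fst e
    exact VN.sub_free fa_K0 (((MonoidHom.inl _ K0).comp
      (IsFreeGroup.toFreeGroup H).toMonoidHom).comp
      ((MonoidHom.ofInjective h1).symm.toMonoidHom.comp (MonoidHom.codRestrict _ _ h5)))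
      ((h6.comp (IsFreeGroup.toFreeGroup H).injective).comp
        ((MonoidHom.ofInjective h1).symm.injective.comp fun x y e =>
          Subgroup.inclusion_injective hD (hχ (congrArg Subtype.val e))))

theorem Cut.ed_v (C : Cut Γ V A) (y : L0 (ZG V) ε) : C.Ed ε (m0 ε C.v y) 0 := by
  obtain ⟨n, ψ, h, rfl⟩ := cls_surj y
  have e : C.lin ψ (0 : Matrix (Fin n) Empty (ZG V)) 0 = mp C.v ψ := by
    rw [PH.lin, mp_zero, Matrix.zero_mul, Matrix.zero_mul, add_zero]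
  refine ⟨Empty, inferInstance, inferInstance, 1, ⟨Fin n, inferInstance, inferInstance, ψ, 0, 0,
    e ▸ h.mp C.v, ⟨uni_one, 0, ?_, ⟨fun k => k.elim, fun k => k.elim⟩,
      ⟨fun k => k.elim, fun k => k.elim⟩, ⟨fun k => k.elim, fun k => k.elim⟩⟩, ?_⟩, ucl_one⟩
  · funext k
    rcases k with k | k <;> exact k.elim
  · rw [e, m0_cls _ h]

/-- the identity morphism -/
def PHom.idm (D : PH Γ V A) : PHom D D where
  f := MonoidHom.id _
  fv := MonoidHom.id _
  fa := MonoidHom.id _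
  hv h := rfl
  hi a := rfl
  hj a := rfl
  ht := rfl

/-- the inclusion in the product -/
def PHom.inl (D : PH Γ V A) (K : Type) [Group K] : PHom D (D.prod K) where
  f := MonoidHom.inl _ _
  fv := MonoidHom.inl _ _
  fa := MonoidHom.inl _ _
  hv h := rfl
  hi a := rfl
  hj a := rfl
  ht := rfl

/-- the stable letter -/
def PHom.cyt (D : PH Γ V A) : PHom phZ D where
  f := cy D.t
  fv := 1
  fa := 1
  hv h := by simp [phZ]
  hi a := by simp
  hj a := by simp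
  ht := by simp [phZ, cy]

theorem Cut.realise₁ (C : Cut Γ V A) (d : L1 (ZG A) (-ε)) (h : m1 (-ε) C.i d = m1 (-ε) C.j d) :
    ∃ x : L0 (ZG Γ) ε, C.Ed ε x d := by
  obtain ⟨x, hx⟩ := C.realise₀ (ε := ε) (PHom.idm C.toPH) d h
  have e : m1 (-ε) (PHom.idm C.toPH).fa d = d := m1_id d
  exact ⟨_, e ▸ hx⟩

theorem YLf_fin (n : ℕ) : ∀ (X : Type) [Finite X], Nat.card X = n →
    Function.Surjective (zi ε (FreeGroup X)) := by
  induction n with
  | zero =>
    intro X _ h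
    have : IsEmpty X := (Finite.card_eq_zero_iff).1 h
    exact zi_surj_triv
  | succ n ih =>
    intro X _ h x
    obtain ⟨x₀⟩ : Nonempty X := Finite.card_pos_iff.1 (by omega)
    obtain ⟨C, -⟩ := cut_free x₀
    obtain ⟨d, hd⟩ := C.exists_ed (lf_free _).sfi₀ x
    rw [l1_triv d] at hd
    obtain ⟨y, rfl⟩ := hd.split (C.unil₀ (lf_free _) tf_free.two ε) tf_free.two
    obtain ⟨z, rfl⟩ := ih {x // x ≠ x₀} (by
      have := Fintype.ofFinite X
      classical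
      rw [Nat.card_eq_fintype_card] at h ⊢
      rw [Fintype.card_subtype_compl, Fintype.card_subtype_eq, h]
      rfl) y
    exact ⟨z, (m0_zi _ z).symm⟩

theorem YLf_free (X : Type) : Function.Surjective (zi ε (FreeGroup X)) := fun x => by
  obtain ⟨H, _, f, -, h1, x, rfl⟩ := (lcl_free (P := fun H _ => Function.Surjective (zi ε H))
    fun S => YLf_fin _ _ rfl).big (big_l0 x)
  obtain ⟨z, rfl⟩ := h1 x
  exact ⟨z, (m0_zi _ z).symm⟩

theorem LF.zi_surj (h : LF A) : Function.Surjective (zi ε A) := by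
  intro x
  obtain ⟨H, _, f, -, h1, x, rfl⟩ := h.big (big_l0 x)
  obtain ⟨y, hy⟩ := YLf_free _ (m0 ε (IsFreeGroup.toFreeGroup H).toMonoidHom x)
  refine ⟨y, ?_⟩
  have := congrArg (m0 ε (f.comp (IsFreeGroup.toFreeGroup H).symm.toMonoidHom)) hy
  rwa [m0_zi, m0_comp, show (f.comp (IsFreeGroup.toFreeGroup H).symm.toMonoidHom).comp
    (IsFreeGroup.toFreeGroup H).toMonoidHom = f from MonoidHom.ext fun g =>
      congrArg f ((IsFreeGroup.toFreeGroup H).symm_apply_apply g)] at this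

theorem YLf_sfi : SFI (ZG K0) :=
  (sfi_free (X := Empty) fa_K0).ret (MonoidHom.inr _ _) (MonoidHom.snd _ _) fun _ => rfl

/-- the projection to the infinite cyclic group -/
def YLf_b : K0 × Multiplicative ℤ →* Cy :=
  (zpowersHom Cy (FreeGroup.of ())).comp (MonoidHom.snd _ _)

theorem YLf_bz : YLf_b (zz K0 1) = FreeGroup.of () := by simp [YLf_b]

theorem YLf_cy (g : G) : cy g (FreeGroup.of ()) = g := by simp [cy]

theorem YLf_one (y : L0 ℤ η) : cZ η (1 : G) y = 0 := by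
  have := cZ_mul (η := η) (1 : G) 1 y
  rwa [mul_one, left_eq_add] at this

theorem cyc_surj (c : L1 (ZG Cy) η) : ∃ y, c = cZ η (FreeGroup.of ()) y := by
  obtain ⟨c₀, y, h⟩ := wang_surj YLf_sfi (m1 η (cy (zz K0 1)) c)
  obtain ⟨y, rfl⟩ := zi_surj_triv (ε := η) y
  refine ⟨y, ?_⟩
  have := congrArg (m1 η YLf_b) h
  rwa [m1_comp, comp_cy, YLf_bz, cy_of, m1_id, l1_triv c₀, map_zero, zero_add, wz_zi, m1_cZ,
    YLf_bz] at this

theorem cyc_inj {y : L0 ℤ η} (h : cZ η (FreeGroup.of () : Cy) y = 0) : y = 0 := by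
  have := congrArg (m1 η (cy (zz K0 1))) h
  rw [m1_cZ, map_zero, YLf_cy, ← wz_zi] at this
  exact zi_inj η K0 ((wang_inj YLf_sfi (c := 0) (this.trans (map_zero _).symm)).trans
    (map_zero _).symm)

theorem sigma (η : ℤˣ) : ∃ σ : L0 ℤ η ≃ₗ[ℤ] Lam K0 η, ∀ (G : Type) [Group G]
    (ξ : L0 ℤ η ⊗[ℤ] Ab G),
      asm fa_K0 G (σ.toLinearMap.rTensor _ ξ) = m1 η (MonoidHom.inl G K0) (asz η G ξ) := by
  let σ₀ : L0 ℤ η →ₗ[ℤ] Lam K0 η := (AddMonoidHom.codRestrict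
    (cZ η ((FreeGroup.of (), 1) : Cy × K0)) (Lam K0 η) fun y => by
      rw [AddMonoidHom.mem_ker, m1_cZ]
      exact YLf_one y).toIntLinearMap
  have h0 : ∀ y, (σ₀ y).1 = cZ η ((FreeGroup.of (), 1) : Cy × K0) y := fun y => rfl
  have h1 : Function.Injective σ₀ := (injective_iff_map_eq_zero σ₀).2 fun y e => by
    have := congrArg (m1 η (MonoidHom.fst Cy K0)) ((h0 y).symm.trans (congrArg Subtype.val e))
    rw [m1_cZ, ZeroMemClass.coe_zero, map_zero] at this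
    exact cyc_inj this
  have h2 : Function.Surjective σ₀ := fun u => by
    obtain ⟨y, hy⟩ := cyc_surj (m1 η (MonoidHom.fst Cy K0) u.1)
    refine ⟨y, Subtype.ext ?_⟩
    have := congrArg (m1 η (MonoidHom.inl Cy K0)) hy
    rw [m1_comp, m1_cZ, show (MonoidHom.inl Cy K0).comp (MonoidHom.fst Cy K0) = MonoidHom.id _ from
      MonoidHom.ext fun g => Prod.ext rfl (Subsingleton.elim _ _), m1_id] at this
    exact this.symm
  refine ⟨LinearEquiv.ofBijective σ₀ ⟨h1, h2⟩, fun G _ ξ => ?_⟩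
  induction ξ using TensorProduct.induction_on with
  | zero => simp only [map_zero]
  | tmul y z =>
    obtain ⟨g, rfl⟩ := ab_surj z
    rw [LinearMap.rTensor_tmul, asm_tmul, asz_tmul, m1_cZ]
    change ev (cZ η ((FreeGroup.of (), 1) : Cy × K0) y) g = _
    rw [ev, m1_cZ]
    exact congrArg (fun k => cZ η k y) (Prod.ext (YLf_cy g) rfl)
  | add a b ha hb => simp only [map_add, ha, hb]

theorem LF.asz_surj (h : LF A) : Function.Surjective (asz η A) := by
  intro c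
  obtain ⟨σ, hσ⟩ := sigma η
  obtain ⟨ξ, c₀, e⟩ := h.asm (hK := fa_K0) (m1 η (MonoidHom.inl A K0) c)
  obtain ⟨ξ, rfl⟩ := (σ.rTensor (Ab A)).surjective ξ
  refine ⟨ξ, ?_⟩
  have e1 : (MonoidHom.fst A K0).comp (MonoidHom.inl A K0) = MonoidHom.id A := rfl
  have e2 : (MonoidHom.fst A K0).comp (px K0 (1 : Cy →* A)) = 1 := rfl
  have := congrArg (m1 η (MonoidHom.fst A K0)) (e.trans (congrArg (· + _) (hσ A ξ)))
  rw [map_add, m1_comp, m1_comp, m1_comp, e1, e2, m1_id, m1_id, m1_one, add_zero] at this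
  exact this.symm

theorem Inj.asz (h : Inj fa_K0 η G) : Function.Injective (asz η G) := by
  obtain ⟨σ, hσ⟩ := sigma η
  refine (injective_iff_map_eq_zero _).2 fun ξ e => ?_
  exact (σ.rTensor (Ab G)).map_eq_zero_iff.1 (h _ ((hσ G ξ).trans (by rw [e, map_zero])))

end Pool.Agent.Work.MP_9d1ffa_al
end

-- merged part: Pool.Agent.Work.MP_9d1ffa_al.Br.Odd
section
/-! The assembly map in odd degrees is bijective along hierarchies.

Plan.  Write `η = -ε`, `Z = Multiplicative ℤ`.  `line_sur`: a class of `L0 (G × Z)` that comes from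
`H × Z` along `px Z f` has a line edge class in the range of `asz` (`Cut.exists_ed` for
`Cut.line H`, `Cut.Ed.map (PHom.line f)`, `m1_asz`).  A class `c` is a line edge class of some
`x` (`Cut.realise₁` for `Cut.line`), and it is the only one (`line_ed_unique`), so it suffices to
write `x` as a sum of classes whose line edge classes are in the range.
* `sur_cop`: `cop_eq fa_Z`; factor `px Z (inl ∘ fst)` through `G × Z` and `px Z 1` through
  `K0 × Z` (`m0_px`), where `asz` is onto by `l1_triv`.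
* `sur_cut`: let `d` be an edge class of `x` for `C.prod Z`.  By `wang_surj` and `LF.zi_surj`,
  `d = m1 inl d₀ + cZ (zz A 1) y`.  Applying `m1 fst` to `Cut.Ed.vr` gives `i d₀ = j d₀`; realise
  `d₀` by `x₀` over `Γ` (`Cut.realise₁`, `Cut.Ed.map (PHom.inl _ _)`) and `cZ (zz _ 1) y` by a class
  from `Cy × Z` (`Cut.realise₀` with `(PHom.cyt _).prod Z`).  The difference splits
  (`Cut.Ed.split`, `Cut.unil_free`).  The line edge class of `m0 inl x₀` is `0` (`Cut.ed_v`). -/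

namespace Pool.Agent.Work.MP_9d1ffa_al

open Matrix MonoidAlgebra TensorProduct Monoid

set_option linter.unusedSectionVars false
set_option linter.unusedVariables false

variable {G H Γ V A : Type} [Group G] [Group H] [Group Γ] [Group V] [Group A] {ε η : ℤˣ}

theorem line_sur (hH : SFI (ZG H)) (h : Function.Surjective (asz (-ε) H)) (f : H →* G)
    (y : L0 (ZG (H × Multiplicative ℤ)) ε) :
    ∃ ξ, (Cut.line G).Ed ε (m0 ε (px (Multiplicative ℤ) f) y) (asz (-ε) G ξ) := by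
  obtain ⟨d, hd⟩ := (Cut.line H).exists_ed (ε := ε) hH y
  obtain ⟨ξ, rfl⟩ := h d
  exact ⟨_, m1_asz f ξ ▸ Cut.Ed.map (C' := Cut.line G) (PHom.line f) (fun g => Iff.rfl) hd⟩

/-- the class has a line edge class in the range of the assembly map -/
def YOdd_le (ε : ℤˣ) (G : Type) [Group G] (x : L0 (ZG (G × Multiplicative ℤ)) ε) : Prop :=
  ∃ ξ, (Cut.line G).Ed ε x (asz (-ε) G ξ)

theorem YOdd_add {x y : L0 (ZG (G × Multiplicative ℤ)) ε} (h : YOdd_le ε G x)
    (h' : YOdd_le ε G y) : YOdd_le ε G (x + y) := by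
  obtain ⟨ξ, h⟩ := h
  obtain ⟨ξ', h'⟩ := h'
  exact ⟨ξ + ξ', map_add (asz (-ε) G) ξ ξ' ▸ h.add h'⟩

theorem YOdd_sub {x y : L0 (ZG (G × Multiplicative ℤ)) ε} (h : YOdd_le ε G x)
    (h' : YOdd_le ε G y) : YOdd_le ε G (x - y) := by
  obtain ⟨ξ, h⟩ := h
  obtain ⟨ξ', h'⟩ := h'
  exact ⟨ξ - ξ', map_sub (asz (-ε) G) ξ ξ' ▸ h.sub h'⟩

theorem YOdd_sur (k : SFI (ZG G)) (h : ∀ x, YOdd_le ε G x) :
    Function.Surjective (asz (-ε) G) := fun c => by
  obtain ⟨x, hx⟩ := (Cut.line G).realise₁ (ε := ε) c rfl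
  obtain ⟨ξ, hξ⟩ := h x
  exact ⟨ξ, line_ed_unique k hξ hx⟩

theorem YOdd_one (k : SFI (ZG G)) (x : L0 (ZG (G × Multiplicative ℤ)) ε) :
    YOdd_le ε G (m0 ε (px (Multiplicative ℤ) (1 : G →* G)) x) := by
  have h := line_sur (ε := ε) (k.ret (1 : K0 →* G) 1 fun _ => Subsingleton.elim _ _)
    (fun c => ⟨0, (l1_triv _).trans (l1_triv c).symm⟩) (1 : K0 →* G)
    (m0 ε (px (Multiplicative ℤ) (1 : G →* K0)) x)
  rwa [m0_px, MonoidHom.comp_one] at h

theorem sur_ret (s : G →* H) (r : H →* G) (e : ∀ g, r (s g) = g)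
    (h : Function.Surjective (asz η H)) : Function.Surjective (asz η G) := by
  intro c
  obtain ⟨ξ, hξ⟩ := h (m1 η s c)
  refine ⟨(abm r).lTensor _ ξ, ?_⟩
  rw [← m1_asz, hξ, m1_comp, show r.comp s = MonoidHom.id G from MonoidHom.ext e, m1_id]

theorem sur_lcl (h : Lcl (fun H _ => Function.Surjective (asz η H)) G) :
    Function.Surjective (asz η G) := by
  intro c
  obtain ⟨H, _, f, -, h1, c, rfl⟩ := h.big (big_l1 c)
  obtain ⟨ξ, rfl⟩ := h1 c
  exact ⟨_, (m1_asz f ξ).symm⟩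

theorem sur_cop (t : NoTwo G) (t' : NoTwo H) (k : SFI (ZG G)) (k' : SFI (ZG H))
    (k'' : SFI (ZG (Coprod G H))) (h : Function.Surjective (asz η G))
    (h' : Function.Surjective (asz η H)) : Function.Surjective (asz η (Coprod G H)) := by
  obtain ⟨ε, rfl⟩ : ∃ ε, η = -ε := ⟨-η, (neg_neg η).symm⟩
  refine YOdd_sur k'' fun x => ?_
  obtain ⟨y, w, e⟩ := cop_eq fa_Z t t' x
  rw [eq_sub_of_add_eq e, ← m0_px _ (MonoidHom.fst G H), ← m0_px _ (MonoidHom.snd G H)]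
  exact YOdd_sub (YOdd_add (YOdd_add (line_sur k h _ _) (line_sur k' h' _ _)) (YOdd_one k'' w))
    (YOdd_one k'' x)

theorem sur_cut (C : Cut Γ V A) (hA : LF A) (t : NoTwo Γ) (k : SFI (ZG V)) (k' : SFI (ZG Γ))
    (h : Function.Surjective (asz η V)) : Function.Surjective (asz η Γ) := by
  obtain ⟨ε, rfl⟩ : ∃ ε, η = -ε := ⟨-η, (neg_neg η).symm⟩
  refine YOdd_sur k' fun x => ?_
  obtain ⟨d, hd⟩ := (C.prod (Multiplicative ℤ)).exists_ed (ε := ε) (hA.sfi fa_Z) x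
  obtain ⟨d₀, y', rfl⟩ := wang_surj hA.sfi₀ d
  obtain ⟨y, rfl⟩ := hA.zi_surj y'
  rw [wz_zi] at hd
  have key : ∀ i : A →* V, m1 (-ε) (MonoidHom.fst V (Multiplicative ℤ))
      (m1 (-ε) (px (Multiplicative ℤ) i) (m1 (-ε) (MonoidHom.inl A (Multiplicative ℤ)) d₀ +
        cZ (-ε) (zz A 1) y)) = m1 (-ε) i d₀ + cZ (-ε) (i 1) y := fun i => by
    rw [map_add, map_add, m1_comp, m1_comp, m1_cZ, m1_cZ]
    rfl
  have e0 : m1 (-ε) C.i d₀ = m1 (-ε) C.j d₀ := by
    have e1 := congrArg (m1 (-ε) (MonoidHom.fst V (Multiplicative ℤ))) hd.vr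
    have e2 := (key C.i).symm.trans (e1.trans (key C.j))
    rw [map_one, map_one] at e2
    exact add_right_cancel e2
  obtain ⟨x₀, h₀⟩ := C.realise₁ (ε := ε) d₀ e0
  have k₀ := Cut.Ed.map (C' := C.prod (Multiplicative ℤ)) (PHom.inl C.toPH (Multiplicative ℤ))
    (fun g => Iff.rfl) h₀
  obtain ⟨x₁, k₁⟩ := (C.prod (Multiplicative ℤ)).realise₀ (ε := ε)
    ((PHom.cyt C.toPH).prod (Multiplicative ℤ)) (cZ (-ε) (zz (FreeGroup Empty) 1) y) rfl
  rw [m1_cZ] at k₁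
  have k₂ := hd.sub (k₀.add k₁)
  have e3 : m1 (-ε) (MonoidHom.inl A (Multiplicative ℤ)) d₀ + cZ (-ε) (zz A 1) y -
      (m1 (-ε) (PHom.inl C.toPH (Multiplicative ℤ)).fa d₀ +
        cZ (-ε) (((PHom.cyt C.toPH).prod (Multiplicative ℤ)).fa (zz (FreeGroup Empty) 1)) y) = 0 :=
    sub_self _
  rw [e3] at k₂
  obtain ⟨z, hz⟩ := k₂.split (C.unil_free hA t fa_Z ε) (t.prod fa_Z.tf.two)
  rw [← sub_add_cancel x _, ← hz]
  exact YOdd_add (line_sur k h C.v z) (YOdd_add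
    ⟨0, (map_zero (asz (-ε) Γ)).symm ▸ (Cut.line Γ).ed_v x₀⟩
    (line_sur (lf_free Cy).sfi₀ (lf_free Cy).asz_surj (cy C.t) x₁))

/-- the properties used in even degrees -/
structure Base (G : Type) [Group G] : Prop where
  two : NoTwo G
  wh : WhK G
  inj : ∀ η, Inj fa_K0 η G
  sur : ∀ η, Function.Surjective (asz η G)

theorem Base.bij (h : Base G) (η : ℤˣ) : Function.Bijective (asz η G) := ⟨(h.inj η).asz, h.sur η⟩

theorem Base.sfi (h : Base G) : SFI (ZG G) := h.wh.sfi₀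

theorem closed_base : Closed Base where
  triv G _ _ := ⟨fun _ _ => Subsingleton.elim _ _, closed_whK.triv G, fun η ξ _ => by
    rw [← tm_id ξ, show MonoidHom.id G = 1 from MonoidHom.ext fun _ => Subsingleton.elim _ _,
      tm_one], fun η c => ⟨0, (l1_triv _).trans (l1_triv c).symm⟩⟩
  ret G H _ _ s r e h := ⟨h.two.of_inj s (Function.LeftInverse.injective e),
    closed_whK.ret G H s r e h.wh, fun η => (h.inj η).ret s r (MonoidHom.ext e),
    fun η => sur_ret s r e (h.sur η)⟩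
  lcl G _ h := by
    refine ⟨fun g e => ?_, closed_whK.lcl G (h.mono fun _ _ k => k.wh),
      fun η => Inj.lcl (h.mono fun _ _ k => k.inj η), fun η => sur_lcl (h.mono fun _ _ k => k.sur η)⟩
    obtain ⟨H, _, f, h1, h2, g, rfl⟩ := h.big (big_mem g)
    rw [h2.two g (h1 (by rw [map_mul, e, map_one])), map_one]
  cop G H _ _ h h' := ⟨h.two.coprod h'.two, closed_whK.cop G H h.wh h'.wh,
    fun η => (h.inj η).coprod (h'.inj η), fun η => sur_cop h.two h'.two h.sfi h'.sfi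
      (closed_whK.cop G H h.wh h'.wh).sfi₀ (h.sur η) (h'.sur η)⟩
  cut Γ V A _ _ _ C u hA h := by
    obtain ⟨χ, h1, h2⟩ := u Cy 1 (FreeGroup.of ()) (by simp)
    exact ⟨C.noTwo h.two, closed_whK.cut Γ V A C u hA h.wh,
      fun η => C.inj hA χ (MonoidHom.ext h1) h2 (h.inj η), fun η => sur_cut C hA (C.noTwo h.two)
        h.sfi (closed_whK.cut Γ V A C u hA h.wh).sfi₀ (h.sur η)⟩

end Pool.Agent.Work.MP_9d1ffa_al
end

-- merged part: Pool.Agent.Work.MP_9d1ffa_al.Br.Final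
section
/-! The exact sequence passes along hierarchies. -/

namespace Pool.Agent.Work.MP_9d1ffa_al

open Matrix MonoidAlgebra TensorProduct

set_option linter.unusedSectionVars false
set_option linter.unusedVariables false

variable {F G H : Type} [Group F] [Group G] [Group H] {η : ℤˣ}

theorem abm_surj {π : F →* G} (h : Function.Surjective π) : Function.Surjective (abm π) :=
  fun z => by
    obtain ⟨g, rfl⟩ := ab_surj z
    obtain ⟨f, rfl⟩ := h g
    exact ⟨ab f, rfl⟩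

theorem exact_relAb {π : F →* G} (h : Function.Surjective π) :
    Function.Exact (relAb π) (abm π) := fun z => by
  obtain ⟨f, rfl⟩ := ab_surj z
  constructor
  · intro e
    have h1 : π f ∈ commutator G := ab_eq_zero e
    rw [commutator_def, ← Subgroup.map_top_of_surjective π h, ← Subgroup.map_commutator] at h1
    obtain ⟨c, hc, e1⟩ := h1
    refine ⟨rcl π ⟨c⁻¹ * f, by rw [MonoidHom.mem_ker, map_mul, map_inv, e1, inv_mul_cancel]⟩, ?_⟩
    change ab (c⁻¹ * f) = ab f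
    have : ab c = 0 := congrArg Additive.ofMul
      ((Abelianization.ker_of F).symm ▸ (hc : c ∈ commutator F) : c ∈ Abelianization.of.ker)
    rw [ab_mul, ab_inv, this, neg_zero, zero_add]
  · rintro ⟨w, e⟩
    obtain ⟨w, rfl⟩ := Submodule.Quotient.mk_surjective _ w
    obtain ⟨r, rfl⟩ := ab_surj w
    rw [← e]
    change ab (π r) = 0
    rw [r.2, ab_one]

theorem tens_ext {M : Type} [AddCommGroup M] {a b : L0 ℤ η ⊗[ℤ] Ab F →+ M}
    (h : ∀ (I : Type) [Fintype I] [DecidableEq I] (ψ : Matrix I I ℤ) (f : F), NS η ψ →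
      a (cls η ψ ⊗ₜ ab f) = b (cls η ψ ⊗ₜ ab f)) (ξ : L0 ℤ η ⊗[ℤ] Ab F) : a ξ = b ξ := by
  induction ξ using TensorProduct.induction_on with
  | zero => rw [map_zero, map_zero]
  | tmul y z =>
    obtain ⟨n, ψ, hψ, rfl⟩ := cls_surj y
    obtain ⟨f, rfl⟩ := ab_surj z
    exact h _ ψ f hψ
  | add x y hx hy => rw [map_add, map_add, hx, hy]

theorem wall_of (h : Base G) (h' : Ev G) : Wall G := by
  refine ⟨h.two, fun n => h.wh _ ⟨n, ⟨MulEquiv.refl _⟩⟩, fun X π hπ ε => ?_⟩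
  obtain ⟨d, d1, d2, d3, d4⟩ := h' X π hπ ε
  have ex := lTensor_exact (L0 ℤ (-ε)) (exact_relAb hπ) (abm_surj hπ)
  refine ⟨d, (asz (-ε) G ∘ₗ (abm π).lTensor _).toAddMonoidHom, fun x ξ => ⟨?_, ?_⟩,
    fun I _ _ ψ f hψ => ?_, zi_inj ε G, d3, d4, fun ξ => ?_,
    (h.sur _).comp (LinearMap.lTensor_surjective _ (abm_surj hπ))⟩
  · rintro rfl
    obtain ⟨ξ, I, _, _, W, θ, k1, k2, rfl⟩ := d2 x
    exact ⟨I, _, _, W, θ, d1 ξ I W θ k1 k2 ▸ k1, k2, rfl⟩
  · rintro ⟨I, _, _, W, θ, k1, k2, rfl⟩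
    exact d1 ξ I W θ k1 k2
  · exact (asz_tmul _ _).trans (cZ_cls _ hψ)
  · exact (map_eq_zero_iff _ (h.bij _).1).trans (ex ξ)

theorem inj_of_asz (h : Function.Injective (asz η G)) : Inj fa_K0 η G := fun ζ e => by
  obtain ⟨σ, hσ⟩ := sigma η
  obtain ⟨ξ, rfl⟩ := LinearMap.rTensor_surjective (Ab G) (g := σ.toLinearMap) σ.surjective ζ
  have := congrArg (m1 η (MonoidHom.fst G K0)) e
  rw [hσ, m1_comp, map_zero] at this
  rw [h (((m1_id _).symm.trans this).trans (map_zero _).symm), map_zero]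

theorem Final_map (r : H →* G) {ι : Type} [Fintype ι] [DecidableEq ι] {A : Matrix ι ι (ZG H)}
    (h : A ∈ Submonoid.closure (Gen (∅ : Set (Subgroup H)) ι)) :
    mp r A ∈ Submonoid.closure (Gen (∅ : Set (Subgroup G)) ι) := by
  induction h using Submonoid.closure_induction with
  | mem x hx =>
    refine Submonoid.subset_closure ?_
    rcases hx with ⟨i, j, c, h, rfl⟩ | ⟨g, s, rfl⟩ | ⟨_, h, -⟩
    · refine Or.inl ⟨i, j, gm r c, h, ?_⟩
      rw [mp_add, mp_one, mp, Matrix.map_single]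
    · refine Or.inr (Or.inl ⟨fun i => r (g i), s, ?_⟩)
      rw [mp, diagonal_map (map_zero _)]
      exact congrArg diagonal (funext fun i => gm_single _ _ _)
    · exact h.elim
  | one => rw [mp_one]; exact one_mem _
  | mul x y _ _ hx hy => rw [mp_mul]; exact mul_mem hx hy

theorem whK_of (h : ∀ n : ℕ, WhGen (∅ : Set (Subgroup (G × Multiplicative (Fin n → ℤ))))) :
    WhK G := fun K _ ⟨n, ⟨e⟩⟩ m A hA => by
  obtain ⟨k, hk⟩ := h n m (mp ((MonoidHom.id G).prodMap e.toMonoidHom) A) (IsUnit.mp _ hA)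
  have := Final_map ((MonoidHom.id G).prodMap e.symm.toMonoidHom) hk
  rw [mp_blocks, mp_zero, mp_zero, mp_one, mp_mp, show ((MonoidHom.id G).prodMap
    e.symm.toMonoidHom).comp ((MonoidHom.id G).prodMap e.toMonoidHom) = MonoidHom.id _ from
      MonoidHom.ext fun g => Prod.ext rfl (e.symm_apply_apply g.2), mp_id] at this
  exact ⟨k, this⟩

theorem Wall.base (h : Wall G) : Base G ∧ Ev G := by
  have key : ∀ η, Function.Bijective (asz η G) := fun η => by
    obtain ⟨ε, rfl⟩ : ∃ ε, η = -ε := ⟨-η, (neg_neg η).symm⟩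
    have hπ : Function.Surjective (FreeGroup.lift (id : G → G)) := fun g => ⟨.of g, by simp⟩
    obtain ⟨d, a, -, a1, -, -, -, a2, a3⟩ := h.2.2 G _ hπ ε
    have ex := lTensor_exact (L0 ℤ (-ε)) (exact_relAb hπ) (abm_surj hπ)
    have e := tens_ext (a := a)
      (b := (asz (-ε) G ∘ₗ (abm (FreeGroup.lift (id : G → G))).lTensor _).toAddMonoidHom)
      fun I _ _ ψ f hψ => (a1 I ψ f hψ).trans ((asz_tmul _ _).trans (cZ_cls _ hψ)).symm
    refine ⟨(injective_iff_map_eq_zero _).2 fun ξ k => ?_, fun c => ?_⟩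
    · obtain ⟨ξ, rfl⟩ := LinearMap.lTensor_surjective (L0 ℤ (-ε)) (abm_surj hπ) ξ
      exact (ex ξ).2 ((a2 ξ).1 ((e ξ).trans k))
    · obtain ⟨ξ, rfl⟩ := a3 c
      exact ⟨_, (e ξ).symm⟩
  refine ⟨⟨h.1, whK_of h.2.1, fun η => inj_of_asz (key η).1, fun η => (key η).2⟩,
    fun X π hπ ε => ?_⟩
  obtain ⟨d, a, d1, -, -, d3, d4, -⟩ := h.2.2 X π hπ ε
  exact ⟨d, fun ξ I _ _ W θ k1 k2 => (d1 _ ξ).2 ⟨I, _, _, W, θ, k1, k2, rfl⟩,
    fun x => ⟨d x, (d1 x _).1 rfl⟩, d3, d4⟩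

theorem hier_wall (hE : ClosedOn Base Ev) {B : ∀ (S : Type) [Group S], Prop}
    (hB : ∀ (S : Type) [Group S], B S → Wall S) (h : Hier B G) : Wall G :=
  have k := (closed_base.and hE).hierB (fun S _ b => (hB S b).base) h
  wall_of k.1 k.2

end Pool.Agent.Work.MP_9d1ffa_al
end
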