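import Pool.Agent.Work.MP_9d1ffa_al.Br.Defs
import Pool.Agent.Work.MP_9d1ffa_al.Br.KTop
import Pool.Agent.Work.MP_9d1ffa_al.Br.Final
import Pool.Agent.Work.MP_9d1ffa_al.Br.Seq

-- merged part: Pool.Agent.Work.MP_9d1ffa_al.Br.XRel
section
/-! The coinvariants of the relation module of a homomorphism. -/

namespace Pool.Agent.Work.MP_9d1ffa_al

open TensorProduct LinearMap

set_option linter.unusedSectionVars false
set_option linter.unusedVariables false

variable {F F' F'' G G' G'' : Type} [Group F] [Group F'] [Group F''] [Group G] [Group G']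
  [Group G'']

/-- the class of an element of the kernel -/
def rc (π : F →* G) (r : F) (h : π r = 1) : Rel π := rcl π ⟨r, h⟩

variable {π : F →* G} {π' : F' →* G'} {π'' : F'' →* G''}

theorem rc_surj (z : Rel π) : ∃ r h, rc π r h = z := by
  obtain ⟨a, rfl⟩ := Submodule.Quotient.mk_surjective _ z
  obtain ⟨r, rfl⟩ := ab_surj a
  exact ⟨r.1, r.2, rfl⟩

theorem rc_congr {r r' : F} (e : r = r') (h : π r = 1) (h' : π r' = 1) : rc π r h = rc π r' h' := by
  subst e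
  rfl

theorem rc_mul {r r' : F} (h : π r = 1) (h' : π r' = 1) (k : π (r * r') = 1) :
    rc π (r * r') k = rc π r h + rc π r' h' :=
  congrArg Submodule.Quotient.mk (ab_mul (⟨r, h⟩ : π.ker) ⟨r', h'⟩)

theorem rc_one (h : π 1 = 1) : rc π 1 h = 0 := rfl

theorem rc_inv {r : F} (h : π r = 1) (k : π r⁻¹ = 1) : rc π r⁻¹ k = -rc π r h :=
  congrArg Submodule.Quotient.mk (ab_inv (⟨r, h⟩ : π.ker))

theorem rc_conj (f : F) {r : F} (h : π r = 1) (k : π (f * r * f⁻¹) = 1) :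
    rc π (f * r * f⁻¹) k = rc π r h :=
  (Submodule.Quotient.eq _).2 (Submodule.subset_span ⟨f, ⟨r, h⟩, ⟨_, k⟩, rfl, rfl⟩)

/-- maps out of the coinvariants -/
def rlift {M : Type} [AddCommGroup M] (π : F →* G) (c : ∀ r : F, π r = 1 → M)
    (hm : ∀ r r' h h' k, c (r * r') k = c r h + c r' h')
    (hc : ∀ f r h k, c (f * r * f⁻¹) k = c r h) : Rel π →ₗ[ℤ] M :=
  (cjR π).liftQ (MonoidHom.toAdditiveLeft (Abelianization.lift
    (MonoidHom.mk' (fun r : π.ker => Multiplicative.ofAdd (c r.1 r.2)) fun r r' =>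
      congrArg Multiplicative.ofAdd (hm r.1 r'.1 r.2 r'.2 _)))).toIntLinearMap
    (Submodule.span_le.2 (by
      rintro _ ⟨f, ⟨r, h⟩, ⟨r', h'⟩, e, rfl⟩
      obtain rfl : r' = f * r * f⁻¹ := e
      exact (map_sub _ _ _).trans (sub_eq_zero.2 (hc f r h h'))))

theorem rlift_rc {M : Type} [AddCommGroup M] (c : ∀ r : F, π r = 1 → M) (hm) (hc) (r : F)
    (h : π r = 1) : rlift π c hm hc (rc π r h) = c r h := rfl

theorem rb_rc (r : F) (h : π r = 1) : relAb π (rc π r h) = ab r := rfl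

/-- the homomorphism maps the kernel to the kernel -/
def KM (π : F →* G) (π' : F' →* G') (φ : F →* F') : Prop := ∀ r, π r = 1 → π' (φ r) = 1

theorem KM.of_comp {φ : F →* F'} (f : G →* G') (e : ∀ z, π' (φ z) = f (π z)) : KM π π' φ :=
  fun r h => by rw [e, h, map_one]

theorem KM.comp {φ : F →* F'} {φ' : F' →* F''} (h' : KM π' π'' φ') (h : KM π π' φ) :
    KM π π'' (φ'.comp φ) := fun r k => h' _ (h r k)

theorem KM.id : KM π π (MonoidHom.id F) := fun _ k => k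

/-- the induced map on coinvariants -/
def rm {φ : F →* F'} (h : KM π π' φ) : Rel π →ₗ[ℤ] Rel π' :=
  rlift π (fun r k => rc π' (φ r) (h r k))
    (fun r r' k k' _ => (rc_congr (map_mul φ r r') _ (by rw [map_mul, h r k, h r' k', mul_one])).trans
      (rc_mul _ _ _))
    fun f r k _ => (rc_congr (by rw [map_mul, map_mul, map_inv]) _
      (by rw [map_mul, map_mul, h r k, mul_one, ← map_mul, mul_inv_cancel, map_one])).trans
      (rc_conj (φ f) _ _)

theorem rm_rc {φ : F →* F'} (h : KM π π' φ) (r : F) (k : π r = 1) :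
    rm h (rc π r k) = rc π' (φ r) (h r k) := rfl

theorem rl_ext {M : Type} [AddCommGroup M] {a b : Rel π →ₗ[ℤ] M}
    (h : ∀ r k, a (rc π r k) = b (rc π r k)) : a = b :=
  LinearMap.ext fun z => by
    obtain ⟨r, k, rfl⟩ := rc_surj z
    exact h r k

variable {Λ : Type} [AddCommGroup Λ]

theorem tr_ind (R : AddSubmonoid (Λ ⊗[ℤ] Rel π)) (h : ∀ u r k, u ⊗ₜ rc π r k ∈ R)
    (ξ : Λ ⊗[ℤ] Rel π) : ξ ∈ R := by
  induction ξ using TensorProduct.induction_on with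
  | zero => exact zero_mem _
  | tmul u z =>
    obtain ⟨r, k, rfl⟩ := rc_surj z
    exact h u r k
  | add x y hx hy => exact add_mem hx hy

theorem lt_congr {M N : Type} [AddCommGroup M] [AddCommGroup N] {a b : M →ₗ[ℤ] N} (e : a = b)
    (ξ : Λ ⊗[ℤ] M) : a.lTensor Λ ξ = b.lTensor Λ ξ := by rw [e]

theorem tb_tr {φ : F →* F'} (h : KM π π' φ) (ξ : Λ ⊗[ℤ] Rel π) :
    (relAb π').lTensor Λ ((rm h).lTensor Λ ξ) = (abm φ).lTensor Λ ((relAb π).lTensor Λ ξ) := by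
  rw [← lTensor_comp_apply, ← lTensor_comp_apply]
  exact lt_congr (a := relAb π' ∘ₗ rm h) (b := abm φ ∘ₗ relAb π) (rl_ext fun _ _ => rfl) ξ

theorem tr_comp {φ : F →* F'} {φ' : F' →* F''} (h' : KM π' π'' φ') (h : KM π π' φ)
    (ξ : Λ ⊗[ℤ] Rel π) :
    (rm h').lTensor Λ ((rm h).lTensor Λ ξ) = (rm (h'.comp h)).lTensor Λ ξ := by
  rw [← lTensor_comp_apply]
  exact lt_congr (a := rm h' ∘ₗ rm h) (b := rm (h'.comp h)) (rl_ext fun _ _ => rfl) ξ

theorem tr_id (ξ : Λ ⊗[ℤ] Rel π) : (rm (KM.id (π := π))).lTensor Λ ξ = ξ := by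
  rw [show rm (KM.id (π := π)) = LinearMap.id from rl_ext fun _ _ => rfl, lTensor_id, id_apply]

theorem tr_congr {φ φ' : F →* F'} (h : KM π π' φ) (h' : KM π π' φ') (e : ∀ r, π r = 1 → φ r = φ' r)
    (ξ : Λ ⊗[ℤ] Rel π) : (rm h).lTensor Λ ξ = (rm h').lTensor Λ ξ :=
  lt_congr (rl_ext fun r k => rc_congr (e r k) _ _) ξ

theorem tr_triv {φ : F →* F'} (h : KM π π' φ) (e : ∀ r, π r = 1 → φ r = 1)
    (ξ : Λ ⊗[ℤ] Rel π) : (rm h).lTensor Λ ξ = 0 := by
  rw [show rm h = 0 from rl_ext fun r k => rc_congr (e r k) _ (map_one _), lTensor_zero,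
    LinearMap.zero_apply]

theorem tr_conj {φ φ' : F →* F'} (h : KM π π' φ) (h' : KM π π' φ') (t : F')
    (e : ∀ r, φ r * t = t * φ' r) (ξ : Λ ⊗[ℤ] Rel π) :
    (rm h).lTensor Λ ξ = (rm h').lTensor Λ ξ :=
  lt_congr (rl_ext fun r k => (rc_congr (eq_mul_inv_of_mul_eq (e r)) _
    (eq_mul_inv_of_mul_eq (e r) ▸ h r k)).trans (rc_conj t _ _)) ξ

/-- two lifts of the same homomorphism agree on cycles -/
theorem tr_homotopy {φ φ' : F →* F'} (h : KM π π' φ) (h' : KM π π' φ')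
    (e : ∀ z, π' (φ z) = π' (φ' z)) {ξ : Λ ⊗[ℤ] Rel π} (hξ : (relAb π).lTensor Λ ξ = 0) :
    (rm h).lTensor Λ ξ = (rm h').lTensor Λ ξ := by
  have k : ∀ z, π' ((φ' z)⁻¹ * φ z) = 1 := fun z => by rw [map_mul, map_inv, e, inv_mul_cancel]
  let s : F →* Multiplicative (Rel π') :=
    MonoidHom.mk' (fun z => Multiplicative.ofAdd (rc π' _ (k z))) fun x y => by
      refine congrArg Multiplicative.ofAdd ?_
      have k1 : π' ((φ' y)⁻¹ * ((φ' x)⁻¹ * φ x) * (φ' y)⁻¹⁻¹) = 1 := by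
        rw [map_mul, map_mul, k, mul_one, ← map_mul, mul_inv_cancel, map_one]
      refine (rc_congr (by rw [map_mul, map_mul]; group) _ (by rw [map_mul, k1, k, mul_one])).trans
        ((rc_mul k1 (k y) _).trans ?_)
      rw [rc_conj _ (k x)]
      rfl
  let s' : Ab F →ₗ[ℤ] Rel π' := (MonoidHom.toAdditiveLeft (Abelianization.lift s)).toIntLinearMap
  have : rm h = rm h' + s' ∘ₗ relAb π := rl_ext fun r q =>
    (rc_congr (mul_inv_cancel_left (φ' r) (φ r)).symm _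
      (by rw [mul_inv_cancel_left, h r q])).trans (rc_mul (h' r q) (k r) _)
  rw [this, lTensor_add, LinearMap.add_apply, lTensor_comp_apply, hξ, map_zero, add_zero]

theorem xabm_surj (hπ : Function.Surjective π) : Function.Surjective (abm π) := fun z => by
  obtain ⟨g, rfl⟩ := ab_surj z
  obtain ⟨f, rfl⟩ := hπ g
  exact ⟨ab f, rfl⟩

theorem exact_rb (hπ : Function.Surjective π) : Function.Exact (relAb π) (abm π) := fun z => by
  obtain ⟨f, rfl⟩ := ab_surj z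
  refine ⟨fun h => ?_, fun ⟨y, h⟩ => ?_⟩
  · have h1 : π f ∈ (commutator F).map π := by
      rw [map_commutator_eq, MonoidHom.range_eq_top.2 hπ]
      exact ab_eq_zero h
    obtain ⟨c, hc, e⟩ := h1
    have h2 : ab c = 0 := (QuotientGroup.eq_one_iff c).2 hc
    exact ⟨rc π (c⁻¹ * f) (by rw [map_mul, map_inv, e, inv_mul_cancel]),
      by rw [rb_rc, ab_mul, ab_inv, h2, neg_zero, zero_add]⟩
  · obtain ⟨r, k, rfl⟩ := rc_surj y
    rw [← h, rb_rc, abm_ab, k, ab_one]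

theorem exact_tb (hπ : Function.Surjective π) :
    Function.Exact ((relAb π).lTensor Λ) ((abm π).lTensor Λ) :=
  lTensor_exact Λ (exact_rb hπ) (xabm_surj hπ)

/-- the images of two families of kernels generate the coinvariants -/
theorem tr_span {φ : F →* F''} {φ' : F' →* F''} (h : KM π π'' φ) (h' : KM π' π'' φ')
    (e : π''.ker ≤ Subgroup.normalClosure (φ '' π.ker ∪ φ' '' π'.ker)) (ξ : Λ ⊗[ℤ] Rel π'') :
    ∃ ζ ζ', ξ = (rm h).lTensor Λ ζ + (rm h').lTensor Λ ζ' := by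
  let S : Submodule ℤ (Rel π'') := range (rm h) ⊔ range (rm h')
  let N : Subgroup F'' :=
    { carrier := {r | ∃ k : π'' r = 1, rc π'' r k ∈ S}
      mul_mem' := fun ⟨k, a⟩ ⟨k', a'⟩ => ⟨by rw [map_mul, k, k', mul_one], by
        rw [rc_mul k k']
        exact add_mem a a'⟩
      one_mem' := ⟨map_one _, zero_mem _⟩
      inv_mem' := fun ⟨k, a⟩ => ⟨by rw [map_inv, k, inv_one], by
        rw [rc_inv k]
        exact neg_mem a⟩ }
  have : N.Normal := ⟨fun r ⟨k, a⟩ f => ⟨π''.normal_ker.conj_mem r k f, by rwa [rc_conj f k]⟩⟩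
  have hN : π''.ker ≤ N := e.trans (Subgroup.normalClosure_le_normal (by
    rintro _ (⟨r, k, rfl⟩ | ⟨r, k, rfl⟩)
    · exact ⟨h r k, Submodule.mem_sup_left ⟨rc π r k, rfl⟩⟩
    · exact ⟨h' r k, Submodule.mem_sup_right ⟨rc π' r k, rfl⟩⟩))
  let R : Submodule ℤ (Λ ⊗[ℤ] Rel π'') := range ((rm h).lTensor Λ) ⊔ range ((rm h').lTensor Λ)
  have hR : ξ ∈ R := tr_ind R.toAddSubmonoid (fun u r k => by
    obtain ⟨_, ⟨a, rfl⟩, _, ⟨b, rfl⟩, q⟩ := Submodule.mem_sup.1 (hN k).2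
    rw [← q, tmul_add]
    exact add_mem (Submodule.mem_sup_left ⟨u ⊗ₜ a, rfl⟩) (Submodule.mem_sup_right ⟨u ⊗ₜ b, rfl⟩)) ξ
  obtain ⟨_, ⟨a, rfl⟩, _, ⟨b, rfl⟩, q⟩ := Submodule.mem_sup.1 hR
  exact ⟨a, b, q.symm⟩

theorem tr_surj {φ : F →* F'} (h : KM π π' φ) (e : π'.ker ≤ Subgroup.normalClosure (φ '' π.ker))
    (ξ : Λ ⊗[ℤ] Rel π') : ∃ ζ, ξ = (rm h).lTensor Λ ζ := by
  obtain ⟨ζ, ζ', q⟩ := tr_span h h (by rwa [Set.union_self]) ξ
  exact ⟨ζ + ζ', by rw [q, map_add]⟩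

/-- the kernel of the induced map of a homomorphism that is onto and onto on kernels -/
theorem tr_ker {q : F' →* F} (h : KM π' π q) (s1 : Function.Surjective q)
    (s2 : ∀ r, π r = 1 → ∃ w, π' w = 1 ∧ q w = r) (R : AddSubmonoid (Λ ⊗[ℤ] Rel π'))
    (hR : ∀ u w k, q w = 1 → u ⊗ₜ rc π' w k ∈ R) (ξ : Λ ⊗[ℤ] Rel π')
    (e : (rm h).lTensor Λ ξ = 0) : ξ ∈ R := by
  choose ρ r1 r2 using s2
  let S : Submodule ℤ (Rel π') := AddSubgroup.toIntSubmodule
    { carrier := {z | ∃ w k, q w = 1 ∧ rc π' w k = z}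
      add_mem' := by
        rintro _ _ ⟨w, k, a, rfl⟩ ⟨w', k', a', rfl⟩
        exact ⟨w * w', by rw [map_mul, k, k', mul_one], by rw [map_mul, a, a', mul_one],
          rc_mul k k' _⟩
      zero_mem' := ⟨1, map_one _, map_one _, rfl⟩
      neg_mem' := by
        rintro _ ⟨w, k, a, rfl⟩
        exact ⟨w⁻¹, by rw [map_inv, k, inv_one], by rw [map_inv, a, inv_one], rc_inv k _⟩ }
  have key : ∀ w w' k k', q w = q w' → S.mkQ (rc π' w k) = S.mkQ (rc π' w' k') :=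
    fun w w' k k' a => (Submodule.Quotient.eq S).2 ⟨w * w'⁻¹, by rw [map_mul, map_inv, k, k',
      inv_one, mul_one], by rw [map_mul, map_inv, a, mul_inv_cancel], by
        rw [rc_mul k (by rw [map_inv, k', inv_one]), rc_inv k', sub_eq_add_neg]⟩
  let σ : Rel π →ₗ[ℤ] Rel π' ⧸ S := rlift π (fun r k => S.mkQ (rc π' _ (r1 r k)))
    (fun r r' k k' _ => by
      rw [← map_add, ← rc_mul _ _ (by rw [map_mul, r1, r1, mul_one])]
      exact key _ _ _ _ (by rw [map_mul, r2, r2, r2]))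
    fun f r k _ => by
      obtain ⟨f, rfl⟩ := s1 f
      rw [← rc_conj f (r1 r k) (π'.normal_ker.conj_mem _ (r1 r k) f)]
      exact key _ _ _ _ (by rw [map_mul, map_mul, map_inv, r2, r2])
  have e1 : σ ∘ₗ rm h = S.mkQ := rl_ext fun w k => key _ _ _ _ (r2 _ _)
  have e2 : ξ ∈ ker (S.mkQ.lTensor Λ) := by
    rw [mem_ker, ← e1, lTensor_comp_apply, e, map_zero]
  rw [lTensor_mkQ] at e2
  obtain ⟨ζ, rfl⟩ := e2
  clear e
  induction ζ using TensorProduct.induction_on with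
  | zero => rw [map_zero]; exact zero_mem _
  | tmul u z =>
    obtain ⟨_, w, k, a, rfl⟩ := z
    exact hR u w k a
  | add x y hx hy => rw [map_add]; exact add_mem hx hy

end Pool.Agent.Work.MP_9d1ffa_al
end

-- merged part: Pool.Agent.Work.MP_9d1ffa_al.Br.XBd
section
/-! Closed forms obtained by capping a form over the source of a homomorphism. -/

namespace Pool.Agent.Work.MP_9d1ffa_al

open Matrix MonoidAlgebra TensorProduct Monoid

set_option linter.unusedSectionVars false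
set_option linter.unusedVariables false

section Glue

variable {R : Type} [Ring R] [StarRing R] {ε : ℤˣ} {I J M : Type} [Fintype I] [DecidableEq I]
  [Fintype J] [DecidableEq J] [Fintype M] [DecidableEq M]

theorem unit_blocks {a : Matrix I I R} {b : Matrix J J R} (ha : IsUnit a) (hb : IsUnit b) :
    IsUnit (fromBlocks a 0 0 b) := by
  obtain ⟨v, h1, h2⟩ := OU1_inv ha
  obtain ⟨w, k1, k2⟩ := OU1_inv hb
  refine OU1_unit (V := fromBlocks v 0 0 w) ?_ ?_ <;>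
    simp [fromBlocks_multiply, h1, h2, k1, k2]

/-- a box for the upper rows of `W` is also a box for the upper rows of the stabilisation -/
theorem BoxD.pad {W : Matrix (I ⊕ I) (I ⊕ I) R} {β : Matrix (I ⊕ M) (I ⊕ M) R} {m : Matrix I M R}
    (h : BoxD ε W.toBlocks₁₁ W.toBlocks₁₂ β m) (J : Type) [Fintype J] [DecidableEq J] :
    ∃ (β' : Matrix ((I ⊕ J) ⊕ M) ((I ⊕ J) ⊕ M) R) (m' : Matrix (I ⊕ J) M R),
      BoxD ε (dsum W (1 : Matrix (J ⊕ J) (J ⊕ J) R)).toBlocks₁₁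
        (dsum W (1 : Matrix (J ⊕ J) (J ⊕ J) R)).toBlocks₁₂ β' m' ∧
      β'.toBlocks₂₂ = β.toBlocks₂₂ := by
  obtain ⟨h1, C, c, h2⟩ := h
  let T : Matrix ((I ⊕ J) ⊕ M) (I ⊕ M) R := fromBlocks (fromRows 1 0) 0 0 1
  have key2 : ∀ {L : Type} (a : Matrix L I R) (b : Matrix L M R),
      fromCols a b * Tᴴ = fromCols (fromCols a 0) b := by
    intro L a b
    simp [T, fromBlocks_conjTranspose, conjTranspose_fromRows_eq_fromCols_conjTranspose,
      fromCols_mul_fromBlocks, mul_fromCols]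
  refine ⟨T * β * Tᴴ, fromRows m 0, ⟨?_, C * Tᴴ, fromCols c 0, ?_⟩, ?_⟩
  · have e : fromCols (fromBlocks W.toBlocks₁₁ 0 0 (1 : Matrix J J R)) (fromRows m 0) * T =
        fromRows (fromCols W.toBlocks₁₁ m) 0 := by
      simp only [T, fromCols_mul_fromBlocks, fromBlocks_mul_fromRows, Matrix.mul_one,
        Matrix.mul_zero, add_zero, zero_add]
      ext (i | i) (j | j) <;> rfl
    rw [OBox_T0, ORL_W₁, ORL_W₂, e, fromRows_mul, fromRows_mul, h1, key2, Matrix.zero_mul,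
      Matrix.zero_mul]
    ext (i | i) ((j | j) | j) <;> rfl
  · have e : Tᴴ * T = 1 := by
      simp [T, fromBlocks_conjTranspose, conjTranspose_fromRows_eq_fromCols_conjTranspose,
        fromBlocks_multiply, fromCols_mul_fromRows]
    rw [OBox_T0, Matrix.mul_assoc C, e, Matrix.mul_one, h2, key2]
  · rw [← fromBlocks_toBlocks β]
    simp [T, fromBlocks_conjTranspose, fromBlocks_multiply]

end Glue

section Cap

variable {F G : Type} [Group F] [Group G] {ε : ℤˣ} {I M : Type} [Fintype I] [DecidableEq I]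
  [Fintype M] [DecidableEq M]

theorem cap_ns' (π : F →* G) {W : Matrix (I ⊕ I) (I ⊕ I) (ZG F)} {θ : Matrix I I (ZG F)}
    (h1 : mp π W = 1) (h2 : IsUnit (sysM ε W θ)) : NS ε (mp π θ) := by
  have := IsUnit.mp π h2
  rwa [mp_sysM, h1, sysM_one] at this

/-- the class of a capped form depends only on the boundary, up to closed forms -/
theorem cap_box (h2 : NoTwo G) (π : F →* G) {W : Matrix (I ⊕ I) (I ⊕ I) (ZG F)}
    {θ : Matrix I I (ZG F)} (h1 : mp π W = 1) (hs : IsUnit (sysM ε W θ))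
    {β : Matrix (I ⊕ M) (I ⊕ M) (ZG F)} {m : Matrix I M (ZG F)}
    (h : BoxD ε W.toBlocks₁₁ W.toBlocks₁₂ β m) :
    cls ε (mp π θ) - cls ε (mp π β.toBlocks₂₂) ∈ (m0 ε π).range := by
  have d := h.mp π
  rw [← mp_toBlocks₁₁, ← mp_toBlocks₁₂, h1, ← fromBlocks_one, toBlocks_fromBlocks₁₁,
    toBlocks_fromBlocks₁₂] at d
  obtain ⟨n2, D, hD, hI⟩ := d.triv
  have hψ := cap_ns' π h1 hs
  have hψ' : NS ε (mp π θ - D) := by
    rw [NS, sub_eq_add_neg, sy_add, sy_neg, hD, neg_zero, add_zero]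
    exact hψ
  have e1 : mp π (fromBlocks θ 0 0 0 - β) = fromBlocks (mp π θ) 0 0 0 - mp π β := by
    rw [mp_sub, mp_blocks, mp_zero, mp_zero, mp_zero]
  have e2 := cls_iso (hI (mp π θ))
  rw [← e1, ← m0_cls _ (h.glue hs), cls_sum hψ' n2.neg, cls_neg, mp_toBlocks₂₂] at e2
  rw [← sub_add_sub_cancel _ (cls ε (mp π θ - D)), sub_eq_add_neg (cls ε (mp π θ - D)), ← e2]
  exact add_mem (hess h2 hψ hD _) ⟨_, rfl⟩

end Cap

variable {F F' G G' : Type} [Group F] [Group F'] [Group G] [Group G'] {ε η : ℤˣ}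
  {π : F →* G} {π' : F' →* G'}

/-- homology of the pair in degree two -/
abbrev Tr (η : ℤˣ) (π : F →* G) : Type := L0 ℤ η ⊗[ℤ] Rel π

/-- the boundary map of the pair -/
noncomputable abbrev tb (π : F →* G) := (relAb π).lTensor (L0 ℤ η)

/-- the induced map on the homology of pairs -/
noncomputable abbrev tr {φ : F →* F'} (h : KM π π' φ) := (rm h).lTensor (L0 ℤ η)

/-- block sums of circles along elements of the kernel -/
inductive Bs (η : ℤˣ) (π : F →* G) : Tr η π → ∀ {I : Type} [Fintype I] [DecidableEq I],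
    Matrix (I ⊕ I) (I ⊕ I) (ZG F) → Prop
  | one (I : Type) [Fintype I] [DecidableEq I] : Bs η π 0 (1 : Matrix (I ⊕ I) (I ⊕ I) (ZG F))
  | pc {I : Type} [Fintype I] [DecidableEq I] (ψ : Matrix I I ℤ) (hψ : NS η ψ) (r : F)
      (h : π r = 1) : Bs η π (cls η ψ ⊗ₜ rc π r h) (circ η ψ r)
  | sum {ξ ξ' : Tr η π} {I J : Type} [Fintype I] [DecidableEq I] [Fintype J] [DecidableEq J]
      {W : Matrix (I ⊕ I) (I ⊕ I) (ZG F)} {W' : Matrix (J ⊕ J) (J ⊕ J) (ZG F)}
      (h : Bs η π ξ W) (h' : Bs η π ξ' W') : Bs η π (ξ + ξ') (dsum W W')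

section

variable {I : Type} [Fintype I] [DecidableEq I] {ξ : Tr η π} {W : Matrix (I ⊕ I) (I ⊕ I) (ZG F)}

theorem Bd.bs (h : Bd η π ξ W) : Bs η π ξ W := by
  induction h with
  | one I => exact Bs.one I
  | add _ ψ hψ r ih => exact (Bs.pc ψ hψ r.1 r.2).sum ih

theorem Bd.pad (h : Bd η π ξ W) (M : Type) [Fintype M] [DecidableEq M] :
    ∃ (J : Type) (_ : Fintype J) (_ : DecidableEq J) (e : J ≃ I ⊕ M), Bd η π ξ
      ((dsum W (1 : Matrix (M ⊕ M) (M ⊕ M) (ZG F))).submatrix (e.sumCongr e) (e.sumCongr e)) := by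
  induction h with
  | one I =>
    refine ⟨I ⊕ M, inferInstance, inferInstance, Equiv.refl _, ?_⟩
    rw [dsum_one, submatrix_one_equiv]
    exact Bd.one _
  | @add ξ I _ _ W _ L _ _ ψ hψ r ih =>
    obtain ⟨J, _, _, e, k⟩ := ih
    refine ⟨L ⊕ J, inferInstance, inferInstance,
      ((Equiv.refl L).sumCongr e).trans (Equiv.sumAssoc L I M).symm, ?_⟩
    have := k.add ψ hψ r
    rw [OU3_re', OU3_assoc', submatrix_submatrix] at this
    convert this using 2 <;> exact funext fun x => by rcases x with x | x <;> rfl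

theorem Bs.uni (h : Bs η π ξ W) : Uni η W := by
  induction h with
  | one I => exact uni_one
  | pc ψ hψ r => exact circ_uni hψ _
  | sum _ _ h h' => exact h.dsum h'

theorem Bs.triv (h : Bs η π ξ W) : mp π W = 1 := by
  induction h with
  | one I => exact mp_one _
  | pc ψ hψ r k => rw [mp_circ _ hψ, k, circ_one hψ]
  | sum _ _ h h' => rw [mp_dsum, h, h', dsum_one]

theorem Bs.ucl (h : Bs η π ξ W) : ucl η W = asz η F (tb π ξ) := by
  induction h with
  | one I => rw [ucl_one, map_zero, map_zero]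
  | pc ψ hψ r k => exact ((asz_tmul _ _).trans (cZ_cls r hψ)).symm
  | sum k k' h h' => rw [ucl_dsum k.uni k'.uni, h, h', map_add, map_add]

theorem Bs.map {φ : F →* F'} (k : KM π π' φ) (h : Bs η π ξ W) : Bs η π' (tr k ξ) (mp φ W) := by
  induction h with
  | one I => rw [map_zero, mp_one]; exact Bs.one I
  | pc ψ hψ r a => rw [mp_circ _ hψ]; exact Bs.pc ψ hψ (φ r) (k r a)
  | sum _ _ h h' => rw [map_add, mp_dsum]; exact h.sum h'

theorem Bs.pad (h : Bs η π ξ W) (J : Type) [Fintype J] [DecidableEq J] :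
    Bs η π ξ (dsum W (1 : Matrix (J ⊕ J) (J ⊕ J) (ZG F))) := by
  have := h.sum (Bs.one J)
  rwa [add_zero] at this

theorem Bs.lift {q : F' →* F} (k : KM π' π q) (s : ∀ r, π r = 1 → ∃ w, π' w = 1 ∧ q w = r)
    (h : Bs η π ξ W) : ∃ ξ' W', Bs η π' ξ' W' ∧ tr k ξ' = ξ ∧ mp q W' = W := by
  induction h with
  | one I => exact ⟨0, 1, Bs.one I, map_zero _, mp_one _⟩
  | pc ψ hψ r hr =>
    obtain ⟨w, a, rfl⟩ := s r hr
    exact ⟨_, _, Bs.pc ψ hψ w a, rfl, mp_circ _ hψ _⟩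
  | sum _ _ h h' =>
    obtain ⟨ζ, V, a, rfl, rfl⟩ := h
    obtain ⟨ζ', V', a', rfl, rfl⟩ := h'
    exact ⟨_, _, a.sum a', map_add _ _ _, mp_dsum _ _ _⟩

end

/-- the classes of boundaries that become trivial under `q` -/
def bdK (η : ℤˣ) (π : F →* G) (q : F →* F') : AddSubmonoid (Tr η π) where
  carrier := {ξ | ∃ (I : Type) (_ : Fintype I) (_ : DecidableEq I)
    (W : Matrix (I ⊕ I) (I ⊕ I) (ZG F)), Bs η π ξ W ∧ mp q W = 1}
  zero_mem' := ⟨Empty, inferInstance, inferInstance, 1, Bs.one _, mp_one _⟩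
  add_mem' := fun ⟨I, _, _, W, h, k⟩ ⟨J, _, _, W', h', k'⟩ => ⟨I ⊕ J, inferInstance, inferInstance,
    dsum W W', h.sum h', by rw [mp_dsum, k, k', dsum_one]⟩

theorem mem_bdK {q : F →* F'} (u : L0 ℤ η) {r : F} (h : π r = 1) (k : q r = 1) :
    u ⊗ₜ rc π r h ∈ bdK η π q := by
  obtain ⟨n, ψ, hψ, rfl⟩ := cls_surj u
  exact ⟨_, inferInstance, inferInstance, _, Bs.pc ψ hψ r h, by rw [mp_circ _ hψ, k, circ_one hψ]⟩

theorem exists_bs (ξ : Tr η π) : ∃ (I : Type) (_ : Fintype I) (_ : DecidableEq I)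
    (W : Matrix (I ⊕ I) (I ⊕ I) (ZG F)), Bs η π ξ W := by
  obtain ⟨I, _, _, W, h, -⟩ := tr_ind (bdK η π π) (fun u r k => mem_bdK u k k) ξ
  exact ⟨I, inferInstance, inferInstance, W, h⟩

/-- `x` is obtained by capping a form with boundary `ξ` -/
def DD (ε : ℤˣ) (π : F →* G) (x : L0 (ZG G) ε) (ξ : Tr (-ε) π) : Prop :=
  ∃ (I : Type) (_ : Fintype I) (_ : DecidableEq I) (W : Matrix (I ⊕ I) (I ⊕ I) (ZG F))
    (θ : Matrix I I (ZG F)), Bs (-ε) π ξ W ∧ IsUnit (sysM ε W θ) ∧ cls ε (mp π θ) = x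

variable {x y : L0 (ZG G) ε} {ξ ζ : Tr (-ε) π}

theorem DD.add (h : DD ε π x ξ) (h' : DD ε π y ζ) : DD ε π (x + y) (ξ + ζ) := by
  obtain ⟨I, _, _, W, θ, a1, a2, rfl⟩ := h
  obtain ⟨J, _, _, W', θ', b1, b2, rfl⟩ := h'
  refine ⟨I ⊕ J, inferInstance, inferInstance, dsum W W', fromBlocks θ 0 0 θ', a1.sum b1, ?_, ?_⟩
  · rw [sysM_dsum]
    exact unit_blocks a2 b2
  · rw [mp_blocks, mp_zero, mp_zero, cls_sum (cap_ns' _ a1.triv a2) (cap_ns' _ b1.triv b2)]

theorem DD.map {φ : F →* F'} (f : G →* G') (e : ∀ z, π' (φ z) = f (π z)) (h : DD ε π x ξ) :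
    DD ε π' (m0 ε f x) (tr (KM.of_comp f e) ξ) := by
  obtain ⟨I, _, _, W, θ, a1, a2, rfl⟩ := h
  refine ⟨I, inferInstance, inferInstance, _, mp φ θ, a1.map _, ?_, ?_⟩
  · rw [← mp_sysM]
    exact IsUnit.mp _ a2
  · rw [m0_cls _ (cap_ns' _ a1.triv a2), mp_mp, mp_mp,
      show π'.comp φ = f.comp π from MonoidHom.ext e]

theorem dd_closed (y : L0 (ZG F) ε) : DD ε π (m0 ε π y) 0 := by
  obtain ⟨n, θ, h, rfl⟩ := cls_surj y
  exact ⟨_, inferInstance, inferInstance, 1, θ, Bs.one _, by rwa [sysM_one], (m0_cls _ h).symm⟩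

theorem DD.cycle (h : DD ε π x ξ) : asz (-ε) F (tb π ξ) = 0 := by
  obtain ⟨I, _, _, W, θ, a1, a2, rfl⟩ := h
  obtain ⟨C, hC⟩ := a2.exists_left_inv
  rw [← a1.ucl]
  exact ucl_sys a1.uni hC

theorem exists_dd (h : asz (-ε) F (tb π ξ) = 0) : ∃ x, DD ε π x ξ := by
  obtain ⟨I, _, _, W, a⟩ := exists_bs ξ
  obtain ⟨M, _, _, θ, b⟩ := exists_sys a.uni (a.ucl.trans h)
  exact ⟨_, _, inferInstance, inferInstance, _, θ, a.pad M, b, rfl⟩

/-- a form whose boundary is zero in homology is closed up to cobordism -/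
theorem DD.closed (h2 : NoTwo G) (h : DD ε π x 0) : x ∈ (m0 ε π).range := by
  obtain ⟨I, _, _, W, θ, a1, a2, rfl⟩ := h
  let p : Coprod F (FreeGroup π.ker) →* F := Coprod.lift (MonoidHom.id F) 1
  let q : Coprod F (FreeGroup π.ker) →* F :=
    Coprod.lift (MonoidHom.id F) (FreeGroup.lift Subtype.val)
  have e : π.comp q = π.comp p := by
    refine Coprod.hom_ext rfl ?_
    ext r
    simpa [p, q] using (MonoidHom.mem_ker.1 r.2)
  have k : KM p π q := KM.of_comp π (DFunLike.congr_fun e)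
  have s : ∀ r, π r = 1 → ∃ w, p w = 1 ∧ q w = r := fun r h =>
    ⟨Coprod.inr (.of ⟨r, h⟩), by simp [p], by simp [q]⟩
  obtain ⟨ξ', W', b1, b2, rfl⟩ := a1.lift k s
  obtain ⟨J, _, _, V, c1, c2⟩ := tr_ker k (fun f => ⟨Coprod.inl f, rfl⟩) s (bdK (-ε) p q)
    (fun u w a b => mem_bdK u a b) (-ξ') (by rw [map_neg, neg_eq_zero]; exact b2)
  have d1 := b1.sum c1
  rw [add_neg_cancel] at d1
  obtain ⟨M, _, _, θ', d2⟩ := exists_sys d1.uni (by rw [d1.ucl, map_zero, map_zero])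
  have d3 := IsUnit.mp q d2
  rw [mp_sysM, mp_dsum, mp_dsum, c2, mp_one] at d3
  obtain ⟨C, hC⟩ := a2.exists_left_inv
  obtain ⟨N, _, _, β, m, hβ⟩ := hasBox_upper a1.uni (ucl_sys a1.uni hC)
  obtain ⟨β₁, m₁, h₁, e₁⟩ := hβ.pad J
  obtain ⟨β₂, m₂, h₂, e₂⟩ := h₁.pad M
  have g1 := cap_box h2 _ a1.triv a2 hβ
  have g2 := cap_box h2 π ((a1.pad J).pad M).triv d3 h₂
  rw [e₂, e₁, mp_mp, e, ← mp_mp, ← m0_cls _ (cap_ns' _ (d1.pad M).triv d2)] at g2
  have := add_mem (sub_mem g1 g2) ⟨cls ε (mp p θ'), rfl⟩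
  rwa [sub_sub_sub_cancel_right, sub_add_cancel] at this

theorem DD.neg (h2 : NoTwo G) (h : DD ε π x ξ) : DD ε π (-x) (-ξ) := by
  obtain ⟨y, k⟩ := exists_dd (ξ := -ξ) (by rw [map_neg, map_neg, h.cycle, neg_zero])
  have a := h.add k
  rw [add_neg_cancel] at a
  obtain ⟨c, hc⟩ := a.closed h2
  have := k.add (dd_closed (π := π) (-c))
  rwa [add_zero, map_neg, hc, neg_add_rev, add_neg_cancel_left] at this

theorem DD.sub (h2 : NoTwo G) (h : DD ε π x ξ) (h' : DD ε π y ζ) : DD ε π (x - y) (ξ - ζ) := by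
  rw [sub_eq_add_neg, sub_eq_add_neg]
  exact h.add (h'.neg h2)

end Pool.Agent.Work.MP_9d1ffa_al
end

-- merged part: Pool.Agent.Work.MP_9d1ffa_al.Br.XEv
section
/-! The even part of the sequence in terms of capped forms; retracts, unions, free products. -/

namespace Pool.Agent.Work.MP_9d1ffa_al

open Matrix MonoidAlgebra TensorProduct Monoid

set_option linter.unusedSectionVars false
set_option linter.unusedVariables false

variable {F G H Q X Y : Type} [Group F] [Group G] [Group H] [Group Q] {ε η : ℤˣ}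

theorem sysM_sub {R I J : Type} [Ring R] [StarRing R] [Fintype I] [Fintype J]
    (W : Matrix (I ⊕ I) (I ⊕ I) R) (θ : Matrix I I R) (e : J ≃ I) :
    sysM ε (W.submatrix (e.sumCongr e) (e.sumCongr e)) (θ.submatrix e e) =
      (sysM ε W θ).submatrix e e := by
  rw [sysM, sysM, submatrix_sub, Pi.sub_apply, Pi.sub_apply, ← submatrix_mul_equiv _ _ _ e]
  rfl

theorem dd_zi {π : F →* G} (y : L0 ℤ ε) : DD ε π (zi ε G y) 0 := m0_zi π y ▸ dd_closed _

/-- the boundary may be taken in normal form -/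
theorem DD.bd {π : F →* G} (h2 : NoTwo G) {x : L0 (ZG G) ε} {ξ : Tr (-ε) π} (h : DD ε π x ξ) :
    ∃ (I : Type) (_ : Fintype I) (_ : DecidableEq I) (W : Matrix (I ⊕ I) (I ⊕ I) (ZG F))
      (θ : Matrix I I (ZG F)), Bd (-ε) π ξ W ∧ IsUnit (sysM ε W θ) ∧ x = cls ε (mp π θ) := by
  have key : ∀ {I M : Type} [Fintype I] [DecidableEq I] [Fintype M] [DecidableEq M]
      {W : Matrix (I ⊕ I) (I ⊕ I) (ZG F)} {θ : Matrix (I ⊕ M) (I ⊕ M) (ZG F)}, Bd (-ε) π ξ W →
      IsUnit (sysM ε (dsum W (1 : Matrix (M ⊕ M) (M ⊕ M) (ZG F))) θ) →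
      ∃ (J : Type) (_ : Fintype J) (_ : DecidableEq J) (W' : Matrix (J ⊕ J) (J ⊕ J) (ZG F))
        (θ' : Matrix J J (ZG F)), Bd (-ε) π ξ W' ∧ IsUnit (sysM ε W' θ') ∧
          cls ε (mp π θ) = cls ε (mp π θ') := by
    intro I M _ _ _ _ W θ a b
    obtain ⟨J, _, _, e, k⟩ := a.pad M
    refine ⟨J, inferInstance, inferInstance, _, θ.submatrix e e, k, ?_,
      cls_iso (iso_reindex _ e)⟩
    obtain ⟨v, h1, h2⟩ := OU1_inv b
    rw [sysM_sub]
    exact OU1_unit (V := v.submatrix e e) (by rw [submatrix_mul_equiv, h1, submatrix_one_equiv])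
      (by rw [submatrix_mul_equiv, h2, submatrix_one_equiv])
  obtain ⟨I, _, _, W, a⟩ := exists_bd π ξ
  obtain ⟨M, _, _, θ, b⟩ := exists_sys a.bs.uni (a.bs.ucl.trans h.cycle)
  obtain ⟨J, _, _, W', θ', c1, c2, -⟩ := key a b
  have d := h.sub h2 ⟨J, inferInstance, inferInstance, W', θ', c1.bs, c2, rfl⟩
  rw [sub_self] at d
  obtain ⟨y, hy⟩ := d.closed h2
  obtain ⟨n, κ, hκ, rfl⟩ := cls_surj y
  obtain ⟨L, _, _, W'', θ'', e1, e2, e3⟩ := key (θ := fromBlocks θ' 0 0 κ) c1 (by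
    rw [sysM_dsum, sysM_one]
    exact unit_blocks c2 hκ)
  refine ⟨L, inferInstance, inferInstance, W'', θ'', e1, e2, ?_⟩
  rw [← e3, mp_blocks, mp_zero, mp_zero, cls_sum (cap_ns' _ c1.bs.triv c2) (hκ.mp _), ← m0_cls _ hκ,
    hy, add_sub_cancel]

section Free

variable {π : FreeGroup X →* G} {x : L0 (ZG G) ε} {ξ : Tr (-ε) π}

theorem DD.const (h2 : NoTwo G) (h : DD ε π x 0) : x ∈ (zi ε G).range := by
  obtain ⟨y, rfl⟩ := h.closed h2
  obtain ⟨c, rfl⟩ := (lf_free _).zi_surj y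
  exact ⟨c, (m0_zi π c).symm⟩

theorem DD.tb_eq (h : DD ε π x ξ) : tb π ξ = 0 :=
  (map_eq_zero_iff _ ((closed_base.free X).bij _).1).1 h.cycle

end Free

/-- every class is a capped form, and the class determines the boundary -/
structure Gd (ε : ℤˣ) (π : F →* G) : Prop where
  tot : ∀ x, ∃ ξ, DD ε π x ξ
  fn : ∀ ξ, DD ε π 0 ξ → ξ = 0

theorem Ev.gd (h : Ev G) (h2 : NoTwo G) {π : FreeGroup X →* G} (hπ : Function.Surjective π)
    (ε : ℤˣ) : Gd ε π := by
  obtain ⟨d, d1, d2, -⟩ := h X π hπ ε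
  refine ⟨fun x => ?_, fun ξ k => ?_⟩
  · obtain ⟨ξ, I, _, _, W, θ, a, b, c⟩ := d2 x
    exact ⟨ξ, I, inferInstance, inferInstance, W, θ, a.bs, b, c.symm⟩
  · obtain ⟨I, _, _, W, θ, a, b, c⟩ := k.bd h2
    rw [← d1 ξ I W θ a b, ← c, map_zero]

theorem free_lift {π : F →* G} (hπ : Function.Surjective π) (f : FreeGroup X →* G) :
    ∃ φ : FreeGroup X →* F, ∀ z, π (φ z) = f z := by
  choose g hg using hπ
  refine ⟨FreeGroup.lift fun x => g (f (.of x)), DFunLike.congr_fun (show π.comp _ = f from ?_)⟩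
  ext x
  simp [hg]

theorem Gd.ret {π : FreeGroup X →* G} {π' : FreeGroup Y →* H} (hπ : Function.Surjective π)
    (hπ' : Function.Surjective π') (s : G →* H) (r : H →* G) (e : ∀ g, r (s g) = g)
    (h : Gd ε π') : Gd ε π := by
  obtain ⟨φ, hφ⟩ := free_lift hπ' (s.comp π)
  obtain ⟨ρ, hρ⟩ := free_lift hπ (r.comp π')
  refine ⟨fun x => ?_, fun ξ k => ?_⟩
  · obtain ⟨ξ, k⟩ := h.tot (m0 ε s x)
    have := k.map r hρ
    rw [m0_comp, show r.comp s = MonoidHom.id G from MonoidHom.ext e, m0_id] at this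
    exact ⟨_, this⟩
  · have k1 := k.map s hφ
    rw [map_zero] at k1
    have k2 := congrArg (tr (KM.of_comp r hρ)) (h.fn _ k1)
    rwa [map_zero, tr_comp, tr_homotopy _ KM.id (fun z => (hρ _).trans ((congrArg r (hφ z)).trans
      (e _))) k.tb_eq, tr_id] at k2

theorem Gd.ev (h2 : NoTwo G) {π : FreeGroup Y →* G} (hπ : Function.Surjective π)
    (h : ∀ ε, Gd ε π) : Ev G := fun X π' hπ' ε => by
  have k : Gd ε π' := (h ε).ret hπ' hπ (MonoidHom.id G) (MonoidHom.id G) fun _ => rfl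
  have u : ∀ {x ξ ξ'}, DD ε π' x ξ → DD ε π' x ξ' → ξ = ξ' := fun a b =>
    sub_eq_zero.1 (k.fn _ (sub_self (_ : L0 (ZG G) ε) ▸ a.sub h2 b))
  choose d hd using k.tot
  refine ⟨AddMonoidHom.mk' d fun x y => u (hd _) ((hd x).add (hd y)), fun ξ I _ _ W θ a b =>
    u (hd _) ⟨I, inferInstance, inferInstance, W, θ, a.bs, b, rfl⟩, fun x => ⟨d x, (hd x).bd h2⟩,
    fun x => ⟨fun e => DD.const h2 ((show d x = 0 from e) ▸ hd x), ?_⟩,
    fun ξ => ⟨fun e => ?_, ?_⟩⟩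
  · rintro ⟨y, rfl⟩
    exact u (hd _) (dd_zi y)
  · obtain ⟨x, hx⟩ := exists_dd (ε := ε) (π := π') (ξ := ξ)
      (by rw [show tb π' ξ = 0 from e, map_zero])
    exact ⟨x, u (hd x) hx⟩
  · rintro ⟨x, rfl⟩
    exact (hd x).tb_eq

/-- the canonical presentation -/
def can (G : Type) [Group G] : FreeGroup G →* G := FreeGroup.lift id

theorem can_of (g : G) : can G (.of g) = g := FreeGroup.lift_apply_of

theorem can_surj : Function.Surjective (can G) := fun g => ⟨.of g, can_of g⟩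

theorem can_map (f : G →* H) (z : FreeGroup G) : can H (FreeGroup.map f z) = f (can G z) := by
  refine DFunLike.congr_fun (show (can H).comp (FreeGroup.map f) = f.comp (can G) from ?_) z
  ext g
  simp [can_of]

theorem ev_triv [Subsingleton G] : Ev G := by
  refine Gd.ev (fun _ _ => Subsingleton.elim _ _) (π := (1 : FreeGroup Empty →* G))
    (fun g => ⟨1, Subsingleton.elim _ _⟩) fun ε => ⟨fun x => ?_, fun ξ _ => ?_⟩
  · obtain ⟨y, rfl⟩ := zi_surj_triv x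
    exact ⟨0, dd_zi y⟩
  · rw [← tr_id ξ]
    exact tr_triv _ (fun _ _ => Subsingleton.elim _ _) ξ

theorem ev_ret (s : G →* H) (r : H →* G) (e : ∀ g, r (s g) = g) (h2 : NoTwo G) (h2' : NoTwo H)
    (h : Ev H) : Ev G :=
  Gd.ev h2 can_surj fun ε => (h.gd h2' can_surj ε).ret can_surj can_surj s r e

theorem Big.free {p : ∀ (H : Type) [Group H], (H →* FreeGroup X) → Prop}
    (h : Big (FreeGroup X) p) : ∃ S : Finset X, p (FreeGroup S) (FreeGroup.map Subtype.val) := by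
  obtain ⟨T, hT⟩ := h
  obtain ⟨S, hS⟩ := fin_gen T
  refine ⟨S, hT _ _ (FreeGroup.map_injective Subtype.val_injective) fun g hg => ?_⟩
  rw [OHNN_range, Subtype.range_coe_subtype]
  exact hS g hg

theorem big_bs {π : F →* G} {I : Type} [Fintype I] [DecidableEq I] {ξ : Tr η π}
    {W : Matrix (I ⊕ I) (I ⊕ I) (ZG F)} (h : Bs η π ξ W) : Big F fun H _ f =>
      ∃ ξ' W', Bs η (π.comp f) ξ' W' ∧ tr (φ := f) (fun _ k => k) ξ' = ξ ∧ mp f W' = W := by
  induction h with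
  | one I => exact Big.of_forall fun H _ f => ⟨0, 1, Bs.one I, map_zero _, mp_one _⟩
  | pc ψ hψ r k =>
    refine (big_mem r).mono ?_
    rintro H _ f hf ⟨r, rfl⟩
    exact ⟨_, _, Bs.pc ψ hψ r k, rfl, mp_circ _ hψ _⟩
  | sum _ _ h h' =>
    refine (h.and h').mono ?_
    rintro H _ f hf ⟨⟨ζ, V, a, rfl, rfl⟩, ζ', V', a', rfl, rfl⟩
    exact ⟨_, _, a.sum a', map_add _ _ _, mp_dsum _ _ _⟩

theorem big_z (π : F →* G) {I : Type} [Fintype I] [DecidableEq I] {θ : Matrix I I (ZG F)}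
    (h : Z ε (mp π θ)) : Big G fun H _ f => ∀ k : F →* H, f.comp k = π → Z ε (mp k θ) := by
  obtain ⟨m, n, g, g', h1, h2, χ, h3⟩ := h
  refine ((big_mat g).and ((big_mat g').and (big_mat χ))).mono ?_
  rintro H _ f hf ⟨⟨g, rfl⟩, ⟨g', rfl⟩, χ, rfl⟩ k rfl
  refine ⟨m, n, g, g', mp_inj hf ?_, mp_inj hf ?_, χ, mp_inj hf ?_⟩
  · rw [mp_mul, h1, mp_one]
  · rw [mp_mul, h2, mp_one]
  · rw [mp_mul, mp_mul, mp_sub, mp_add, mp_zsmul, mp_ct, mp_ct, mp_hyp, mp_blocks, mp_zero, mp_zero,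
      mp_hyp, mp_mp, h3]

theorem ev_lcl (h2 : NoTwo G) (h : Lcl (fun H _ => Base H ∧ Ev H) G) : Ev G := by
  refine Gd.ev h2 can_surj fun ε => ⟨fun x => ?_, fun ξ k => ?_⟩
  · obtain ⟨H, _, f, -, ⟨b, a⟩, y, rfl⟩ := h.big (big_l0 x)
    obtain ⟨ξ, k⟩ := (a.gd b.two can_surj ε).tot y
    exact ⟨_, k.map f (can_map f)⟩
  obtain ⟨I, _, _, W, θ, a1, a2, a3⟩ := k
  obtain ⟨C, hC⟩ := a2.exists_left_inv
  obtain ⟨S, ⟨ξ, W, b1, rfl, rfl⟩, ⟨θ, rfl⟩, C, rfl⟩ :=
    ((big_bs a1).and ((big_mat θ).and (big_mat C))).free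
  have b2 : IsUnit (sysM ε W θ) := sys_unit b1.uni (C := C)
    (mp_inj (FreeGroup.map_injective Subtype.val_injective) (by rw [mp_mul, mp_sysM, hC, mp_one]))
  rw [mp_mp] at a3
  obtain ⟨H, _, f, f1, ⟨b, a⟩, f2, f3⟩ := h.big
    ((big_all fun s : S => (s : G)).and (big_z _ ((cls_eq_zero (cap_ns' _ b1.triv b2)).1 a3)))
  choose g hg using f2
  have e : f.comp (FreeGroup.lift g) = (can G).comp (FreeGroup.map (Subtype.val : S → G)) := by
    ext s
    simp [hg, can_of]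
  have km : KM ((can G).comp (FreeGroup.map (Subtype.val : S → G))) (FreeGroup.lift g)
      (MonoidHom.id _) := fun r k => f1 (((DFunLike.congr_fun e r).trans k).trans (map_one f).symm)
  have b3 := b1.map km
  rw [mp_id] at b3
  have c1 : DD ε (FreeGroup.lift g) 0 (tr km ξ) := ⟨I, inferInstance, inferInstance, W, θ, b3, b2,
    (cls_eq_zero (cap_ns' _ b3.triv b2)).2 (f3 _ e)⟩
  obtain ⟨φ, hφ⟩ := free_lift (can_surj (G := H)) (FreeGroup.lift g)
  have c2 := c1.map (MonoidHom.id H) hφ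
  rw [map_zero] at c2
  have c3 := congrArg (tr (KM.of_comp f (can_map f))) ((a.gd b.two can_surj ε).fn _ c2)
  rw [map_zero, tr_comp, tr_comp] at c3
  refine (tr_homotopy _ _ (fun z => ?_)
    (DD.tb_eq ⟨I, inferInstance, inferInstance, W, θ, b1, b2, rfl⟩)).trans c3
  exact (DFunLike.congr_fun e z).symm.trans ((congrArg f (hφ z).symm).trans (can_map f _).symm)

theorem desc {π : F →* G} (hπ : Function.Surjective π) (c : F →* Q) (h : ∀ r, π r = 1 → c r = 1) :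
    ∃ c' : G →* Q, ∀ z, c' (π z) = c z :=
  ⟨π.liftOfSurjective hπ ⟨c, h⟩, fun z => π.liftOfRightInverse_comp_apply _ _ ⟨c, h⟩ z⟩

theorem cop_eq₀ (h2 : NoTwo G) (h2' : NoTwo H) (x : L0 (ZG (Coprod G H)) ε) :
    ∃ y y' c, x = m0 ε Coprod.inl y + m0 ε Coprod.inr y' + zi ε _ c := by
  obtain ⟨y, w, e⟩ := cop_eq fa_K0 h2 h2' (m0 ε (MonoidHom.inl _ K0) x)
  have k := congrArg (m0 ε (MonoidHom.fst _ K0)) e
  have o : ∀ z, m0 ε (MonoidHom.fst _ K0) (m0 ε (px K0 (1 : Coprod G H →* Coprod G H)) z) =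
    zi ε _ (L0.map (aug _) aug_star z) := fun z => (m0_comp _ _ z).trans (m0_one z)
  rw [map_add, map_add, map_add, m0_comp, MonoidHom.fst_comp_inl, m0_id, o, o] at k
  generalize L0.map (aug _) aug_star (m0 ε (MonoidHom.inl _ K0) x) = c at k
  generalize L0.map (aug _) aug_star w = c' at k
  refine ⟨m0 ε ((MonoidHom.fst G H).comp (MonoidHom.fst _ K0)) y,
    m0 ε ((MonoidHom.snd G H).comp (MonoidHom.fst _ K0)) y, c' - c, ?_⟩
  rw [map_sub, ← add_sub_assoc, eq_sub_iff_add_eq, k, m0_comp, m0_comp, m0_comp, m0_comp]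
  rfl

theorem ev_cop (h2 : NoTwo G) (h2' : NoTwo H) (h : Ev G) (h' : Ev H) : Ev (Coprod G H) := by
  let π : FreeGroup (G ⊕ H) →* Coprod G H := FreeGroup.lift (Sum.elim Coprod.inl Coprod.inr)
  have e1 : ∀ z, π (FreeGroup.map Sum.inl z) = Coprod.inl (can G z) := fun z => by
    refine DFunLike.congr_fun (show π.comp (FreeGroup.map Sum.inl) = Coprod.inl.comp _ from ?_) z
    ext g
    simp [π, can_of]
  have e2 : ∀ z, π (FreeGroup.map Sum.inr z) = Coprod.inr (can H z) := fun z => by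
    refine DFunLike.congr_fun (show π.comp (FreeGroup.map Sum.inr) = Coprod.inr.comp _ from ?_) z
    ext g
    simp [π, can_of]
  have hπ : Function.Surjective π := fun g => by
    induction g using Coprod.induction_on with
    | inl g => exact ⟨.of (Sum.inl g), by simp [π]⟩
    | inr g => exact ⟨.of (Sum.inr g), by simp [π]⟩
    | mul a b ha hb =>
      obtain ⟨a, rfl⟩ := ha
      obtain ⟨b, rfl⟩ := hb
      exact ⟨a * b, map_mul _ _ _⟩
  refine Gd.ev (h2.coprod h2') hπ fun ε => ⟨fun x => ?_, fun ξ k => ?_⟩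
  · obtain ⟨y, y', c, rfl⟩ := cop_eq₀ h2 h2' x
    obtain ⟨ξ, k⟩ := (h.gd h2 can_surj ε).tot y
    obtain ⟨ξ', k'⟩ := (h'.gd h2' can_surj ε).tot y'
    exact ⟨_, ((k.map _ e1).add (k'.map _ e2)).add (dd_zi c)⟩
  obtain ⟨ζ, ζ', rfl⟩ := tr_span (KM.of_comp _ e1) (KM.of_comp _ e2) (fun r hr => by
    generalize hN : Subgroup.normalClosure (G := FreeGroup (G ⊕ H)) _ = N
    have : N.Normal := hN ▸ Subgroup.normalClosure_normal
    obtain ⟨c, hc⟩ := desc can_surj ((QuotientGroup.mk' N).comp (FreeGroup.map Sum.inl))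
      fun r k => (QuotientGroup.eq_one_iff _).2
        (hN ▸ Subgroup.subset_normalClosure (Or.inl ⟨r, k, rfl⟩))
    obtain ⟨c', hc'⟩ := desc can_surj ((QuotientGroup.mk' N).comp (FreeGroup.map Sum.inr))
      fun r k => (QuotientGroup.eq_one_iff _).2
        (hN ▸ Subgroup.subset_normalClosure (Or.inr ⟨r, k, rfl⟩))
    have e : (Coprod.lift c c').comp π = QuotientGroup.mk' N := by
      ext (g | g)
      · simpa [π, can_of] using hc (.of g)
      · simpa [π, can_of] using hc' (.of g)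
    refine (QuotientGroup.eq_one_iff r).1 ((DFunLike.congr_fun e r).symm.trans ?_)
    rw [MonoidHom.comp_apply, show π r = 1 from hr, map_one]) ξ
  let p : FreeGroup (G ⊕ H) →* FreeGroup G := FreeGroup.lift (Sum.elim .of fun _ => 1)
  let q : FreeGroup (G ⊕ H) →* FreeGroup H := FreeGroup.lift (Sum.elim (fun _ => 1) .of)
  have p0 : ∀ z, can G (p z) = Coprod.fst (π z) := fun z => by
    refine DFunLike.congr_fun (show (can G).comp p = Coprod.fst.comp π from ?_) z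
    ext (g | g) <;> simp [π, p, can_of]
  have q0 : ∀ z, can H (q z) = Coprod.snd (π z) := fun z => by
    refine DFunLike.congr_fun (show (can H).comp q = Coprod.snd.comp π from ?_) z
    ext (g | g) <;> simp [π, q, can_of]
  have p1 : p.comp (FreeGroup.map Sum.inl) = MonoidHom.id _ := by ext; simp [p]
  have p2 : p.comp (FreeGroup.map Sum.inr) = 1 := by ext; simp [p]
  have q1 : q.comp (FreeGroup.map Sum.inl) = 1 := by ext; simp [q]
  have q2 : q.comp (FreeGroup.map Sum.inr) = MonoidHom.id _ := by ext; simp [q]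
  have k1 := k.map _ p0
  have k2 := k.map _ q0
  rw [map_zero, map_add, tr_comp, tr_comp] at k1 k2
  rw [tr_congr _ KM.id (fun r _ => DFunLike.congr_fun p1 r), tr_id,
    tr_triv _ (fun r _ => DFunLike.congr_fun p2 r), add_zero] at k1
  rw [tr_triv _ (fun r _ => DFunLike.congr_fun q1 r), zero_add,
    tr_congr _ KM.id (fun r _ => DFunLike.congr_fun q2 r), tr_id] at k2
  rw [(h.gd h2 can_surj ε).fn _ k1, (h'.gd h2' can_surj ε).fn _ k2, map_zero, map_zero, add_zero]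

end Pool.Agent.Work.MP_9d1ffa_al
end

-- merged part: Pool.Agent.Work.MP_9d1ffa_al.Br.XM
section
/-! The kernel of the vertex map in even degrees and the uniqueness of edge classes. -/

namespace Pool.Agent.Work.MP_9d1ffa_al

open Matrix MonoidAlgebra Monoid MulAction

set_option linter.unusedSectionVars false
set_option linter.unusedVariables false

variable {Γ V A G H B K : Type} [Group Γ] [Group V] [Group A] [Group G] [Group H] [Group B]
  [Group K] {ε : ℤˣ}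

/-- the HNN extension along two embeddings exists -/
theorem exists_hnn (i j : A →* V) (hi : Function.Injective i) (hj : Function.Injective j) :
    ∃ (Γ : Type) (_ : Group Γ) (C : Cut Γ V A), C.i = i ∧ C.j = j ∧ C.toPH.Univ := by
  let φ : j.range ≃* i.range := (MonoidHom.ofInjective hj).symm.trans (MonoidHom.ofInjective hi)
  have hφ : ∀ a, (φ ⟨j a, a, rfl⟩ : V) = i a := fun a => by
    have : (MonoidHom.ofInjective hj).symm ⟨j a, a, rfl⟩ = a := (MulEquiv.symm_apply_eq _).2 rfl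
    simp only [φ, MulEquiv.trans_apply, this]
    rfl
  let D : PH (HNNExtension V _ _ φ) V A :=
    ⟨HNNExtension.of, i, j, HNNExtension.t, fun a => by
      rw [← hφ]
      exact (HNNExtension.t_mul_of (φ := φ) ⟨j a, a, rfl⟩).symm⟩
  have u : D.Univ := fun Γ' _ f τ k => ⟨HNNExtension.lift f τ (by
      rintro ⟨_, a, rfl⟩
      rw [hφ]
      exact (k a).symm), fun x => HNNExtension.lift_of _ _ _ x, HNNExtension.lift_t _ _ _⟩
  obtain ⟨C, hC⟩ := cut_of_univ D hi hj (eq_top_iff.2 fun g hg => by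
    clear hg
    induction g using HNNExtension.induction_on with
    | of g => exact Subgroup.subset_closure (Or.inr ⟨g, rfl⟩)
    | t => exact Subgroup.subset_closure (Or.inl rfl)
    | mul x y hx hy => exact mul_mem hx hy
    | inv x hx => exact inv_mem hx) u
  exact ⟨_, inferInstance, C, by rw [hC], by rw [hC], hC ▸ u⟩

theorem Cut.hom_ext (C : Cut Γ V A) {f f' : Γ →* G} (h1 : ∀ x, f (C.v x) = f' (C.v x))
    (h2 : f C.t = f' C.t) : f = f' := by
  refine MonoidHom.eq_of_eqOn_dense C.gen ?_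
  rintro _ (rfl | ⟨x, rfl⟩)
  · exact h2
  · exact h1 x

theorem Cut.Ed.split' {C : Cut Γ V A} (hΓ : NoTwo Γ) (hA : LF A) {x : L0 (ZG Γ) ε}
    (h : C.Ed ε x 0) : x ∈ (m0 ε C.v).range :=
  h.split (C.unil₀ hA hΓ ε) hΓ

section

variable {Γ' V' A' : Type} [Group Γ'] [Group V'] [Group A']

/-- simultaneous realisation of an edge class in two splittings -/
theorem Cut.realise₂ (C : Cut Γ V A) (C' : Cut Γ' V' A') (f : PHom C'.toPH C.toPH)
    (d : L1 (ZG A') (-ε)) (h : m1 (-ε) C'.i d = m1 (-ε) C'.j d) :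
    ∃ x : L0 (ZG Γ') ε, C'.Ed ε x d ∧ C.Ed ε (m0 ε f.f x) (m1 (-ε) f.fa d) := by
  obtain ⟨n, U, hU, rfl⟩ := ucl_surj d
  obtain ⟨M, _, _, θ, P, Q, k1, k2⟩ := C'.toPH.rl (ε := ε) (I := Empty) (W := 1) uni_one hU
    (by rw [ucl_one, h, sub_self, smul_zero])
  rw [dsum_one] at k1 k2
  rw [PH.sys_one] at k1
  have k4 := Loc.ef C (hU.mp f.fa) (k2.map f)
  rw [mp_one] at k4
  refine ⟨cls ε (C'.lin θ P Q), ⟨_, inferInstance, inferInstance, U, ⟨_, inferInstance,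
    inferInstance, θ, P, Q, k1, Loc.ef C' hU k2, rfl⟩, rfl⟩, _, inferInstance, inferInstance,
    mp f.fa U, ⟨_, inferInstance, inferInstance, _, _, _, ?_, k4, ?_⟩, (m1_ucl _ hU).symm⟩
  · rw [← f.lin]
    exact NS.mp _ k1
  · rw [m0_cls _ k1, f.lin]

end

section Dbl

variable {Γ' : Type} [Group Γ'] {C : Cut Γ V A} {C' : Cut Γ' Γ A} {f : Γ →* Γ'}

theorem pos_dbl (hi : C'.i = C.va) (h1 : ∀ x, f (C.v x) = C'.v (C.v x))
    (h2 : f C.t = C'.t * C'.v C.t) (hf : Function.Injective f) (g : Γ) :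
    C'.pos (f g) ↔ C.pos g := by
  have va : ∀ g, (∃ a, C'.va a = f g) ↔ ∃ a, C.va a = g := fun g => exists_congr fun a => by
    rw [show C'.va a = f (C.va a) from (congrArg C'.v (DFunLike.congr_fun hi a)).trans
      (h1 (C.i a)).symm, hf.eq_iff]
  have hg : g ∈ Subgroup.closure (insert C.t (Set.range C.v)) := C.gen ▸ Subgroup.mem_top g
  induction hg using Subgroup.closure_induction_right with
  | one => rw [map_one]; exact iff_of_false C'.one C.one
  | mul_right x _ y hy ih =>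
    replace ih : C'.pos (f x) ↔ C.pos x := ih
    rcases hy with rfl | ⟨h, rfl⟩
    · rw [map_mul, h2, ← mul_assoc, C'.right, C'.OCut_pos_t, C.OCut_pos_t, ih, va]
    · rw [map_mul, h1, C'.right, C.right, ih]
  | mul_inv_cancel x _ y hy ih =>
    replace ih : C'.pos (f x) ↔ C.pos x := ih
    rcases hy with rfl | ⟨h, rfl⟩
    · have e : f (x * C.t⁻¹) = f x * C'.v C.t⁻¹ * C'.t⁻¹ := by
        rw [map_mul, map_inv, h2, _root_.mul_inv_rev, map_inv, mul_assoc]
      rw [C.OCut_pos_tinv, ← va, ← ih, e, C'.OCut_pos_tinv, C'.right]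
    · rw [← map_inv, map_mul, h1, C'.right, C.right, ih]

theorem ed_dbl (hi : C'.i = C.va) (h1 : ∀ x, f (C.v x) = C'.v (C.v x))
    (h2 : f C.t = C'.t * C'.v C.t) (hf : Function.Injective f) {x : L0 (ZG Γ) ε}
    {d : L1 (ZG A) (-ε)} (h : C.Ed ε x d) : C'.Ed ε (m0 ε f x) d := by
  obtain ⟨J, _, _, U, ⟨I, _, _, θ, P, Q, a1, a2, rfl⟩, rfl⟩ := h
  have hp := pos_dbl hi h1 h2 hf
  have ev : ∀ {M N : Type} (X : Matrix M N (ZG V)), mp f (mp C.v X) = mp C'.v (mp C.v X) :=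
    fun X => by rw [mp_mp, mp_mp, show f.comp C.v = C'.v.comp C.v from MonoidHom.ext h1]
  have ea : ∀ {M N : Type} (X : Matrix M N (ZG A)), mp f (mp C.va X) = mp C'.va X := fun X => by
    rw [mp_mp, show f.comp C.va = C'.va from MonoidHom.ext fun a => (h1 (C.i a)).trans
      (congrArg C'.v (DFunLike.congr_fun hi a)).symm]
  have et : dg J (f C.t) = dg J C'.t * mp C'.v (dg J C.t) := by rw [mp_dg, dg_mul, h2]
  have eq : (mp C'.v (mp C.v Q * dg J C.t⁻¹))ᴴ = mp C'.v (dg J C.t) * (mp C'.v (mp C.v Q))ᴴ := by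
    rw [← mp_ct, conjTranspose_mul, dg_ct, inv_inv, mp_mul, mp_ct]
  have el : mp f (C.lin θ P Q) = C'.lin (mp C.v θ) (mp C.v P) (mp C.v Q * dg J C.t⁻¹) := by
    rw [PH.lin, PH.lin, mp_add, mp_mul, mp_mul, mp_ct, mp_dg, ev, ev, ev, et, eq]
    simp only [Matrix.mul_assoc]
  have sd : ∀ {M : Type} {X : Matrix (J ⊕ J) M (ZG Γ)}, C.Side X → C'.Side (mp f X) :=
    fun h => ⟨h.1.map f fun g a => (hp g).2 a, h.2.map f fun g a e => a ((hp g).1 e)⟩
  obtain ⟨hU, Y, b1, b2, b3, b4⟩ := OIn0_ef.1 a2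
  refine ⟨J, inferInstance, inferInstance, U, ⟨I, inferInstance, inferInstance, mp C.v θ, mp C.v P,
    mp C.v Q * dg J C.t⁻¹, el ▸ a1.mp f, OIn0_ef.2 ⟨hU, mp f Y, ?_, sd b2, ?_, ?_⟩,
    by rw [← el, m0_cls _ a1]⟩, rfl⟩
  · rw [← el, ← mp_sy, ← mp_mul, b1, mp_add, mp_neg, mp_zsmul, mp_mul, mp_mul, mp_mul, mp_ct, mp_ct,
      mp_dg, ea, ea, ev, ev, et, eq]
    simp only [Matrix.mul_assoc]
  · have := (sd b3).mul_v (dg J C.t⁻¹)
    rwa [mp_mul, mp_add, mp_mul, mp_dg, ea, ev, et, Matrix.mul_assoc, Matrix.mul_assoc, ← mp_mul,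
      dg_mul_inv, mp_one, Matrix.mul_one] at this
  · have := sd b4
    rwa [mp_sub, mp_mul, mp_mul, mp_dg, ea, ev, map_inv, h2, _root_.mul_inv_rev, ← dg_mul, ← map_inv,
      ← mp_dg, ← Matrix.mul_assoc, Matrix.mul_assoc (mp f Y), ← mp_mul] at this

end Dbl

theorem m1_px_inl (f : G →* H) (c : L1 (ZG G) ε) :
    m1 ε (px K f) (m1 ε (MonoidHom.inl G K) c) = m1 ε (MonoidHom.inl H K) (m1 ε f c) := by
  rw [m1_comp, m1_comp]
  rfl

/-- a class that dies in the whole group is a difference of the two images of an edge class -/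
theorem Cut.ker_v₀ (C : Cut Γ V A) (hA : LF A) (hV : SFI (ZG V)) {y : L0 (ZG V) ε}
    (h : m0 ε C.v y = 0) : ∃ z : L0 (ZG A) ε, y = m0 ε C.i z - m0 ε C.j z := by
  obtain ⟨e, he⟩ := (C.prod (Multiplicative ℤ)).ker_v (hA.sfi fa_Z) (c := wz ε V y)
    ((m1_wz C.v y).trans (by rw [h, map_zero]))
  obtain ⟨e₀, z, rfl⟩ := wang_surj hA.sfi₀ e
  refine ⟨z, sub_eq_zero.1 (wang_inj hV (c := m1 ε C.i e₀ - m1 ε C.j e₀) ?_)⟩
  replace he : wz ε V y = m1 ε (px (Multiplicative ℤ) C.i) (m1 ε (MonoidHom.inl A _) e₀ + wz ε A z) -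
    m1 ε (px (Multiplicative ℤ) C.j) (m1 ε (MonoidHom.inl A _) e₀ + wz ε A z) := he
  rw [map_sub, map_sub, he, map_add, map_add, m1_wz, m1_wz, m1_px_inl, m1_px_inl, map_sub]
  abel

/-- edge classes are unique -/
theorem Cut.Ed.unique {C : Cut Γ V A} (u : C.toPH.Univ) (hA : LF A) (hΓ : NoTwo Γ)
    {d : L1 (ZG A) (-ε)} (h : C.Ed ε 0 d) : d = 0 := by
  obtain ⟨Γ₂, _, C₂, hi, hj, u₂⟩ := exists_hnn C.va C.va C.vainj C.vainj
  have cm : ∀ a, C₂.v (C.va a) * C₂.t = C₂.t * C₂.v (C.va a) := fun a => by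
    have := C₂.rel a
    rwa [hi, hj] at this
  obtain ⟨f, f1, f2⟩ := u Γ₂ (C₂.v.comp C.v) (C₂.t * C₂.v C.t) fun a => by
    change C₂.v (C.va a) * _ = _ * C₂.v (C.v (C.j a))
    rw [← mul_assoc, cm, mul_assoc, mul_assoc, ← map_mul, ← map_mul]
    exact congrArg (fun z => C₂.t * C₂.v z) (C.rel a)
  obtain ⟨ρ, r1, r2⟩ := u₂ Γ (MonoidHom.id Γ) 1 fun a => by rw [hi, hj, mul_one, one_mul]
  have hf : Function.Injective f := Function.LeftInverse.injective (g := ρ)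
    (DFunLike.congr_fun (C.hom_ext (f := ρ.comp f) (f' := MonoidHom.id Γ)
      (fun x => (congrArg ρ (f1 x)).trans (r1 _))
      (by rw [MonoidHom.comp_apply, f2, map_mul, r2, one_mul, r1])))
  have h₂ := ed_dbl hi f1 f2 hf h
  rw [map_zero] at h₂
  let ι : PHom (Cut.line A).toPH C₂.toPH :=
    { f := (C₂.v.comp C.va).noncommCoprod (zpowersHom Γ₂ C₂.t) fun a n =>
        Commute.zpow_right (cm a) _
      fv := C.va
      fa := MonoidHom.id A
      hv := fun a => by simp [Cut.line]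
      hi := fun a => (DFunLike.congr_fun hi a).symm
      hj := fun a => (DFunLike.congr_fun hj a).symm
      ht := by simp [Cut.line] }
  obtain ⟨y, y1, y2⟩ := C₂.realise₂ (ε := ε) (Cut.line A) ι d rfl
  have q := y2.sub h₂
  rw [sub_zero, show m1 (-ε) ι.fa d = d from m1_id d, sub_self] at q
  obtain ⟨x, hx⟩ := q.split' (C₂.noTwo hΓ) hA
  obtain ⟨Γ₃, _, C₃, ki, kj, -⟩ := exists_hnn (V := Coprod Γ (A × Multiplicative ℤ))
    (Coprod.inl.comp C.va) (Coprod.inr.comp (MonoidHom.inl A _))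
    (Coprod.inl_injective.comp C.vainj)
    (Coprod.inr_injective.comp fun _ _ e => congrArg Prod.fst e)
  have c3 : ∀ a, C₃.v (Coprod.inl (C.va a)) * C₃.t = C₃.t * C₃.v (Coprod.inr (a, 1)) := fun a => by
    have := C₃.rel a
    rwa [ki, kj] at this
  obtain ⟨κ, k1, k2⟩ := u₂ Γ₃ (C₃.v.comp Coprod.inl)
    (C₃.t * C₃.v (Coprod.inr (1, Multiplicative.ofAdd 1)) * C₃.t⁻¹) fun a => by
      rw [hi, hj, MonoidHom.comp_apply, eq_mul_inv_of_mul_eq (c3 a)]
      simp only [mul_assoc, inv_mul_cancel_left]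
      rw [← mul_assoc (C₃.v _), ← mul_assoc (C₃.v _), ← map_mul, ← map_mul, ← map_mul, ← map_mul]
      simp
  have k3 : ∀ g, κ (ι.f g) * C₃.t = C₃.t * C₃.v (Coprod.inr g) := fun g => by
    have : (MulAut.conj C₃.t).toMonoidHom.comp (C₃.v.comp Coprod.inr) = κ.comp ι.f :=
      (Cut.line A).hom_ext (fun a => (eq_mul_inv_of_mul_eq (c3 a)).symm.trans
        ((k1 _).symm.trans (congrArg κ (ι.hv a).symm))) (k2.symm.trans (congrArg κ ι.ht.symm))
    exact (eq_mul_inv_iff_mul_eq.1 (DFunLike.congr_fun this g).symm)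
  have w1 : m1 ε (px (Multiplicative ℤ) C₃.v)
      (m1 ε (px (Multiplicative ℤ) Coprod.inr) (wz ε (A × Multiplicative ℤ) y) -
      m1 ε (px (Multiplicative ℤ) Coprod.inl) (wz ε Γ x)) = 0 := by
    rw [map_sub, m1_px, m1_px, ← m1_conj (px (Multiplicative ℤ) (κ.comp ι.f))
      (px (Multiplicative ℤ) (C₃.v.comp Coprod.inr)) (C₃.t, 1)
      (fun g => Prod.ext (k3 g.1) (by simp)), ← m1_px, m1_wz, ← hx, ← m1_wz, m1_px,
      show κ.comp C₂.v = C₃.v.comp Coprod.inl from MonoidHom.ext k1, sub_self]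
  obtain ⟨e, he⟩ := (C₃.prod (Multiplicative ℤ)).ker_v (hA.sfi fa_Z) w1
  replace he : _ = m1 ε (px (Multiplicative ℤ) C₃.i) e - m1 ε (px (Multiplicative ℤ) C₃.j) e := he
  have w2 := congrArg (m1 ε (px (Multiplicative ℤ)
    (Coprod.snd : Coprod Γ (A × Multiplicative ℤ) →* A × Multiplicative ℤ))) he
  have o1 : (Coprod.snd : _ →* A × Multiplicative ℤ).comp (Coprod.inl : Γ →* _) =
    (MonoidHom.inl A _).comp 1 := MonoidHom.ext fun _ => rfl
  have o2 : (Coprod.snd : _ →* A × Multiplicative ℤ).comp C₃.i = (MonoidHom.inl A _).comp 1 := by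
    rw [ki]
    exact MonoidHom.ext fun _ => rfl
  have o3 : (Coprod.snd : _ →* A × Multiplicative ℤ).comp C₃.j = MonoidHom.inl A _ := by
    rw [kj]
    exact MonoidHom.ext fun _ => rfl
  rw [map_sub, map_sub, m1_px, m1_px, m1_px, m1_px, o1, o2, o3, Coprod.snd_comp_inr, px_id, m1_id,
    ← m1_px, ← m1_px, sub_eq_iff_eq_add, ← map_sub, ← map_add] at w2
  obtain ⟨e₀, z, hz⟩ := wang_surj hA.sfi₀ (m1 ε (px (Multiplicative ℤ) (1 : A →* A)) e - e +
    m1 ε (px (Multiplicative ℤ) (1 : Γ →* A)) (wz ε Γ x))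
  rw [hz, map_add, m1_wz, m1_px_inl, ← sub_eq_iff_eq_add, ← map_sub] at w2
  have y3 := sub_eq_zero.1 (wang_inj (hA.sfi fa_Z) w2)
  exact line_ed_unique hA.sfi₀ y1 (y3 ▸ (Cut.line A).ed_v z)

end Pool.Agent.Work.MP_9d1ffa_al
end

-- merged part: Pool.Agent.Work.MP_9d1ffa_al.Br.XTop
section
/-! The even part of the sequence passes to HNN extensions along locally free groups. -/

namespace Pool.Agent.Work.MP_9d1ffa_al

open Matrix MonoidAlgebra TensorProduct Monoid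

set_option linter.unusedSectionVars false
set_option linter.unusedVariables false

variable {Γ V A : Type} [Group Γ] [Group V] [Group A] {ε η : ℤˣ}

/-- a free group as an HNN extension of a free group along a free factor -/
def phP (X Y : Type) : PH (FreeGroup (Option (X ⊕ Y))) (FreeGroup (X ⊕ (Y ⊕ Y))) (FreeGroup Y) where
  v := FreeGroup.lift (Sum.elim (fun x => .of (some (.inl x))) (Sum.elim
    (fun y => .of (some (.inr y))) fun y => (.of none)⁻¹ * .of (some (.inr y)) * .of none))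
  i := FreeGroup.map fun y => .inr (.inl y)
  j := FreeGroup.map fun y => .inr (.inr y)
  t := .of none
  rel a := by
    rw [← eq_mul_inv_iff_mul_eq, ← MonoidHom.comp_apply, ← MonoidHom.comp_apply _ _ a,
      ← MulAut.conj_apply, ← MulEquiv.coe_toMonoidHom, ← MonoidHom.comp_apply]
    refine DFunLike.congr_fun ?_ a
    ext y
    simp [mul_assoc]

/-- the presentation of an HNN extension -/
def phQ (D : PH Γ V A) : PHom (phP V A) D where
  f := FreeGroup.lift fun o => o.elim D.t (Sum.elim D.v fun a => D.v (D.i a))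
  fv := FreeGroup.lift (Sum.elim id (Sum.elim D.i D.j))
  fa := can A
  hv h := by
    rw [← MonoidHom.comp_apply, ← MonoidHom.comp_apply]
    refine DFunLike.congr_fun ?_ h
    ext (x | a | a)
    · simp [phP]
    · simp [phP]
    · simpa [phP, mul_assoc, inv_mul_eq_iff_eq_mul] using D.rel a
  hi a := by
    rw [← MonoidHom.comp_apply, ← MonoidHom.comp_apply]
    refine DFunLike.congr_fun ?_ a
    ext y
    simp [phP, can_of]
  hj a := by
    rw [← MonoidHom.comp_apply, ← MonoidHom.comp_apply]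
    refine DFunLike.congr_fun ?_ a
    ext y
    simp [phP, can_of]
  ht := by simp [phP]

theorem phQ_fv (D : PH Γ V A) : Function.Surjective (phQ D).fv := fun x =>
  ⟨.of (.inl x), by simp [phQ]⟩

theorem phQ_f (C : Cut Γ V A) : Function.Surjective (phQ C.toPH).f := by
  refine MonoidHom.range_eq_top.1 (eq_top_iff.2 (C.gen ▸ (Subgroup.closure_le _).2 ?_))
  rintro _ (rfl | ⟨x, rfl⟩)
  · exact ⟨_, (phQ C.toPH).ht⟩
  · exact ⟨.of (some (.inl x)), by simp [phQ]⟩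

theorem phQ_ker {D : PH Γ V A} (u : D.Univ) :
    (phQ D).f.ker ≤ Subgroup.normalClosure ((phP V A).v '' (phQ D).fv.ker) := fun r hr => by
  generalize hN : Subgroup.normalClosure (G := FreeGroup (Option (V ⊕ A))) _ = N
  have : N.Normal := hN ▸ Subgroup.normalClosure_normal
  obtain ⟨c, hc⟩ := desc (phQ_fv D) ((QuotientGroup.mk' N).comp (phP V A).v)
    fun r k => (QuotientGroup.eq_one_iff _).2 (hN ▸ Subgroup.subset_normalClosure ⟨r, k, rfl⟩)
  obtain ⟨Ψ, h1, h2⟩ := u _ c (QuotientGroup.mk' N (phP V A).t) fun a => by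
    rw [← can_of a]
    change c (D.i ((phQ D).fa _)) * _ = _ * c (D.j ((phQ D).fa _))
    rw [← (phQ D).hi, ← (phQ D).hj, hc, hc, MonoidHom.comp_apply, MonoidHom.comp_apply, ← map_mul,
      (phP V A).rel, map_mul]
  have e : Ψ.comp (phQ D).f = QuotientGroup.mk' N := by
    have k : ∀ z, Ψ ((phQ D).f ((phP V A).v z)) = QuotientGroup.mk' N ((phP V A).v z) := fun z => by
      rw [(phQ D).hv, h1, hc, MonoidHom.comp_apply]
    ext (_ | x | a)
    · exact (congrArg Ψ (phQ D).ht).trans h2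
    · simpa [phP] using k (.of (.inl x))
    · simpa [phP] using k (.of (.inr (.inl a)))
  refine (QuotientGroup.eq_one_iff r).1 ((DFunLike.congr_fun e r).symm.trans ?_)
  rw [MonoidHom.comp_apply, show (phQ D).f r = 1 from hr, map_one]

theorem ab_free_ext {X M : Type} [AddCommGroup M] {a b : Ab (FreeGroup X) →ₗ[ℤ] M}
    (h : ∀ x, a (ab (.of x)) = b (ab (.of x))) : a = b := LinearMap.ext fun z => by
  obtain ⟨g, rfl⟩ := ab_surj z
  induction g using FreeGroup.induction_on with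
  | C1 => rw [ab_one, map_zero, map_zero]
  | of x => exact h x
  | inv_of x k => rw [ab_inv, map_neg, map_neg, k]
  | mul x y hx hy => rw [ab_mul, map_add, map_add, hx, hy]

theorem phP_ker {X Y Λ : Type} [AddCommGroup Λ] {ζ : Λ ⊗[ℤ] Ab (FreeGroup (X ⊕ (Y ⊕ Y)))}
    (h : (abm (phP X Y).v).lTensor Λ ζ = 0) :
    ∃ τ, ζ = (abm (phP X Y).i).lTensor Λ τ - (abm (phP X Y).j).lTensor Λ τ := by
  let κ : FreeGroup (Option (X ⊕ Y)) →* FreeGroup (X ⊕ (Y ⊕ Y)) :=
    FreeGroup.lift fun o => o.elim 1 fun s => .of (s.map id Sum.inl)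
  let μ : FreeGroup (X ⊕ (Y ⊕ Y)) →* FreeGroup Y :=
    FreeGroup.lift (Sum.elim (fun _ => 1) (Sum.elim (fun _ => 1) .of))
  have e : LinearMap.id = abm κ ∘ₗ abm (phP X Y).v -
      (abm (phP X Y).i ∘ₗ abm μ - abm (phP X Y).j ∘ₗ abm μ) := ab_free_ext (by
    rintro (x | y | y) <;> simp [abm_ab, phP, κ, μ, ab_one])
  refine ⟨-(abm μ).lTensor Λ ζ, ?_⟩
  have := lt_congr e ζ
  rw [LinearMap.lTensor_id, LinearMap.id_apply, LinearMap.lTensor_sub, LinearMap.lTensor_sub,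
    LinearMap.sub_apply, LinearMap.sub_apply, LinearMap.lTensor_comp_apply, h, map_zero,
    LinearMap.lTensor_comp_apply, LinearMap.lTensor_comp_apply, zero_sub] at this
  rw [map_neg, map_neg, neg_sub_neg, ← neg_sub]
  exact this

section

variable {Γ' V' A' : Type} [Group Γ'] [Group V'] [Group A'] {D : PH Γ' V' A'}

theorem Cut.real (C : Cut Γ V A) (f : PHom D C.toPH) {ξ : Tr (-ε) f.fv}
    {τ : L0 ℤ (-ε) ⊗[ℤ] Ab A'}
    (h : tb f.fv ξ = (ε : ℤ) • ((abm D.i).lTensor _ τ - (abm D.j).lTensor _ τ)) :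
    ∃ x, DD ε f.f x (tr (KM.of_comp C.v f.hv) ξ) ∧
      C.Ed ε x (asz (-ε) A ((abm f.fa).lTensor _ τ)) := by
  obtain ⟨I, _, _, W, a⟩ := exists_bs ξ
  obtain ⟨M, _, _, ψ, k1, -, k3⟩ := C.realise f a.uni a.triv (asz (-ε) A' τ)
    (by rw [a.ucl, h, map_zsmul, map_sub, m1_asz, m1_asz])
  exact ⟨_, ⟨_, inferInstance, inferInstance, _, ψ, (a.pad M).map _, k1, rfl⟩,
    m1_asz f.fa τ ▸ k3⟩

end

theorem abm_lt {F G H Λ : Type} [Group F] [Group G] [Group H] [AddCommGroup Λ] (f : G →* H)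
    (g : F →* G) (ζ : Λ ⊗[ℤ] Ab F) :
    (abm f).lTensor Λ ((abm g).lTensor Λ ζ) = (abm (f.comp g)).lTensor Λ ζ := by
  rw [← LinearMap.lTensor_comp_apply]
  refine lt_congr (a := abm f ∘ₗ abm g) (b := abm (f.comp g)) (LinearMap.ext fun z => ?_) ζ
  obtain ⟨x, rfl⟩ := ab_surj z
  rfl

theorem ev_cut (C : Cut Γ V A) (u : C.toPH.Univ) (hA : LF A) (hV : Base V) (hΓ : NoTwo Γ)
    (h : Ev V) : Ev Γ := by
  let f := phQ C.toPH
  have ei : f.fv.comp (phP V A).i = C.i.comp f.fa := MonoidHom.ext f.hi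
  have ej : f.fv.comp (phP V A).j = C.j.comp f.fa := MonoidHom.ext f.hj
  refine Gd.ev hΓ (phQ_f C) fun ε => ?_
  have g := h.gd hV.two (phQ_fv C.toPH) ε
  refine ⟨fun x => ?_, fun ξ k => ?_⟩
  · obtain ⟨d, hd⟩ := C.exists_ed hA.sfi₀ x
    obtain ⟨ζ, rfl⟩ := hA.asz_surj d
    obtain ⟨τ, rfl⟩ := LinearMap.lTensor_surjective (L0 ℤ (-ε)) (xabm_surj (can_surj (G := A))) ζ
    have e1 := hd.vr
    rw [m1_asz, m1_asz, (hV.bij _).1.eq_iff, abm_lt, abm_lt] at e1
    obtain ⟨ξ, hξ⟩ := (exact_tb (phQ_fv C.toPH) ((ε : ℤ) • ((abm (phP V A).i).lTensor _ τ -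
      (abm (phP V A).j).lTensor _ τ))).1 (by
        rw [map_zsmul, map_sub, abm_lt, abm_lt, ei, ej]
        exact (congrArg _ (sub_eq_zero.2 e1)).trans (smul_zero _))
    obtain ⟨x', a, b⟩ := C.real f hξ
    have q := Cut.Ed.sub (d := asz (-ε) A ((abm f.fa).lTensor _ τ)) hd b
    rw [sub_self] at q
    obtain ⟨y, hy⟩ := q.split' hΓ hA
    obtain ⟨ξ', c⟩ := g.tot y
    have := (c.map C.v f.hv).add a
    rw [hy, sub_add_cancel] at this
    exact ⟨_, this⟩
  obtain ⟨ξ, rfl⟩ := tr_surj (KM.of_comp C.v f.hv) (phQ_ker u) ξ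
  obtain ⟨τ, hτ⟩ := phP_ker (ζ := (ε : ℤ) • tb f.fv ξ) (by
    rw [map_zsmul, ← tb_tr (KM.of_comp C.v f.hv)]
    exact (congrArg _ k.tb_eq).trans (smul_zero _))
  have e1 : tb f.fv ξ = (ε : ℤ) • ((abm (phP V A).i).lTensor _ τ -
    (abm (phP V A).j).lTensor _ τ) := by rw [← hτ, eps_eps]
  obtain ⟨x, a, b⟩ := C.real f e1
  have a1 := a.sub hΓ k
  rw [sub_zero, sub_self] at a1
  obtain ⟨c, rfl⟩ := a1.const hΓ
  have b1 := b.sub (C.ed_v (zi ε V c))
  rw [m0_zi, sub_self, sub_zero] at b1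
  obtain ⟨σ, rfl⟩ := (exact_tb (can_surj (G := A)) τ).1
    ((map_eq_zero_iff _ ((closed_base.lf hA).bij _).1).1 (b1.unique u hA hΓ))
  let ξ' := ξ - (ε : ℤ) • (tr (KM.of_comp C.i f.hi) σ - tr (KM.of_comp C.j f.hj) σ)
  have e2 : tb f.fv ξ' = 0 := by
    rw [map_sub, e1, map_zsmul, map_sub, tb_tr, tb_tr]
    exact sub_self _
  have e3 : tr (KM.of_comp C.v f.hv) ξ' = tr (KM.of_comp C.v f.hv) ξ := by
    rw [map_sub, map_zsmul, map_sub, tr_comp, tr_comp,
      tr_conj ((KM.of_comp C.v f.hv).comp (KM.of_comp C.i f.hi))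
        ((KM.of_comp C.v f.hv).comp (KM.of_comp C.j f.hj)) _ (phP V A).rel, sub_self,
      smul_zero, sub_zero]
  obtain ⟨y, hy⟩ := exists_dd (ε := ε) (ξ := ξ') (by rw [e2, map_zero])
  have a2 := (hy.map C.v f.hv).sub hΓ k
  rw [e3, sub_zero, sub_self] at a2
  obtain ⟨c', hc'⟩ := a2.const hΓ
  obtain ⟨z, hz⟩ := C.ker_v₀ hA hV.sfi (y := y - zi ε V c') (by rw [map_sub, m0_zi, hc', sub_self])
  obtain ⟨z, rfl⟩ := hA.zi_surj z
  rw [m0_zi, m0_zi, sub_self] at hz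
  have a3 := hy.sub hV.two (dd_zi c')
  rw [hz, sub_zero] at a3
  rw [← e3, g.fn _ a3, map_zero]

theorem closedOn_ev : ClosedOn Base Ev where
  triv G _ _ := ev_triv
  ret G H _ _ s r e b b' h := ev_ret s r e b.two b'.two h
  lcl G _ b h := ev_lcl b.two h
  cop G H _ _ b b' _ h h' := ev_cop b.two b'.two h h'
  cut Γ V A _ _ _ C u hA b b' h := ev_cut C u hA b b'.two h

end Pool.Agent.Work.MP_9d1ffa_al
end
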